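import Pool.Agent.R989.ZP.Ms
import Pool.Agent.R989.ZP.C00
import Pool.Agent.R989.ZP.C01
import Pool.Agent.R989.ZP.C02
import Pool.Agent.R989.ZP.C03
import Pool.Agent.R989.ZP.C04
import Pool.Agent.R989.ZP.C05
import Pool.Agent.R989.ZP.C06
import Pool.Agent.R989.ZP.C07
import Pool.Agent.R989.ZP.C08
import Pool.Agent.R989.ZP.C09
import Pool.Agent.R989.ZP.C10
import Pool.Agent.R989.ZP.C11
import Pool.Agent.R989.ZP.C12
import Pool.Agent.R989.ZP.C13
import Pool.Agent.R989.ZP.C14
import Pool.Agent.R989.ZP.C15
import Pool.Agent.R989.ZP.C16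
import Pool.Agent.R989.ZP.C17
import Pool.Agent.R989.ZP.C18
import Pool.Agent.R989.ZP.C19
import Pool.Agent.R989.ZP.C20
import Pool.Agent.R989.ZP.C21
import Pool.Agent.R989.ZP.C22
import Pool.Agent.R989.ZP.C23
import Pool.Agent.R989.ZP.C24
import Pool.Agent.R989.ZP.C25
import Pool.Agent.R989.ZP.C26
import Pool.Agent.R989.ZP.C27
import Pool.Agent.R989.ZP.C28
import Pool.Agent.R989.ZP.C29
import Pool.Agent.R989.ZP.C30
import Pool.Agent.R989.ZP.C31
import Pool.Agent.R989.ZP.C32
import Pool.Agent.R989.ZP.C33
import Pool.Agent.R989.ZP.C34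
import Pool.Agent.R989.ZP.C35
import Pool.Agent.R989.ZP.C36
import Pool.Agent.R989.ZP.C37
import Pool.Agent.R989.ZP.C38
import Pool.Agent.R989.ZP.C39
import Pool.Agent.R989.ZP.C40
import Pool.Agent.R989.ZP.C41
import Pool.Agent.R989.ZP.C42
import Pool.Agent.R989.ZP.C43
import Pool.Agent.R989.ZP.C44
import Pool.Agent.R989.ZP.C45
import Pool.Agent.R989.ZP.C46
import Pool.Agent.R989.ZP.C47

set_option maxRecDepth 100000

namespace Pool.Agent.R989.ZP

theorem R0_0 : Rf E0 xe0 [1217, 1136, 1053] := dead_sound smok0 (by decide +kernel) (by decide +kernel)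
theorem R0_1 : Rf E0 xe1 [1218, 1136, 1053] := dead_sound smok0 (by decide +kernel) (by decide +kernel)
theorem R0_2 : Rf E0 xe2 [1219, 1136, 1053] := dead_sound smok0 (by decide +kernel) (by decide +kernel)
theorem R0_3 : Rf E0 xe3 [1220, 1136, 1053] := dead_sound smok0 (by decide +kernel) (by decide +kernel)
theorem n0 : Rf E0 xe4 [1378, 1322, 1221, 1136, 1053] :=
  node_sound smok0 (q := 18) (ch := [1479, 1475, 1474, 1473, 1472, 1468, 1467, 1466, 1465, 1463]) (by decide +kernel) (by decide +kernel)
    (aC (chk_sound smok0 c0 (by decide +kernel)) (aC (chk_sound smok0 c1 (by decide +kernel)) (aC (chk_sound smok0 c2 (by decide +kernel)) (aC (chk_sound smok0 c3 (by decide +kernel)) (aC (chk_sound smok0 c4 (by decide +kernel)) (aC (chk_sound smok0 c5 (by decide +kernel)) (aC (chk_sound smok0 c6 (by decide +kernel)) (aC (chk_sound smok0 c7 (by decide +kernel)) (aC (chk_sound smok0 c8 (by decide +kernel)) (aC (chk_sound smok0 c9 (by decide +kernel)) aN))))))))))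
theorem n1 : Rf E0 xe4 [1322, 1221, 1136, 1053] :=
  node_sound smok0 (q := 17) (ch := [1398, 1394, 1393, 1392, 1391, 1385, 1384, 1382, 1381, 1380, 1378]) (by decide +kernel) (by decide +kernel)
    (aC (chk_sound smok0 c10 (by decide +kernel)) (aC (chk_sound smok0 c11 (by decide +kernel)) (aC (chk_sound smok0 c12 (by decide +kernel)) (aC (chk_sound smok0 c13 (by decide +kernel)) (aC (chk_sound smok0 c14 (by decide +kernel)) (aC (chk_sound smok0 c15 (by decide +kernel)) (aC (chk_sound smok0 c16 (by decide +kernel)) (aC (chk_sound smok0 c17 (by decide +kernel)) (aC (chk_sound smok0 c18 (by decide +kernel)) (aC (chk_sound smok0 c19 (by decide +kernel)) (aC n0 aN)))))))))))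
theorem n2 : Rf E0 xe4 [1400, 1321, 1221, 1136, 1053] :=
  node_sound smok0 (q := 1) (ch := [105, 103, 102, 91, 90, 89, 88, 86, 82]) (by decide +kernel) (by decide +kernel)
    (aC (chk_sound smok0 c20 (by decide +kernel)) (aC (chk_sound smok0 c21 (by decide +kernel)) (aC (chk_sound smok0 c22 (by decide +kernel)) (aC (chk_sound smok0 c23 (by decide +kernel)) (aC (chk_sound smok0 c24 (by decide +kernel)) (aC (chk_sound smok0 c25 (by decide +kernel)) (aC (chk_sound smok0 c26 (by decide +kernel)) (aC (chk_sound smok0 c27 (by decide +kernel)) (aC (chk_sound smok0 c28 (by decide +kernel)) aN)))))))))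
theorem n3 : Rf E0 xe4 [1321, 1221, 1136, 1053] :=
  node_sound smok0 (q := 17) (ch := [1400, 1396, 1392, 1391, 1385, 1384, 1382, 1381, 1380, 1378]) (by decide +kernel) (by decide +kernel)
    (aC n2 (aC (chk_sound smok0 c29 (by decide +kernel)) (aC (chk_sound smok0 c30 (by decide +kernel)) (aC (chk_sound smok0 c31 (by decide +kernel)) (aC (chk_sound smok0 c32 (by decide +kernel)) (aC (chk_sound smok0 c33 (by decide +kernel)) (aC (chk_sound smok0 c34 (by decide +kernel)) (aC (chk_sound smok0 c35 (by decide +kernel)) (aC (chk_sound smok0 c36 (by decide +kernel)) (aC (chk_sound smok0 c37 (by decide +kernel)) aN))))))))))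
theorem n4 : Rf E0 xe4 [1403, 1320, 1221, 1136, 1053] :=
  node_sound smok0 (q := 18) (ch := [1481, 1475, 1468, 1467, 1466, 1465, 1463, 1462, 1461]) (by decide +kernel) (by decide +kernel)
    (aC (chk_sound smok0 c38 (by decide +kernel)) (aC (chk_sound smok0 c39 (by decide +kernel)) (aC (chk_sound smok0 c40 (by decide +kernel)) (aC (chk_sound smok0 c41 (by decide +kernel)) (aC (chk_sound smok0 c42 (by decide +kernel)) (aC (chk_sound smok0 c43 (by decide +kernel)) (aC (chk_sound smok0 c44 (by decide +kernel)) (aC (chk_sound smok0 c45 (by decide +kernel)) (aC (chk_sound smok0 c46 (by decide +kernel)) aN)))))))))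
theorem n5 : Rf E0 xe4 [1399, 1320, 1221, 1136, 1053] :=
  node_sound smok0 (q := 1) (ch := [104, 102, 95, 91, 90, 89, 88, 86, 82]) (by decide +kernel) (by decide +kernel)
    (aC (chk_sound smok0 c47 (by decide +kernel)) (aC (chk_sound smok0 c48 (by decide +kernel)) (aC (chk_sound smok0 c49 (by decide +kernel)) (aC (chk_sound smok0 c50 (by decide +kernel)) (aC (chk_sound smok0 c51 (by decide +kernel)) (aC (chk_sound smok0 c52 (by decide +kernel)) (aC (chk_sound smok0 c53 (by decide +kernel)) (aC (chk_sound smok0 c54 (by decide +kernel)) (aC (chk_sound smok0 c55 (by decide +kernel)) aN)))))))))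
theorem n6 : Rf E0 xe4 [1320, 1221, 1136, 1053] :=
  node_sound smok0 (q := 17) (ch := [1403, 1399, 1398, 1394, 1385, 1384, 1382, 1381, 1380, 1378]) (by decide +kernel) (by decide +kernel)
    (aC n4 (aC n5 (aC (chk_sound smok0 c56 (by decide +kernel)) (aC (chk_sound smok0 c57 (by decide +kernel)) (aC (chk_sound smok0 c58 (by decide +kernel)) (aC (chk_sound smok0 c59 (by decide +kernel)) (aC (chk_sound smok0 c60 (by decide +kernel)) (aC (chk_sound smok0 c61 (by decide +kernel)) (aC (chk_sound smok0 c62 (by decide +kernel)) (aC (chk_sound smok0 c63 (by decide +kernel)) aN))))))))))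
theorem n7 : Rf E0 xe4 [105, 1319, 1221, 1136, 1053] :=
  node_sound smok0 (q := 2) (ch := [184, 183, 180, 179, 173, 170, 169, 167, 166, 165]) (by decide +kernel) (by decide +kernel)
    (aC (chk_sound smok0 c64 (by decide +kernel)) (aC (chk_sound smok0 c65 (by decide +kernel)) (aC (chk_sound smok0 c66 (by decide +kernel)) (aC (chk_sound smok0 c67 (by decide +kernel)) (aC (chk_sound smok0 c68 (by decide +kernel)) (aC (chk_sound smok0 c69 (by decide +kernel)) (aC (chk_sound smok0 c70 (by decide +kernel)) (aC (chk_sound smok0 c71 (by decide +kernel)) (aC (chk_sound smok0 c72 (by decide +kernel)) (aC (chk_sound smok0 c73 (by decide +kernel)) aN))))))))))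
theorem n8 : Rf E0 xe4 [95, 1319, 1221, 1136, 1053] :=
  node_sound smok0 (q := 11) (ch := [910, 909, 908, 907, 906, 904, 903, 902, 901, 892]) (by decide +kernel) (by decide +kernel)
    (aC (chk_sound smok0 c74 (by decide +kernel)) (aC (chk_sound smok0 c75 (by decide +kernel)) (aC (chk_sound smok0 c76 (by decide +kernel)) (aC (chk_sound smok0 c77 (by decide +kernel)) (aC (chk_sound smok0 c78 (by decide +kernel)) (aC (chk_sound smok0 c79 (by decide +kernel)) (aC (chk_sound smok0 c80 (by decide +kernel)) (aC (chk_sound smok0 c81 (by decide +kernel)) (aC (chk_sound smok0 c82 (by decide +kernel)) (aC (chk_sound smok0 c83 (by decide +kernel)) aN))))))))))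
theorem n9 : Rf E0 xe4 [90, 1319, 1221, 1136, 1053] :=
  node_sound smok0 (q := 2) (ch := [187, 186, 184, 183, 180, 179, 178, 173, 169, 167]) (by decide +kernel) (by decide +kernel)
    (aC (chk_sound smok0 c84 (by decide +kernel)) (aC (chk_sound smok0 c85 (by decide +kernel)) (aC (chk_sound smok0 c86 (by decide +kernel)) (aC (chk_sound smok0 c87 (by decide +kernel)) (aC (chk_sound smok0 c88 (by decide +kernel)) (aC (chk_sound smok0 c89 (by decide +kernel)) (aC (chk_sound smok0 c90 (by decide +kernel)) (aC (chk_sound smok0 c91 (by decide +kernel)) (aC (chk_sound smok0 c92 (by decide +kernel)) (aC (chk_sound smok0 c93 (by decide +kernel)) aN))))))))))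
theorem n10 : Rf E0 xe4 [82, 1319, 1221, 1136, 1053] :=
  node_sound smok0 (q := 11) (ch := [910, 909, 908, 907, 906, 905, 904, 903, 902, 901]) (by decide +kernel) (by decide +kernel)
    (aC (chk_sound smok0 c94 (by decide +kernel)) (aC (chk_sound smok0 c95 (by decide +kernel)) (aC (chk_sound smok0 c96 (by decide +kernel)) (aC (chk_sound smok0 c97 (by decide +kernel)) (aC (chk_sound smok0 c98 (by decide +kernel)) (aC (chk_sound smok0 c99 (by decide +kernel)) (aC (chk_sound smok0 c100 (by decide +kernel)) (aC (chk_sound smok0 c101 (by decide +kernel)) (aC (chk_sound smok0 c102 (by decide +kernel)) (aC (chk_sound smok0 c103 (by decide +kernel)) aN))))))))))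
theorem n11 : Rf E0 xe4 [1319, 1221, 1136, 1053] :=
  node_sound smok0 (q := 1) (ch := [105, 103, 102, 95, 91, 90, 89, 88, 86, 82]) (by decide +kernel) (by decide +kernel)
    (aC n7 (aC (chk_sound smok0 c104 (by decide +kernel)) (aC (chk_sound smok0 c105 (by decide +kernel)) (aC n8 (aC (chk_sound smok0 c106 (by decide +kernel)) (aC n9 (aC (chk_sound smok0 c107 (by decide +kernel)) (aC (chk_sound smok0 c108 (by decide +kernel)) (aC (chk_sound smok0 c109 (by decide +kernel)) (aC n10 aN))))))))))
theorem n12 : Rf E0 xe4 [102, 1318, 1221, 1136, 1053] :=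
  node_sound smok0 (q := 0) (ch := [26, 25, 24, 23, 19, 18, 12, 8, 7, 5, 4]) (by decide +kernel) (by decide +kernel)
    (aC (chk_sound smok0 c110 (by decide +kernel)) (aC (chk_sound smok0 c111 (by decide +kernel)) (aC (chk_sound smok0 c112 (by decide +kernel)) (aC (chk_sound smok0 c113 (by decide +kernel)) (aC (chk_sound smok0 c114 (by decide +kernel)) (aC (chk_sound smok0 c115 (by decide +kernel)) (aC (chk_sound smok0 c116 (by decide +kernel)) (aC (chk_sound smok0 c117 (by decide +kernel)) (aC (chk_sound smok0 c118 (by decide +kernel)) (aC (chk_sound smok0 c119 (by decide +kernel)) (aC (chk_sound smok0 c120 (by decide +kernel)) aN)))))))))))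
theorem n13 : Rf E0 xe4 [95, 1318, 1221, 1136, 1053] :=
  node_sound smok0 (q := 2) (ch := [185, 183, 180, 179, 178, 173, 172, 169, 167, 166, 165]) (by decide +kernel) (by decide +kernel)
    (aC (chk_sound smok0 c121 (by decide +kernel)) (aC (chk_sound smok0 c122 (by decide +kernel)) (aC (chk_sound smok0 c123 (by decide +kernel)) (aC (chk_sound smok0 c124 (by decide +kernel)) (aC (chk_sound smok0 c125 (by decide +kernel)) (aC (chk_sound smok0 c126 (by decide +kernel)) (aC (chk_sound smok0 c127 (by decide +kernel)) (aC (chk_sound smok0 c128 (by decide +kernel)) (aC (chk_sound smok0 c129 (by decide +kernel)) (aC (chk_sound smok0 c130 (by decide +kernel)) (aC (chk_sound smok0 c131 (by decide +kernel)) aN)))))))))))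
theorem n14 : Rf E0 xe4 [94, 1318, 1221, 1136, 1053] :=
  node_sound smok0 (q := 12) (ch := [995, 991, 990, 989, 988, 987, 986, 984, 983, 979]) (by decide +kernel) (by decide +kernel)
    (aC (chk_sound smok0 c132 (by decide +kernel)) (aC (chk_sound smok0 c133 (by decide +kernel)) (aC (chk_sound smok0 c134 (by decide +kernel)) (aC (chk_sound smok0 c135 (by decide +kernel)) (aC (chk_sound smok0 c136 (by decide +kernel)) (aC (chk_sound smok0 c137 (by decide +kernel)) (aC (chk_sound smok0 c138 (by decide +kernel)) (aC (chk_sound smok0 c139 (by decide +kernel)) (aC (chk_sound smok0 c140 (by decide +kernel)) (aC (chk_sound smok0 c141 (by decide +kernel)) aN))))))))))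
theorem n15 : Rf E0 xe4 [91, 1318, 1221, 1136, 1053] :=
  node_sound smok0 (q := 0) (ch := [26, 25, 24, 23, 19, 18, 12, 8, 7, 5, 4]) (by decide +kernel) (by decide +kernel)
    (aC (chk_sound smok0 c142 (by decide +kernel)) (aC (chk_sound smok0 c143 (by decide +kernel)) (aC (chk_sound smok0 c144 (by decide +kernel)) (aC (chk_sound smok0 c145 (by decide +kernel)) (aC (chk_sound smok0 c146 (by decide +kernel)) (aC (chk_sound smok0 c147 (by decide +kernel)) (aC (chk_sound smok0 c148 (by decide +kernel)) (aC (chk_sound smok0 c149 (by decide +kernel)) (aC (chk_sound smok0 c150 (by decide +kernel)) (aC (chk_sound smok0 c151 (by decide +kernel)) (aC (chk_sound smok0 c152 (by decide +kernel)) aN)))))))))))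
theorem n16 : Rf E0 xe4 [90, 1318, 1221, 1136, 1053] :=
  node_sound smok0 (q := 17) (ch := [1403, 1402, 1401, 1397, 1385, 1384, 1382, 1381, 1380, 1378]) (by decide +kernel) (by decide +kernel)
    (aC (chk_sound smok0 c153 (by decide +kernel)) (aC (chk_sound smok0 c154 (by decide +kernel)) (aC (chk_sound smok0 c155 (by decide +kernel)) (aC (chk_sound smok0 c156 (by decide +kernel)) (aC (chk_sound smok0 c157 (by decide +kernel)) (aC (chk_sound smok0 c158 (by decide +kernel)) (aC (chk_sound smok0 c159 (by decide +kernel)) (aC (chk_sound smok0 c160 (by decide +kernel)) (aC (chk_sound smok0 c161 (by decide +kernel)) (aC (chk_sound smok0 c162 (by decide +kernel)) aN))))))))))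
theorem n17 : Rf E0 xe4 [88, 1318, 1221, 1136, 1053] :=
  node_sound smok0 (q := 0) (ch := [26, 21, 20, 19, 18, 12, 11, 10, 9, 5, 4]) (by decide +kernel) (by decide +kernel)
    (aC (chk_sound smok0 c163 (by decide +kernel)) (aC (chk_sound smok0 c164 (by decide +kernel)) (aC (chk_sound smok0 c165 (by decide +kernel)) (aC (chk_sound smok0 c166 (by decide +kernel)) (aC (chk_sound smok0 c167 (by decide +kernel)) (aC (chk_sound smok0 c168 (by decide +kernel)) (aC (chk_sound smok0 c169 (by decide +kernel)) (aC (chk_sound smok0 c170 (by decide +kernel)) (aC (chk_sound smok0 c171 (by decide +kernel)) (aC (chk_sound smok0 c172 (by decide +kernel)) (aC (chk_sound smok0 c173 (by decide +kernel)) aN)))))))))))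
theorem n18 : Rf E0 xe4 [86, 1318, 1221, 1136, 1053] :=
  node_sound smok0 (q := 12) (ch := [995, 991, 990, 989, 985, 984, 983, 979, 976, 975]) (by decide +kernel) (by decide +kernel)
    (aC (chk_sound smok0 c174 (by decide +kernel)) (aC (chk_sound smok0 c175 (by decide +kernel)) (aC (chk_sound smok0 c176 (by decide +kernel)) (aC (chk_sound smok0 c177 (by decide +kernel)) (aC (chk_sound smok0 c178 (by decide +kernel)) (aC (chk_sound smok0 c179 (by decide +kernel)) (aC (chk_sound smok0 c180 (by decide +kernel)) (aC (chk_sound smok0 c181 (by decide +kernel)) (aC (chk_sound smok0 c182 (by decide +kernel)) (aC (chk_sound smok0 c183 (by decide +kernel)) aN))))))))))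
theorem n19 : Rf E0 xe4 [82, 1318, 1221, 1136, 1053] :=
  node_sound smok0 (q := 17) (ch := [1403, 1402, 1401, 1397, 1396, 1395, 1394, 1385, 1384, 1382, 1381]) (by decide +kernel) (by decide +kernel)
    (aC (chk_sound smok0 c184 (by decide +kernel)) (aC (chk_sound smok0 c185 (by decide +kernel)) (aC (chk_sound smok0 c186 (by decide +kernel)) (aC (chk_sound smok0 c187 (by decide +kernel)) (aC (chk_sound smok0 c188 (by decide +kernel)) (aC (chk_sound smok0 c189 (by decide +kernel)) (aC (chk_sound smok0 c190 (by decide +kernel)) (aC (chk_sound smok0 c191 (by decide +kernel)) (aC (chk_sound smok0 c192 (by decide +kernel)) (aC (chk_sound smok0 c193 (by decide +kernel)) (aC (chk_sound smok0 c194 (by decide +kernel)) aN)))))))))))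
theorem n20 : Rf E0 xe4 [1318, 1221, 1136, 1053] :=
  node_sound smok0 (q := 1) (ch := [104, 102, 95, 94, 91, 90, 89, 88, 86, 82]) (by decide +kernel) (by decide +kernel)
    (aC (chk_sound smok0 c195 (by decide +kernel)) (aC n12 (aC n13 (aC n14 (aC n15 (aC n16 (aC (chk_sound smok0 c196 (by decide +kernel)) (aC n17 (aC n18 (aC n19 aN))))))))))
theorem n21 : Rf E0 xe4 [95, 1317, 1221, 1136, 1053] :=
  node_sound smok0 (q := 2) (ch := [185, 184, 180, 179, 178, 172, 171, 167, 166, 165, 163]) (by decide +kernel) (by decide +kernel)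
    (aC (chk_sound smok0 c197 (by decide +kernel)) (aC (chk_sound smok0 c198 (by decide +kernel)) (aC (chk_sound smok0 c199 (by decide +kernel)) (aC (chk_sound smok0 c200 (by decide +kernel)) (aC (chk_sound smok0 c201 (by decide +kernel)) (aC (chk_sound smok0 c202 (by decide +kernel)) (aC (chk_sound smok0 c203 (by decide +kernel)) (aC (chk_sound smok0 c204 (by decide +kernel)) (aC (chk_sound smok0 c205 (by decide +kernel)) (aC (chk_sound smok0 c206 (by decide +kernel)) (aC (chk_sound smok0 c207 (by decide +kernel)) aN)))))))))))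
theorem n22 : Rf E0 xe4 [94, 1317, 1221, 1136, 1053] :=
  node_sound smok0 (q := 12) (ch := [995, 991, 990, 989, 988, 987, 986, 984, 980, 979, 975]) (by decide +kernel) (by decide +kernel)
    (aC (chk_sound smok0 c208 (by decide +kernel)) (aC (chk_sound smok0 c209 (by decide +kernel)) (aC (chk_sound smok0 c210 (by decide +kernel)) (aC (chk_sound smok0 c211 (by decide +kernel)) (aC (chk_sound smok0 c212 (by decide +kernel)) (aC (chk_sound smok0 c213 (by decide +kernel)) (aC (chk_sound smok0 c214 (by decide +kernel)) (aC (chk_sound smok0 c215 (by decide +kernel)) (aC (chk_sound smok0 c216 (by decide +kernel)) (aC (chk_sound smok0 c217 (by decide +kernel)) (aC (chk_sound smok0 c218 (by decide +kernel)) aN)))))))))))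
theorem n23 : Rf E0 xe4 [90, 1317, 1221, 1136, 1053] :=
  node_sound smok0 (q := 2) (ch := [188, 186, 185, 184, 180, 179, 178, 177, 167, 163]) (by decide +kernel) (by decide +kernel)
    (aC (chk_sound smok0 c219 (by decide +kernel)) (aC (chk_sound smok0 c220 (by decide +kernel)) (aC (chk_sound smok0 c221 (by decide +kernel)) (aC (chk_sound smok0 c222 (by decide +kernel)) (aC (chk_sound smok0 c223 (by decide +kernel)) (aC (chk_sound smok0 c224 (by decide +kernel)) (aC (chk_sound smok0 c225 (by decide +kernel)) (aC (chk_sound smok0 c226 (by decide +kernel)) (aC (chk_sound smok0 c227 (by decide +kernel)) (aC (chk_sound smok0 c228 (by decide +kernel)) aN))))))))))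
theorem n24 : Rf E0 xe4 [88, 1317, 1221, 1136, 1053] :=
  node_sound smok0 (q := 0) (ch := [26, 22, 20, 19, 18, 12, 11, 10, 9, 5, 4]) (by decide +kernel) (by decide +kernel)
    (aC (chk_sound smok0 c229 (by decide +kernel)) (aC (chk_sound smok0 c230 (by decide +kernel)) (aC (chk_sound smok0 c231 (by decide +kernel)) (aC (chk_sound smok0 c232 (by decide +kernel)) (aC (chk_sound smok0 c233 (by decide +kernel)) (aC (chk_sound smok0 c234 (by decide +kernel)) (aC (chk_sound smok0 c235 (by decide +kernel)) (aC (chk_sound smok0 c236 (by decide +kernel)) (aC (chk_sound smok0 c237 (by decide +kernel)) (aC (chk_sound smok0 c238 (by decide +kernel)) (aC (chk_sound smok0 c239 (by decide +kernel)) aN)))))))))))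
theorem n25 : Rf E0 xe4 [86, 1317, 1221, 1136, 1053] :=
  node_sound smok0 (q := 12) (ch := [995, 991, 990, 986, 985, 984, 980, 979, 976, 975]) (by decide +kernel) (by decide +kernel)
    (aC (chk_sound smok0 c240 (by decide +kernel)) (aC (chk_sound smok0 c241 (by decide +kernel)) (aC (chk_sound smok0 c242 (by decide +kernel)) (aC (chk_sound smok0 c243 (by decide +kernel)) (aC (chk_sound smok0 c244 (by decide +kernel)) (aC (chk_sound smok0 c245 (by decide +kernel)) (aC (chk_sound smok0 c246 (by decide +kernel)) (aC (chk_sound smok0 c247 (by decide +kernel)) (aC (chk_sound smok0 c248 (by decide +kernel)) (aC (chk_sound smok0 c249 (by decide +kernel)) aN))))))))))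
theorem n26 : Rf E0 xe4 [82, 1317, 1221, 1136, 1053] :=
  node_sound smok0 (q := 41) (ch := [2039, 1958, 1877, 1796, 986, 905, 824, 743, 662, 500]) (by decide +kernel) (by decide +kernel)
    (aC (chk_sound smok0 c250 (by decide +kernel)) (aC (chk_sound smok0 c251 (by decide +kernel)) (aC (chk_sound smok0 c252 (by decide +kernel)) (aC (chk_sound smok0 c253 (by decide +kernel)) (aC (chk_sound smok0 c254 (by decide +kernel)) (aC (chk_sound smok0 c255 (by decide +kernel)) (aC (chk_sound smok0 c256 (by decide +kernel)) (aC (chk_sound smok0 c257 (by decide +kernel)) (aC (chk_sound smok0 c258 (by decide +kernel)) (aC (chk_sound smok0 c259 (by decide +kernel)) aN))))))))))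
theorem n27 : Rf E0 xe4 [1317, 1221, 1136, 1053] :=
  node_sound smok0 (q := 1) (ch := [107, 104, 103, 95, 94, 90, 89, 88, 86, 82]) (by decide +kernel) (by decide +kernel)
    (aC (chk_sound smok0 c260 (by decide +kernel)) (aC (chk_sound smok0 c261 (by decide +kernel)) (aC (chk_sound smok0 c262 (by decide +kernel)) (aC n21 (aC n22 (aC n23 (aC (chk_sound smok0 c263 (by decide +kernel)) (aC n24 (aC n25 (aC n26 aN))))))))))
theorem n28 : Rf E0 xe4 [95, 1316, 1221, 1136, 1053] :=
  node_sound smok0 (q := 12) (ch := [995, 991, 990, 989, 988, 987, 985, 977, 976, 975]) (by decide +kernel) (by decide +kernel)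
    (aC (chk_sound smok0 c264 (by decide +kernel)) (aC (chk_sound smok0 c265 (by decide +kernel)) (aC (chk_sound smok0 c266 (by decide +kernel)) (aC (chk_sound smok0 c267 (by decide +kernel)) (aC (chk_sound smok0 c268 (by decide +kernel)) (aC (chk_sound smok0 c269 (by decide +kernel)) (aC (chk_sound smok0 c270 (by decide +kernel)) (aC (chk_sound smok0 c271 (by decide +kernel)) (aC (chk_sound smok0 c272 (by decide +kernel)) (aC (chk_sound smok0 c273 (by decide +kernel)) aN))))))))))
theorem n29 : Rf E0 xe4 [94, 1316, 1221, 1136, 1053] :=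
  node_sound smok0 (q := 34) (ch := [2113, 2032, 1951, 1870, 1789, 1546, 493, 412, 331, 7]) (by decide +kernel) (by decide +kernel)
    (aC (chk_sound smok0 c274 (by decide +kernel)) (aC (chk_sound smok0 c275 (by decide +kernel)) (aC (chk_sound smok0 c276 (by decide +kernel)) (aC (chk_sound smok0 c277 (by decide +kernel)) (aC (chk_sound smok0 c278 (by decide +kernel)) (aC (chk_sound smok0 c279 (by decide +kernel)) (aC (chk_sound smok0 c280 (by decide +kernel)) (aC (chk_sound smok0 c281 (by decide +kernel)) (aC (chk_sound smok0 c282 (by decide +kernel)) (aC (chk_sound smok0 c283 (by decide +kernel)) aN))))))))))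
theorem n30 : Rf E0 xe4 [93, 1316, 1221, 1136, 1053] :=
  node_sound smok0 (q := 12) (ch := [995, 991, 990, 989, 988, 987, 986, 985, 981, 980, 979]) (by decide +kernel) (by decide +kernel)
    (aC (chk_sound smok0 c284 (by decide +kernel)) (aC (chk_sound smok0 c285 (by decide +kernel)) (aC (chk_sound smok0 c286 (by decide +kernel)) (aC (chk_sound smok0 c287 (by decide +kernel)) (aC (chk_sound smok0 c288 (by decide +kernel)) (aC (chk_sound smok0 c289 (by decide +kernel)) (aC (chk_sound smok0 c290 (by decide +kernel)) (aC (chk_sound smok0 c291 (by decide +kernel)) (aC (chk_sound smok0 c292 (by decide +kernel)) (aC (chk_sound smok0 c293 (by decide +kernel)) (aC (chk_sound smok0 c294 (by decide +kernel)) aN)))))))))))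
theorem n31 : Rf E0 xe4 [88, 1316, 1221, 1136, 1053] :=
  node_sound smok0 (q := 0) (ch := [26, 22, 21, 19, 18, 12, 11, 10, 9, 5, 4]) (by decide +kernel) (by decide +kernel)
    (aC (chk_sound smok0 c295 (by decide +kernel)) (aC (chk_sound smok0 c296 (by decide +kernel)) (aC (chk_sound smok0 c297 (by decide +kernel)) (aC (chk_sound smok0 c298 (by decide +kernel)) (aC (chk_sound smok0 c299 (by decide +kernel)) (aC (chk_sound smok0 c300 (by decide +kernel)) (aC (chk_sound smok0 c301 (by decide +kernel)) (aC (chk_sound smok0 c302 (by decide +kernel)) (aC (chk_sound smok0 c303 (by decide +kernel)) (aC (chk_sound smok0 c304 (by decide +kernel)) (aC (chk_sound smok0 c305 (by decide +kernel)) aN)))))))))))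
theorem n32 : Rf E0 xe4 [86, 1316, 1221, 1136, 1053] :=
  node_sound smok0 (q := 12) (ch := [995, 991, 987, 986, 985, 981, 980, 979, 976, 975]) (by decide +kernel) (by decide +kernel)
    (aC (chk_sound smok0 c306 (by decide +kernel)) (aC (chk_sound smok0 c307 (by decide +kernel)) (aC (chk_sound smok0 c308 (by decide +kernel)) (aC (chk_sound smok0 c309 (by decide +kernel)) (aC (chk_sound smok0 c310 (by decide +kernel)) (aC (chk_sound smok0 c311 (by decide +kernel)) (aC (chk_sound smok0 c312 (by decide +kernel)) (aC (chk_sound smok0 c313 (by decide +kernel)) (aC (chk_sound smok0 c314 (by decide +kernel)) (aC (chk_sound smok0 c315 (by decide +kernel)) aN))))))))))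
theorem n33 : Rf E0 xe4 [82, 1316, 1221, 1136, 1053] :=
  node_sound smok0 (q := 38) (ch := [2117, 2036, 1955, 1874, 1712, 1631, 821, 578, 497, 11]) (by decide +kernel) (by decide +kernel)
    (aC (chk_sound smok0 c316 (by decide +kernel)) (aC (chk_sound smok0 c317 (by decide +kernel)) (aC (chk_sound smok0 c318 (by decide +kernel)) (aC (chk_sound smok0 c319 (by decide +kernel)) (aC (chk_sound smok0 c320 (by decide +kernel)) (aC (chk_sound smok0 c321 (by decide +kernel)) (aC (chk_sound smok0 c322 (by decide +kernel)) (aC (chk_sound smok0 c323 (by decide +kernel)) (aC (chk_sound smok0 c324 (by decide +kernel)) (aC (chk_sound smok0 c325 (by decide +kernel)) aN))))))))))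
theorem n34 : Rf E0 xe4 [1316, 1221, 1136, 1053] :=
  node_sound smok0 (q := 1) (ch := [107, 103, 102, 95, 94, 93, 90, 89, 88, 86, 82]) (by decide +kernel) (by decide +kernel)
    (aC (chk_sound smok0 c326 (by decide +kernel)) (aC (chk_sound smok0 c327 (by decide +kernel)) (aC (chk_sound smok0 c328 (by decide +kernel)) (aC n28 (aC n29 (aC n30 (aC (chk_sound smok0 c329 (by decide +kernel)) (aC (chk_sound smok0 c330 (by decide +kernel)) (aC n31 (aC n32 (aC n33 aN)))))))))))
theorem n35 : Rf E0 xe4 [1315, 1221, 1136, 1053] :=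
  node_sound smok0 (q := 1) (ch := [107, 106, 103, 102, 95, 94, 93, 89, 88, 86, 82]) (by decide +kernel) (by decide +kernel)
    (aC (chk_sound smok0 c331 (by decide +kernel)) (aC (chk_sound smok0 c332 (by decide +kernel)) (aC (chk_sound smok0 c333 (by decide +kernel)) (aC (chk_sound smok0 c334 (by decide +kernel)) (aC (chk_sound smok0 c335 (by decide +kernel)) (aC (chk_sound smok0 c336 (by decide +kernel)) (aC (chk_sound smok0 c337 (by decide +kernel)) (aC (chk_sound smok0 c338 (by decide +kernel)) (aC (chk_sound smok0 c339 (by decide +kernel)) (aC (chk_sound smok0 c340 (by decide +kernel)) (aC (chk_sound smok0 c341 (by decide +kernel)) aN)))))))))))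
theorem n36 : Rf E0 xe4 [1314, 1221, 1136, 1053] :=
  node_sound smok0 (q := 1) (ch := [107, 106, 102, 95, 94, 93, 92, 89, 88, 86, 82]) (by decide +kernel) (by decide +kernel)
    (aC (chk_sound smok0 c342 (by decide +kernel)) (aC (chk_sound smok0 c343 (by decide +kernel)) (aC (chk_sound smok0 c344 (by decide +kernel)) (aC (chk_sound smok0 c345 (by decide +kernel)) (aC (chk_sound smok0 c346 (by decide +kernel)) (aC (chk_sound smok0 c347 (by decide +kernel)) (aC (chk_sound smok0 c348 (by decide +kernel)) (aC (chk_sound smok0 c349 (by decide +kernel)) (aC (chk_sound smok0 c350 (by decide +kernel)) (aC (chk_sound smok0 c351 (by decide +kernel)) (aC (chk_sound smok0 c352 (by decide +kernel)) aN)))))))))))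
theorem n37 : Rf E0 xe4 [86, 1313, 1221, 1136, 1053] :=
  node_sound smok0 (q := 2) (ch := [188, 186, 184, 183, 180, 178, 177, 176, 175, 163]) (by decide +kernel) (by decide +kernel)
    (aC (chk_sound smok0 c353 (by decide +kernel)) (aC (chk_sound smok0 c354 (by decide +kernel)) (aC (chk_sound smok0 c355 (by decide +kernel)) (aC (chk_sound smok0 c356 (by decide +kernel)) (aC (chk_sound smok0 c357 (by decide +kernel)) (aC (chk_sound smok0 c358 (by decide +kernel)) (aC (chk_sound smok0 c359 (by decide +kernel)) (aC (chk_sound smok0 c360 (by decide +kernel)) (aC (chk_sound smok0 c361 (by decide +kernel)) (aC (chk_sound smok0 c362 (by decide +kernel)) aN))))))))))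
theorem n38 : Rf E0 xe4 [1313, 1221, 1136, 1053] :=
  node_sound smok0 (q := 1) (ch := [107, 106, 105, 102, 95, 94, 93, 92, 88, 86, 82]) (by decide +kernel) (by decide +kernel)
    (aC (chk_sound smok0 c363 (by decide +kernel)) (aC (chk_sound smok0 c364 (by decide +kernel)) (aC (chk_sound smok0 c365 (by decide +kernel)) (aC (chk_sound smok0 c366 (by decide +kernel)) (aC (chk_sound smok0 c367 (by decide +kernel)) (aC (chk_sound smok0 c368 (by decide +kernel)) (aC (chk_sound smok0 c369 (by decide +kernel)) (aC (chk_sound smok0 c370 (by decide +kernel)) (aC (chk_sound smok0 c371 (by decide +kernel)) (aC n37 (aC (chk_sound smok0 c372 (by decide +kernel)) aN)))))))))))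
theorem n39 : Rf E0 xe4 [107, 1312, 1221, 1136, 1053] :=
  node_sound smok0 (q := 2) (ch := [183, 180, 179, 177, 172, 170, 169, 167, 166, 163]) (by decide +kernel) (by decide +kernel)
    (aC (chk_sound smok0 c373 (by decide +kernel)) (aC (chk_sound smok0 c374 (by decide +kernel)) (aC (chk_sound smok0 c375 (by decide +kernel)) (aC (chk_sound smok0 c376 (by decide +kernel)) (aC (chk_sound smok0 c377 (by decide +kernel)) (aC (chk_sound smok0 c378 (by decide +kernel)) (aC (chk_sound smok0 c379 (by decide +kernel)) (aC (chk_sound smok0 c380 (by decide +kernel)) (aC (chk_sound smok0 c381 (by decide +kernel)) (aC (chk_sound smok0 c382 (by decide +kernel)) aN))))))))))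
theorem n40 : Rf E0 xe4 [88, 1312, 1221, 1136, 1053] :=
  node_sound smok0 (q := 52) (ch := [2050, 1969, 1888, 1726, 1645, 1564, 835, 592, 511]) (by decide +kernel) (by decide +kernel)
    (aC (chk_sound smok0 c383 (by decide +kernel)) (aC (chk_sound smok0 c384 (by decide +kernel)) (aC (chk_sound smok0 c385 (by decide +kernel)) (aC (chk_sound smok0 c386 (by decide +kernel)) (aC (chk_sound smok0 c387 (by decide +kernel)) (aC (chk_sound smok0 c388 (by decide +kernel)) (aC (chk_sound smok0 c389 (by decide +kernel)) (aC (chk_sound smok0 c390 (by decide +kernel)) (aC (chk_sound smok0 c391 (by decide +kernel)) aN)))))))))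
theorem n41 : Rf E0 xe4 [86, 1312, 1221, 1136, 1053] :=
  node_sound smok0 (q := 2) (ch := [188, 183, 180, 179, 177, 176, 175, 174, 172, 163]) (by decide +kernel) (by decide +kernel)
    (aC (chk_sound smok0 c392 (by decide +kernel)) (aC (chk_sound smok0 c393 (by decide +kernel)) (aC (chk_sound smok0 c394 (by decide +kernel)) (aC (chk_sound smok0 c395 (by decide +kernel)) (aC (chk_sound smok0 c396 (by decide +kernel)) (aC (chk_sound smok0 c397 (by decide +kernel)) (aC (chk_sound smok0 c398 (by decide +kernel)) (aC (chk_sound smok0 c399 (by decide +kernel)) (aC (chk_sound smok0 c400 (by decide +kernel)) (aC (chk_sound smok0 c401 (by decide +kernel)) aN))))))))))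
theorem n42 : Rf E0 xe4 [1312, 1221, 1136, 1053] :=
  node_sound smok0 (q := 1) (ch := [107, 106, 105, 95, 94, 93, 92, 91, 88, 86, 82]) (by decide +kernel) (by decide +kernel)
    (aC n39 (aC (chk_sound smok0 c402 (by decide +kernel)) (aC (chk_sound smok0 c403 (by decide +kernel)) (aC (chk_sound smok0 c404 (by decide +kernel)) (aC (chk_sound smok0 c405 (by decide +kernel)) (aC (chk_sound smok0 c406 (by decide +kernel)) (aC (chk_sound smok0 c407 (by decide +kernel)) (aC (chk_sound smok0 c408 (by decide +kernel)) (aC n40 (aC n41 (aC (chk_sound smok0 c409 (by decide +kernel)) aN)))))))))))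
theorem n43 : Rf E0 xe4 [93, 1311, 1221, 1136, 1053] :=
  node_sound smok0 (q := 12) (ch := [995, 991, 990, 986, 985, 983, 979, 977, 976, 975]) (by decide +kernel) (by decide +kernel)
    (aC (chk_sound smok0 c410 (by decide +kernel)) (aC (chk_sound smok0 c411 (by decide +kernel)) (aC (chk_sound smok0 c412 (by decide +kernel)) (aC (chk_sound smok0 c413 (by decide +kernel)) (aC (chk_sound smok0 c414 (by decide +kernel)) (aC (chk_sound smok0 c415 (by decide +kernel)) (aC (chk_sound smok0 c416 (by decide +kernel)) (aC (chk_sound smok0 c417 (by decide +kernel)) (aC (chk_sound smok0 c418 (by decide +kernel)) (aC (chk_sound smok0 c419 (by decide +kernel)) aN))))))))))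
theorem n44 : Rf E0 xe4 [92, 1311, 1221, 1136, 1053] :=
  node_sound smok0 (q := 17) (ch := [1403, 1397, 1396, 1395, 1394, 1385, 1384, 1382, 1381, 1380]) (by decide +kernel) (by decide +kernel)
    (aC (chk_sound smok0 c420 (by decide +kernel)) (aC (chk_sound smok0 c421 (by decide +kernel)) (aC (chk_sound smok0 c422 (by decide +kernel)) (aC (chk_sound smok0 c423 (by decide +kernel)) (aC (chk_sound smok0 c424 (by decide +kernel)) (aC (chk_sound smok0 c425 (by decide +kernel)) (aC (chk_sound smok0 c426 (by decide +kernel)) (aC (chk_sound smok0 c427 (by decide +kernel)) (aC (chk_sound smok0 c428 (by decide +kernel)) (aC (chk_sound smok0 c429 (by decide +kernel)) aN))))))))))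
theorem n45 : Rf E0 xe4 [86, 1311, 1221, 1136, 1053] :=
  node_sound smok0 (q := 2) (ch := [188, 187, 185, 183, 180, 179, 178, 176, 175, 174, 165]) (by decide +kernel) (by decide +kernel)
    (aC (chk_sound smok0 c430 (by decide +kernel)) (aC (chk_sound smok0 c431 (by decide +kernel)) (aC (chk_sound smok0 c432 (by decide +kernel)) (aC (chk_sound smok0 c433 (by decide +kernel)) (aC (chk_sound smok0 c434 (by decide +kernel)) (aC (chk_sound smok0 c435 (by decide +kernel)) (aC (chk_sound smok0 c436 (by decide +kernel)) (aC (chk_sound smok0 c437 (by decide +kernel)) (aC (chk_sound smok0 c438 (by decide +kernel)) (aC (chk_sound smok0 c439 (by decide +kernel)) (aC (chk_sound smok0 c440 (by decide +kernel)) aN)))))))))))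
theorem n46 : Rf E0 xe4 [82, 1311, 1221, 1136, 1053] :=
  node_sound smok0 (q := 30) (ch := [2028, 1947, 1866, 975, 894, 813, 732, 570, 489, 165]) (by decide +kernel) (by decide +kernel)
    (aC (chk_sound smok0 c441 (by decide +kernel)) (aC (chk_sound smok0 c442 (by decide +kernel)) (aC (chk_sound smok0 c443 (by decide +kernel)) (aC (chk_sound smok0 c444 (by decide +kernel)) (aC (chk_sound smok0 c445 (by decide +kernel)) (aC (chk_sound smok0 c446 (by decide +kernel)) (aC (chk_sound smok0 c447 (by decide +kernel)) (aC (chk_sound smok0 c448 (by decide +kernel)) (aC (chk_sound smok0 c449 (by decide +kernel)) (aC (chk_sound smok0 c450 (by decide +kernel)) aN))))))))))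
theorem n47 : Rf E0 xe4 [1311, 1221, 1136, 1053] :=
  node_sound smok0 (q := 1) (ch := [107, 106, 105, 104, 95, 94, 93, 92, 91, 86, 82]) (by decide +kernel) (by decide +kernel)
    (aC (chk_sound smok0 c451 (by decide +kernel)) (aC (chk_sound smok0 c452 (by decide +kernel)) (aC (chk_sound smok0 c453 (by decide +kernel)) (aC (chk_sound smok0 c454 (by decide +kernel)) (aC (chk_sound smok0 c455 (by decide +kernel)) (aC (chk_sound smok0 c456 (by decide +kernel)) (aC n43 (aC n44 (aC (chk_sound smok0 c457 (by decide +kernel)) (aC n45 (aC n46 aN)))))))))))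
theorem n48 : Rf E0 xe4 [105, 1310, 1221, 1136, 1053] :=
  node_sound smok0 (q := 17) (ch := [1396, 1395, 1394, 1393, 1385, 1384, 1382, 1381, 1380, 1378]) (by decide +kernel) (by decide +kernel)
    (aC (chk_sound smok0 c458 (by decide +kernel)) (aC (chk_sound smok0 c459 (by decide +kernel)) (aC (chk_sound smok0 c460 (by decide +kernel)) (aC (chk_sound smok0 c461 (by decide +kernel)) (aC (chk_sound smok0 c462 (by decide +kernel)) (aC (chk_sound smok0 c463 (by decide +kernel)) (aC (chk_sound smok0 c464 (by decide +kernel)) (aC (chk_sound smok0 c465 (by decide +kernel)) (aC (chk_sound smok0 c466 (by decide +kernel)) (aC (chk_sound smok0 c467 (by decide +kernel)) aN))))))))))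
theorem n49 : Rf E0 xe4 [94, 1310, 1221, 1136, 1053] :=
  node_sound smok0 (q := 2) (ch := [180, 179, 178, 177, 173, 171, 169, 167, 166, 165]) (by decide +kernel) (by decide +kernel)
    (aC (chk_sound smok0 c468 (by decide +kernel)) (aC (chk_sound smok0 c469 (by decide +kernel)) (aC (chk_sound smok0 c470 (by decide +kernel)) (aC (chk_sound smok0 c471 (by decide +kernel)) (aC (chk_sound smok0 c472 (by decide +kernel)) (aC (chk_sound smok0 c473 (by decide +kernel)) (aC (chk_sound smok0 c474 (by decide +kernel)) (aC (chk_sound smok0 c475 (by decide +kernel)) (aC (chk_sound smok0 c476 (by decide +kernel)) (aC (chk_sound smok0 c477 (by decide +kernel)) aN))))))))))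
theorem n50 : Rf E0 xe4 [82, 1310, 1221, 1136, 1053] :=
  node_sound smok0 (q := 17) (ch := [1401, 1397, 1396, 1395, 1394, 1393, 1385, 1384, 1382, 1381]) (by decide +kernel) (by decide +kernel)
    (aC (chk_sound smok0 c478 (by decide +kernel)) (aC (chk_sound smok0 c479 (by decide +kernel)) (aC (chk_sound smok0 c480 (by decide +kernel)) (aC (chk_sound smok0 c481 (by decide +kernel)) (aC (chk_sound smok0 c482 (by decide +kernel)) (aC (chk_sound smok0 c483 (by decide +kernel)) (aC (chk_sound smok0 c484 (by decide +kernel)) (aC (chk_sound smok0 c485 (by decide +kernel)) (aC (chk_sound smok0 c486 (by decide +kernel)) (aC (chk_sound smok0 c487 (by decide +kernel)) aN))))))))))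
theorem n51 : Rf E0 xe4 [1310, 1221, 1136, 1053] :=
  node_sound smok0 (q := 1) (ch := [107, 106, 105, 104, 94, 93, 92, 91, 90, 86, 82]) (by decide +kernel) (by decide +kernel)
    (aC (chk_sound smok0 c488 (by decide +kernel)) (aC (chk_sound smok0 c489 (by decide +kernel)) (aC n48 (aC (chk_sound smok0 c490 (by decide +kernel)) (aC n49 (aC (chk_sound smok0 c491 (by decide +kernel)) (aC (chk_sound smok0 c492 (by decide +kernel)) (aC (chk_sound smok0 c493 (by decide +kernel)) (aC (chk_sound smok0 c494 (by decide +kernel)) (aC (chk_sound smok0 c495 (by decide +kernel)) (aC n50 aN)))))))))))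
theorem n52 : Rf E0 xe4 [107, 1304, 1221, 1136, 1053] :=
  node_sound smok0 (q := 2) (ch := [186, 185, 179, 178, 177, 173, 172, 171, 166, 165, 163]) (by decide +kernel) (by decide +kernel)
    (aC (chk_sound smok0 c496 (by decide +kernel)) (aC (chk_sound smok0 c497 (by decide +kernel)) (aC (chk_sound smok0 c498 (by decide +kernel)) (aC (chk_sound smok0 c499 (by decide +kernel)) (aC (chk_sound smok0 c500 (by decide +kernel)) (aC (chk_sound smok0 c501 (by decide +kernel)) (aC (chk_sound smok0 c502 (by decide +kernel)) (aC (chk_sound smok0 c503 (by decide +kernel)) (aC (chk_sound smok0 c504 (by decide +kernel)) (aC (chk_sound smok0 c505 (by decide +kernel)) (aC (chk_sound smok0 c506 (by decide +kernel)) aN)))))))))))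
theorem n53 : Rf E0 xe4 [104, 1304, 1221, 1136, 1053] :=
  node_sound smok0 (q := 0) (ch := [26, 25, 21, 20, 19, 18, 12, 11, 10, 5, 4]) (by decide +kernel) (by decide +kernel)
    (aC (chk_sound smok0 c507 (by decide +kernel)) (aC (chk_sound smok0 c508 (by decide +kernel)) (aC (chk_sound smok0 c509 (by decide +kernel)) (aC (chk_sound smok0 c510 (by decide +kernel)) (aC (chk_sound smok0 c511 (by decide +kernel)) (aC (chk_sound smok0 c512 (by decide +kernel)) (aC (chk_sound smok0 c513 (by decide +kernel)) (aC (chk_sound smok0 c514 (by decide +kernel)) (aC (chk_sound smok0 c515 (by decide +kernel)) (aC (chk_sound smok0 c516 (by decide +kernel)) (aC (chk_sound smok0 c517 (by decide +kernel)) aN)))))))))))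
theorem n54 : Rf E0 xe4 [103, 1304, 1221, 1136, 1053] :=
  node_sound smok0 (q := 0) (ch := [26, 25, 24, 20, 19, 18, 12, 11, 7, 5, 4]) (by decide +kernel) (by decide +kernel)
    (aC (chk_sound smok0 c518 (by decide +kernel)) (aC (chk_sound smok0 c519 (by decide +kernel)) (aC (chk_sound smok0 c520 (by decide +kernel)) (aC (chk_sound smok0 c521 (by decide +kernel)) (aC (chk_sound smok0 c522 (by decide +kernel)) (aC (chk_sound smok0 c523 (by decide +kernel)) (aC (chk_sound smok0 c524 (by decide +kernel)) (aC (chk_sound smok0 c525 (by decide +kernel)) (aC (chk_sound smok0 c526 (by decide +kernel)) (aC (chk_sound smok0 c527 (by decide +kernel)) (aC (chk_sound smok0 c528 (by decide +kernel)) aN)))))))))))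
theorem n55 : Rf E0 xe4 [102, 1304, 1221, 1136, 1053] :=
  node_sound smok0 (q := 0) (ch := [26, 25, 24, 23, 19, 18, 12, 7, 5, 4]) (by decide +kernel) (by decide +kernel)
    (aC (chk_sound smok0 c529 (by decide +kernel)) (aC (chk_sound smok0 c530 (by decide +kernel)) (aC (chk_sound smok0 c531 (by decide +kernel)) (aC (chk_sound smok0 c532 (by decide +kernel)) (aC (chk_sound smok0 c533 (by decide +kernel)) (aC (chk_sound smok0 c534 (by decide +kernel)) (aC (chk_sound smok0 c535 (by decide +kernel)) (aC (chk_sound smok0 c536 (by decide +kernel)) (aC (chk_sound smok0 c537 (by decide +kernel)) (aC (chk_sound smok0 c538 (by decide +kernel)) aN))))))))))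
theorem n56 : Rf E0 xe4 [95, 1304, 1221, 1136, 1053] :=
  node_sound smok0 (q := 2) (ch := [185, 179, 178, 174, 173, 172, 171, 166, 165, 163]) (by decide +kernel) (by decide +kernel)
    (aC (chk_sound smok0 c539 (by decide +kernel)) (aC (chk_sound smok0 c540 (by decide +kernel)) (aC (chk_sound smok0 c541 (by decide +kernel)) (aC (chk_sound smok0 c542 (by decide +kernel)) (aC (chk_sound smok0 c543 (by decide +kernel)) (aC (chk_sound smok0 c544 (by decide +kernel)) (aC (chk_sound smok0 c545 (by decide +kernel)) (aC (chk_sound smok0 c546 (by decide +kernel)) (aC (chk_sound smok0 c547 (by decide +kernel)) (aC (chk_sound smok0 c548 (by decide +kernel)) aN))))))))))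
theorem n57 : Rf E0 xe4 [94, 1304, 1221, 1136, 1053] :=
  node_sound smok0 (q := 2) (ch := [186, 185, 179, 178, 177, 173, 172, 171, 166, 165, 163]) (by decide +kernel) (by decide +kernel)
    (aC (chk_sound smok0 c549 (by decide +kernel)) (aC (chk_sound smok0 c550 (by decide +kernel)) (aC (chk_sound smok0 c551 (by decide +kernel)) (aC (chk_sound smok0 c552 (by decide +kernel)) (aC (chk_sound smok0 c553 (by decide +kernel)) (aC (chk_sound smok0 c554 (by decide +kernel)) (aC (chk_sound smok0 c555 (by decide +kernel)) (aC (chk_sound smok0 c556 (by decide +kernel)) (aC (chk_sound smok0 c557 (by decide +kernel)) (aC (chk_sound smok0 c558 (by decide +kernel)) (aC (chk_sound smok0 c559 (by decide +kernel)) aN)))))))))))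
theorem n58 : Rf E0 xe4 [92, 1304, 1221, 1136, 1053] :=
  node_sound smok0 (q := 0) (ch := [26, 25, 24, 23, 22, 18, 9, 7, 5, 4]) (by decide +kernel) (by decide +kernel)
    (aC (chk_sound smok0 c560 (by decide +kernel)) (aC (chk_sound smok0 c561 (by decide +kernel)) (aC (chk_sound smok0 c562 (by decide +kernel)) (aC (chk_sound smok0 c563 (by decide +kernel)) (aC (chk_sound smok0 c564 (by decide +kernel)) (aC (chk_sound smok0 c565 (by decide +kernel)) (aC (chk_sound smok0 c566 (by decide +kernel)) (aC (chk_sound smok0 c567 (by decide +kernel)) (aC (chk_sound smok0 c568 (by decide +kernel)) (aC (chk_sound smok0 c569 (by decide +kernel)) aN))))))))))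
theorem n59 : Rf E0 xe4 [90, 1304, 1221, 1136, 1053] :=
  node_sound smok0 (q := 0) (ch := [26, 25, 24, 20, 19, 18, 12, 11, 7, 5, 4]) (by decide +kernel) (by decide +kernel)
    (aC (chk_sound smok0 c570 (by decide +kernel)) (aC (chk_sound smok0 c571 (by decide +kernel)) (aC (chk_sound smok0 c572 (by decide +kernel)) (aC (chk_sound smok0 c573 (by decide +kernel)) (aC (chk_sound smok0 c574 (by decide +kernel)) (aC (chk_sound smok0 c575 (by decide +kernel)) (aC (chk_sound smok0 c576 (by decide +kernel)) (aC (chk_sound smok0 c577 (by decide +kernel)) (aC (chk_sound smok0 c578 (by decide +kernel)) (aC (chk_sound smok0 c579 (by decide +kernel)) (aC (chk_sound smok0 c580 (by decide +kernel)) aN)))))))))))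
theorem n60 : Rf E0 xe4 [88, 1304, 1221, 1136, 1053] :=
  node_sound smok0 (q := 47) (ch := [1883, 1640, 1559, 1478, 1397, 587, 506, 425, 344, 263, 20]) (by decide +kernel) (by decide +kernel)
    (aC (chk_sound smok0 c581 (by decide +kernel)) (aC (chk_sound smok0 c582 (by decide +kernel)) (aC (chk_sound smok0 c583 (by decide +kernel)) (aC (chk_sound smok0 c584 (by decide +kernel)) (aC (chk_sound smok0 c585 (by decide +kernel)) (aC (chk_sound smok0 c586 (by decide +kernel)) (aC (chk_sound smok0 c587 (by decide +kernel)) (aC (chk_sound smok0 c588 (by decide +kernel)) (aC (chk_sound smok0 c589 (by decide +kernel)) (aC (chk_sound smok0 c590 (by decide +kernel)) (aC (chk_sound smok0 c591 (by decide +kernel)) aN)))))))))))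
theorem n61 : Rf E0 xe4 [82, 1304, 1221, 1136, 1053] :=
  node_sound smok0 (q := 41) (ch := [2039, 1958, 1877, 1796, 986, 905, 824, 743, 662, 500, 176]) (by decide +kernel) (by decide +kernel)
    (aC (chk_sound smok0 c592 (by decide +kernel)) (aC (chk_sound smok0 c593 (by decide +kernel)) (aC (chk_sound smok0 c594 (by decide +kernel)) (aC (chk_sound smok0 c595 (by decide +kernel)) (aC (chk_sound smok0 c596 (by decide +kernel)) (aC (chk_sound smok0 c597 (by decide +kernel)) (aC (chk_sound smok0 c598 (by decide +kernel)) (aC (chk_sound smok0 c599 (by decide +kernel)) (aC (chk_sound smok0 c600 (by decide +kernel)) (aC (chk_sound smok0 c601 (by decide +kernel)) (aC (chk_sound smok0 c602 (by decide +kernel)) aN)))))))))))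
theorem n62 : Rf E0 xe4 [1304, 1221, 1136, 1053] :=
  node_sound smok0 (q := 1) (ch := [107, 106, 105, 104, 103, 102, 95, 94, 93, 92, 91, 90, 88, 82]) (by decide +kernel) (by decide +kernel)
    (aC n52 (aC (chk_sound smok0 c603 (by decide +kernel)) (aC (chk_sound smok0 c604 (by decide +kernel)) (aC n53 (aC n54 (aC n55 (aC n56 (aC n57 (aC (chk_sound smok0 c605 (by decide +kernel)) (aC n58 (aC (chk_sound smok0 c606 (by decide +kernel)) (aC n59 (aC n60 (aC n61 aN))))))))))))))
theorem n63 : Rf E0 xe4 [107, 1297, 1221, 1136, 1053] :=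
  node_sound smok0 (q := 30) (ch := [2109, 2028, 1947, 1866, 1380, 813, 732, 570, 489]) (by decide +kernel) (by decide +kernel)
    (aC (chk_sound smok0 c607 (by decide +kernel)) (aC (chk_sound smok0 c608 (by decide +kernel)) (aC (chk_sound smok0 c609 (by decide +kernel)) (aC (chk_sound smok0 c610 (by decide +kernel)) (aC (chk_sound smok0 c611 (by decide +kernel)) (aC (chk_sound smok0 c612 (by decide +kernel)) (aC (chk_sound smok0 c613 (by decide +kernel)) (aC (chk_sound smok0 c614 (by decide +kernel)) (aC (chk_sound smok0 c615 (by decide +kernel)) aN)))))))))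
theorem n64 : Rf E0 xe4 [103, 1297, 1221, 1136, 1053] :=
  node_sound smok0 (q := 0) (ch := [26, 25, 24, 20, 19, 18, 12, 11, 7, 5, 4]) (by decide +kernel) (by decide +kernel)
    (aC (chk_sound smok0 c616 (by decide +kernel)) (aC (chk_sound smok0 c617 (by decide +kernel)) (aC (chk_sound smok0 c618 (by decide +kernel)) (aC (chk_sound smok0 c619 (by decide +kernel)) (aC (chk_sound smok0 c620 (by decide +kernel)) (aC (chk_sound smok0 c621 (by decide +kernel)) (aC (chk_sound smok0 c622 (by decide +kernel)) (aC (chk_sound smok0 c623 (by decide +kernel)) (aC (chk_sound smok0 c624 (by decide +kernel)) (aC (chk_sound smok0 c625 (by decide +kernel)) (aC (chk_sound smok0 c626 (by decide +kernel)) aN)))))))))))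
theorem n65 : Rf E0 xe4 [102, 1297, 1221, 1136, 1053] :=
  node_sound smok0 (q := 17) (ch := [1402, 1397, 1396, 1395, 1394, 1385, 1384, 1382, 1381, 1380]) (by decide +kernel) (by decide +kernel)
    (aC (chk_sound smok0 c627 (by decide +kernel)) (aC (chk_sound smok0 c628 (by decide +kernel)) (aC (chk_sound smok0 c629 (by decide +kernel)) (aC (chk_sound smok0 c630 (by decide +kernel)) (aC (chk_sound smok0 c631 (by decide +kernel)) (aC (chk_sound smok0 c632 (by decide +kernel)) (aC (chk_sound smok0 c633 (by decide +kernel)) (aC (chk_sound smok0 c634 (by decide +kernel)) (aC (chk_sound smok0 c635 (by decide +kernel)) (aC (chk_sound smok0 c636 (by decide +kernel)) aN))))))))))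
theorem n66 : Rf E0 xe4 [94, 1297, 1221, 1136, 1053] :=
  node_sound smok0 (q := 2) (ch := [186, 185, 184, 183, 180, 178, 173, 172, 171, 170, 169, 167]) (by decide +kernel) (by decide +kernel)
    (aC (chk_sound smok0 c637 (by decide +kernel)) (aC (chk_sound smok0 c638 (by decide +kernel)) (aC (chk_sound smok0 c639 (by decide +kernel)) (aC (chk_sound smok0 c640 (by decide +kernel)) (aC (chk_sound smok0 c641 (by decide +kernel)) (aC (chk_sound smok0 c642 (by decide +kernel)) (aC (chk_sound smok0 c643 (by decide +kernel)) (aC (chk_sound smok0 c644 (by decide +kernel)) (aC (chk_sound smok0 c645 (by decide +kernel)) (aC (chk_sound smok0 c646 (by decide +kernel)) (aC (chk_sound smok0 c647 (by decide +kernel)) (aC (chk_sound smok0 c648 (by decide +kernel)) aN))))))))))))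
theorem n67 : Rf E0 xe4 [88, 1297, 1221, 1136, 1053] :=
  node_sound smok0 (q := 12) (ch := [995, 991, 990, 989, 988, 987, 983, 982, 981, 980, 977]) (by decide +kernel) (by decide +kernel)
    (aC (chk_sound smok0 c649 (by decide +kernel)) (aC (chk_sound smok0 c650 (by decide +kernel)) (aC (chk_sound smok0 c651 (by decide +kernel)) (aC (chk_sound smok0 c652 (by decide +kernel)) (aC (chk_sound smok0 c653 (by decide +kernel)) (aC (chk_sound smok0 c654 (by decide +kernel)) (aC (chk_sound smok0 c655 (by decide +kernel)) (aC (chk_sound smok0 c656 (by decide +kernel)) (aC (chk_sound smok0 c657 (by decide +kernel)) (aC (chk_sound smok0 c658 (by decide +kernel)) (aC (chk_sound smok0 c659 (by decide +kernel)) aN)))))))))))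
theorem n68 : Rf E0 xe4 [86, 1297, 1221, 1136, 1053] :=
  node_sound smok0 (q := 30) (ch := [2109, 2028, 1947, 1866, 1380, 813, 489, 408, 327, 246]) (by decide +kernel) (by decide +kernel)
    (aC (chk_sound smok0 c660 (by decide +kernel)) (aC (chk_sound smok0 c661 (by decide +kernel)) (aC (chk_sound smok0 c662 (by decide +kernel)) (aC (chk_sound smok0 c663 (by decide +kernel)) (aC (chk_sound smok0 c664 (by decide +kernel)) (aC (chk_sound smok0 c665 (by decide +kernel)) (aC (chk_sound smok0 c666 (by decide +kernel)) (aC (chk_sound smok0 c667 (by decide +kernel)) (aC (chk_sound smok0 c668 (by decide +kernel)) (aC (chk_sound smok0 c669 (by decide +kernel)) aN))))))))))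
theorem n69 : Rf E0 xe4 [1297, 1221, 1136, 1053] :=
  node_sound smok0 (q := 1) (ch := [107, 106, 105, 104, 103, 102, 94, 93, 92, 91, 90, 89, 88, 86]) (by decide +kernel) (by decide +kernel)
    (aC n63 (aC (chk_sound smok0 c670 (by decide +kernel)) (aC (chk_sound smok0 c671 (by decide +kernel)) (aC (chk_sound smok0 c672 (by decide +kernel)) (aC n64 (aC n65 (aC n66 (aC (chk_sound smok0 c673 (by decide +kernel)) (aC (chk_sound smok0 c674 (by decide +kernel)) (aC (chk_sound smok0 c675 (by decide +kernel)) (aC (chk_sound smok0 c676 (by decide +kernel)) (aC (chk_sound smok0 c677 (by decide +kernel)) (aC n67 (aC n68 aN))))))))))))))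
theorem n70 : Rf E0 xe4 [1221, 1136, 1053] :=
  node_sound smok0 (q := 16) (ch := [1322, 1321, 1320, 1319, 1318, 1317, 1316, 1315, 1314, 1313, 1312, 1311, 1310, 1304, 1297]) (by decide +kernel) (by decide +kernel)
    (aC n1 (aC n3 (aC n6 (aC n11 (aC n20 (aC n27 (aC n34 (aC n35 (aC n36 (aC n38 (aC n42 (aC n47 (aC n51 (aC n62 (aC n69 aN)))))))))))))))
theorem R0_4 : Rf E0 xe4 [1221, 1136, 1053] := n70
theorem n71 : Rf E0 xe5 [1322, 1222, 1136, 1053] :=
  node_sound smok0 (q := 1) (ch := [106, 105, 104, 103, 100, 93, 92, 91, 90, 89, 87]) (by decide +kernel) (by decide +kernel)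
    (aC (chk_sound smok0 c678 (by decide +kernel)) (aC (chk_sound smok0 c679 (by decide +kernel)) (aC (chk_sound smok0 c680 (by decide +kernel)) (aC (chk_sound smok0 c681 (by decide +kernel)) (aC (chk_sound smok0 c682 (by decide +kernel)) (aC (chk_sound smok0 c683 (by decide +kernel)) (aC (chk_sound smok0 c684 (by decide +kernel)) (aC (chk_sound smok0 c685 (by decide +kernel)) (aC (chk_sound smok0 c686 (by decide +kernel)) (aC (chk_sound smok0 c687 (by decide +kernel)) (aC (chk_sound smok0 c688 (by decide +kernel)) aN)))))))))))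
theorem n72 : Rf E0 xe5 [105, 1321, 1222, 1136, 1053] :=
  node_sound smok0 (q := 0) (ch := [26, 22, 21, 20, 19, 18, 12, 11, 10, 9, 5]) (by decide +kernel) (by decide +kernel)
    (aC (chk_sound smok0 c689 (by decide +kernel)) (aC (chk_sound smok0 c690 (by decide +kernel)) (aC (chk_sound smok0 c691 (by decide +kernel)) (aC (chk_sound smok0 c692 (by decide +kernel)) (aC (chk_sound smok0 c693 (by decide +kernel)) (aC (chk_sound smok0 c694 (by decide +kernel)) (aC (chk_sound smok0 c695 (by decide +kernel)) (aC (chk_sound smok0 c696 (by decide +kernel)) (aC (chk_sound smok0 c697 (by decide +kernel)) (aC (chk_sound smok0 c698 (by decide +kernel)) (aC (chk_sound smok0 c699 (by decide +kernel)) aN)))))))))))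
theorem n73 : Rf E0 xe5 [1321, 1222, 1136, 1053] :=
  node_sound smok0 (q := 1) (ch := [105, 104, 103, 100, 92, 91, 90, 89, 87, 82]) (by decide +kernel) (by decide +kernel)
    (aC n72 (aC (chk_sound smok0 c700 (by decide +kernel)) (aC (chk_sound smok0 c701 (by decide +kernel)) (aC (chk_sound smok0 c702 (by decide +kernel)) (aC (chk_sound smok0 c703 (by decide +kernel)) (aC (chk_sound smok0 c704 (by decide +kernel)) (aC (chk_sound smok0 c705 (by decide +kernel)) (aC (chk_sound smok0 c706 (by decide +kernel)) (aC (chk_sound smok0 c707 (by decide +kernel)) (aC (chk_sound smok0 c708 (by decide +kernel)) aN))))))))))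
theorem n74 : Rf E0 xe5 [95, 1320, 1222, 1136, 1053] :=
  node_sound smok0 (q := 12) (ch := [994, 990, 989, 988, 987, 985, 984, 983, 982, 981]) (by decide +kernel) (by decide +kernel)
    (aC (chk_sound smok0 c709 (by decide +kernel)) (aC (chk_sound smok0 c710 (by decide +kernel)) (aC (chk_sound smok0 c711 (by decide +kernel)) (aC (chk_sound smok0 c712 (by decide +kernel)) (aC (chk_sound smok0 c713 (by decide +kernel)) (aC (chk_sound smok0 c714 (by decide +kernel)) (aC (chk_sound smok0 c715 (by decide +kernel)) (aC (chk_sound smok0 c716 (by decide +kernel)) (aC (chk_sound smok0 c717 (by decide +kernel)) (aC (chk_sound smok0 c718 (by decide +kernel)) aN))))))))))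
theorem n75 : Rf E0 xe5 [82, 1320, 1222, 1136, 1053] :=
  node_sound smok0 (q := 17) (ch := [1403, 1399, 1398, 1394, 1393, 1387, 1386, 1385, 1383, 1382, 1381]) (by decide +kernel) (by decide +kernel)
    (aC (chk_sound smok0 c719 (by decide +kernel)) (aC (chk_sound smok0 c720 (by decide +kernel)) (aC (chk_sound smok0 c721 (by decide +kernel)) (aC (chk_sound smok0 c722 (by decide +kernel)) (aC (chk_sound smok0 c723 (by decide +kernel)) (aC (chk_sound smok0 c724 (by decide +kernel)) (aC (chk_sound smok0 c725 (by decide +kernel)) (aC (chk_sound smok0 c726 (by decide +kernel)) (aC (chk_sound smok0 c727 (by decide +kernel)) (aC (chk_sound smok0 c728 (by decide +kernel)) (aC (chk_sound smok0 c729 (by decide +kernel)) aN)))))))))))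
theorem n76 : Rf E0 xe5 [1320, 1222, 1136, 1053] :=
  node_sound smok0 (q := 1) (ch := [104, 103, 100, 95, 92, 91, 90, 89, 87, 82]) (by decide +kernel) (by decide +kernel)
    (aC (chk_sound smok0 c730 (by decide +kernel)) (aC (chk_sound smok0 c731 (by decide +kernel)) (aC (chk_sound smok0 c732 (by decide +kernel)) (aC n74 (aC (chk_sound smok0 c733 (by decide +kernel)) (aC (chk_sound smok0 c734 (by decide +kernel)) (aC (chk_sound smok0 c735 (by decide +kernel)) (aC (chk_sound smok0 c736 (by decide +kernel)) (aC (chk_sound smok0 c737 (by decide +kernel)) (aC n75 aN))))))))))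
theorem n77 : Rf E0 xe5 [95, 1319, 1222, 1136, 1053] :=
  node_sound smok0 (q := 12) (ch := [994, 990, 989, 988, 987, 985, 984, 983, 982, 975]) (by decide +kernel) (by decide +kernel)
    (aC (chk_sound smok0 c738 (by decide +kernel)) (aC (chk_sound smok0 c739 (by decide +kernel)) (aC (chk_sound smok0 c740 (by decide +kernel)) (aC (chk_sound smok0 c741 (by decide +kernel)) (aC (chk_sound smok0 c742 (by decide +kernel)) (aC (chk_sound smok0 c743 (by decide +kernel)) (aC (chk_sound smok0 c744 (by decide +kernel)) (aC (chk_sound smok0 c745 (by decide +kernel)) (aC (chk_sound smok0 c746 (by decide +kernel)) (aC (chk_sound smok0 c747 (by decide +kernel)) aN))))))))))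
theorem n78 : Rf E0 xe5 [82, 1319, 1222, 1136, 1053] :=
  node_sound smok0 (q := 11) (ch := [913, 909, 908, 907, 906, 905, 904, 903, 902, 901, 897]) (by decide +kernel) (by decide +kernel)
    (aC (chk_sound smok0 c748 (by decide +kernel)) (aC (chk_sound smok0 c749 (by decide +kernel)) (aC (chk_sound smok0 c750 (by decide +kernel)) (aC (chk_sound smok0 c751 (by decide +kernel)) (aC (chk_sound smok0 c752 (by decide +kernel)) (aC (chk_sound smok0 c753 (by decide +kernel)) (aC (chk_sound smok0 c754 (by decide +kernel)) (aC (chk_sound smok0 c755 (by decide +kernel)) (aC (chk_sound smok0 c756 (by decide +kernel)) (aC (chk_sound smok0 c757 (by decide +kernel)) (aC (chk_sound smok0 c758 (by decide +kernel)) aN)))))))))))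
theorem n79 : Rf E0 xe5 [1319, 1222, 1136, 1053] :=
  node_sound smok0 (q := 1) (ch := [105, 103, 100, 95, 91, 90, 89, 87, 82]) (by decide +kernel) (by decide +kernel)
    (aC (chk_sound smok0 c759 (by decide +kernel)) (aC (chk_sound smok0 c760 (by decide +kernel)) (aC (chk_sound smok0 c761 (by decide +kernel)) (aC n77 (aC (chk_sound smok0 c762 (by decide +kernel)) (aC (chk_sound smok0 c763 (by decide +kernel)) (aC (chk_sound smok0 c764 (by decide +kernel)) (aC (chk_sound smok0 c765 (by decide +kernel)) (aC n78 aN)))))))))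
theorem n80 : Rf E0 xe5 [95, 1318, 1222, 1136, 1053] :=
  node_sound smok0 (q := 12) (ch := [990, 989, 988, 987, 985, 984, 983, 976, 975]) (by decide +kernel) (by decide +kernel)
    (aC (chk_sound smok0 c766 (by decide +kernel)) (aC (chk_sound smok0 c767 (by decide +kernel)) (aC (chk_sound smok0 c768 (by decide +kernel)) (aC (chk_sound smok0 c769 (by decide +kernel)) (aC (chk_sound smok0 c770 (by decide +kernel)) (aC (chk_sound smok0 c771 (by decide +kernel)) (aC (chk_sound smok0 c772 (by decide +kernel)) (aC (chk_sound smok0 c773 (by decide +kernel)) (aC (chk_sound smok0 c774 (by decide +kernel)) aN)))))))))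
theorem n81 : Rf E0 xe5 [82, 1318, 1222, 1136, 1053] :=
  node_sound smok0 (q := 11) (ch := [914, 909, 908, 907, 906, 905, 904, 903, 902, 894]) (by decide +kernel) (by decide +kernel)
    (aC (chk_sound smok0 c775 (by decide +kernel)) (aC (chk_sound smok0 c776 (by decide +kernel)) (aC (chk_sound smok0 c777 (by decide +kernel)) (aC (chk_sound smok0 c778 (by decide +kernel)) (aC (chk_sound smok0 c779 (by decide +kernel)) (aC (chk_sound smok0 c780 (by decide +kernel)) (aC (chk_sound smok0 c781 (by decide +kernel)) (aC (chk_sound smok0 c782 (by decide +kernel)) (aC (chk_sound smok0 c783 (by decide +kernel)) (aC (chk_sound smok0 c784 (by decide +kernel)) aN))))))))))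
theorem n82 : Rf E0 xe5 [1318, 1222, 1136, 1053] :=
  node_sound smok0 (q := 1) (ch := [104, 100, 95, 94, 91, 90, 89, 87, 82]) (by decide +kernel) (by decide +kernel)
    (aC (chk_sound smok0 c785 (by decide +kernel)) (aC (chk_sound smok0 c786 (by decide +kernel)) (aC n80 (aC (chk_sound smok0 c787 (by decide +kernel)) (aC (chk_sound smok0 c788 (by decide +kernel)) (aC (chk_sound smok0 c789 (by decide +kernel)) (aC (chk_sound smok0 c790 (by decide +kernel)) (aC (chk_sound smok0 c791 (by decide +kernel)) (aC n81 aN)))))))))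
theorem n83 : Rf E0 xe5 [95, 1317, 1222, 1136, 1053] :=
  node_sound smok0 (q := 12) (ch := [994, 990, 989, 988, 987, 985, 984, 977, 976, 975]) (by decide +kernel) (by decide +kernel)
    (aC (chk_sound smok0 c792 (by decide +kernel)) (aC (chk_sound smok0 c793 (by decide +kernel)) (aC (chk_sound smok0 c794 (by decide +kernel)) (aC (chk_sound smok0 c795 (by decide +kernel)) (aC (chk_sound smok0 c796 (by decide +kernel)) (aC (chk_sound smok0 c797 (by decide +kernel)) (aC (chk_sound smok0 c798 (by decide +kernel)) (aC (chk_sound smok0 c799 (by decide +kernel)) (aC (chk_sound smok0 c800 (by decide +kernel)) (aC (chk_sound smok0 c801 (by decide +kernel)) aN))))))))))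
theorem n84 : Rf E0 xe5 [94, 1317, 1222, 1136, 1053] :=
  node_sound smok0 (q := 12) (ch := [994, 990, 989, 988, 987, 986, 984, 980, 975]) (by decide +kernel) (by decide +kernel)
    (aC (chk_sound smok0 c802 (by decide +kernel)) (aC (chk_sound smok0 c803 (by decide +kernel)) (aC (chk_sound smok0 c804 (by decide +kernel)) (aC (chk_sound smok0 c805 (by decide +kernel)) (aC (chk_sound smok0 c806 (by decide +kernel)) (aC (chk_sound smok0 c807 (by decide +kernel)) (aC (chk_sound smok0 c808 (by decide +kernel)) (aC (chk_sound smok0 c809 (by decide +kernel)) (aC (chk_sound smok0 c810 (by decide +kernel)) aN)))))))))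
theorem n85 : Rf E0 xe5 [90, 1317, 1222, 1136, 1053] :=
  node_sound smok0 (q := 0) (ch := [26, 25, 24, 20, 19, 18, 12, 11, 6, 5]) (by decide +kernel) (by decide +kernel)
    (aC (chk_sound smok0 c811 (by decide +kernel)) (aC (chk_sound smok0 c812 (by decide +kernel)) (aC (chk_sound smok0 c813 (by decide +kernel)) (aC (chk_sound smok0 c814 (by decide +kernel)) (aC (chk_sound smok0 c815 (by decide +kernel)) (aC (chk_sound smok0 c816 (by decide +kernel)) (aC (chk_sound smok0 c817 (by decide +kernel)) (aC (chk_sound smok0 c818 (by decide +kernel)) (aC (chk_sound smok0 c819 (by decide +kernel)) (aC (chk_sound smok0 c820 (by decide +kernel)) aN))))))))))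
theorem n86 : Rf E0 xe5 [87, 1317, 1222, 1136, 1053] :=
  node_sound smok0 (q := 0) (ch := [23, 22, 20, 19, 18, 12, 11, 10, 9, 8]) (by decide +kernel) (by decide +kernel)
    (aC (chk_sound smok0 c821 (by decide +kernel)) (aC (chk_sound smok0 c822 (by decide +kernel)) (aC (chk_sound smok0 c823 (by decide +kernel)) (aC (chk_sound smok0 c824 (by decide +kernel)) (aC (chk_sound smok0 c825 (by decide +kernel)) (aC (chk_sound smok0 c826 (by decide +kernel)) (aC (chk_sound smok0 c827 (by decide +kernel)) (aC (chk_sound smok0 c828 (by decide +kernel)) (aC (chk_sound smok0 c829 (by decide +kernel)) (aC (chk_sound smok0 c830 (by decide +kernel)) aN))))))))))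
theorem n87 : Rf E0 xe5 [82, 1317, 1222, 1136, 1053] :=
  node_sound smok0 (q := 41) (ch := [2039, 1958, 1877, 1796, 986, 905, 824, 743, 662, 500]) (by decide +kernel) (by decide +kernel)
    (aC (chk_sound smok0 c831 (by decide +kernel)) (aC (chk_sound smok0 c832 (by decide +kernel)) (aC (chk_sound smok0 c833 (by decide +kernel)) (aC (chk_sound smok0 c834 (by decide +kernel)) (aC (chk_sound smok0 c835 (by decide +kernel)) (aC (chk_sound smok0 c836 (by decide +kernel)) (aC (chk_sound smok0 c837 (by decide +kernel)) (aC (chk_sound smok0 c838 (by decide +kernel)) (aC (chk_sound smok0 c839 (by decide +kernel)) (aC (chk_sound smok0 c840 (by decide +kernel)) aN))))))))))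
theorem n88 : Rf E0 xe5 [1317, 1222, 1136, 1053] :=
  node_sound smok0 (q := 1) (ch := [107, 104, 103, 100, 95, 94, 90, 89, 87, 82]) (by decide +kernel) (by decide +kernel)
    (aC (chk_sound smok0 c841 (by decide +kernel)) (aC (chk_sound smok0 c842 (by decide +kernel)) (aC (chk_sound smok0 c843 (by decide +kernel)) (aC (chk_sound smok0 c844 (by decide +kernel)) (aC n83 (aC n84 (aC n85 (aC (chk_sound smok0 c845 (by decide +kernel)) (aC n86 (aC n87 aN))))))))))
theorem n89 : Rf E0 xe5 [100, 1316, 1222, 1136, 1053] :=
  node_sound smok0 (q := 0) (ch := [26, 25, 24, 23, 22, 21, 10, 9, 8, 6, 5]) (by decide +kernel) (by decide +kernel)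
    (aC (chk_sound smok0 c846 (by decide +kernel)) (aC (chk_sound smok0 c847 (by decide +kernel)) (aC (chk_sound smok0 c848 (by decide +kernel)) (aC (chk_sound smok0 c849 (by decide +kernel)) (aC (chk_sound smok0 c850 (by decide +kernel)) (aC (chk_sound smok0 c851 (by decide +kernel)) (aC (chk_sound smok0 c852 (by decide +kernel)) (aC (chk_sound smok0 c853 (by decide +kernel)) (aC (chk_sound smok0 c854 (by decide +kernel)) (aC (chk_sound smok0 c855 (by decide +kernel)) (aC (chk_sound smok0 c856 (by decide +kernel)) aN)))))))))))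
theorem n90 : Rf E0 xe5 [95, 1316, 1222, 1136, 1053] :=
  node_sound smok0 (q := 12) (ch := [994, 990, 989, 988, 987, 985, 978, 977, 976, 975]) (by decide +kernel) (by decide +kernel)
    (aC (chk_sound smok0 c857 (by decide +kernel)) (aC (chk_sound smok0 c858 (by decide +kernel)) (aC (chk_sound smok0 c859 (by decide +kernel)) (aC (chk_sound smok0 c860 (by decide +kernel)) (aC (chk_sound smok0 c861 (by decide +kernel)) (aC (chk_sound smok0 c862 (by decide +kernel)) (aC (chk_sound smok0 c863 (by decide +kernel)) (aC (chk_sound smok0 c864 (by decide +kernel)) (aC (chk_sound smok0 c865 (by decide +kernel)) (aC (chk_sound smok0 c866 (by decide +kernel)) aN))))))))))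
theorem n91 : Rf E0 xe5 [82, 1316, 1222, 1136, 1053] :=
  node_sound smok0 (q := 38) (ch := [2117, 2036, 1955, 1874, 1712, 1631, 821, 578, 497, 11]) (by decide +kernel) (by decide +kernel)
    (aC (chk_sound smok0 c867 (by decide +kernel)) (aC (chk_sound smok0 c868 (by decide +kernel)) (aC (chk_sound smok0 c869 (by decide +kernel)) (aC (chk_sound smok0 c870 (by decide +kernel)) (aC (chk_sound smok0 c871 (by decide +kernel)) (aC (chk_sound smok0 c872 (by decide +kernel)) (aC (chk_sound smok0 c873 (by decide +kernel)) (aC (chk_sound smok0 c874 (by decide +kernel)) (aC (chk_sound smok0 c875 (by decide +kernel)) (aC (chk_sound smok0 c876 (by decide +kernel)) aN))))))))))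
theorem n92 : Rf E0 xe5 [1316, 1222, 1136, 1053] :=
  node_sound smok0 (q := 1) (ch := [107, 103, 100, 95, 94, 93, 90, 89, 87, 82]) (by decide +kernel) (by decide +kernel)
    (aC (chk_sound smok0 c877 (by decide +kernel)) (aC (chk_sound smok0 c878 (by decide +kernel)) (aC n89 (aC n90 (aC (chk_sound smok0 c879 (by decide +kernel)) (aC (chk_sound smok0 c880 (by decide +kernel)) (aC (chk_sound smok0 c881 (by decide +kernel)) (aC (chk_sound smok0 c882 (by decide +kernel)) (aC (chk_sound smok0 c883 (by decide +kernel)) (aC n91 aN))))))))))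
theorem n93 : Rf E0 xe5 [1315, 1222, 1136, 1053] :=
  node_sound smok0 (q := 1) (ch := [107, 106, 103, 95, 94, 93, 89, 87, 82]) (by decide +kernel) (by decide +kernel)
    (aC (chk_sound smok0 c884 (by decide +kernel)) (aC (chk_sound smok0 c885 (by decide +kernel)) (aC (chk_sound smok0 c886 (by decide +kernel)) (aC (chk_sound smok0 c887 (by decide +kernel)) (aC (chk_sound smok0 c888 (by decide +kernel)) (aC (chk_sound smok0 c889 (by decide +kernel)) (aC (chk_sound smok0 c890 (by decide +kernel)) (aC (chk_sound smok0 c891 (by decide +kernel)) (aC (chk_sound smok0 c892 (by decide +kernel)) aN)))))))))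
theorem n94 : Rf E0 xe5 [1314, 1222, 1136, 1053] :=
  node_sound smok0 (q := 1) (ch := [107, 106, 100, 95, 94, 93, 92, 89, 87, 82]) (by decide +kernel) (by decide +kernel)
    (aC (chk_sound smok0 c893 (by decide +kernel)) (aC (chk_sound smok0 c894 (by decide +kernel)) (aC (chk_sound smok0 c895 (by decide +kernel)) (aC (chk_sound smok0 c896 (by decide +kernel)) (aC (chk_sound smok0 c897 (by decide +kernel)) (aC (chk_sound smok0 c898 (by decide +kernel)) (aC (chk_sound smok0 c899 (by decide +kernel)) (aC (chk_sound smok0 c900 (by decide +kernel)) (aC (chk_sound smok0 c901 (by decide +kernel)) (aC (chk_sound smok0 c902 (by decide +kernel)) aN))))))))))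
theorem n95 : Rf E0 xe5 [1313, 1222, 1136, 1053] :=
  node_sound smok0 (q := 1) (ch := [107, 106, 105, 100, 95, 94, 93, 92, 87, 82]) (by decide +kernel) (by decide +kernel)
    (aC (chk_sound smok0 c903 (by decide +kernel)) (aC (chk_sound smok0 c904 (by decide +kernel)) (aC (chk_sound smok0 c905 (by decide +kernel)) (aC (chk_sound smok0 c906 (by decide +kernel)) (aC (chk_sound smok0 c907 (by decide +kernel)) (aC (chk_sound smok0 c908 (by decide +kernel)) (aC (chk_sound smok0 c909 (by decide +kernel)) (aC (chk_sound smok0 c910 (by decide +kernel)) (aC (chk_sound smok0 c911 (by decide +kernel)) (aC (chk_sound smok0 c912 (by decide +kernel)) aN))))))))))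
theorem n96 : Rf E0 xe5 [107, 1312, 1222, 1136, 1053] :=
  node_sound smok0 (q := 12) (ch := [994, 990, 989, 985, 984, 983, 978, 977, 976, 975]) (by decide +kernel) (by decide +kernel)
    (aC (chk_sound smok0 c913 (by decide +kernel)) (aC (chk_sound smok0 c914 (by decide +kernel)) (aC (chk_sound smok0 c915 (by decide +kernel)) (aC (chk_sound smok0 c916 (by decide +kernel)) (aC (chk_sound smok0 c917 (by decide +kernel)) (aC (chk_sound smok0 c918 (by decide +kernel)) (aC (chk_sound smok0 c919 (by decide +kernel)) (aC (chk_sound smok0 c920 (by decide +kernel)) (aC (chk_sound smok0 c921 (by decide +kernel)) (aC (chk_sound smok0 c922 (by decide +kernel)) aN))))))))))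
theorem n97 : Rf E0 xe5 [100, 1312, 1222, 1136, 1053] :=
  node_sound smok0 (q := 17) (ch := [1400, 1399, 1398, 1397, 1395, 1386, 1385, 1383, 1382, 1378]) (by decide +kernel) (by decide +kernel)
    (aC (chk_sound smok0 c923 (by decide +kernel)) (aC (chk_sound smok0 c924 (by decide +kernel)) (aC (chk_sound smok0 c925 (by decide +kernel)) (aC (chk_sound smok0 c926 (by decide +kernel)) (aC (chk_sound smok0 c927 (by decide +kernel)) (aC (chk_sound smok0 c928 (by decide +kernel)) (aC (chk_sound smok0 c929 (by decide +kernel)) (aC (chk_sound smok0 c930 (by decide +kernel)) (aC (chk_sound smok0 c931 (by decide +kernel)) (aC (chk_sound smok0 c932 (by decide +kernel)) aN))))))))))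
theorem n98 : Rf E0 xe5 [1312, 1222, 1136, 1053] :=
  node_sound smok0 (q := 1) (ch := [107, 106, 105, 100, 95, 94, 93, 92, 91, 87, 82]) (by decide +kernel) (by decide +kernel)
    (aC n96 (aC (chk_sound smok0 c933 (by decide +kernel)) (aC (chk_sound smok0 c934 (by decide +kernel)) (aC n97 (aC (chk_sound smok0 c935 (by decide +kernel)) (aC (chk_sound smok0 c936 (by decide +kernel)) (aC (chk_sound smok0 c937 (by decide +kernel)) (aC (chk_sound smok0 c938 (by decide +kernel)) (aC (chk_sound smok0 c939 (by decide +kernel)) (aC (chk_sound smok0 c940 (by decide +kernel)) (aC (chk_sound smok0 c941 (by decide +kernel)) aN)))))))))))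
theorem n99 : Rf E0 xe5 [1306, 1222, 1136, 1053] :=
  node_sound smok0 (q := 1) (ch := [107, 106, 105, 104, 103, 95, 94, 93, 92, 90, 89, 82]) (by decide +kernel) (by decide +kernel)
    (aC (chk_sound smok0 c942 (by decide +kernel)) (aC (chk_sound smok0 c943 (by decide +kernel)) (aC (chk_sound smok0 c944 (by decide +kernel)) (aC (chk_sound smok0 c945 (by decide +kernel)) (aC (chk_sound smok0 c946 (by decide +kernel)) (aC (chk_sound smok0 c947 (by decide +kernel)) (aC (chk_sound smok0 c948 (by decide +kernel)) (aC (chk_sound smok0 c949 (by decide +kernel)) (aC (chk_sound smok0 c950 (by decide +kernel)) (aC (chk_sound smok0 c951 (by decide +kernel)) (aC (chk_sound smok0 c952 (by decide +kernel)) (aC (chk_sound smok0 c953 (by decide +kernel)) aN))))))))))))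
theorem n100 : Rf E0 xe5 [104, 1305, 1222, 1136, 1053] :=
  node_sound smok0 (q := 17) (ch := [1403, 1402, 1401, 1399, 1398, 1383, 1382, 1381, 1380, 1378]) (by decide +kernel) (by decide +kernel)
    (aC (chk_sound smok0 c954 (by decide +kernel)) (aC (chk_sound smok0 c955 (by decide +kernel)) (aC (chk_sound smok0 c956 (by decide +kernel)) (aC (chk_sound smok0 c957 (by decide +kernel)) (aC (chk_sound smok0 c958 (by decide +kernel)) (aC (chk_sound smok0 c959 (by decide +kernel)) (aC (chk_sound smok0 c960 (by decide +kernel)) (aC (chk_sound smok0 c961 (by decide +kernel)) (aC (chk_sound smok0 c962 (by decide +kernel)) (aC (chk_sound smok0 c963 (by decide +kernel)) aN))))))))))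
theorem n101 : Rf E0 xe5 [103, 1305, 1222, 1136, 1053] :=
  node_sound smok0 (q := 0) (ch := [26, 25, 24, 20, 19, 18, 12, 11, 6, 5]) (by decide +kernel) (by decide +kernel)
    (aC (chk_sound smok0 c964 (by decide +kernel)) (aC (chk_sound smok0 c965 (by decide +kernel)) (aC (chk_sound smok0 c966 (by decide +kernel)) (aC (chk_sound smok0 c967 (by decide +kernel)) (aC (chk_sound smok0 c968 (by decide +kernel)) (aC (chk_sound smok0 c969 (by decide +kernel)) (aC (chk_sound smok0 c970 (by decide +kernel)) (aC (chk_sound smok0 c971 (by decide +kernel)) (aC (chk_sound smok0 c972 (by decide +kernel)) (aC (chk_sound smok0 c973 (by decide +kernel)) aN))))))))))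
theorem n102 : Rf E0 xe5 [95, 1305, 1222, 1136, 1053] :=
  node_sound smok0 (q := 2) (ch := [187, 186, 180, 179, 178, 174, 173, 172, 166, 165]) (by decide +kernel) (by decide +kernel)
    (aC (chk_sound smok0 c974 (by decide +kernel)) (aC (chk_sound smok0 c975 (by decide +kernel)) (aC (chk_sound smok0 c976 (by decide +kernel)) (aC (chk_sound smok0 c977 (by decide +kernel)) (aC (chk_sound smok0 c978 (by decide +kernel)) (aC (chk_sound smok0 c979 (by decide +kernel)) (aC (chk_sound smok0 c980 (by decide +kernel)) (aC (chk_sound smok0 c981 (by decide +kernel)) (aC (chk_sound smok0 c982 (by decide +kernel)) (aC (chk_sound smok0 c983 (by decide +kernel)) aN))))))))))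
theorem n103 : Rf E0 xe5 [94, 1305, 1222, 1136, 1053] :=
  node_sound smok0 (q := 12) (ch := [987, 986, 984, 983, 982, 980, 978, 977, 976, 975]) (by decide +kernel) (by decide +kernel)
    (aC (chk_sound smok0 c984 (by decide +kernel)) (aC (chk_sound smok0 c985 (by decide +kernel)) (aC (chk_sound smok0 c986 (by decide +kernel)) (aC (chk_sound smok0 c987 (by decide +kernel)) (aC (chk_sound smok0 c988 (by decide +kernel)) (aC (chk_sound smok0 c989 (by decide +kernel)) (aC (chk_sound smok0 c990 (by decide +kernel)) (aC (chk_sound smok0 c991 (by decide +kernel)) (aC (chk_sound smok0 c992 (by decide +kernel)) (aC (chk_sound smok0 c993 (by decide +kernel)) aN))))))))))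
theorem n104 : Rf E0 xe5 [82, 1305, 1222, 1136, 1053] :=
  node_sound smok0 (q := 44) (ch := [2123, 2042, 1961, 1880, 989, 584, 503, 179]) (by decide +kernel) (by decide +kernel)
    (aC (chk_sound smok0 c994 (by decide +kernel)) (aC (chk_sound smok0 c995 (by decide +kernel)) (aC (chk_sound smok0 c996 (by decide +kernel)) (aC (chk_sound smok0 c997 (by decide +kernel)) (aC (chk_sound smok0 c998 (by decide +kernel)) (aC (chk_sound smok0 c999 (by decide +kernel)) (aC (chk_sound smok0 c1000 (by decide +kernel)) (aC (chk_sound smok0 c1001 (by decide +kernel)) aN))))))))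
theorem n105 : Rf E0 xe5 [1305, 1222, 1136, 1053] :=
  node_sound smok0 (q := 1) (ch := [107, 106, 105, 104, 103, 95, 94, 93, 92, 91, 89, 82]) (by decide +kernel) (by decide +kernel)
    (aC (chk_sound smok0 c1002 (by decide +kernel)) (aC (chk_sound smok0 c1003 (by decide +kernel)) (aC (chk_sound smok0 c1004 (by decide +kernel)) (aC n100 (aC n101 (aC n102 (aC n103 (aC (chk_sound smok0 c1005 (by decide +kernel)) (aC (chk_sound smok0 c1006 (by decide +kernel)) (aC (chk_sound smok0 c1007 (by decide +kernel)) (aC (chk_sound smok0 c1008 (by decide +kernel)) (aC n104 aN))))))))))))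
theorem n106 : Rf E0 xe5 [107, 1297, 1222, 1136, 1053] :=
  node_sound smok0 (q := 30) (ch := [2109, 2028, 1947, 1866, 1380, 813, 732, 570, 489, 165]) (by decide +kernel) (by decide +kernel)
    (aC (chk_sound smok0 c1009 (by decide +kernel)) (aC (chk_sound smok0 c1010 (by decide +kernel)) (aC (chk_sound smok0 c1011 (by decide +kernel)) (aC (chk_sound smok0 c1012 (by decide +kernel)) (aC (chk_sound smok0 c1013 (by decide +kernel)) (aC (chk_sound smok0 c1014 (by decide +kernel)) (aC (chk_sound smok0 c1015 (by decide +kernel)) (aC (chk_sound smok0 c1016 (by decide +kernel)) (aC (chk_sound smok0 c1017 (by decide +kernel)) (aC (chk_sound smok0 c1018 (by decide +kernel)) aN))))))))))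
theorem n107 : Rf E0 xe5 [104, 1297, 1222, 1136, 1053] :=
  node_sound smok0 (q := 0) (ch := [26, 25, 21, 20, 19, 18, 12, 11, 10, 6, 5]) (by decide +kernel) (by decide +kernel)
    (aC (chk_sound smok0 c1019 (by decide +kernel)) (aC (chk_sound smok0 c1020 (by decide +kernel)) (aC (chk_sound smok0 c1021 (by decide +kernel)) (aC (chk_sound smok0 c1022 (by decide +kernel)) (aC (chk_sound smok0 c1023 (by decide +kernel)) (aC (chk_sound smok0 c1024 (by decide +kernel)) (aC (chk_sound smok0 c1025 (by decide +kernel)) (aC (chk_sound smok0 c1026 (by decide +kernel)) (aC (chk_sound smok0 c1027 (by decide +kernel)) (aC (chk_sound smok0 c1028 (by decide +kernel)) (aC (chk_sound smok0 c1029 (by decide +kernel)) aN)))))))))))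
theorem n108 : Rf E0 xe5 [94, 1297, 1222, 1136, 1053] :=
  node_sound smok0 (q := 48) (ch := [2127, 2046, 1965, 1884, 1641, 1560, 507, 426, 345, 264, 21]) (by decide +kernel) (by decide +kernel)
    (aC (chk_sound smok0 c1030 (by decide +kernel)) (aC (chk_sound smok0 c1031 (by decide +kernel)) (aC (chk_sound smok0 c1032 (by decide +kernel)) (aC (chk_sound smok0 c1033 (by decide +kernel)) (aC (chk_sound smok0 c1034 (by decide +kernel)) (aC (chk_sound smok0 c1035 (by decide +kernel)) (aC (chk_sound smok0 c1036 (by decide +kernel)) (aC (chk_sound smok0 c1037 (by decide +kernel)) (aC (chk_sound smok0 c1038 (by decide +kernel)) (aC (chk_sound smok0 c1039 (by decide +kernel)) (aC (chk_sound smok0 c1040 (by decide +kernel)) aN)))))))))))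
theorem n109 : Rf E0 xe5 [1297, 1222, 1136, 1053] :=
  node_sound smok0 (q := 1) (ch := [107, 106, 105, 104, 103, 100, 94, 93, 92, 91, 90, 89, 87]) (by decide +kernel) (by decide +kernel)
    (aC n106 (aC (chk_sound smok0 c1041 (by decide +kernel)) (aC (chk_sound smok0 c1042 (by decide +kernel)) (aC n107 (aC (chk_sound smok0 c1043 (by decide +kernel)) (aC (chk_sound smok0 c1044 (by decide +kernel)) (aC n108 (aC (chk_sound smok0 c1045 (by decide +kernel)) (aC (chk_sound smok0 c1046 (by decide +kernel)) (aC (chk_sound smok0 c1047 (by decide +kernel)) (aC (chk_sound smok0 c1048 (by decide +kernel)) (aC (chk_sound smok0 c1049 (by decide +kernel)) (aC (chk_sound smok0 c1050 (by decide +kernel)) aN)))))))))))))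
theorem n110 : Rf E0 xe5 [1222, 1136, 1053] :=
  node_sound smok0 (q := 16) (ch := [1322, 1321, 1320, 1319, 1318, 1317, 1316, 1315, 1314, 1313, 1312, 1306, 1305, 1297]) (by decide +kernel) (by decide +kernel)
    (aC n71 (aC n73 (aC n76 (aC n79 (aC n82 (aC n88 (aC n92 (aC n93 (aC n94 (aC n95 (aC n98 (aC n99 (aC n105 (aC n109 aN))))))))))))))
theorem R0_5 : Rf E0 xe5 [1222, 1136, 1053] := n110

end Pool.Agent.R989.ZP
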