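import Pool.Agent.R989.ZP.Ms
import Pool.Agent.R989.ZP.C00
import Pool.Agent.R989.ZP.C01
import Pool.Agent.R989.ZP.C02
import Pool.Agent.R989.ZP.C03
import Pool.Agent.R989.ZP.C04
import Pool.Agent.R989.ZP.C05
import Pool.Agent.R989.ZP.C06
import Pool.Agent.R989.ZP.C07
import Pool.Agent.R989.ZP.C08
import Pool.Agent.R989.ZP.C09
import Pool.Agent.R989.ZP.C10
import Pool.Agent.R989.ZP.C11
import Pool.Agent.R989.ZP.C12
import Pool.Agent.R989.ZP.C13
import Pool.Agent.R989.ZP.C14
import Pool.Agent.R989.ZP.C15
import Pool.Agent.R989.ZP.C16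
import Pool.Agent.R989.ZP.C17
import Pool.Agent.R989.ZP.C18
import Pool.Agent.R989.ZP.C19
import Pool.Agent.R989.ZP.C20
import Pool.Agent.R989.ZP.C21
import Pool.Agent.R989.ZP.C22
import Pool.Agent.R989.ZP.C23
import Pool.Agent.R989.ZP.C24
import Pool.Agent.R989.ZP.C25
import Pool.Agent.R989.ZP.C26
import Pool.Agent.R989.ZP.C27
import Pool.Agent.R989.ZP.C28
import Pool.Agent.R989.ZP.C29
import Pool.Agent.R989.ZP.C30
import Pool.Agent.R989.ZP.C31
import Pool.Agent.R989.ZP.C32
import Pool.Agent.R989.ZP.C33
import Pool.Agent.R989.ZP.C34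
import Pool.Agent.R989.ZP.C35
import Pool.Agent.R989.ZP.C36
import Pool.Agent.R989.ZP.C37
import Pool.Agent.R989.ZP.C38
import Pool.Agent.R989.ZP.C39
import Pool.Agent.R989.ZP.C40
import Pool.Agent.R989.ZP.C41
import Pool.Agent.R989.ZP.C42
import Pool.Agent.R989.ZP.C43
import Pool.Agent.R989.ZP.C44
import Pool.Agent.R989.ZP.C45
import Pool.Agent.R989.ZP.C46
import Pool.Agent.R989.ZP.C47

set_option maxRecDepth 100000

namespace Pool.Agent.R989.ZP

theorem n111 : Rf E0 xe6 [1322, 1223, 1136, 1053] :=
  node_sound smok0 (q := 1) (ch := [106, 105, 104, 101, 93, 92, 91, 90, 88, 87, 84]) (by decide +kernel) (by decide +kernel)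
    (aC (chk_sound smok0 c1051 (by decide +kernel)) (aC (chk_sound smok0 c1052 (by decide +kernel)) (aC (chk_sound smok0 c1053 (by decide +kernel)) (aC (chk_sound smok0 c1054 (by decide +kernel)) (aC (chk_sound smok0 c1055 (by decide +kernel)) (aC (chk_sound smok0 c1056 (by decide +kernel)) (aC (chk_sound smok0 c1057 (by decide +kernel)) (aC (chk_sound smok0 c1058 (by decide +kernel)) (aC (chk_sound smok0 c1059 (by decide +kernel)) (aC (chk_sound smok0 c1060 (by decide +kernel)) (aC (chk_sound smok0 c1061 (by decide +kernel)) aN)))))))))))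
theorem n112 : Rf E0 xe6 [1321, 1223, 1136, 1053] :=
  node_sound smok0 (q := 1) (ch := [105, 104, 101, 92, 91, 90, 88, 87, 84, 82]) (by decide +kernel) (by decide +kernel)
    (aC (chk_sound smok0 c1062 (by decide +kernel)) (aC (chk_sound smok0 c1063 (by decide +kernel)) (aC (chk_sound smok0 c1064 (by decide +kernel)) (aC (chk_sound smok0 c1065 (by decide +kernel)) (aC (chk_sound smok0 c1066 (by decide +kernel)) (aC (chk_sound smok0 c1067 (by decide +kernel)) (aC (chk_sound smok0 c1068 (by decide +kernel)) (aC (chk_sound smok0 c1069 (by decide +kernel)) (aC (chk_sound smok0 c1070 (by decide +kernel)) (aC (chk_sound smok0 c1071 (by decide +kernel)) aN))))))))))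
theorem n113 : Rf E0 xe6 [1320, 1223, 1136, 1053] :=
  node_sound smok0 (q := 1) (ch := [104, 101, 95, 92, 91, 90, 88, 87, 84, 82]) (by decide +kernel) (by decide +kernel)
    (aC (chk_sound smok0 c1072 (by decide +kernel)) (aC (chk_sound smok0 c1073 (by decide +kernel)) (aC (chk_sound smok0 c1074 (by decide +kernel)) (aC (chk_sound smok0 c1075 (by decide +kernel)) (aC (chk_sound smok0 c1076 (by decide +kernel)) (aC (chk_sound smok0 c1077 (by decide +kernel)) (aC (chk_sound smok0 c1078 (by decide +kernel)) (aC (chk_sound smok0 c1079 (by decide +kernel)) (aC (chk_sound smok0 c1080 (by decide +kernel)) (aC (chk_sound smok0 c1081 (by decide +kernel)) aN))))))))))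
theorem n114 : Rf E0 xe6 [88, 1319, 1223, 1136, 1053] :=
  node_sound smok0 (q := 0) (ch := [26, 22, 21, 20, 19, 12, 11, 10, 9, 5, 3]) (by decide +kernel) (by decide +kernel)
    (aC (chk_sound smok0 c1082 (by decide +kernel)) (aC (chk_sound smok0 c1083 (by decide +kernel)) (aC (chk_sound smok0 c1084 (by decide +kernel)) (aC (chk_sound smok0 c1085 (by decide +kernel)) (aC (chk_sound smok0 c1086 (by decide +kernel)) (aC (chk_sound smok0 c1087 (by decide +kernel)) (aC (chk_sound smok0 c1088 (by decide +kernel)) (aC (chk_sound smok0 c1089 (by decide +kernel)) (aC (chk_sound smok0 c1090 (by decide +kernel)) (aC (chk_sound smok0 c1091 (by decide +kernel)) (aC (chk_sound smok0 c1092 (by decide +kernel)) aN)))))))))))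
theorem n115 : Rf E0 xe6 [1319, 1223, 1136, 1053] :=
  node_sound smok0 (q := 1) (ch := [105, 101, 95, 91, 90, 88, 87, 84, 82]) (by decide +kernel) (by decide +kernel)
    (aC (chk_sound smok0 c1093 (by decide +kernel)) (aC (chk_sound smok0 c1094 (by decide +kernel)) (aC (chk_sound smok0 c1095 (by decide +kernel)) (aC (chk_sound smok0 c1096 (by decide +kernel)) (aC (chk_sound smok0 c1097 (by decide +kernel)) (aC n114 (aC (chk_sound smok0 c1098 (by decide +kernel)) (aC (chk_sound smok0 c1099 (by decide +kernel)) (aC (chk_sound smok0 c1100 (by decide +kernel)) aN)))))))))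
theorem n116 : Rf E0 xe6 [95, 1318, 1223, 1136, 1053] :=
  node_sound smok0 (q := 12) (ch := [993, 989, 988, 987, 985, 984, 983, 976, 975]) (by decide +kernel) (by decide +kernel)
    (aC (chk_sound smok0 c1101 (by decide +kernel)) (aC (chk_sound smok0 c1102 (by decide +kernel)) (aC (chk_sound smok0 c1103 (by decide +kernel)) (aC (chk_sound smok0 c1104 (by decide +kernel)) (aC (chk_sound smok0 c1105 (by decide +kernel)) (aC (chk_sound smok0 c1106 (by decide +kernel)) (aC (chk_sound smok0 c1107 (by decide +kernel)) (aC (chk_sound smok0 c1108 (by decide +kernel)) (aC (chk_sound smok0 c1109 (by decide +kernel)) aN)))))))))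
theorem n117 : Rf E0 xe6 [90, 1318, 1223, 1136, 1053] :=
  node_sound smok0 (q := 45) (ch := [1881, 1800, 747, 666, 504, 423, 342, 261, 180]) (by decide +kernel) (by decide +kernel)
    (aC (chk_sound smok0 c1110 (by decide +kernel)) (aC (chk_sound smok0 c1111 (by decide +kernel)) (aC (chk_sound smok0 c1112 (by decide +kernel)) (aC (chk_sound smok0 c1113 (by decide +kernel)) (aC (chk_sound smok0 c1114 (by decide +kernel)) (aC (chk_sound smok0 c1115 (by decide +kernel)) (aC (chk_sound smok0 c1116 (by decide +kernel)) (aC (chk_sound smok0 c1117 (by decide +kernel)) (aC (chk_sound smok0 c1118 (by decide +kernel)) aN)))))))))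
theorem n118 : Rf E0 xe6 [82, 1318, 1223, 1136, 1053] :=
  node_sound smok0 (q := 11) (ch := [914, 912, 908, 907, 906, 905, 904, 903, 902, 898, 894]) (by decide +kernel) (by decide +kernel)
    (aC (chk_sound smok0 c1119 (by decide +kernel)) (aC (chk_sound smok0 c1120 (by decide +kernel)) (aC (chk_sound smok0 c1121 (by decide +kernel)) (aC (chk_sound smok0 c1122 (by decide +kernel)) (aC (chk_sound smok0 c1123 (by decide +kernel)) (aC (chk_sound smok0 c1124 (by decide +kernel)) (aC (chk_sound smok0 c1125 (by decide +kernel)) (aC (chk_sound smok0 c1126 (by decide +kernel)) (aC (chk_sound smok0 c1127 (by decide +kernel)) (aC (chk_sound smok0 c1128 (by decide +kernel)) (aC (chk_sound smok0 c1129 (by decide +kernel)) aN)))))))))))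
theorem n119 : Rf E0 xe6 [1318, 1223, 1136, 1053] :=
  node_sound smok0 (q := 1) (ch := [104, 101, 95, 94, 91, 90, 88, 87, 84, 82]) (by decide +kernel) (by decide +kernel)
    (aC (chk_sound smok0 c1130 (by decide +kernel)) (aC (chk_sound smok0 c1131 (by decide +kernel)) (aC n116 (aC (chk_sound smok0 c1132 (by decide +kernel)) (aC (chk_sound smok0 c1133 (by decide +kernel)) (aC n117 (aC (chk_sound smok0 c1134 (by decide +kernel)) (aC (chk_sound smok0 c1135 (by decide +kernel)) (aC (chk_sound smok0 c1136 (by decide +kernel)) (aC n118 aN))))))))))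
theorem n120 : Rf E0 xe6 [1317, 1223, 1136, 1053] :=
  node_sound smok0 (q := 1) (ch := [107, 104, 101, 95, 94, 90, 88, 87, 84, 82]) (by decide +kernel) (by decide +kernel)
    (aC (chk_sound smok0 c1137 (by decide +kernel)) (aC (chk_sound smok0 c1138 (by decide +kernel)) (aC (chk_sound smok0 c1139 (by decide +kernel)) (aC (chk_sound smok0 c1140 (by decide +kernel)) (aC (chk_sound smok0 c1141 (by decide +kernel)) (aC (chk_sound smok0 c1142 (by decide +kernel)) (aC (chk_sound smok0 c1143 (by decide +kernel)) (aC (chk_sound smok0 c1144 (by decide +kernel)) (aC (chk_sound smok0 c1145 (by decide +kernel)) (aC (chk_sound smok0 c1146 (by decide +kernel)) aN))))))))))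
theorem n121 : Rf E0 xe6 [1316, 1223, 1136, 1053] :=
  node_sound smok0 (q := 1) (ch := [107, 95, 94, 93, 90, 88, 87, 84, 82]) (by decide +kernel) (by decide +kernel)
    (aC (chk_sound smok0 c1147 (by decide +kernel)) (aC (chk_sound smok0 c1148 (by decide +kernel)) (aC (chk_sound smok0 c1149 (by decide +kernel)) (aC (chk_sound smok0 c1150 (by decide +kernel)) (aC (chk_sound smok0 c1151 (by decide +kernel)) (aC (chk_sound smok0 c1152 (by decide +kernel)) (aC (chk_sound smok0 c1153 (by decide +kernel)) (aC (chk_sound smok0 c1154 (by decide +kernel)) (aC (chk_sound smok0 c1155 (by decide +kernel)) aN)))))))))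
theorem n122 : Rf E0 xe6 [94, 1315, 1223, 1136, 1053] :=
  node_sound smok0 (q := 12) (ch := [993, 989, 988, 987, 986, 982, 981, 977, 976, 975]) (by decide +kernel) (by decide +kernel)
    (aC (chk_sound smok0 c1156 (by decide +kernel)) (aC (chk_sound smok0 c1157 (by decide +kernel)) (aC (chk_sound smok0 c1158 (by decide +kernel)) (aC (chk_sound smok0 c1159 (by decide +kernel)) (aC (chk_sound smok0 c1160 (by decide +kernel)) (aC (chk_sound smok0 c1161 (by decide +kernel)) (aC (chk_sound smok0 c1162 (by decide +kernel)) (aC (chk_sound smok0 c1163 (by decide +kernel)) (aC (chk_sound smok0 c1164 (by decide +kernel)) (aC (chk_sound smok0 c1165 (by decide +kernel)) aN))))))))))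
theorem n123 : Rf E0 xe6 [1315, 1223, 1136, 1053] :=
  node_sound smok0 (q := 1) (ch := [107, 106, 101, 95, 94, 93, 88, 87, 84, 82]) (by decide +kernel) (by decide +kernel)
    (aC (chk_sound smok0 c1166 (by decide +kernel)) (aC (chk_sound smok0 c1167 (by decide +kernel)) (aC (chk_sound smok0 c1168 (by decide +kernel)) (aC (chk_sound smok0 c1169 (by decide +kernel)) (aC n122 (aC (chk_sound smok0 c1170 (by decide +kernel)) (aC (chk_sound smok0 c1171 (by decide +kernel)) (aC (chk_sound smok0 c1172 (by decide +kernel)) (aC (chk_sound smok0 c1173 (by decide +kernel)) (aC (chk_sound smok0 c1174 (by decide +kernel)) aN))))))))))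
theorem n124 : Rf E0 xe6 [95, 1314, 1223, 1136, 1053] :=
  node_sound smok0 (q := 12) (ch := [993, 989, 988, 987, 979, 978, 977, 976, 975]) (by decide +kernel) (by decide +kernel)
    (aC (chk_sound smok0 c1175 (by decide +kernel)) (aC (chk_sound smok0 c1176 (by decide +kernel)) (aC (chk_sound smok0 c1177 (by decide +kernel)) (aC (chk_sound smok0 c1178 (by decide +kernel)) (aC (chk_sound smok0 c1179 (by decide +kernel)) (aC (chk_sound smok0 c1180 (by decide +kernel)) (aC (chk_sound smok0 c1181 (by decide +kernel)) (aC (chk_sound smok0 c1182 (by decide +kernel)) (aC (chk_sound smok0 c1183 (by decide +kernel)) aN)))))))))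
theorem n125 : Rf E0 xe6 [94, 1314, 1223, 1136, 1053] :=
  node_sound smok0 (q := 12) (ch := [993, 989, 988, 987, 983, 982, 978, 977, 976, 975]) (by decide +kernel) (by decide +kernel)
    (aC (chk_sound smok0 c1184 (by decide +kernel)) (aC (chk_sound smok0 c1185 (by decide +kernel)) (aC (chk_sound smok0 c1186 (by decide +kernel)) (aC (chk_sound smok0 c1187 (by decide +kernel)) (aC (chk_sound smok0 c1188 (by decide +kernel)) (aC (chk_sound smok0 c1189 (by decide +kernel)) (aC (chk_sound smok0 c1190 (by decide +kernel)) (aC (chk_sound smok0 c1191 (by decide +kernel)) (aC (chk_sound smok0 c1192 (by decide +kernel)) (aC (chk_sound smok0 c1193 (by decide +kernel)) aN))))))))))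
theorem n126 : Rf E0 xe6 [88, 1314, 1223, 1136, 1053] :=
  node_sound smok0 (q := 0) (ch := [26, 22, 21, 20, 19, 12, 11, 10, 9, 5, 3]) (by decide +kernel) (by decide +kernel)
    (aC (chk_sound smok0 c1194 (by decide +kernel)) (aC (chk_sound smok0 c1195 (by decide +kernel)) (aC (chk_sound smok0 c1196 (by decide +kernel)) (aC (chk_sound smok0 c1197 (by decide +kernel)) (aC (chk_sound smok0 c1198 (by decide +kernel)) (aC (chk_sound smok0 c1199 (by decide +kernel)) (aC (chk_sound smok0 c1200 (by decide +kernel)) (aC (chk_sound smok0 c1201 (by decide +kernel)) (aC (chk_sound smok0 c1202 (by decide +kernel)) (aC (chk_sound smok0 c1203 (by decide +kernel)) (aC (chk_sound smok0 c1204 (by decide +kernel)) aN)))))))))))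
theorem n127 : Rf E0 xe6 [1314, 1223, 1136, 1053] :=
  node_sound smok0 (q := 1) (ch := [107, 106, 101, 95, 94, 93, 92, 88, 87, 84, 82]) (by decide +kernel) (by decide +kernel)
    (aC (chk_sound smok0 c1205 (by decide +kernel)) (aC (chk_sound smok0 c1206 (by decide +kernel)) (aC (chk_sound smok0 c1207 (by decide +kernel)) (aC n124 (aC n125 (aC (chk_sound smok0 c1208 (by decide +kernel)) (aC (chk_sound smok0 c1209 (by decide +kernel)) (aC n126 (aC (chk_sound smok0 c1210 (by decide +kernel)) (aC (chk_sound smok0 c1211 (by decide +kernel)) (aC (chk_sound smok0 c1212 (by decide +kernel)) aN)))))))))))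
theorem n128 : Rf E0 xe6 [105, 1308, 1223, 1136, 1053] :=
  node_sound smok0 (q := 0) (ch := [26, 22, 21, 20, 19, 11, 10, 9, 5, 3]) (by decide +kernel) (by decide +kernel)
    (aC (chk_sound smok0 c1213 (by decide +kernel)) (aC (chk_sound smok0 c1214 (by decide +kernel)) (aC (chk_sound smok0 c1215 (by decide +kernel)) (aC (chk_sound smok0 c1216 (by decide +kernel)) (aC (chk_sound smok0 c1217 (by decide +kernel)) (aC (chk_sound smok0 c1218 (by decide +kernel)) (aC (chk_sound smok0 c1219 (by decide +kernel)) (aC (chk_sound smok0 c1220 (by decide +kernel)) (aC (chk_sound smok0 c1221 (by decide +kernel)) (aC (chk_sound smok0 c1222 (by decide +kernel)) aN))))))))))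
theorem n129 : Rf E0 xe6 [104, 1308, 1223, 1136, 1053] :=
  node_sound smok0 (q := 0) (ch := [26, 25, 21, 20, 19, 11, 10, 6, 5, 3]) (by decide +kernel) (by decide +kernel)
    (aC (chk_sound smok0 c1223 (by decide +kernel)) (aC (chk_sound smok0 c1224 (by decide +kernel)) (aC (chk_sound smok0 c1225 (by decide +kernel)) (aC (chk_sound smok0 c1226 (by decide +kernel)) (aC (chk_sound smok0 c1227 (by decide +kernel)) (aC (chk_sound smok0 c1228 (by decide +kernel)) (aC (chk_sound smok0 c1229 (by decide +kernel)) (aC (chk_sound smok0 c1230 (by decide +kernel)) (aC (chk_sound smok0 c1231 (by decide +kernel)) (aC (chk_sound smok0 c1232 (by decide +kernel)) aN))))))))))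
theorem n130 : Rf E0 xe6 [84, 1308, 1223, 1136, 1053] :=
  node_sound smok0 (q := 2) (ch := [181, 180, 179, 178, 177, 173, 171, 168, 167, 163]) (by decide +kernel) (by decide +kernel)
    (aC (chk_sound smok0 c1233 (by decide +kernel)) (aC (chk_sound smok0 c1234 (by decide +kernel)) (aC (chk_sound smok0 c1235 (by decide +kernel)) (aC (chk_sound smok0 c1236 (by decide +kernel)) (aC (chk_sound smok0 c1237 (by decide +kernel)) (aC (chk_sound smok0 c1238 (by decide +kernel)) (aC (chk_sound smok0 c1239 (by decide +kernel)) (aC (chk_sound smok0 c1240 (by decide +kernel)) (aC (chk_sound smok0 c1241 (by decide +kernel)) (aC (chk_sound smok0 c1242 (by decide +kernel)) aN))))))))))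
theorem n131 : Rf E0 xe6 [1308, 1223, 1136, 1053] :=
  node_sound smok0 (q := 1) (ch := [107, 106, 105, 104, 95, 94, 92, 91, 90, 84, 82]) (by decide +kernel) (by decide +kernel)
    (aC (chk_sound smok0 c1243 (by decide +kernel)) (aC (chk_sound smok0 c1244 (by decide +kernel)) (aC n128 (aC n129 (aC (chk_sound smok0 c1245 (by decide +kernel)) (aC (chk_sound smok0 c1246 (by decide +kernel)) (aC (chk_sound smok0 c1247 (by decide +kernel)) (aC (chk_sound smok0 c1248 (by decide +kernel)) (aC (chk_sound smok0 c1249 (by decide +kernel)) (aC n130 (aC (chk_sound smok0 c1250 (by decide +kernel)) aN)))))))))))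
theorem n132 : Rf E0 xe6 [1307, 1223, 1136, 1053] :=
  node_sound smok0 (q := 1) (ch := [107, 106, 105, 104, 95, 94, 93, 91, 90, 84, 82]) (by decide +kernel) (by decide +kernel)
    (aC (chk_sound smok0 c1251 (by decide +kernel)) (aC (chk_sound smok0 c1252 (by decide +kernel)) (aC (chk_sound smok0 c1253 (by decide +kernel)) (aC (chk_sound smok0 c1254 (by decide +kernel)) (aC (chk_sound smok0 c1255 (by decide +kernel)) (aC (chk_sound smok0 c1256 (by decide +kernel)) (aC (chk_sound smok0 c1257 (by decide +kernel)) (aC (chk_sound smok0 c1258 (by decide +kernel)) (aC (chk_sound smok0 c1259 (by decide +kernel)) (aC (chk_sound smok0 c1260 (by decide +kernel)) (aC (chk_sound smok0 c1261 (by decide +kernel)) aN)))))))))))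
theorem n133 : Rf E0 xe6 [104, 1306, 1223, 1136, 1053] :=
  node_sound smok0 (q := 0) (ch := [26, 25, 21, 20, 19, 12, 11, 6, 5, 3]) (by decide +kernel) (by decide +kernel)
    (aC (chk_sound smok0 c1262 (by decide +kernel)) (aC (chk_sound smok0 c1263 (by decide +kernel)) (aC (chk_sound smok0 c1264 (by decide +kernel)) (aC (chk_sound smok0 c1265 (by decide +kernel)) (aC (chk_sound smok0 c1266 (by decide +kernel)) (aC (chk_sound smok0 c1267 (by decide +kernel)) (aC (chk_sound smok0 c1268 (by decide +kernel)) (aC (chk_sound smok0 c1269 (by decide +kernel)) (aC (chk_sound smok0 c1270 (by decide +kernel)) (aC (chk_sound smok0 c1271 (by decide +kernel)) aN))))))))))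
theorem n134 : Rf E0 xe6 [95, 1306, 1223, 1136, 1053] :=
  node_sound smok0 (q := 2) (ch := [188, 187, 180, 179, 178, 174, 173, 169, 167, 166]) (by decide +kernel) (by decide +kernel)
    (aC (chk_sound smok0 c1272 (by decide +kernel)) (aC (chk_sound smok0 c1273 (by decide +kernel)) (aC (chk_sound smok0 c1274 (by decide +kernel)) (aC (chk_sound smok0 c1275 (by decide +kernel)) (aC (chk_sound smok0 c1276 (by decide +kernel)) (aC (chk_sound smok0 c1277 (by decide +kernel)) (aC (chk_sound smok0 c1278 (by decide +kernel)) (aC (chk_sound smok0 c1279 (by decide +kernel)) (aC (chk_sound smok0 c1280 (by decide +kernel)) (aC (chk_sound smok0 c1281 (by decide +kernel)) aN))))))))))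
theorem n135 : Rf E0 xe6 [1306, 1223, 1136, 1053] :=
  node_sound smok0 (q := 1) (ch := [107, 106, 105, 104, 95, 94, 93, 92, 90, 88, 84, 82]) (by decide +kernel) (by decide +kernel)
    (aC (chk_sound smok0 c1282 (by decide +kernel)) (aC (chk_sound smok0 c1283 (by decide +kernel)) (aC (chk_sound smok0 c1284 (by decide +kernel)) (aC n133 (aC n134 (aC (chk_sound smok0 c1285 (by decide +kernel)) (aC (chk_sound smok0 c1286 (by decide +kernel)) (aC (chk_sound smok0 c1287 (by decide +kernel)) (aC (chk_sound smok0 c1288 (by decide +kernel)) (aC (chk_sound smok0 c1289 (by decide +kernel)) (aC (chk_sound smok0 c1290 (by decide +kernel)) (aC (chk_sound smok0 c1291 (by decide +kernel)) aN))))))))))))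
theorem n136 : Rf E0 xe6 [1399, 1302, 1223, 1136, 1053] :=
  node_sound smok0 (q := 2) (ch := [185, 178, 176, 175, 172, 171, 167, 165]) (by decide +kernel) (by decide +kernel)
    (aC (chk_sound smok0 c1292 (by decide +kernel)) (aC (chk_sound smok0 c1293 (by decide +kernel)) (aC (chk_sound smok0 c1294 (by decide +kernel)) (aC (chk_sound smok0 c1295 (by decide +kernel)) (aC (chk_sound smok0 c1296 (by decide +kernel)) (aC (chk_sound smok0 c1297 (by decide +kernel)) (aC (chk_sound smok0 c1298 (by decide +kernel)) (aC (chk_sound smok0 c1299 (by decide +kernel)) aN))))))))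
theorem n137 : Rf E0 xe6 [1395, 1302, 1223, 1136, 1053] :=
  node_sound smok0 (q := 2) (ch := [187, 178, 177, 176, 174, 173, 167, 165, 163]) (by decide +kernel) (by decide +kernel)
    (aC (chk_sound smok0 c1300 (by decide +kernel)) (aC (chk_sound smok0 c1301 (by decide +kernel)) (aC (chk_sound smok0 c1302 (by decide +kernel)) (aC (chk_sound smok0 c1303 (by decide +kernel)) (aC (chk_sound smok0 c1304 (by decide +kernel)) (aC (chk_sound smok0 c1305 (by decide +kernel)) (aC (chk_sound smok0 c1306 (by decide +kernel)) (aC (chk_sound smok0 c1307 (by decide +kernel)) (aC (chk_sound smok0 c1308 (by decide +kernel)) aN)))))))))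
theorem n138 : Rf E0 xe6 [1389, 1302, 1223, 1136, 1053] :=
  node_sound smok0 (q := 12) (ch := [993, 989, 988, 987, 986, 985, 983, 982, 981, 979]) (by decide +kernel) (by decide +kernel)
    (aC (chk_sound smok0 c1309 (by decide +kernel)) (aC (chk_sound smok0 c1310 (by decide +kernel)) (aC (chk_sound smok0 c1311 (by decide +kernel)) (aC (chk_sound smok0 c1312 (by decide +kernel)) (aC (chk_sound smok0 c1313 (by decide +kernel)) (aC (chk_sound smok0 c1314 (by decide +kernel)) (aC (chk_sound smok0 c1315 (by decide +kernel)) (aC (chk_sound smok0 c1316 (by decide +kernel)) (aC (chk_sound smok0 c1317 (by decide +kernel)) (aC (chk_sound smok0 c1318 (by decide +kernel)) aN))))))))))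
theorem n139 : Rf E0 xe6 [1302, 1223, 1136, 1053] :=
  node_sound smok0 (q := 17) (ch := [1403, 1402, 1401, 1400, 1399, 1398, 1397, 1396, 1395, 1389, 1378]) (by decide +kernel) (by decide +kernel)
    (aC (chk_sound smok0 c1319 (by decide +kernel)) (aC (chk_sound smok0 c1320 (by decide +kernel)) (aC (chk_sound smok0 c1321 (by decide +kernel)) (aC (chk_sound smok0 c1322 (by decide +kernel)) (aC n136 (aC (chk_sound smok0 c1323 (by decide +kernel)) (aC (chk_sound smok0 c1324 (by decide +kernel)) (aC (chk_sound smok0 c1325 (by decide +kernel)) (aC n137 (aC n138 (aC (chk_sound smok0 c1326 (by decide +kernel)) aN)))))))))))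
theorem n140 : Rf E0 xe6 [107, 1297, 1223, 1136, 1053] :=
  node_sound smok0 (q := 30) (ch := [2109, 2028, 1947, 1866, 1380, 813, 732, 570, 489, 165, 3]) (by decide +kernel) (by decide +kernel)
    (aC (chk_sound smok0 c1327 (by decide +kernel)) (aC (chk_sound smok0 c1328 (by decide +kernel)) (aC (chk_sound smok0 c1329 (by decide +kernel)) (aC (chk_sound smok0 c1330 (by decide +kernel)) (aC (chk_sound smok0 c1331 (by decide +kernel)) (aC (chk_sound smok0 c1332 (by decide +kernel)) (aC (chk_sound smok0 c1333 (by decide +kernel)) (aC (chk_sound smok0 c1334 (by decide +kernel)) (aC (chk_sound smok0 c1335 (by decide +kernel)) (aC (chk_sound smok0 c1336 (by decide +kernel)) (aC (chk_sound smok0 c1337 (by decide +kernel)) aN)))))))))))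
theorem n141 : Rf E0 xe6 [94, 1297, 1223, 1136, 1053] :=
  node_sound smok0 (q := 47) (ch := [2126, 2045, 1964, 1883, 1559, 506, 425, 344, 263, 182, 20]) (by decide +kernel) (by decide +kernel)
    (aC (chk_sound smok0 c1338 (by decide +kernel)) (aC (chk_sound smok0 c1339 (by decide +kernel)) (aC (chk_sound smok0 c1340 (by decide +kernel)) (aC (chk_sound smok0 c1341 (by decide +kernel)) (aC (chk_sound smok0 c1342 (by decide +kernel)) (aC (chk_sound smok0 c1343 (by decide +kernel)) (aC (chk_sound smok0 c1344 (by decide +kernel)) (aC (chk_sound smok0 c1345 (by decide +kernel)) (aC (chk_sound smok0 c1346 (by decide +kernel)) (aC (chk_sound smok0 c1347 (by decide +kernel)) (aC (chk_sound smok0 c1348 (by decide +kernel)) aN)))))))))))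
theorem n142 : Rf E0 xe6 [84, 1297, 1223, 1136, 1053] :=
  node_sound smok0 (q := 17) (ch := [1402, 1401, 1400, 1396, 1395, 1389, 1388, 1387, 1386, 1381]) (by decide +kernel) (by decide +kernel)
    (aC (chk_sound smok0 c1349 (by decide +kernel)) (aC (chk_sound smok0 c1350 (by decide +kernel)) (aC (chk_sound smok0 c1351 (by decide +kernel)) (aC (chk_sound smok0 c1352 (by decide +kernel)) (aC (chk_sound smok0 c1353 (by decide +kernel)) (aC (chk_sound smok0 c1354 (by decide +kernel)) (aC (chk_sound smok0 c1355 (by decide +kernel)) (aC (chk_sound smok0 c1356 (by decide +kernel)) (aC (chk_sound smok0 c1357 (by decide +kernel)) (aC (chk_sound smok0 c1358 (by decide +kernel)) aN))))))))))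
theorem n143 : Rf E0 xe6 [1297, 1223, 1136, 1053] :=
  node_sound smok0 (q := 1) (ch := [107, 106, 105, 104, 101, 94, 93, 92, 91, 90, 88, 87, 84]) (by decide +kernel) (by decide +kernel)
    (aC n140 (aC (chk_sound smok0 c1359 (by decide +kernel)) (aC (chk_sound smok0 c1360 (by decide +kernel)) (aC (chk_sound smok0 c1361 (by decide +kernel)) (aC (chk_sound smok0 c1362 (by decide +kernel)) (aC n141 (aC (chk_sound smok0 c1363 (by decide +kernel)) (aC (chk_sound smok0 c1364 (by decide +kernel)) (aC (chk_sound smok0 c1365 (by decide +kernel)) (aC (chk_sound smok0 c1366 (by decide +kernel)) (aC (chk_sound smok0 c1367 (by decide +kernel)) (aC (chk_sound smok0 c1368 (by decide +kernel)) (aC n142 aN)))))))))))))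
theorem n144 : Rf E0 xe6 [1223, 1136, 1053] :=
  node_sound smok0 (q := 16) (ch := [1322, 1321, 1320, 1319, 1318, 1317, 1316, 1315, 1314, 1308, 1307, 1306, 1302, 1297]) (by decide +kernel) (by decide +kernel)
    (aC n111 (aC n112 (aC n113 (aC n115 (aC n119 (aC n120 (aC n121 (aC n123 (aC n127 (aC n131 (aC n132 (aC n135 (aC n139 (aC n143 aN))))))))))))))
theorem R0_6 : Rf E0 xe6 [1223, 1136, 1053] := n144
theorem n145 : Rf E0 xe7 [906, 992, 1224, 1136, 1053] :=
  node_sound smok0 (q := 26) (ch := [2125, 2124, 2123, 2122, 2111, 2110, 2109, 2107]) (by decide +kernel) (by decide +kernel)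
    (aC (chk_sound smok0 c1369 (by decide +kernel)) (aC (chk_sound smok0 c1370 (by decide +kernel)) (aC (chk_sound smok0 c1371 (by decide +kernel)) (aC (chk_sound smok0 c1372 (by decide +kernel)) (aC (chk_sound smok0 c1373 (by decide +kernel)) (aC (chk_sound smok0 c1374 (by decide +kernel)) (aC (chk_sound smok0 c1375 (by decide +kernel)) (aC (chk_sound smok0 c1376 (by decide +kernel)) aN))))))))
theorem n146 : Rf E0 xe7 [992, 1224, 1136, 1053] :=
  node_sound smok0 (q := 11) (ch := [914, 913, 907, 906, 899, 898, 897, 896, 895, 894, 892]) (by decide +kernel) (by decide +kernel)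
    (aC (chk_sound smok0 c1377 (by decide +kernel)) (aC (chk_sound smok0 c1378 (by decide +kernel)) (aC (chk_sound smok0 c1379 (by decide +kernel)) (aC n145 (aC (chk_sound smok0 c1380 (by decide +kernel)) (aC (chk_sound smok0 c1381 (by decide +kernel)) (aC (chk_sound smok0 c1382 (by decide +kernel)) (aC (chk_sound smok0 c1383 (by decide +kernel)) (aC (chk_sound smok0 c1384 (by decide +kernel)) (aC (chk_sound smok0 c1385 (by decide +kernel)) (aC (chk_sound smok0 c1386 (by decide +kernel)) aN)))))))))))
theorem n147 : Rf E0 xe7 [19, 988, 1224, 1136, 1053] :=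
  node_sound smok0 (q := 16) (ch := [1322, 1321, 1320, 1316, 1309, 1308, 1307, 1303, 1302, 1297]) (by decide +kernel) (by decide +kernel)
    (aC (chk_sound smok0 c1387 (by decide +kernel)) (aC (chk_sound smok0 c1388 (by decide +kernel)) (aC (chk_sound smok0 c1389 (by decide +kernel)) (aC (chk_sound smok0 c1390 (by decide +kernel)) (aC (chk_sound smok0 c1391 (by decide +kernel)) (aC (chk_sound smok0 c1392 (by decide +kernel)) (aC (chk_sound smok0 c1393 (by decide +kernel)) (aC (chk_sound smok0 c1394 (by decide +kernel)) (aC (chk_sound smok0 c1395 (by decide +kernel)) (aC (chk_sound smok0 c1396 (by decide +kernel)) aN))))))))))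
theorem n148 : Rf E0 xe7 [17, 988, 1224, 1136, 1053] :=
  node_sound smok0 (q := 30) (ch := [1947, 1866, 1785, 1704, 651, 570, 408, 327, 246, 165, 84]) (by decide +kernel) (by decide +kernel)
    (aC (chk_sound smok0 c1397 (by decide +kernel)) (aC (chk_sound smok0 c1398 (by decide +kernel)) (aC (chk_sound smok0 c1399 (by decide +kernel)) (aC (chk_sound smok0 c1400 (by decide +kernel)) (aC (chk_sound smok0 c1401 (by decide +kernel)) (aC (chk_sound smok0 c1402 (by decide +kernel)) (aC (chk_sound smok0 c1403 (by decide +kernel)) (aC (chk_sound smok0 c1404 (by decide +kernel)) (aC (chk_sound smok0 c1405 (by decide +kernel)) (aC (chk_sound smok0 c1406 (by decide +kernel)) (aC (chk_sound smok0 c1407 (by decide +kernel)) aN)))))))))))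
theorem n149 : Rf E0 xe7 [3, 988, 1224, 1136, 1053] :=
  node_sound smok0 (q := 11) (ch := [913, 912, 911, 905, 904, 903, 902, 901, 899, 898, 892]) (by decide +kernel) (by decide +kernel)
    (aC (chk_sound smok0 c1408 (by decide +kernel)) (aC (chk_sound smok0 c1409 (by decide +kernel)) (aC (chk_sound smok0 c1410 (by decide +kernel)) (aC (chk_sound smok0 c1411 (by decide +kernel)) (aC (chk_sound smok0 c1412 (by decide +kernel)) (aC (chk_sound smok0 c1413 (by decide +kernel)) (aC (chk_sound smok0 c1414 (by decide +kernel)) (aC (chk_sound smok0 c1415 (by decide +kernel)) (aC (chk_sound smok0 c1416 (by decide +kernel)) (aC (chk_sound smok0 c1417 (by decide +kernel)) (aC (chk_sound smok0 c1418 (by decide +kernel)) aN)))))))))))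
theorem n150 : Rf E0 xe7 [988, 1224, 1136, 1053] :=
  node_sound smok0 (q := 0) (ch := [25, 24, 21, 20, 19, 17, 11, 10, 8, 7, 6, 3]) (by decide +kernel) (by decide +kernel)
    (aC (chk_sound smok0 c1419 (by decide +kernel)) (aC (chk_sound smok0 c1420 (by decide +kernel)) (aC (chk_sound smok0 c1421 (by decide +kernel)) (aC (chk_sound smok0 c1422 (by decide +kernel)) (aC n147 (aC n148 (aC (chk_sound smok0 c1423 (by decide +kernel)) (aC (chk_sound smok0 c1424 (by decide +kernel)) (aC (chk_sound smok0 c1425 (by decide +kernel)) (aC (chk_sound smok0 c1426 (by decide +kernel)) (aC (chk_sound smok0 c1427 (by decide +kernel)) (aC n149 aN))))))))))))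
theorem n151 : Rf E0 xe7 [20, 987, 1224, 1136, 1053] :=
  node_sound smok0 (q := 1) (ch := [107, 106, 105, 98, 95, 94, 89, 88, 84, 82]) (by decide +kernel) (by decide +kernel)
    (aC (chk_sound smok0 c1428 (by decide +kernel)) (aC (chk_sound smok0 c1429 (by decide +kernel)) (aC (chk_sound smok0 c1430 (by decide +kernel)) (aC (chk_sound smok0 c1431 (by decide +kernel)) (aC (chk_sound smok0 c1432 (by decide +kernel)) (aC (chk_sound smok0 c1433 (by decide +kernel)) (aC (chk_sound smok0 c1434 (by decide +kernel)) (aC (chk_sound smok0 c1435 (by decide +kernel)) (aC (chk_sound smok0 c1436 (by decide +kernel)) (aC (chk_sound smok0 c1437 (by decide +kernel)) aN))))))))))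
theorem n152 : Rf E0 xe7 [19, 987, 1224, 1136, 1053] :=
  node_sound smok0 (q := 1) (ch := [107, 106, 105, 102, 98, 95, 91, 89, 88, 84, 82]) (by decide +kernel) (by decide +kernel)
    (aC (chk_sound smok0 c1438 (by decide +kernel)) (aC (chk_sound smok0 c1439 (by decide +kernel)) (aC (chk_sound smok0 c1440 (by decide +kernel)) (aC (chk_sound smok0 c1441 (by decide +kernel)) (aC (chk_sound smok0 c1442 (by decide +kernel)) (aC (chk_sound smok0 c1443 (by decide +kernel)) (aC (chk_sound smok0 c1444 (by decide +kernel)) (aC (chk_sound smok0 c1445 (by decide +kernel)) (aC (chk_sound smok0 c1446 (by decide +kernel)) (aC (chk_sound smok0 c1447 (by decide +kernel)) (aC (chk_sound smok0 c1448 (by decide +kernel)) aN)))))))))))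
theorem n153 : Rf E0 xe7 [17, 987, 1224, 1136, 1053] :=
  node_sound smok0 (q := 26) (ch := [2132, 2131, 2130, 2129, 2126, 2125, 2118, 2112, 2111, 2110, 2109]) (by decide +kernel) (by decide +kernel)
    (aC (chk_sound smok0 c1449 (by decide +kernel)) (aC (chk_sound smok0 c1450 (by decide +kernel)) (aC (chk_sound smok0 c1451 (by decide +kernel)) (aC (chk_sound smok0 c1452 (by decide +kernel)) (aC (chk_sound smok0 c1453 (by decide +kernel)) (aC (chk_sound smok0 c1454 (by decide +kernel)) (aC (chk_sound smok0 c1455 (by decide +kernel)) (aC (chk_sound smok0 c1456 (by decide +kernel)) (aC (chk_sound smok0 c1457 (by decide +kernel)) (aC (chk_sound smok0 c1458 (by decide +kernel)) (aC (chk_sound smok0 c1459 (by decide +kernel)) aN)))))))))))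
theorem n154 : Rf E0 xe7 [3, 987, 1224, 1136, 1053] :=
  node_sound smok0 (q := 28) (ch := [1783, 1702, 1540, 1459, 1378, 1297, 649, 406, 325, 244]) (by decide +kernel) (by decide +kernel)
    (aC (chk_sound smok0 c1460 (by decide +kernel)) (aC (chk_sound smok0 c1461 (by decide +kernel)) (aC (chk_sound smok0 c1462 (by decide +kernel)) (aC (chk_sound smok0 c1463 (by decide +kernel)) (aC (chk_sound smok0 c1464 (by decide +kernel)) (aC (chk_sound smok0 c1465 (by decide +kernel)) (aC (chk_sound smok0 c1466 (by decide +kernel)) (aC (chk_sound smok0 c1467 (by decide +kernel)) (aC (chk_sound smok0 c1468 (by decide +kernel)) (aC (chk_sound smok0 c1469 (by decide +kernel)) aN))))))))))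
theorem n155 : Rf E0 xe7 [987, 1224, 1136, 1053] :=
  node_sound smok0 (q := 0) (ch := [24, 23, 21, 20, 19, 17, 11, 10, 7, 6, 3]) (by decide +kernel) (by decide +kernel)
    (aC (chk_sound smok0 c1470 (by decide +kernel)) (aC (chk_sound smok0 c1471 (by decide +kernel)) (aC (chk_sound smok0 c1472 (by decide +kernel)) (aC n151 (aC n152 (aC n153 (aC (chk_sound smok0 c1473 (by decide +kernel)) (aC (chk_sound smok0 c1474 (by decide +kernel)) (aC (chk_sound smok0 c1475 (by decide +kernel)) (aC (chk_sound smok0 c1476 (by decide +kernel)) (aC n154 aN)))))))))))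
theorem n156 : Rf E0 xe7 [26, 986, 1224, 1136, 1053] :=
  node_sound smok0 (q := 45) (ch := [2124, 2043, 1962, 1881, 1800, 1638, 1557, 504, 423]) (by decide +kernel) (by decide +kernel)
    (aC (chk_sound smok0 c1477 (by decide +kernel)) (aC (chk_sound smok0 c1478 (by decide +kernel)) (aC (chk_sound smok0 c1479 (by decide +kernel)) (aC (chk_sound smok0 c1480 (by decide +kernel)) (aC (chk_sound smok0 c1481 (by decide +kernel)) (aC (chk_sound smok0 c1482 (by decide +kernel)) (aC (chk_sound smok0 c1483 (by decide +kernel)) (aC (chk_sound smok0 c1484 (by decide +kernel)) (aC (chk_sound smok0 c1485 (by decide +kernel)) aN)))))))))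
theorem n157 : Rf E0 xe7 [23, 986, 1224, 1136, 1053] :=
  node_sound smok0 (q := 1) (ch := [107, 106, 102, 101, 98, 94, 93, 92, 91, 84, 82]) (by decide +kernel) (by decide +kernel)
    (aC (chk_sound smok0 c1486 (by decide +kernel)) (aC (chk_sound smok0 c1487 (by decide +kernel)) (aC (chk_sound smok0 c1488 (by decide +kernel)) (aC (chk_sound smok0 c1489 (by decide +kernel)) (aC (chk_sound smok0 c1490 (by decide +kernel)) (aC (chk_sound smok0 c1491 (by decide +kernel)) (aC (chk_sound smok0 c1492 (by decide +kernel)) (aC (chk_sound smok0 c1493 (by decide +kernel)) (aC (chk_sound smok0 c1494 (by decide +kernel)) (aC (chk_sound smok0 c1495 (by decide +kernel)) (aC (chk_sound smok0 c1496 (by decide +kernel)) aN)))))))))))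
theorem n158 : Rf E0 xe7 [19, 986, 1224, 1136, 1053] :=
  node_sound smok0 (q := 1) (ch := [107, 106, 105, 102, 98, 91, 89, 88, 84, 82]) (by decide +kernel) (by decide +kernel)
    (aC (chk_sound smok0 c1497 (by decide +kernel)) (aC (chk_sound smok0 c1498 (by decide +kernel)) (aC (chk_sound smok0 c1499 (by decide +kernel)) (aC (chk_sound smok0 c1500 (by decide +kernel)) (aC (chk_sound smok0 c1501 (by decide +kernel)) (aC (chk_sound smok0 c1502 (by decide +kernel)) (aC (chk_sound smok0 c1503 (by decide +kernel)) (aC (chk_sound smok0 c1504 (by decide +kernel)) (aC (chk_sound smok0 c1505 (by decide +kernel)) (aC (chk_sound smok0 c1506 (by decide +kernel)) aN))))))))))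
theorem n159 : Rf E0 xe7 [17, 986, 1224, 1136, 1053] :=
  node_sound smok0 (q := 16) (ch := [1322, 1321, 1320, 1319, 1318, 1309, 1308, 1307, 1303, 1302, 1297]) (by decide +kernel) (by decide +kernel)
    (aC (chk_sound smok0 c1507 (by decide +kernel)) (aC (chk_sound smok0 c1508 (by decide +kernel)) (aC (chk_sound smok0 c1509 (by decide +kernel)) (aC (chk_sound smok0 c1510 (by decide +kernel)) (aC (chk_sound smok0 c1511 (by decide +kernel)) (aC (chk_sound smok0 c1512 (by decide +kernel)) (aC (chk_sound smok0 c1513 (by decide +kernel)) (aC (chk_sound smok0 c1514 (by decide +kernel)) (aC (chk_sound smok0 c1515 (by decide +kernel)) (aC (chk_sound smok0 c1516 (by decide +kernel)) (aC (chk_sound smok0 c1517 (by decide +kernel)) aN)))))))))))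
theorem n160 : Rf E0 xe7 [3, 986, 1224, 1136, 1053] :=
  node_sound smok0 (q := 26) (ch := [2132, 2125, 2124, 2123, 2122, 2121, 2118, 2117, 2116, 2112, 2111]) (by decide +kernel) (by decide +kernel)
    (aC (chk_sound smok0 c1518 (by decide +kernel)) (aC (chk_sound smok0 c1519 (by decide +kernel)) (aC (chk_sound smok0 c1520 (by decide +kernel)) (aC (chk_sound smok0 c1521 (by decide +kernel)) (aC (chk_sound smok0 c1522 (by decide +kernel)) (aC (chk_sound smok0 c1523 (by decide +kernel)) (aC (chk_sound smok0 c1524 (by decide +kernel)) (aC (chk_sound smok0 c1525 (by decide +kernel)) (aC (chk_sound smok0 c1526 (by decide +kernel)) (aC (chk_sound smok0 c1527 (by decide +kernel)) (aC (chk_sound smok0 c1528 (by decide +kernel)) aN)))))))))))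
theorem n161 : Rf E0 xe7 [986, 1224, 1136, 1053] :=
  node_sound smok0 (q := 0) (ch := [26, 24, 23, 20, 19, 17, 10, 7, 6, 3]) (by decide +kernel) (by decide +kernel)
    (aC n156 (aC (chk_sound smok0 c1529 (by decide +kernel)) (aC n157 (aC (chk_sound smok0 c1530 (by decide +kernel)) (aC n158 (aC n159 (aC (chk_sound smok0 c1531 (by decide +kernel)) (aC (chk_sound smok0 c1532 (by decide +kernel)) (aC (chk_sound smok0 c1533 (by decide +kernel)) (aC n160 aN))))))))))
theorem n162 : Rf E0 xe7 [26, 985, 1224, 1136, 1053] :=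
  node_sound smok0 (q := 45) (ch := [2124, 2043, 1962, 1881, 1800, 1638, 1557, 504, 423]) (by decide +kernel) (by decide +kernel)
    (aC (chk_sound smok0 c1534 (by decide +kernel)) (aC (chk_sound smok0 c1535 (by decide +kernel)) (aC (chk_sound smok0 c1536 (by decide +kernel)) (aC (chk_sound smok0 c1537 (by decide +kernel)) (aC (chk_sound smok0 c1538 (by decide +kernel)) (aC (chk_sound smok0 c1539 (by decide +kernel)) (aC (chk_sound smok0 c1540 (by decide +kernel)) (aC (chk_sound smok0 c1541 (by decide +kernel)) (aC (chk_sound smok0 c1542 (by decide +kernel)) aN)))))))))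
theorem n163 : Rf E0 xe7 [22, 985, 1224, 1136, 1053] :=
  node_sound smok0 (q := 1) (ch := [107, 106, 105, 101, 98, 95, 93, 92, 88, 84, 82]) (by decide +kernel) (by decide +kernel)
    (aC (chk_sound smok0 c1543 (by decide +kernel)) (aC (chk_sound smok0 c1544 (by decide +kernel)) (aC (chk_sound smok0 c1545 (by decide +kernel)) (aC (chk_sound smok0 c1546 (by decide +kernel)) (aC (chk_sound smok0 c1547 (by decide +kernel)) (aC (chk_sound smok0 c1548 (by decide +kernel)) (aC (chk_sound smok0 c1549 (by decide +kernel)) (aC (chk_sound smok0 c1550 (by decide +kernel)) (aC (chk_sound smok0 c1551 (by decide +kernel)) (aC (chk_sound smok0 c1552 (by decide +kernel)) (aC (chk_sound smok0 c1553 (by decide +kernel)) aN)))))))))))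
theorem n164 : Rf E0 xe7 [19, 985, 1224, 1136, 1053] :=
  node_sound smok0 (q := 16) (ch := [1319, 1318, 1317, 1316, 1310, 1308, 1307, 1303, 1302, 1297]) (by decide +kernel) (by decide +kernel)
    (aC (chk_sound smok0 c1554 (by decide +kernel)) (aC (chk_sound smok0 c1555 (by decide +kernel)) (aC (chk_sound smok0 c1556 (by decide +kernel)) (aC (chk_sound smok0 c1557 (by decide +kernel)) (aC (chk_sound smok0 c1558 (by decide +kernel)) (aC (chk_sound smok0 c1559 (by decide +kernel)) (aC (chk_sound smok0 c1560 (by decide +kernel)) (aC (chk_sound smok0 c1561 (by decide +kernel)) (aC (chk_sound smok0 c1562 (by decide +kernel)) (aC (chk_sound smok0 c1563 (by decide +kernel)) aN))))))))))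
theorem n165 : Rf E0 xe7 [17, 985, 1224, 1136, 1053] :=
  node_sound smok0 (q := 16) (ch := [1322, 1321, 1320, 1319, 1310, 1308, 1307, 1303, 1302, 1297]) (by decide +kernel) (by decide +kernel)
    (aC (chk_sound smok0 c1564 (by decide +kernel)) (aC (chk_sound smok0 c1565 (by decide +kernel)) (aC (chk_sound smok0 c1566 (by decide +kernel)) (aC (chk_sound smok0 c1567 (by decide +kernel)) (aC (chk_sound smok0 c1568 (by decide +kernel)) (aC (chk_sound smok0 c1569 (by decide +kernel)) (aC (chk_sound smok0 c1570 (by decide +kernel)) (aC (chk_sound smok0 c1571 (by decide +kernel)) (aC (chk_sound smok0 c1572 (by decide +kernel)) (aC (chk_sound smok0 c1573 (by decide +kernel)) aN))))))))))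
theorem n166 : Rf E0 xe7 [3, 985, 1224, 1136, 1053] :=
  node_sound smok0 (q := 43) (ch := [2122, 2041, 1960, 1879, 1798, 1555, 1474, 907, 502, 421]) (by decide +kernel) (by decide +kernel)
    (aC (chk_sound smok0 c1574 (by decide +kernel)) (aC (chk_sound smok0 c1575 (by decide +kernel)) (aC (chk_sound smok0 c1576 (by decide +kernel)) (aC (chk_sound smok0 c1577 (by decide +kernel)) (aC (chk_sound smok0 c1578 (by decide +kernel)) (aC (chk_sound smok0 c1579 (by decide +kernel)) (aC (chk_sound smok0 c1580 (by decide +kernel)) (aC (chk_sound smok0 c1581 (by decide +kernel)) (aC (chk_sound smok0 c1582 (by decide +kernel)) (aC (chk_sound smok0 c1583 (by decide +kernel)) aN))))))))))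
theorem n167 : Rf E0 xe7 [985, 1224, 1136, 1053] :=
  node_sound smok0 (q := 0) (ch := [26, 23, 22, 20, 19, 17, 12, 10, 6, 3]) (by decide +kernel) (by decide +kernel)
    (aC n162 (aC (chk_sound smok0 c1584 (by decide +kernel)) (aC n163 (aC (chk_sound smok0 c1585 (by decide +kernel)) (aC n164 (aC n165 (aC (chk_sound smok0 c1586 (by decide +kernel)) (aC (chk_sound smok0 c1587 (by decide +kernel)) (aC (chk_sound smok0 c1588 (by decide +kernel)) (aC n166 aN))))))))))
theorem n168 : Rf E0 xe7 [984, 1224, 1136, 1053] :=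
  node_sound smok0 (q := 0) (ch := [26, 25, 23, 22, 19, 17, 8, 6, 3]) (by decide +kernel) (by decide +kernel)
    (aC (chk_sound smok0 c1589 (by decide +kernel)) (aC (chk_sound smok0 c1590 (by decide +kernel)) (aC (chk_sound smok0 c1591 (by decide +kernel)) (aC (chk_sound smok0 c1592 (by decide +kernel)) (aC (chk_sound smok0 c1593 (by decide +kernel)) (aC (chk_sound smok0 c1594 (by decide +kernel)) (aC (chk_sound smok0 c1595 (by decide +kernel)) (aC (chk_sound smok0 c1596 (by decide +kernel)) (aC (chk_sound smok0 c1597 (by decide +kernel)) aN)))))))))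
theorem n169 : Rf E0 xe7 [983, 1224, 1136, 1053] :=
  node_sound smok0 (q := 0) (ch := [26, 25, 22, 21, 19, 17, 12, 8, 3]) (by decide +kernel) (by decide +kernel)
    (aC (chk_sound smok0 c1598 (by decide +kernel)) (aC (chk_sound smok0 c1599 (by decide +kernel)) (aC (chk_sound smok0 c1600 (by decide +kernel)) (aC (chk_sound smok0 c1601 (by decide +kernel)) (aC (chk_sound smok0 c1602 (by decide +kernel)) (aC (chk_sound smok0 c1603 (by decide +kernel)) (aC (chk_sound smok0 c1604 (by decide +kernel)) (aC (chk_sound smok0 c1605 (by decide +kernel)) (aC (chk_sound smok0 c1606 (by decide +kernel)) aN)))))))))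
theorem n170 : Rf E0 xe7 [982, 1224, 1136, 1053] :=
  node_sound smok0 (q := 0) (ch := [26, 25, 24, 22, 21, 17, 12, 11, 8, 7, 3]) (by decide +kernel) (by decide +kernel)
    (aC (chk_sound smok0 c1607 (by decide +kernel)) (aC (chk_sound smok0 c1608 (by decide +kernel)) (aC (chk_sound smok0 c1609 (by decide +kernel)) (aC (chk_sound smok0 c1610 (by decide +kernel)) (aC (chk_sound smok0 c1611 (by decide +kernel)) (aC (chk_sound smok0 c1612 (by decide +kernel)) (aC (chk_sound smok0 c1613 (by decide +kernel)) (aC (chk_sound smok0 c1614 (by decide +kernel)) (aC (chk_sound smok0 c1615 (by decide +kernel)) (aC (chk_sound smok0 c1616 (by decide +kernel)) (aC (chk_sound smok0 c1617 (by decide +kernel)) aN)))))))))))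
theorem n171 : Rf E0 xe7 [980, 1224, 1136, 1053] :=
  node_sound smok0 (q := 16) (ch := [1322, 1321, 1317, 1316, 1310, 1309, 1308, 1307, 1303, 1302, 1297]) (by decide +kernel) (by decide +kernel)
    (aC (chk_sound smok0 c1618 (by decide +kernel)) (aC (chk_sound smok0 c1619 (by decide +kernel)) (aC (chk_sound smok0 c1620 (by decide +kernel)) (aC (chk_sound smok0 c1621 (by decide +kernel)) (aC (chk_sound smok0 c1622 (by decide +kernel)) (aC (chk_sound smok0 c1623 (by decide +kernel)) (aC (chk_sound smok0 c1624 (by decide +kernel)) (aC (chk_sound smok0 c1625 (by decide +kernel)) (aC (chk_sound smok0 c1626 (by decide +kernel)) (aC (chk_sound smok0 c1627 (by decide +kernel)) (aC (chk_sound smok0 c1628 (by decide +kernel)) aN)))))))))))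
theorem n172 : Rf E0 xe7 [979, 1224, 1136, 1053] :=
  node_sound smok0 (q := 11) (ch := [914, 913, 912, 911, 907, 901, 896, 895, 894, 892]) (by decide +kernel) (by decide +kernel)
    (aC (chk_sound smok0 c1629 (by decide +kernel)) (aC (chk_sound smok0 c1630 (by decide +kernel)) (aC (chk_sound smok0 c1631 (by decide +kernel)) (aC (chk_sound smok0 c1632 (by decide +kernel)) (aC (chk_sound smok0 c1633 (by decide +kernel)) (aC (chk_sound smok0 c1634 (by decide +kernel)) (aC (chk_sound smok0 c1635 (by decide +kernel)) (aC (chk_sound smok0 c1636 (by decide +kernel)) (aC (chk_sound smok0 c1637 (by decide +kernel)) (aC (chk_sound smok0 c1638 (by decide +kernel)) aN))))))))))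
theorem n173 : Rf E0 xe7 [978, 1224, 1136, 1053] :=
  node_sound smok0 (q := 16) (ch := [1319, 1318, 1317, 1316, 1310, 1309, 1308, 1307, 1303, 1297]) (by decide +kernel) (by decide +kernel)
    (aC (chk_sound smok0 c1639 (by decide +kernel)) (aC (chk_sound smok0 c1640 (by decide +kernel)) (aC (chk_sound smok0 c1641 (by decide +kernel)) (aC (chk_sound smok0 c1642 (by decide +kernel)) (aC (chk_sound smok0 c1643 (by decide +kernel)) (aC (chk_sound smok0 c1644 (by decide +kernel)) (aC (chk_sound smok0 c1645 (by decide +kernel)) (aC (chk_sound smok0 c1646 (by decide +kernel)) (aC (chk_sound smok0 c1647 (by decide +kernel)) (aC (chk_sound smok0 c1648 (by decide +kernel)) aN))))))))))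
theorem n174 : Rf E0 xe7 [977, 1224, 1136, 1053] :=
  node_sound smok0 (q := 0) (ch := [26, 25, 24, 23, 22, 19, 12, 11, 10, 8, 6]) (by decide +kernel) (by decide +kernel)
    (aC (chk_sound smok0 c1649 (by decide +kernel)) (aC (chk_sound smok0 c1650 (by decide +kernel)) (aC (chk_sound smok0 c1651 (by decide +kernel)) (aC (chk_sound smok0 c1652 (by decide +kernel)) (aC (chk_sound smok0 c1653 (by decide +kernel)) (aC (chk_sound smok0 c1654 (by decide +kernel)) (aC (chk_sound smok0 c1655 (by decide +kernel)) (aC (chk_sound smok0 c1656 (by decide +kernel)) (aC (chk_sound smok0 c1657 (by decide +kernel)) (aC (chk_sound smok0 c1658 (by decide +kernel)) (aC (chk_sound smok0 c1659 (by decide +kernel)) aN)))))))))))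
theorem n175 : Rf E0 xe7 [19, 976, 1224, 1136, 1053] :=
  node_sound smok0 (q := 16) (ch := [1321, 1320, 1319, 1318, 1317, 1316, 1310, 1309, 1308, 1307]) (by decide +kernel) (by decide +kernel)
    (aC (chk_sound smok0 c1660 (by decide +kernel)) (aC (chk_sound smok0 c1661 (by decide +kernel)) (aC (chk_sound smok0 c1662 (by decide +kernel)) (aC (chk_sound smok0 c1663 (by decide +kernel)) (aC (chk_sound smok0 c1664 (by decide +kernel)) (aC (chk_sound smok0 c1665 (by decide +kernel)) (aC (chk_sound smok0 c1666 (by decide +kernel)) (aC (chk_sound smok0 c1667 (by decide +kernel)) (aC (chk_sound smok0 c1668 (by decide +kernel)) (aC (chk_sound smok0 c1669 (by decide +kernel)) aN))))))))))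
theorem n176 : Rf E0 xe7 [976, 1224, 1136, 1053] :=
  node_sound smok0 (q := 0) (ch := [26, 25, 24, 23, 22, 21, 19, 12, 11, 10, 8]) (by decide +kernel) (by decide +kernel)
    (aC (chk_sound smok0 c1670 (by decide +kernel)) (aC (chk_sound smok0 c1671 (by decide +kernel)) (aC (chk_sound smok0 c1672 (by decide +kernel)) (aC (chk_sound smok0 c1673 (by decide +kernel)) (aC (chk_sound smok0 c1674 (by decide +kernel)) (aC (chk_sound smok0 c1675 (by decide +kernel)) (aC n175 (aC (chk_sound smok0 c1676 (by decide +kernel)) (aC (chk_sound smok0 c1677 (by decide +kernel)) (aC (chk_sound smok0 c1678 (by decide +kernel)) (aC (chk_sound smok0 c1679 (by decide +kernel)) aN)))))))))))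
theorem n177 : Rf E0 xe7 [24, 975, 1224, 1136, 1053] :=
  node_sound smok0 (q := 1) (ch := [107, 102, 101, 98, 95, 94, 93, 92, 91, 82]) (by decide +kernel) (by decide +kernel)
    (aC (chk_sound smok0 c1680 (by decide +kernel)) (aC (chk_sound smok0 c1681 (by decide +kernel)) (aC (chk_sound smok0 c1682 (by decide +kernel)) (aC (chk_sound smok0 c1683 (by decide +kernel)) (aC (chk_sound smok0 c1684 (by decide +kernel)) (aC (chk_sound smok0 c1685 (by decide +kernel)) (aC (chk_sound smok0 c1686 (by decide +kernel)) (aC (chk_sound smok0 c1687 (by decide +kernel)) (aC (chk_sound smok0 c1688 (by decide +kernel)) (aC (chk_sound smok0 c1689 (by decide +kernel)) aN))))))))))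
theorem n178 : Rf E0 xe7 [17, 975, 1224, 1136, 1053] :=
  node_sound smok0 (q := 1) (ch := [107, 106, 105, 102, 101, 93, 92, 91, 89, 88, 82]) (by decide +kernel) (by decide +kernel)
    (aC (chk_sound smok0 c1690 (by decide +kernel)) (aC (chk_sound smok0 c1691 (by decide +kernel)) (aC (chk_sound smok0 c1692 (by decide +kernel)) (aC (chk_sound smok0 c1693 (by decide +kernel)) (aC (chk_sound smok0 c1694 (by decide +kernel)) (aC (chk_sound smok0 c1695 (by decide +kernel)) (aC (chk_sound smok0 c1696 (by decide +kernel)) (aC (chk_sound smok0 c1697 (by decide +kernel)) (aC (chk_sound smok0 c1698 (by decide +kernel)) (aC (chk_sound smok0 c1699 (by decide +kernel)) (aC (chk_sound smok0 c1700 (by decide +kernel)) aN)))))))))))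
theorem n179 : Rf E0 xe7 [975, 1224, 1136, 1053] :=
  node_sound smok0 (q := 0) (ch := [26, 25, 24, 23, 22, 21, 17, 12, 11, 10, 8, 7]) (by decide +kernel) (by decide +kernel)
    (aC (chk_sound smok0 c1701 (by decide +kernel)) (aC (chk_sound smok0 c1702 (by decide +kernel)) (aC n177 (aC (chk_sound smok0 c1703 (by decide +kernel)) (aC (chk_sound smok0 c1704 (by decide +kernel)) (aC (chk_sound smok0 c1705 (by decide +kernel)) (aC n178 (aC (chk_sound smok0 c1706 (by decide +kernel)) (aC (chk_sound smok0 c1707 (by decide +kernel)) (aC (chk_sound smok0 c1708 (by decide +kernel)) (aC (chk_sound smok0 c1709 (by decide +kernel)) (aC (chk_sound smok0 c1710 (by decide +kernel)) aN))))))))))))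
theorem n180 : Rf E0 xe7 [1224, 1136, 1053] :=
  node_sound smok0 (q := 12) (ch := [992, 988, 987, 986, 985, 984, 983, 982, 980, 979, 978, 977, 976, 975]) (by decide +kernel) (by decide +kernel)
    (aC n146 (aC n150 (aC n155 (aC n161 (aC n167 (aC n168 (aC n169 (aC n170 (aC n171 (aC n172 (aC n173 (aC n174 (aC n176 (aC n179 aN))))))))))))))
theorem R0_7 : Rf E0 xe7 [1224, 1136, 1053] := n180
theorem n181 : Rf E0 xe8 [906, 991, 1225, 1136, 1053] :=
  node_sound smok0 (q := 26) (ch := [2131, 2126, 2124, 2123, 2122, 2110, 2109, 2107]) (by decide +kernel) (by decide +kernel)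
    (aC (chk_sound smok0 c1711 (by decide +kernel)) (aC (chk_sound smok0 c1712 (by decide +kernel)) (aC (chk_sound smok0 c1713 (by decide +kernel)) (aC (chk_sound smok0 c1714 (by decide +kernel)) (aC (chk_sound smok0 c1715 (by decide +kernel)) (aC (chk_sound smok0 c1716 (by decide +kernel)) (aC (chk_sound smok0 c1717 (by decide +kernel)) (aC (chk_sound smok0 c1718 (by decide +kernel)) aN))))))))
theorem n182 : Rf E0 xe8 [904, 991, 1225, 1136, 1053] :=
  node_sound smok0 (q := 10) (ch := [834, 833, 832, 831, 830, 825, 815, 814, 813]) (by decide +kernel) (by decide +kernel)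
    (aC (chk_sound smok0 c1719 (by decide +kernel)) (aC (chk_sound smok0 c1720 (by decide +kernel)) (aC (chk_sound smok0 c1721 (by decide +kernel)) (aC (chk_sound smok0 c1722 (by decide +kernel)) (aC (chk_sound smok0 c1723 (by decide +kernel)) (aC (chk_sound smok0 c1724 (by decide +kernel)) (aC (chk_sound smok0 c1725 (by decide +kernel)) (aC (chk_sound smok0 c1726 (by decide +kernel)) (aC (chk_sound smok0 c1727 (by decide +kernel)) aN)))))))))
theorem n183 : Rf E0 xe8 [896, 991, 1225, 1136, 1053] :=
  node_sound smok0 (q := 16) (ch := [1320, 1312, 1311, 1310, 1304, 1303, 1302, 1297]) (by decide +kernel) (by decide +kernel)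
    (aC (chk_sound smok0 c1728 (by decide +kernel)) (aC (chk_sound smok0 c1729 (by decide +kernel)) (aC (chk_sound smok0 c1730 (by decide +kernel)) (aC (chk_sound smok0 c1731 (by decide +kernel)) (aC (chk_sound smok0 c1732 (by decide +kernel)) (aC (chk_sound smok0 c1733 (by decide +kernel)) (aC (chk_sound smok0 c1734 (by decide +kernel)) (aC (chk_sound smok0 c1735 (by decide +kernel)) aN))))))))
theorem n184 : Rf E0 xe8 [892, 991, 1225, 1136, 1053] :=
  node_sound smok0 (q := 16) (ch := [1320, 1319, 1318, 1312, 1311, 1310, 1304, 1303, 1302]) (by decide +kernel) (by decide +kernel)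
    (aC (chk_sound smok0 c1736 (by decide +kernel)) (aC (chk_sound smok0 c1737 (by decide +kernel)) (aC (chk_sound smok0 c1738 (by decide +kernel)) (aC (chk_sound smok0 c1739 (by decide +kernel)) (aC (chk_sound smok0 c1740 (by decide +kernel)) (aC (chk_sound smok0 c1741 (by decide +kernel)) (aC (chk_sound smok0 c1742 (by decide +kernel)) (aC (chk_sound smok0 c1743 (by decide +kernel)) (aC (chk_sound smok0 c1744 (by decide +kernel)) aN)))))))))
theorem n185 : Rf E0 xe8 [991, 1225, 1136, 1053] :=
  node_sound smok0 (q := 11) (ch := [914, 913, 912, 906, 905, 904, 898, 897, 896, 895, 894, 892]) (by decide +kernel) (by decide +kernel)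
    (aC (chk_sound smok0 c1745 (by decide +kernel)) (aC (chk_sound smok0 c1746 (by decide +kernel)) (aC (chk_sound smok0 c1747 (by decide +kernel)) (aC n181 (aC (chk_sound smok0 c1748 (by decide +kernel)) (aC n182 (aC (chk_sound smok0 c1749 (by decide +kernel)) (aC (chk_sound smok0 c1750 (by decide +kernel)) (aC n183 (aC (chk_sound smok0 c1751 (by decide +kernel)) (aC (chk_sound smok0 c1752 (by decide +kernel)) (aC n184 aN))))))))))))
theorem n186 : Rf E0 xe8 [20, 987, 1225, 1136, 1053] :=
  node_sound smok0 (q := 16) (ch := [1319, 1318, 1310, 1309, 1308, 1304, 1303, 1302, 1297]) (by decide +kernel) (by decide +kernel)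
    (aC (chk_sound smok0 c1753 (by decide +kernel)) (aC (chk_sound smok0 c1754 (by decide +kernel)) (aC (chk_sound smok0 c1755 (by decide +kernel)) (aC (chk_sound smok0 c1756 (by decide +kernel)) (aC (chk_sound smok0 c1757 (by decide +kernel)) (aC (chk_sound smok0 c1758 (by decide +kernel)) (aC (chk_sound smok0 c1759 (by decide +kernel)) (aC (chk_sound smok0 c1760 (by decide +kernel)) (aC (chk_sound smok0 c1761 (by decide +kernel)) aN)))))))))
theorem n187 : Rf E0 xe8 [987, 1225, 1136, 1053] :=
  node_sound smok0 (q := 0) (ch := [25, 24, 23, 21, 20, 17, 11, 7, 6, 4, 3]) (by decide +kernel) (by decide +kernel)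
    (aC (chk_sound smok0 c1762 (by decide +kernel)) (aC (chk_sound smok0 c1763 (by decide +kernel)) (aC (chk_sound smok0 c1764 (by decide +kernel)) (aC (chk_sound smok0 c1765 (by decide +kernel)) (aC n186 (aC (chk_sound smok0 c1766 (by decide +kernel)) (aC (chk_sound smok0 c1767 (by decide +kernel)) (aC (chk_sound smok0 c1768 (by decide +kernel)) (aC (chk_sound smok0 c1769 (by decide +kernel)) (aC (chk_sound smok0 c1770 (by decide +kernel)) (aC (chk_sound smok0 c1771 (by decide +kernel)) aN)))))))))))
theorem n188 : Rf E0 xe8 [20, 986, 1225, 1136, 1053] :=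
  node_sound smok0 (q := 16) (ch := [1320, 1319, 1318, 1311, 1309, 1308, 1304, 1303, 1302, 1297]) (by decide +kernel) (by decide +kernel)
    (aC (chk_sound smok0 c1772 (by decide +kernel)) (aC (chk_sound smok0 c1773 (by decide +kernel)) (aC (chk_sound smok0 c1774 (by decide +kernel)) (aC (chk_sound smok0 c1775 (by decide +kernel)) (aC (chk_sound smok0 c1776 (by decide +kernel)) (aC (chk_sound smok0 c1777 (by decide +kernel)) (aC (chk_sound smok0 c1778 (by decide +kernel)) (aC (chk_sound smok0 c1779 (by decide +kernel)) (aC (chk_sound smok0 c1780 (by decide +kernel)) (aC (chk_sound smok0 c1781 (by decide +kernel)) aN))))))))))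
theorem n189 : Rf E0 xe8 [17, 986, 1225, 1136, 1053] :=
  node_sound smok0 (q := 26) (ch := [2132, 2131, 2130, 2129, 2125, 2121, 2118, 2112, 2111, 2110, 2109]) (by decide +kernel) (by decide +kernel)
    (aC (chk_sound smok0 c1782 (by decide +kernel)) (aC (chk_sound smok0 c1783 (by decide +kernel)) (aC (chk_sound smok0 c1784 (by decide +kernel)) (aC (chk_sound smok0 c1785 (by decide +kernel)) (aC (chk_sound smok0 c1786 (by decide +kernel)) (aC (chk_sound smok0 c1787 (by decide +kernel)) (aC (chk_sound smok0 c1788 (by decide +kernel)) (aC (chk_sound smok0 c1789 (by decide +kernel)) (aC (chk_sound smok0 c1790 (by decide +kernel)) (aC (chk_sound smok0 c1791 (by decide +kernel)) (aC (chk_sound smok0 c1792 (by decide +kernel)) aN)))))))))))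
theorem n190 : Rf E0 xe8 [7, 986, 1225, 1136, 1053] :=
  node_sound smok0 (q := 16) (ch := [1321, 1320, 1319, 1318, 1311, 1309, 1308, 1304, 1302]) (by decide +kernel) (by decide +kernel)
    (aC (chk_sound smok0 c1793 (by decide +kernel)) (aC (chk_sound smok0 c1794 (by decide +kernel)) (aC (chk_sound smok0 c1795 (by decide +kernel)) (aC (chk_sound smok0 c1796 (by decide +kernel)) (aC (chk_sound smok0 c1797 (by decide +kernel)) (aC (chk_sound smok0 c1798 (by decide +kernel)) (aC (chk_sound smok0 c1799 (by decide +kernel)) (aC (chk_sound smok0 c1800 (by decide +kernel)) (aC (chk_sound smok0 c1801 (by decide +kernel)) aN)))))))))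
theorem n191 : Rf E0 xe8 [986, 1225, 1136, 1053] :=
  node_sound smok0 (q := 0) (ch := [24, 23, 20, 17, 11, 9, 7, 6, 4, 3]) (by decide +kernel) (by decide +kernel)
    (aC (chk_sound smok0 c1802 (by decide +kernel)) (aC (chk_sound smok0 c1803 (by decide +kernel)) (aC n188 (aC n189 (aC (chk_sound smok0 c1804 (by decide +kernel)) (aC (chk_sound smok0 c1805 (by decide +kernel)) (aC n190 (aC (chk_sound smok0 c1806 (by decide +kernel)) (aC (chk_sound smok0 c1807 (by decide +kernel)) (aC (chk_sound smok0 c1808 (by decide +kernel)) aN))))))))))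
theorem n192 : Rf E0 xe8 [26, 985, 1225, 1136, 1053] :=
  node_sound smok0 (q := 1) (ch := [103, 102, 98, 95, 93, 92, 90, 89, 88, 84, 82]) (by decide +kernel) (by decide +kernel)
    (aC (chk_sound smok0 c1809 (by decide +kernel)) (aC (chk_sound smok0 c1810 (by decide +kernel)) (aC (chk_sound smok0 c1811 (by decide +kernel)) (aC (chk_sound smok0 c1812 (by decide +kernel)) (aC (chk_sound smok0 c1813 (by decide +kernel)) (aC (chk_sound smok0 c1814 (by decide +kernel)) (aC (chk_sound smok0 c1815 (by decide +kernel)) (aC (chk_sound smok0 c1816 (by decide +kernel)) (aC (chk_sound smok0 c1817 (by decide +kernel)) (aC (chk_sound smok0 c1818 (by decide +kernel)) (aC (chk_sound smok0 c1819 (by decide +kernel)) aN)))))))))))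
theorem n193 : Rf E0 xe8 [24, 985, 1225, 1136, 1053] :=
  node_sound smok0 (q := 16) (ch := [1322, 1321, 1319, 1318, 1312, 1311, 1310, 1308, 1302, 1297]) (by decide +kernel) (by decide +kernel)
    (aC (chk_sound smok0 c1820 (by decide +kernel)) (aC (chk_sound smok0 c1821 (by decide +kernel)) (aC (chk_sound smok0 c1822 (by decide +kernel)) (aC (chk_sound smok0 c1823 (by decide +kernel)) (aC (chk_sound smok0 c1824 (by decide +kernel)) (aC (chk_sound smok0 c1825 (by decide +kernel)) (aC (chk_sound smok0 c1826 (by decide +kernel)) (aC (chk_sound smok0 c1827 (by decide +kernel)) (aC (chk_sound smok0 c1828 (by decide +kernel)) (aC (chk_sound smok0 c1829 (by decide +kernel)) aN))))))))))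
theorem n194 : Rf E0 xe8 [22, 985, 1225, 1136, 1053] :=
  node_sound smok0 (q := 1) (ch := [107, 106, 98, 95, 93, 92, 88, 85, 84, 82]) (by decide +kernel) (by decide +kernel)
    (aC (chk_sound smok0 c1830 (by decide +kernel)) (aC (chk_sound smok0 c1831 (by decide +kernel)) (aC (chk_sound smok0 c1832 (by decide +kernel)) (aC (chk_sound smok0 c1833 (by decide +kernel)) (aC (chk_sound smok0 c1834 (by decide +kernel)) (aC (chk_sound smok0 c1835 (by decide +kernel)) (aC (chk_sound smok0 c1836 (by decide +kernel)) (aC (chk_sound smok0 c1837 (by decide +kernel)) (aC (chk_sound smok0 c1838 (by decide +kernel)) (aC (chk_sound smok0 c1839 (by decide +kernel)) aN))))))))))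
theorem n195 : Rf E0 xe8 [20, 985, 1225, 1136, 1053] :=
  node_sound smok0 (q := 1) (ch := [107, 106, 103, 98, 95, 90, 89, 88, 85, 84, 82]) (by decide +kernel) (by decide +kernel)
    (aC (chk_sound smok0 c1840 (by decide +kernel)) (aC (chk_sound smok0 c1841 (by decide +kernel)) (aC (chk_sound smok0 c1842 (by decide +kernel)) (aC (chk_sound smok0 c1843 (by decide +kernel)) (aC (chk_sound smok0 c1844 (by decide +kernel)) (aC (chk_sound smok0 c1845 (by decide +kernel)) (aC (chk_sound smok0 c1846 (by decide +kernel)) (aC (chk_sound smok0 c1847 (by decide +kernel)) (aC (chk_sound smok0 c1848 (by decide +kernel)) (aC (chk_sound smok0 c1849 (by decide +kernel)) (aC (chk_sound smok0 c1850 (by decide +kernel)) aN)))))))))))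
theorem n196 : Rf E0 xe8 [17, 985, 1225, 1136, 1053] :=
  node_sound smok0 (q := 26) (ch := [2131, 2130, 2129, 2128, 2125, 2121, 2118, 2111, 2110, 2109, 2107]) (by decide +kernel) (by decide +kernel)
    (aC (chk_sound smok0 c1851 (by decide +kernel)) (aC (chk_sound smok0 c1852 (by decide +kernel)) (aC (chk_sound smok0 c1853 (by decide +kernel)) (aC (chk_sound smok0 c1854 (by decide +kernel)) (aC (chk_sound smok0 c1855 (by decide +kernel)) (aC (chk_sound smok0 c1856 (by decide +kernel)) (aC (chk_sound smok0 c1857 (by decide +kernel)) (aC (chk_sound smok0 c1858 (by decide +kernel)) (aC (chk_sound smok0 c1859 (by decide +kernel)) (aC (chk_sound smok0 c1860 (by decide +kernel)) (aC (chk_sound smok0 c1861 (by decide +kernel)) aN)))))))))))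
theorem n197 : Rf E0 xe8 [9, 985, 1225, 1136, 1053] :=
  node_sound smok0 (q := 1) (ch := [107, 106, 98, 95, 93, 92, 88, 85, 84, 82]) (by decide +kernel) (by decide +kernel)
    (aC (chk_sound smok0 c1862 (by decide +kernel)) (aC (chk_sound smok0 c1863 (by decide +kernel)) (aC (chk_sound smok0 c1864 (by decide +kernel)) (aC (chk_sound smok0 c1865 (by decide +kernel)) (aC (chk_sound smok0 c1866 (by decide +kernel)) (aC (chk_sound smok0 c1867 (by decide +kernel)) (aC (chk_sound smok0 c1868 (by decide +kernel)) (aC (chk_sound smok0 c1869 (by decide +kernel)) (aC (chk_sound smok0 c1870 (by decide +kernel)) (aC (chk_sound smok0 c1871 (by decide +kernel)) aN))))))))))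
theorem n198 : Rf E0 xe8 [6, 985, 1225, 1136, 1053] :=
  node_sound smok0 (q := 16) (ch := [1320, 1319, 1318, 1312, 1311, 1310, 1308, 1304, 1303, 1297]) (by decide +kernel) (by decide +kernel)
    (aC (chk_sound smok0 c1872 (by decide +kernel)) (aC (chk_sound smok0 c1873 (by decide +kernel)) (aC (chk_sound smok0 c1874 (by decide +kernel)) (aC (chk_sound smok0 c1875 (by decide +kernel)) (aC (chk_sound smok0 c1876 (by decide +kernel)) (aC (chk_sound smok0 c1877 (by decide +kernel)) (aC (chk_sound smok0 c1878 (by decide +kernel)) (aC (chk_sound smok0 c1879 (by decide +kernel)) (aC (chk_sound smok0 c1880 (by decide +kernel)) (aC (chk_sound smok0 c1881 (by decide +kernel)) aN))))))))))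
theorem n199 : Rf E0 xe8 [3, 985, 1225, 1136, 1053] :=
  node_sound smok0 (q := 1) (ch := [107, 106, 103, 102, 98, 95, 93, 92, 90, 89, 88]) (by decide +kernel) (by decide +kernel)
    (aC (chk_sound smok0 c1882 (by decide +kernel)) (aC (chk_sound smok0 c1883 (by decide +kernel)) (aC (chk_sound smok0 c1884 (by decide +kernel)) (aC (chk_sound smok0 c1885 (by decide +kernel)) (aC (chk_sound smok0 c1886 (by decide +kernel)) (aC (chk_sound smok0 c1887 (by decide +kernel)) (aC (chk_sound smok0 c1888 (by decide +kernel)) (aC (chk_sound smok0 c1889 (by decide +kernel)) (aC (chk_sound smok0 c1890 (by decide +kernel)) (aC (chk_sound smok0 c1891 (by decide +kernel)) (aC (chk_sound smok0 c1892 (by decide +kernel)) aN)))))))))))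
theorem n200 : Rf E0 xe8 [985, 1225, 1136, 1053] :=
  node_sound smok0 (q := 0) (ch := [26, 24, 23, 22, 20, 17, 9, 6, 4, 3]) (by decide +kernel) (by decide +kernel)
    (aC n192 (aC n193 (aC (chk_sound smok0 c1893 (by decide +kernel)) (aC n194 (aC n195 (aC n196 (aC n197 (aC n198 (aC (chk_sound smok0 c1894 (by decide +kernel)) (aC n199 aN))))))))))
theorem n201 : Rf E0 xe8 [984, 1225, 1136, 1053] :=
  node_sound smok0 (q := 0) (ch := [26, 23, 22, 17, 9, 8, 6, 4, 3]) (by decide +kernel) (by decide +kernel)
    (aC (chk_sound smok0 c1895 (by decide +kernel)) (aC (chk_sound smok0 c1896 (by decide +kernel)) (aC (chk_sound smok0 c1897 (by decide +kernel)) (aC (chk_sound smok0 c1898 (by decide +kernel)) (aC (chk_sound smok0 c1899 (by decide +kernel)) (aC (chk_sound smok0 c1900 (by decide +kernel)) (aC (chk_sound smok0 c1901 (by decide +kernel)) (aC (chk_sound smok0 c1902 (by decide +kernel)) (aC (chk_sound smok0 c1903 (by decide +kernel)) aN)))))))))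
theorem n202 : Rf E0 xe8 [983, 1225, 1136, 1053] :=
  node_sound smok0 (q := 0) (ch := [26, 25, 23, 22, 21, 17, 12, 9, 8, 4, 3]) (by decide +kernel) (by decide +kernel)
    (aC (chk_sound smok0 c1904 (by decide +kernel)) (aC (chk_sound smok0 c1905 (by decide +kernel)) (aC (chk_sound smok0 c1906 (by decide +kernel)) (aC (chk_sound smok0 c1907 (by decide +kernel)) (aC (chk_sound smok0 c1908 (by decide +kernel)) (aC (chk_sound smok0 c1909 (by decide +kernel)) (aC (chk_sound smok0 c1910 (by decide +kernel)) (aC (chk_sound smok0 c1911 (by decide +kernel)) (aC (chk_sound smok0 c1912 (by decide +kernel)) (aC (chk_sound smok0 c1913 (by decide +kernel)) (aC (chk_sound smok0 c1914 (by decide +kernel)) aN)))))))))))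
theorem n203 : Rf E0 xe8 [1308, 981, 1225, 1136, 1053] :=
  node_sound smok0 (q := 0) (ch := [26, 25, 22, 21, 20, 17, 8, 7, 4, 3]) (by decide +kernel) (by decide +kernel)
    (aC (chk_sound smok0 c1915 (by decide +kernel)) (aC (chk_sound smok0 c1916 (by decide +kernel)) (aC (chk_sound smok0 c1917 (by decide +kernel)) (aC (chk_sound smok0 c1918 (by decide +kernel)) (aC (chk_sound smok0 c1919 (by decide +kernel)) (aC (chk_sound smok0 c1920 (by decide +kernel)) (aC (chk_sound smok0 c1921 (by decide +kernel)) (aC (chk_sound smok0 c1922 (by decide +kernel)) (aC (chk_sound smok0 c1923 (by decide +kernel)) (aC (chk_sound smok0 c1924 (by decide +kernel)) aN))))))))))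
theorem n204 : Rf E0 xe8 [981, 1225, 1136, 1053] :=
  node_sound smok0 (q := 16) (ch := [1322, 1321, 1320, 1312, 1311, 1310, 1309, 1308, 1304, 1303, 1302, 1297]) (by decide +kernel) (by decide +kernel)
    (aC (chk_sound smok0 c1925 (by decide +kernel)) (aC (chk_sound smok0 c1926 (by decide +kernel)) (aC (chk_sound smok0 c1927 (by decide +kernel)) (aC (chk_sound smok0 c1928 (by decide +kernel)) (aC (chk_sound smok0 c1929 (by decide +kernel)) (aC (chk_sound smok0 c1930 (by decide +kernel)) (aC (chk_sound smok0 c1931 (by decide +kernel)) (aC n203 (aC (chk_sound smok0 c1932 (by decide +kernel)) (aC (chk_sound smok0 c1933 (by decide +kernel)) (aC (chk_sound smok0 c1934 (by decide +kernel)) (aC (chk_sound smok0 c1935 (by decide +kernel)) aN))))))))))))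
theorem n205 : Rf E0 xe8 [1308, 980, 1225, 1136, 1053] :=
  node_sound smok0 (q := 11) (ch := [914, 913, 912, 902, 897, 896, 895, 894, 892]) (by decide +kernel) (by decide +kernel)
    (aC (chk_sound smok0 c1936 (by decide +kernel)) (aC (chk_sound smok0 c1937 (by decide +kernel)) (aC (chk_sound smok0 c1938 (by decide +kernel)) (aC (chk_sound smok0 c1939 (by decide +kernel)) (aC (chk_sound smok0 c1940 (by decide +kernel)) (aC (chk_sound smok0 c1941 (by decide +kernel)) (aC (chk_sound smok0 c1942 (by decide +kernel)) (aC (chk_sound smok0 c1943 (by decide +kernel)) (aC (chk_sound smok0 c1944 (by decide +kernel)) aN)))))))))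
theorem n206 : Rf E0 xe8 [980, 1225, 1136, 1053] :=
  node_sound smok0 (q := 16) (ch := [1322, 1321, 1312, 1311, 1310, 1309, 1308, 1303, 1302, 1297]) (by decide +kernel) (by decide +kernel)
    (aC (chk_sound smok0 c1945 (by decide +kernel)) (aC (chk_sound smok0 c1946 (by decide +kernel)) (aC (chk_sound smok0 c1947 (by decide +kernel)) (aC (chk_sound smok0 c1948 (by decide +kernel)) (aC (chk_sound smok0 c1949 (by decide +kernel)) (aC (chk_sound smok0 c1950 (by decide +kernel)) (aC n205 (aC (chk_sound smok0 c1951 (by decide +kernel)) (aC (chk_sound smok0 c1952 (by decide +kernel)) (aC (chk_sound smok0 c1953 (by decide +kernel)) aN))))))))))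
theorem n207 : Rf E0 xe8 [896, 979, 1225, 1136, 1053] :=
  node_sound smok0 (q := 16) (ch := [1312, 1311, 1310, 1309, 1308, 1304, 1302, 1297]) (by decide +kernel) (by decide +kernel)
    (aC (chk_sound smok0 c1954 (by decide +kernel)) (aC (chk_sound smok0 c1955 (by decide +kernel)) (aC (chk_sound smok0 c1956 (by decide +kernel)) (aC (chk_sound smok0 c1957 (by decide +kernel)) (aC (chk_sound smok0 c1958 (by decide +kernel)) (aC (chk_sound smok0 c1959 (by decide +kernel)) (aC (chk_sound smok0 c1960 (by decide +kernel)) (aC (chk_sound smok0 c1961 (by decide +kernel)) aN))))))))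
theorem n208 : Rf E0 xe8 [979, 1225, 1136, 1053] :=
  node_sound smok0 (q := 11) (ch := [914, 913, 912, 911, 910, 900, 896, 895, 894, 892]) (by decide +kernel) (by decide +kernel)
    (aC (chk_sound smok0 c1962 (by decide +kernel)) (aC (chk_sound smok0 c1963 (by decide +kernel)) (aC (chk_sound smok0 c1964 (by decide +kernel)) (aC (chk_sound smok0 c1965 (by decide +kernel)) (aC (chk_sound smok0 c1966 (by decide +kernel)) (aC (chk_sound smok0 c1967 (by decide +kernel)) (aC n207 (aC (chk_sound smok0 c1968 (by decide +kernel)) (aC (chk_sound smok0 c1969 (by decide +kernel)) (aC (chk_sound smok0 c1970 (by decide +kernel)) aN))))))))))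
theorem n209 : Rf E0 xe8 [978, 1225, 1136, 1053] :=
  node_sound smok0 (q := 0) (ch := [26, 25, 24, 23, 20, 12, 11, 9, 7, 3]) (by decide +kernel) (by decide +kernel)
    (aC (chk_sound smok0 c1971 (by decide +kernel)) (aC (chk_sound smok0 c1972 (by decide +kernel)) (aC (chk_sound smok0 c1973 (by decide +kernel)) (aC (chk_sound smok0 c1974 (by decide +kernel)) (aC (chk_sound smok0 c1975 (by decide +kernel)) (aC (chk_sound smok0 c1976 (by decide +kernel)) (aC (chk_sound smok0 c1977 (by decide +kernel)) (aC (chk_sound smok0 c1978 (by decide +kernel)) (aC (chk_sound smok0 c1979 (by decide +kernel)) (aC (chk_sound smok0 c1980 (by decide +kernel)) aN))))))))))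
theorem n210 : Rf E0 xe8 [26, 977, 1225, 1136, 1053] :=
  node_sound smok0 (q := 11) (ch := [914, 913, 912, 911, 910, 904, 903, 894, 892]) (by decide +kernel) (by decide +kernel)
    (aC (chk_sound smok0 c1981 (by decide +kernel)) (aC (chk_sound smok0 c1982 (by decide +kernel)) (aC (chk_sound smok0 c1983 (by decide +kernel)) (aC (chk_sound smok0 c1984 (by decide +kernel)) (aC (chk_sound smok0 c1985 (by decide +kernel)) (aC (chk_sound smok0 c1986 (by decide +kernel)) (aC (chk_sound smok0 c1987 (by decide +kernel)) (aC (chk_sound smok0 c1988 (by decide +kernel)) (aC (chk_sound smok0 c1989 (by decide +kernel)) aN)))))))))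
theorem n211 : Rf E0 xe8 [977, 1225, 1136, 1053] :=
  node_sound smok0 (q := 0) (ch := [26, 25, 24, 23, 22, 20, 12, 11, 9, 6]) (by decide +kernel) (by decide +kernel)
    (aC n210 (aC (chk_sound smok0 c1990 (by decide +kernel)) (aC (chk_sound smok0 c1991 (by decide +kernel)) (aC (chk_sound smok0 c1992 (by decide +kernel)) (aC (chk_sound smok0 c1993 (by decide +kernel)) (aC (chk_sound smok0 c1994 (by decide +kernel)) (aC (chk_sound smok0 c1995 (by decide +kernel)) (aC (chk_sound smok0 c1996 (by decide +kernel)) (aC (chk_sound smok0 c1997 (by decide +kernel)) (aC (chk_sound smok0 c1998 (by decide +kernel)) aN))))))))))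
theorem n212 : Rf E0 xe8 [976, 1225, 1136, 1053] :=
  node_sound smok0 (q := 0) (ch := [26, 25, 24, 23, 22, 12, 11, 9, 8, 6]) (by decide +kernel) (by decide +kernel)
    (aC (chk_sound smok0 c1999 (by decide +kernel)) (aC (chk_sound smok0 c2000 (by decide +kernel)) (aC (chk_sound smok0 c2001 (by decide +kernel)) (aC (chk_sound smok0 c2002 (by decide +kernel)) (aC (chk_sound smok0 c2003 (by decide +kernel)) (aC (chk_sound smok0 c2004 (by decide +kernel)) (aC (chk_sound smok0 c2005 (by decide +kernel)) (aC (chk_sound smok0 c2006 (by decide +kernel)) (aC (chk_sound smok0 c2007 (by decide +kernel)) (aC (chk_sound smok0 c2008 (by decide +kernel)) aN))))))))))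
theorem n213 : Rf E0 xe8 [26, 975, 1225, 1136, 1053] :=
  node_sound smok0 (q := 16) (ch := [1321, 1320, 1312, 1311, 1310, 1309, 1308, 1304, 1303, 1302]) (by decide +kernel) (by decide +kernel)
    (aC (chk_sound smok0 c2009 (by decide +kernel)) (aC (chk_sound smok0 c2010 (by decide +kernel)) (aC (chk_sound smok0 c2011 (by decide +kernel)) (aC (chk_sound smok0 c2012 (by decide +kernel)) (aC (chk_sound smok0 c2013 (by decide +kernel)) (aC (chk_sound smok0 c2014 (by decide +kernel)) (aC (chk_sound smok0 c2015 (by decide +kernel)) (aC (chk_sound smok0 c2016 (by decide +kernel)) (aC (chk_sound smok0 c2017 (by decide +kernel)) (aC (chk_sound smok0 c2018 (by decide +kernel)) aN))))))))))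
theorem n214 : Rf E0 xe8 [25, 975, 1225, 1136, 1053] :=
  node_sound smok0 (q := 11) (ch := [914, 913, 912, 911, 910, 906, 902, 900, 899, 892]) (by decide +kernel) (by decide +kernel)
    (aC (chk_sound smok0 c2019 (by decide +kernel)) (aC (chk_sound smok0 c2020 (by decide +kernel)) (aC (chk_sound smok0 c2021 (by decide +kernel)) (aC (chk_sound smok0 c2022 (by decide +kernel)) (aC (chk_sound smok0 c2023 (by decide +kernel)) (aC (chk_sound smok0 c2024 (by decide +kernel)) (aC (chk_sound smok0 c2025 (by decide +kernel)) (aC (chk_sound smok0 c2026 (by decide +kernel)) (aC (chk_sound smok0 c2027 (by decide +kernel)) (aC (chk_sound smok0 c2028 (by decide +kernel)) aN))))))))))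
theorem n215 : Rf E0 xe8 [24, 975, 1225, 1136, 1053] :=
  node_sound smok0 (q := 1) (ch := [107, 103, 102, 98, 95, 94, 93, 92, 90, 85, 82]) (by decide +kernel) (by decide +kernel)
    (aC (chk_sound smok0 c2029 (by decide +kernel)) (aC (chk_sound smok0 c2030 (by decide +kernel)) (aC (chk_sound smok0 c2031 (by decide +kernel)) (aC (chk_sound smok0 c2032 (by decide +kernel)) (aC (chk_sound smok0 c2033 (by decide +kernel)) (aC (chk_sound smok0 c2034 (by decide +kernel)) (aC (chk_sound smok0 c2035 (by decide +kernel)) (aC (chk_sound smok0 c2036 (by decide +kernel)) (aC (chk_sound smok0 c2037 (by decide +kernel)) (aC (chk_sound smok0 c2038 (by decide +kernel)) (aC (chk_sound smok0 c2039 (by decide +kernel)) aN)))))))))))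
theorem n216 : Rf E0 xe8 [17, 975, 1225, 1136, 1053] :=
  node_sound smok0 (q := 1) (ch := [107, 106, 103, 102, 93, 92, 90, 89, 88, 85, 82]) (by decide +kernel) (by decide +kernel)
    (aC (chk_sound smok0 c2040 (by decide +kernel)) (aC (chk_sound smok0 c2041 (by decide +kernel)) (aC (chk_sound smok0 c2042 (by decide +kernel)) (aC (chk_sound smok0 c2043 (by decide +kernel)) (aC (chk_sound smok0 c2044 (by decide +kernel)) (aC (chk_sound smok0 c2045 (by decide +kernel)) (aC (chk_sound smok0 c2046 (by decide +kernel)) (aC (chk_sound smok0 c2047 (by decide +kernel)) (aC (chk_sound smok0 c2048 (by decide +kernel)) (aC (chk_sound smok0 c2049 (by decide +kernel)) (aC (chk_sound smok0 c2050 (by decide +kernel)) aN)))))))))))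
theorem n217 : Rf E0 xe8 [975, 1225, 1136, 1053] :=
  node_sound smok0 (q := 0) (ch := [26, 25, 24, 23, 22, 21, 17, 12, 11, 9, 8, 4]) (by decide +kernel) (by decide +kernel)
    (aC n213 (aC n214 (aC n215 (aC (chk_sound smok0 c2051 (by decide +kernel)) (aC (chk_sound smok0 c2052 (by decide +kernel)) (aC (chk_sound smok0 c2053 (by decide +kernel)) (aC n216 (aC (chk_sound smok0 c2054 (by decide +kernel)) (aC (chk_sound smok0 c2055 (by decide +kernel)) (aC (chk_sound smok0 c2056 (by decide +kernel)) (aC (chk_sound smok0 c2057 (by decide +kernel)) (aC (chk_sound smok0 c2058 (by decide +kernel)) aN))))))))))))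
theorem n218 : Rf E0 xe8 [1225, 1136, 1053] :=
  node_sound smok0 (q := 12) (ch := [991, 987, 986, 985, 984, 983, 981, 980, 979, 978, 977, 976, 975]) (by decide +kernel) (by decide +kernel)
    (aC n185 (aC n187 (aC n191 (aC n200 (aC n201 (aC n202 (aC n204 (aC n206 (aC n208 (aC n209 (aC n211 (aC n212 (aC n217 aN)))))))))))))
theorem R0_8 : Rf E0 xe8 [1225, 1136, 1053] := n218

end Pool.Agent.R989.ZP
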