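import Pool.Agent.R989.ZP.Ms
import Pool.Agent.R989.ZP.C00
import Pool.Agent.R989.ZP.C01
import Pool.Agent.R989.ZP.C02
import Pool.Agent.R989.ZP.C03
import Pool.Agent.R989.ZP.C04
import Pool.Agent.R989.ZP.C05
import Pool.Agent.R989.ZP.C06
import Pool.Agent.R989.ZP.C07
import Pool.Agent.R989.ZP.C08
import Pool.Agent.R989.ZP.C09
import Pool.Agent.R989.ZP.C10
import Pool.Agent.R989.ZP.C11
import Pool.Agent.R989.ZP.C12
import Pool.Agent.R989.ZP.C13
import Pool.Agent.R989.ZP.C14
import Pool.Agent.R989.ZP.C15
import Pool.Agent.R989.ZP.C16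
import Pool.Agent.R989.ZP.C17
import Pool.Agent.R989.ZP.C18
import Pool.Agent.R989.ZP.C19
import Pool.Agent.R989.ZP.C20
import Pool.Agent.R989.ZP.C21
import Pool.Agent.R989.ZP.C22
import Pool.Agent.R989.ZP.C23
import Pool.Agent.R989.ZP.C24
import Pool.Agent.R989.ZP.C25
import Pool.Agent.R989.ZP.C26
import Pool.Agent.R989.ZP.C27
import Pool.Agent.R989.ZP.C28
import Pool.Agent.R989.ZP.C29
import Pool.Agent.R989.ZP.C30
import Pool.Agent.R989.ZP.C31
import Pool.Agent.R989.ZP.C32
import Pool.Agent.R989.ZP.C33
import Pool.Agent.R989.ZP.C34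
import Pool.Agent.R989.ZP.C35
import Pool.Agent.R989.ZP.C36
import Pool.Agent.R989.ZP.C37
import Pool.Agent.R989.ZP.C38
import Pool.Agent.R989.ZP.C39
import Pool.Agent.R989.ZP.C40
import Pool.Agent.R989.ZP.C41
import Pool.Agent.R989.ZP.C42
import Pool.Agent.R989.ZP.C43
import Pool.Agent.R989.ZP.C44
import Pool.Agent.R989.ZP.C45
import Pool.Agent.R989.ZP.C46
import Pool.Agent.R989.ZP.C47

set_option maxRecDepth 100000

namespace Pool.Agent.R989.ZP

theorem n219 : Rf E0 xe9 [990, 1226, 1136, 1053] :=
  node_sound smok0 (q := 11) (ch := [914, 913, 912, 911, 905, 904, 903, 896, 895, 894, 892]) (by decide +kernel) (by decide +kernel)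
    (aC (chk_sound smok0 c2059 (by decide +kernel)) (aC (chk_sound smok0 c2060 (by decide +kernel)) (aC (chk_sound smok0 c2061 (by decide +kernel)) (aC (chk_sound smok0 c2062 (by decide +kernel)) (aC (chk_sound smok0 c2063 (by decide +kernel)) (aC (chk_sound smok0 c2064 (by decide +kernel)) (aC (chk_sound smok0 c2065 (by decide +kernel)) (aC (chk_sound smok0 c2066 (by decide +kernel)) (aC (chk_sound smok0 c2067 (by decide +kernel)) (aC (chk_sound smok0 c2068 (by decide +kernel)) (aC (chk_sound smok0 c2069 (by decide +kernel)) aN)))))))))))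
theorem n220 : Rf E0 xe9 [1320, 986, 1226, 1136, 1053] :=
  node_sound smok0 (q := 17) (ch := [1403, 1392, 1390, 1389, 1383, 1382, 1381, 1380, 1378]) (by decide +kernel) (by decide +kernel)
    (aC (chk_sound smok0 c2070 (by decide +kernel)) (aC (chk_sound smok0 c2071 (by decide +kernel)) (aC (chk_sound smok0 c2072 (by decide +kernel)) (aC (chk_sound smok0 c2073 (by decide +kernel)) (aC (chk_sound smok0 c2074 (by decide +kernel)) (aC (chk_sound smok0 c2075 (by decide +kernel)) (aC (chk_sound smok0 c2076 (by decide +kernel)) (aC (chk_sound smok0 c2077 (by decide +kernel)) (aC (chk_sound smok0 c2078 (by decide +kernel)) aN)))))))))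
theorem n221 : Rf E0 xe9 [1305, 986, 1226, 1136, 1053] :=
  node_sound smok0 (q := 0) (ch := [24, 23, 20, 18, 17, 10, 7, 4, 3]) (by decide +kernel) (by decide +kernel)
    (aC (chk_sound smok0 c2079 (by decide +kernel)) (aC (chk_sound smok0 c2080 (by decide +kernel)) (aC (chk_sound smok0 c2081 (by decide +kernel)) (aC (chk_sound smok0 c2082 (by decide +kernel)) (aC (chk_sound smok0 c2083 (by decide +kernel)) (aC (chk_sound smok0 c2084 (by decide +kernel)) (aC (chk_sound smok0 c2085 (by decide +kernel)) (aC (chk_sound smok0 c2086 (by decide +kernel)) (aC (chk_sound smok0 c2087 (by decide +kernel)) aN)))))))))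
theorem n222 : Rf E0 xe9 [1297, 986, 1226, 1136, 1053] :=
  node_sound smok0 (q := 0) (ch := [25, 24, 23, 20, 18, 17, 10, 9, 4, 3]) (by decide +kernel) (by decide +kernel)
    (aC (chk_sound smok0 c2088 (by decide +kernel)) (aC (chk_sound smok0 c2089 (by decide +kernel)) (aC (chk_sound smok0 c2090 (by decide +kernel)) (aC (chk_sound smok0 c2091 (by decide +kernel)) (aC (chk_sound smok0 c2092 (by decide +kernel)) (aC (chk_sound smok0 c2093 (by decide +kernel)) (aC (chk_sound smok0 c2094 (by decide +kernel)) (aC (chk_sound smok0 c2095 (by decide +kernel)) (aC (chk_sound smok0 c2096 (by decide +kernel)) (aC (chk_sound smok0 c2097 (by decide +kernel)) aN))))))))))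
theorem n223 : Rf E0 xe9 [986, 1226, 1136, 1053] :=
  node_sound smok0 (q := 16) (ch := [1322, 1321, 1320, 1311, 1309, 1305, 1304, 1303, 1302, 1297]) (by decide +kernel) (by decide +kernel)
    (aC (chk_sound smok0 c2098 (by decide +kernel)) (aC (chk_sound smok0 c2099 (by decide +kernel)) (aC n220 (aC (chk_sound smok0 c2100 (by decide +kernel)) (aC (chk_sound smok0 c2101 (by decide +kernel)) (aC n221 (aC (chk_sound smok0 c2102 (by decide +kernel)) (aC (chk_sound smok0 c2103 (by decide +kernel)) (aC (chk_sound smok0 c2104 (by decide +kernel)) (aC n222 aN))))))))))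
theorem n224 : Rf E0 xe9 [18, 985, 1226, 1136, 1053] :=
  node_sound smok0 (q := 1) (ch := [107, 104, 103, 102, 91, 90, 89, 85, 84, 82]) (by decide +kernel) (by decide +kernel)
    (aC (chk_sound smok0 c2105 (by decide +kernel)) (aC (chk_sound smok0 c2106 (by decide +kernel)) (aC (chk_sound smok0 c2107 (by decide +kernel)) (aC (chk_sound smok0 c2108 (by decide +kernel)) (aC (chk_sound smok0 c2109 (by decide +kernel)) (aC (chk_sound smok0 c2110 (by decide +kernel)) (aC (chk_sound smok0 c2111 (by decide +kernel)) (aC (chk_sound smok0 c2112 (by decide +kernel)) (aC (chk_sound smok0 c2113 (by decide +kernel)) (aC (chk_sound smok0 c2114 (by decide +kernel)) aN))))))))))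
theorem n225 : Rf E0 xe9 [985, 1226, 1136, 1053] :=
  node_sound smok0 (q := 0) (ch := [24, 23, 22, 20, 18, 17, 10, 9, 4, 3]) (by decide +kernel) (by decide +kernel)
    (aC (chk_sound smok0 c2115 (by decide +kernel)) (aC (chk_sound smok0 c2116 (by decide +kernel)) (aC (chk_sound smok0 c2117 (by decide +kernel)) (aC (chk_sound smok0 c2118 (by decide +kernel)) (aC n224 (aC (chk_sound smok0 c2119 (by decide +kernel)) (aC (chk_sound smok0 c2120 (by decide +kernel)) (aC (chk_sound smok0 c2121 (by decide +kernel)) (aC (chk_sound smok0 c2122 (by decide +kernel)) (aC (chk_sound smok0 c2123 (by decide +kernel)) aN))))))))))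
theorem n226 : Rf E0 xe9 [984, 1226, 1136, 1053] :=
  node_sound smok0 (q := 0) (ch := [26, 24, 23, 22, 18, 17, 10, 9, 8, 4, 3]) (by decide +kernel) (by decide +kernel)
    (aC (chk_sound smok0 c2124 (by decide +kernel)) (aC (chk_sound smok0 c2125 (by decide +kernel)) (aC (chk_sound smok0 c2126 (by decide +kernel)) (aC (chk_sound smok0 c2127 (by decide +kernel)) (aC (chk_sound smok0 c2128 (by decide +kernel)) (aC (chk_sound smok0 c2129 (by decide +kernel)) (aC (chk_sound smok0 c2130 (by decide +kernel)) (aC (chk_sound smok0 c2131 (by decide +kernel)) (aC (chk_sound smok0 c2132 (by decide +kernel)) (aC (chk_sound smok0 c2133 (by decide +kernel)) (aC (chk_sound smok0 c2134 (by decide +kernel)) aN)))))))))))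
theorem n227 : Rf E0 xe9 [899, 982, 1226, 1136, 1053] :=
  node_sound smok0 (q := 0) (ch := [26, 25, 22, 21, 18, 17, 12, 7, 4, 3]) (by decide +kernel) (by decide +kernel)
    (aC (chk_sound smok0 c2135 (by decide +kernel)) (aC (chk_sound smok0 c2136 (by decide +kernel)) (aC (chk_sound smok0 c2137 (by decide +kernel)) (aC (chk_sound smok0 c2138 (by decide +kernel)) (aC (chk_sound smok0 c2139 (by decide +kernel)) (aC (chk_sound smok0 c2140 (by decide +kernel)) (aC (chk_sound smok0 c2141 (by decide +kernel)) (aC (chk_sound smok0 c2142 (by decide +kernel)) (aC (chk_sound smok0 c2143 (by decide +kernel)) (aC (chk_sound smok0 c2144 (by decide +kernel)) aN))))))))))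
theorem n228 : Rf E0 xe9 [982, 1226, 1136, 1053] :=
  node_sound smok0 (q := 11) (ch := [914, 913, 905, 904, 903, 899, 898, 897, 896, 895, 894, 892]) (by decide +kernel) (by decide +kernel)
    (aC (chk_sound smok0 c2145 (by decide +kernel)) (aC (chk_sound smok0 c2146 (by decide +kernel)) (aC (chk_sound smok0 c2147 (by decide +kernel)) (aC (chk_sound smok0 c2148 (by decide +kernel)) (aC (chk_sound smok0 c2149 (by decide +kernel)) (aC n227 (aC (chk_sound smok0 c2150 (by decide +kernel)) (aC (chk_sound smok0 c2151 (by decide +kernel)) (aC (chk_sound smok0 c2152 (by decide +kernel)) (aC (chk_sound smok0 c2153 (by decide +kernel)) (aC (chk_sound smok0 c2154 (by decide +kernel)) (aC (chk_sound smok0 c2155 (by decide +kernel)) aN))))))))))))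
theorem n229 : Rf E0 xe9 [21, 981, 1226, 1136, 1053] :=
  node_sound smok0 (q := 11) (ch := [914, 913, 911, 905, 904, 903, 898, 897, 892]) (by decide +kernel) (by decide +kernel)
    (aC (chk_sound smok0 c2156 (by decide +kernel)) (aC (chk_sound smok0 c2157 (by decide +kernel)) (aC (chk_sound smok0 c2158 (by decide +kernel)) (aC (chk_sound smok0 c2159 (by decide +kernel)) (aC (chk_sound smok0 c2160 (by decide +kernel)) (aC (chk_sound smok0 c2161 (by decide +kernel)) (aC (chk_sound smok0 c2162 (by decide +kernel)) (aC (chk_sound smok0 c2163 (by decide +kernel)) (aC (chk_sound smok0 c2164 (by decide +kernel)) aN)))))))))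
theorem n230 : Rf E0 xe9 [981, 1226, 1136, 1053] :=
  node_sound smok0 (q := 0) (ch := [26, 25, 22, 21, 20, 18, 17, 12, 8, 7, 4, 3]) (by decide +kernel) (by decide +kernel)
    (aC (chk_sound smok0 c2165 (by decide +kernel)) (aC (chk_sound smok0 c2166 (by decide +kernel)) (aC (chk_sound smok0 c2167 (by decide +kernel)) (aC n229 (aC (chk_sound smok0 c2168 (by decide +kernel)) (aC (chk_sound smok0 c2169 (by decide +kernel)) (aC (chk_sound smok0 c2170 (by decide +kernel)) (aC (chk_sound smok0 c2171 (by decide +kernel)) (aC (chk_sound smok0 c2172 (by decide +kernel)) (aC (chk_sound smok0 c2173 (by decide +kernel)) (aC (chk_sound smok0 c2174 (by decide +kernel)) (aC (chk_sound smok0 c2175 (by decide +kernel)) aN))))))))))))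
theorem n231 : Rf E0 xe9 [20, 980, 1226, 1136, 1053] :=
  node_sound smok0 (q := 11) (ch := [914, 913, 912, 910, 909, 903, 901, 897, 896, 895]) (by decide +kernel) (by decide +kernel)
    (aC (chk_sound smok0 c2176 (by decide +kernel)) (aC (chk_sound smok0 c2177 (by decide +kernel)) (aC (chk_sound smok0 c2178 (by decide +kernel)) (aC (chk_sound smok0 c2179 (by decide +kernel)) (aC (chk_sound smok0 c2180 (by decide +kernel)) (aC (chk_sound smok0 c2181 (by decide +kernel)) (aC (chk_sound smok0 c2182 (by decide +kernel)) (aC (chk_sound smok0 c2183 (by decide +kernel)) (aC (chk_sound smok0 c2184 (by decide +kernel)) (aC (chk_sound smok0 c2185 (by decide +kernel)) aN))))))))))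
theorem n232 : Rf E0 xe9 [7, 980, 1226, 1136, 1053] :=
  node_sound smok0 (q := 16) (ch := [1322, 1321, 1314, 1313, 1312, 1311, 1310, 1309, 1305, 1297]) (by decide +kernel) (by decide +kernel)
    (aC (chk_sound smok0 c2186 (by decide +kernel)) (aC (chk_sound smok0 c2187 (by decide +kernel)) (aC (chk_sound smok0 c2188 (by decide +kernel)) (aC (chk_sound smok0 c2189 (by decide +kernel)) (aC (chk_sound smok0 c2190 (by decide +kernel)) (aC (chk_sound smok0 c2191 (by decide +kernel)) (aC (chk_sound smok0 c2192 (by decide +kernel)) (aC (chk_sound smok0 c2193 (by decide +kernel)) (aC (chk_sound smok0 c2194 (by decide +kernel)) (aC (chk_sound smok0 c2195 (by decide +kernel)) aN))))))))))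
theorem n233 : Rf E0 xe9 [980, 1226, 1136, 1053] :=
  node_sound smok0 (q := 0) (ch := [26, 25, 24, 22, 21, 20, 17, 12, 7, 4, 3]) (by decide +kernel) (by decide +kernel)
    (aC (chk_sound smok0 c2196 (by decide +kernel)) (aC (chk_sound smok0 c2197 (by decide +kernel)) (aC (chk_sound smok0 c2198 (by decide +kernel)) (aC (chk_sound smok0 c2199 (by decide +kernel)) (aC (chk_sound smok0 c2200 (by decide +kernel)) (aC n231 (aC (chk_sound smok0 c2201 (by decide +kernel)) (aC (chk_sound smok0 c2202 (by decide +kernel)) (aC n232 (aC (chk_sound smok0 c2203 (by decide +kernel)) (aC (chk_sound smok0 c2204 (by decide +kernel)) aN)))))))))))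
theorem n234 : Rf E0 xe9 [20, 979, 1226, 1136, 1053] :=
  node_sound smok0 (q := 11) (ch := [914, 913, 912, 910, 909, 901, 900, 896, 895]) (by decide +kernel) (by decide +kernel)
    (aC (chk_sound smok0 c2205 (by decide +kernel)) (aC (chk_sound smok0 c2206 (by decide +kernel)) (aC (chk_sound smok0 c2207 (by decide +kernel)) (aC (chk_sound smok0 c2208 (by decide +kernel)) (aC (chk_sound smok0 c2209 (by decide +kernel)) (aC (chk_sound smok0 c2210 (by decide +kernel)) (aC (chk_sound smok0 c2211 (by decide +kernel)) (aC (chk_sound smok0 c2212 (by decide +kernel)) (aC (chk_sound smok0 c2213 (by decide +kernel)) aN)))))))))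
theorem n235 : Rf E0 xe9 [8, 979, 1226, 1136, 1053] :=
  node_sound smok0 (q := 16) (ch := [1322, 1314, 1313, 1312, 1311, 1310, 1309, 1302, 1297]) (by decide +kernel) (by decide +kernel)
    (aC (chk_sound smok0 c2214 (by decide +kernel)) (aC (chk_sound smok0 c2215 (by decide +kernel)) (aC (chk_sound smok0 c2216 (by decide +kernel)) (aC (chk_sound smok0 c2217 (by decide +kernel)) (aC (chk_sound smok0 c2218 (by decide +kernel)) (aC (chk_sound smok0 c2219 (by decide +kernel)) (aC (chk_sound smok0 c2220 (by decide +kernel)) (aC (chk_sound smok0 c2221 (by decide +kernel)) (aC (chk_sound smok0 c2222 (by decide +kernel)) aN)))))))))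
theorem n236 : Rf E0 xe9 [979, 1226, 1136, 1053] :=
  node_sound smok0 (q := 0) (ch := [26, 25, 24, 21, 20, 17, 12, 10, 8, 3]) (by decide +kernel) (by decide +kernel)
    (aC (chk_sound smok0 c2223 (by decide +kernel)) (aC (chk_sound smok0 c2224 (by decide +kernel)) (aC (chk_sound smok0 c2225 (by decide +kernel)) (aC (chk_sound smok0 c2226 (by decide +kernel)) (aC n234 (aC (chk_sound smok0 c2227 (by decide +kernel)) (aC (chk_sound smok0 c2228 (by decide +kernel)) (aC (chk_sound smok0 c2229 (by decide +kernel)) (aC n235 (aC (chk_sound smok0 c2230 (by decide +kernel)) aN))))))))))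
theorem n237 : Rf E0 xe9 [978, 1226, 1136, 1053] :=
  node_sound smok0 (q := 0) (ch := [26, 25, 24, 23, 21, 20, 12, 10, 7, 3]) (by decide +kernel) (by decide +kernel)
    (aC (chk_sound smok0 c2231 (by decide +kernel)) (aC (chk_sound smok0 c2232 (by decide +kernel)) (aC (chk_sound smok0 c2233 (by decide +kernel)) (aC (chk_sound smok0 c2234 (by decide +kernel)) (aC (chk_sound smok0 c2235 (by decide +kernel)) (aC (chk_sound smok0 c2236 (by decide +kernel)) (aC (chk_sound smok0 c2237 (by decide +kernel)) (aC (chk_sound smok0 c2238 (by decide +kernel)) (aC (chk_sound smok0 c2239 (by decide +kernel)) (aC (chk_sound smok0 c2240 (by decide +kernel)) aN))))))))))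
theorem n238 : Rf E0 xe9 [26, 977, 1226, 1136, 1053] :=
  node_sound smok0 (q := 11) (ch := [914, 913, 912, 911, 910, 909, 903, 894, 892]) (by decide +kernel) (by decide +kernel)
    (aC (chk_sound smok0 c2241 (by decide +kernel)) (aC (chk_sound smok0 c2242 (by decide +kernel)) (aC (chk_sound smok0 c2243 (by decide +kernel)) (aC (chk_sound smok0 c2244 (by decide +kernel)) (aC (chk_sound smok0 c2245 (by decide +kernel)) (aC (chk_sound smok0 c2246 (by decide +kernel)) (aC (chk_sound smok0 c2247 (by decide +kernel)) (aC (chk_sound smok0 c2248 (by decide +kernel)) (aC (chk_sound smok0 c2249 (by decide +kernel)) aN)))))))))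
theorem n239 : Rf E0 xe9 [977, 1226, 1136, 1053] :=
  node_sound smok0 (q := 0) (ch := [26, 25, 24, 23, 20, 18, 12, 10, 9, 7]) (by decide +kernel) (by decide +kernel)
    (aC n238 (aC (chk_sound smok0 c2250 (by decide +kernel)) (aC (chk_sound smok0 c2251 (by decide +kernel)) (aC (chk_sound smok0 c2252 (by decide +kernel)) (aC (chk_sound smok0 c2253 (by decide +kernel)) (aC (chk_sound smok0 c2254 (by decide +kernel)) (aC (chk_sound smok0 c2255 (by decide +kernel)) (aC (chk_sound smok0 c2256 (by decide +kernel)) (aC (chk_sound smok0 c2257 (by decide +kernel)) (aC (chk_sound smok0 c2258 (by decide +kernel)) aN))))))))))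
theorem n240 : Rf E0 xe9 [976, 1226, 1136, 1053] :=
  node_sound smok0 (q := 0) (ch := [26, 25, 24, 23, 22, 20, 18, 12, 10, 9]) (by decide +kernel) (by decide +kernel)
    (aC (chk_sound smok0 c2259 (by decide +kernel)) (aC (chk_sound smok0 c2260 (by decide +kernel)) (aC (chk_sound smok0 c2261 (by decide +kernel)) (aC (chk_sound smok0 c2262 (by decide +kernel)) (aC (chk_sound smok0 c2263 (by decide +kernel)) (aC (chk_sound smok0 c2264 (by decide +kernel)) (aC (chk_sound smok0 c2265 (by decide +kernel)) (aC (chk_sound smok0 c2266 (by decide +kernel)) (aC (chk_sound smok0 c2267 (by decide +kernel)) (aC (chk_sound smok0 c2268 (by decide +kernel)) aN))))))))))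
theorem n241 : Rf E0 xe9 [26, 975, 1226, 1136, 1053] :=
  node_sound smok0 (q := 11) (ch := [914, 913, 912, 911, 910, 909, 903, 901, 900, 899, 892]) (by decide +kernel) (by decide +kernel)
    (aC (chk_sound smok0 c2269 (by decide +kernel)) (aC (chk_sound smok0 c2270 (by decide +kernel)) (aC (chk_sound smok0 c2271 (by decide +kernel)) (aC (chk_sound smok0 c2272 (by decide +kernel)) (aC (chk_sound smok0 c2273 (by decide +kernel)) (aC (chk_sound smok0 c2274 (by decide +kernel)) (aC (chk_sound smok0 c2275 (by decide +kernel)) (aC (chk_sound smok0 c2276 (by decide +kernel)) (aC (chk_sound smok0 c2277 (by decide +kernel)) (aC (chk_sound smok0 c2278 (by decide +kernel)) (aC (chk_sound smok0 c2279 (by decide +kernel)) aN)))))))))))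
theorem n242 : Rf E0 xe9 [25, 975, 1226, 1136, 1053] :=
  node_sound smok0 (q := 11) (ch := [914, 913, 912, 911, 910, 909, 905, 901, 900, 899, 892]) (by decide +kernel) (by decide +kernel)
    (aC (chk_sound smok0 c2280 (by decide +kernel)) (aC (chk_sound smok0 c2281 (by decide +kernel)) (aC (chk_sound smok0 c2282 (by decide +kernel)) (aC (chk_sound smok0 c2283 (by decide +kernel)) (aC (chk_sound smok0 c2284 (by decide +kernel)) (aC (chk_sound smok0 c2285 (by decide +kernel)) (aC (chk_sound smok0 c2286 (by decide +kernel)) (aC (chk_sound smok0 c2287 (by decide +kernel)) (aC (chk_sound smok0 c2288 (by decide +kernel)) (aC (chk_sound smok0 c2289 (by decide +kernel)) (aC (chk_sound smok0 c2290 (by decide +kernel)) aN)))))))))))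
theorem n243 : Rf E0 xe9 [24, 975, 1226, 1136, 1053] :=
  node_sound smok0 (q := 16) (ch := [1322, 1321, 1312, 1311, 1310, 1309, 1305, 1304, 1303, 1302]) (by decide +kernel) (by decide +kernel)
    (aC (chk_sound smok0 c2291 (by decide +kernel)) (aC (chk_sound smok0 c2292 (by decide +kernel)) (aC (chk_sound smok0 c2293 (by decide +kernel)) (aC (chk_sound smok0 c2294 (by decide +kernel)) (aC (chk_sound smok0 c2295 (by decide +kernel)) (aC (chk_sound smok0 c2296 (by decide +kernel)) (aC (chk_sound smok0 c2297 (by decide +kernel)) (aC (chk_sound smok0 c2298 (by decide +kernel)) (aC (chk_sound smok0 c2299 (by decide +kernel)) (aC (chk_sound smok0 c2300 (by decide +kernel)) aN))))))))))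
theorem n244 : Rf E0 xe9 [12, 975, 1226, 1136, 1053] :=
  node_sound smok0 (q := 48) (ch := [2127, 1803, 912, 426, 345, 264, 183, 102]) (by decide +kernel) (by decide +kernel)
    (aC (chk_sound smok0 c2301 (by decide +kernel)) (aC (chk_sound smok0 c2302 (by decide +kernel)) (aC (chk_sound smok0 c2303 (by decide +kernel)) (aC (chk_sound smok0 c2304 (by decide +kernel)) (aC (chk_sound smok0 c2305 (by decide +kernel)) (aC (chk_sound smok0 c2306 (by decide +kernel)) (aC (chk_sound smok0 c2307 (by decide +kernel)) (aC (chk_sound smok0 c2308 (by decide +kernel)) aN))))))))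
theorem n245 : Rf E0 xe9 [8, 975, 1226, 1136, 1053] :=
  node_sound smok0 (q := 1) (ch := [107, 102, 99, 98, 95, 94, 93, 91, 85, 82]) (by decide +kernel) (by decide +kernel)
    (aC (chk_sound smok0 c2309 (by decide +kernel)) (aC (chk_sound smok0 c2310 (by decide +kernel)) (aC (chk_sound smok0 c2311 (by decide +kernel)) (aC (chk_sound smok0 c2312 (by decide +kernel)) (aC (chk_sound smok0 c2313 (by decide +kernel)) (aC (chk_sound smok0 c2314 (by decide +kernel)) (aC (chk_sound smok0 c2315 (by decide +kernel)) (aC (chk_sound smok0 c2316 (by decide +kernel)) (aC (chk_sound smok0 c2317 (by decide +kernel)) (aC (chk_sound smok0 c2318 (by decide +kernel)) aN))))))))))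
theorem n246 : Rf E0 xe9 [975, 1226, 1136, 1053] :=
  node_sound smok0 (q := 0) (ch := [26, 25, 24, 23, 22, 18, 17, 12, 10, 9, 8, 4]) (by decide +kernel) (by decide +kernel)
    (aC n241 (aC n242 (aC n243 (aC (chk_sound smok0 c2319 (by decide +kernel)) (aC (chk_sound smok0 c2320 (by decide +kernel)) (aC (chk_sound smok0 c2321 (by decide +kernel)) (aC (chk_sound smok0 c2322 (by decide +kernel)) (aC n244 (aC (chk_sound smok0 c2323 (by decide +kernel)) (aC (chk_sound smok0 c2324 (by decide +kernel)) (aC n245 (aC (chk_sound smok0 c2325 (by decide +kernel)) aN))))))))))))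
theorem n247 : Rf E0 xe9 [1226, 1136, 1053] :=
  node_sound smok0 (q := 12) (ch := [990, 986, 985, 984, 982, 981, 980, 979, 978, 977, 976, 975]) (by decide +kernel) (by decide +kernel)
    (aC n219 (aC n223 (aC n225 (aC n226 (aC n228 (aC n230 (aC n233 (aC n236 (aC n237 (aC n239 (aC n240 (aC n246 aN))))))))))))
theorem R0_9 : Rf E0 xe9 [1226, 1136, 1053] := n247
theorem n248 : Rf E0 xe10 [989, 1227, 1136, 1053] :=
  node_sound smok0 (q := 11) (ch := [914, 913, 912, 911, 910, 904, 902, 901, 900, 894, 892]) (by decide +kernel) (by decide +kernel)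
    (aC (chk_sound smok0 c2326 (by decide +kernel)) (aC (chk_sound smok0 c2327 (by decide +kernel)) (aC (chk_sound smok0 c2328 (by decide +kernel)) (aC (chk_sound smok0 c2329 (by decide +kernel)) (aC (chk_sound smok0 c2330 (by decide +kernel)) (aC (chk_sound smok0 c2331 (by decide +kernel)) (aC (chk_sound smok0 c2332 (by decide +kernel)) (aC (chk_sound smok0 c2333 (by decide +kernel)) (aC (chk_sound smok0 c2334 (by decide +kernel)) (aC (chk_sound smok0 c2335 (by decide +kernel)) (aC (chk_sound smok0 c2336 (by decide +kernel)) aN)))))))))))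
theorem n249 : Rf E0 xe10 [1322, 985, 1227, 1136, 1053] :=
  node_sound smok0 (q := 17) (ch := [1397, 1393, 1392, 1386, 1385, 1384, 1383, 1382, 1381, 1380, 1378]) (by decide +kernel) (by decide +kernel)
    (aC (chk_sound smok0 c2337 (by decide +kernel)) (aC (chk_sound smok0 c2338 (by decide +kernel)) (aC (chk_sound smok0 c2339 (by decide +kernel)) (aC (chk_sound smok0 c2340 (by decide +kernel)) (aC (chk_sound smok0 c2341 (by decide +kernel)) (aC (chk_sound smok0 c2342 (by decide +kernel)) (aC (chk_sound smok0 c2343 (by decide +kernel)) (aC (chk_sound smok0 c2344 (by decide +kernel)) (aC (chk_sound smok0 c2345 (by decide +kernel)) (aC (chk_sound smok0 c2346 (by decide +kernel)) (aC (chk_sound smok0 c2347 (by decide +kernel)) aN)))))))))))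
theorem n250 : Rf E0 xe10 [985, 1227, 1136, 1053] :=
  node_sound smok0 (q := 16) (ch := [1322, 1316, 1312, 1311, 1310, 1306, 1305, 1304, 1303, 1302, 1297]) (by decide +kernel) (by decide +kernel)
    (aC n249 (aC (chk_sound smok0 c2348 (by decide +kernel)) (aC (chk_sound smok0 c2349 (by decide +kernel)) (aC (chk_sound smok0 c2350 (by decide +kernel)) (aC (chk_sound smok0 c2351 (by decide +kernel)) (aC (chk_sound smok0 c2352 (by decide +kernel)) (aC (chk_sound smok0 c2353 (by decide +kernel)) (aC (chk_sound smok0 c2354 (by decide +kernel)) (aC (chk_sound smok0 c2355 (by decide +kernel)) (aC (chk_sound smok0 c2356 (by decide +kernel)) (aC (chk_sound smok0 c2357 (by decide +kernel)) aN)))))))))))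
theorem n251 : Rf E0 xe10 [983, 1227, 1136, 1053] :=
  node_sound smok0 (q := 11) (ch := [909, 908, 904, 900, 899, 898, 897, 896, 895, 894, 892]) (by decide +kernel) (by decide +kernel)
    (aC (chk_sound smok0 c2358 (by decide +kernel)) (aC (chk_sound smok0 c2359 (by decide +kernel)) (aC (chk_sound smok0 c2360 (by decide +kernel)) (aC (chk_sound smok0 c2361 (by decide +kernel)) (aC (chk_sound smok0 c2362 (by decide +kernel)) (aC (chk_sound smok0 c2363 (by decide +kernel)) (aC (chk_sound smok0 c2364 (by decide +kernel)) (aC (chk_sound smok0 c2365 (by decide +kernel)) (aC (chk_sound smok0 c2366 (by decide +kernel)) (aC (chk_sound smok0 c2367 (by decide +kernel)) (aC (chk_sound smok0 c2368 (by decide +kernel)) aN)))))))))))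
theorem n252 : Rf E0 xe10 [982, 1227, 1136, 1053] :=
  node_sound smok0 (q := 11) (ch := [914, 913, 904, 899, 898, 897, 896, 895, 894, 892]) (by decide +kernel) (by decide +kernel)
    (aC (chk_sound smok0 c2369 (by decide +kernel)) (aC (chk_sound smok0 c2370 (by decide +kernel)) (aC (chk_sound smok0 c2371 (by decide +kernel)) (aC (chk_sound smok0 c2372 (by decide +kernel)) (aC (chk_sound smok0 c2373 (by decide +kernel)) (aC (chk_sound smok0 c2374 (by decide +kernel)) (aC (chk_sound smok0 c2375 (by decide +kernel)) (aC (chk_sound smok0 c2376 (by decide +kernel)) (aC (chk_sound smok0 c2377 (by decide +kernel)) (aC (chk_sound smok0 c2378 (by decide +kernel)) aN))))))))))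
theorem n253 : Rf E0 xe10 [26, 981, 1227, 1136, 1053] :=
  node_sound smok0 (q := 16) (ch := [1316, 1315, 1314, 1310, 1306, 1304, 1303, 1302, 1297]) (by decide +kernel) (by decide +kernel)
    (aC (chk_sound smok0 c2379 (by decide +kernel)) (aC (chk_sound smok0 c2380 (by decide +kernel)) (aC (chk_sound smok0 c2381 (by decide +kernel)) (aC (chk_sound smok0 c2382 (by decide +kernel)) (aC (chk_sound smok0 c2383 (by decide +kernel)) (aC (chk_sound smok0 c2384 (by decide +kernel)) (aC (chk_sound smok0 c2385 (by decide +kernel)) (aC (chk_sound smok0 c2386 (by decide +kernel)) (aC (chk_sound smok0 c2387 (by decide +kernel)) aN)))))))))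
theorem n254 : Rf E0 xe10 [981, 1227, 1136, 1053] :=
  node_sound smok0 (q := 0) (ch := [26, 25, 23, 22, 21, 18, 17, 8, 7, 4, 3]) (by decide +kernel) (by decide +kernel)
    (aC n253 (aC (chk_sound smok0 c2388 (by decide +kernel)) (aC (chk_sound smok0 c2389 (by decide +kernel)) (aC (chk_sound smok0 c2390 (by decide +kernel)) (aC (chk_sound smok0 c2391 (by decide +kernel)) (aC (chk_sound smok0 c2392 (by decide +kernel)) (aC (chk_sound smok0 c2393 (by decide +kernel)) (aC (chk_sound smok0 c2394 (by decide +kernel)) (aC (chk_sound smok0 c2395 (by decide +kernel)) (aC (chk_sound smok0 c2396 (by decide +kernel)) (aC (chk_sound smok0 c2397 (by decide +kernel)) aN)))))))))))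
theorem n255 : Rf E0 xe10 [26, 980, 1227, 1136, 1053] :=
  node_sound smok0 (q := 16) (ch := [1316, 1315, 1311, 1310, 1306, 1305, 1303, 1302, 1297]) (by decide +kernel) (by decide +kernel)
    (aC (chk_sound smok0 c2398 (by decide +kernel)) (aC (chk_sound smok0 c2399 (by decide +kernel)) (aC (chk_sound smok0 c2400 (by decide +kernel)) (aC (chk_sound smok0 c2401 (by decide +kernel)) (aC (chk_sound smok0 c2402 (by decide +kernel)) (aC (chk_sound smok0 c2403 (by decide +kernel)) (aC (chk_sound smok0 c2404 (by decide +kernel)) (aC (chk_sound smok0 c2405 (by decide +kernel)) (aC (chk_sound smok0 c2406 (by decide +kernel)) aN)))))))))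
theorem n256 : Rf E0 xe10 [9, 980, 1227, 1136, 1053] :=
  node_sound smok0 (q := 1) (ch := [105, 99, 98, 95, 94, 92, 86, 85, 84, 82]) (by decide +kernel) (by decide +kernel)
    (aC (chk_sound smok0 c2407 (by decide +kernel)) (aC (chk_sound smok0 c2408 (by decide +kernel)) (aC (chk_sound smok0 c2409 (by decide +kernel)) (aC (chk_sound smok0 c2410 (by decide +kernel)) (aC (chk_sound smok0 c2411 (by decide +kernel)) (aC (chk_sound smok0 c2412 (by decide +kernel)) (aC (chk_sound smok0 c2413 (by decide +kernel)) (aC (chk_sound smok0 c2414 (by decide +kernel)) (aC (chk_sound smok0 c2415 (by decide +kernel)) (aC (chk_sound smok0 c2416 (by decide +kernel)) aN))))))))))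
theorem n257 : Rf E0 xe10 [980, 1227, 1136, 1053] :=
  node_sound smok0 (q := 0) (ch := [26, 25, 22, 21, 17, 11, 9, 7, 4, 3]) (by decide +kernel) (by decide +kernel)
    (aC n255 (aC (chk_sound smok0 c2417 (by decide +kernel)) (aC (chk_sound smok0 c2418 (by decide +kernel)) (aC (chk_sound smok0 c2419 (by decide +kernel)) (aC (chk_sound smok0 c2420 (by decide +kernel)) (aC (chk_sound smok0 c2421 (by decide +kernel)) (aC n256 (aC (chk_sound smok0 c2422 (by decide +kernel)) (aC (chk_sound smok0 c2423 (by decide +kernel)) (aC (chk_sound smok0 c2424 (by decide +kernel)) aN))))))))))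
theorem n258 : Rf E0 xe10 [26, 979, 1227, 1136, 1053] :=
  node_sound smok0 (q := 16) (ch := [1316, 1312, 1311, 1310, 1306, 1305, 1304, 1302, 1297]) (by decide +kernel) (by decide +kernel)
    (aC (chk_sound smok0 c2425 (by decide +kernel)) (aC (chk_sound smok0 c2426 (by decide +kernel)) (aC (chk_sound smok0 c2427 (by decide +kernel)) (aC (chk_sound smok0 c2428 (by decide +kernel)) (aC (chk_sound smok0 c2429 (by decide +kernel)) (aC (chk_sound smok0 c2430 (by decide +kernel)) (aC (chk_sound smok0 c2431 (by decide +kernel)) (aC (chk_sound smok0 c2432 (by decide +kernel)) (aC (chk_sound smok0 c2433 (by decide +kernel)) aN)))))))))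
theorem n259 : Rf E0 xe10 [24, 979, 1227, 1136, 1053] :=
  node_sound smok0 (q := 11) (ch := [914, 913, 912, 911, 910, 909, 908, 896, 895, 894, 892]) (by decide +kernel) (by decide +kernel)
    (aC (chk_sound smok0 c2434 (by decide +kernel)) (aC (chk_sound smok0 c2435 (by decide +kernel)) (aC (chk_sound smok0 c2436 (by decide +kernel)) (aC (chk_sound smok0 c2437 (by decide +kernel)) (aC (chk_sound smok0 c2438 (by decide +kernel)) (aC (chk_sound smok0 c2439 (by decide +kernel)) (aC (chk_sound smok0 c2440 (by decide +kernel)) (aC (chk_sound smok0 c2441 (by decide +kernel)) (aC (chk_sound smok0 c2442 (by decide +kernel)) (aC (chk_sound smok0 c2443 (by decide +kernel)) (aC (chk_sound smok0 c2444 (by decide +kernel)) aN)))))))))))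
theorem n260 : Rf E0 xe10 [22, 979, 1227, 1136, 1053] :=
  node_sound smok0 (q := 1) (ch := [105, 99, 98, 95, 94, 92, 86, 85, 84, 82]) (by decide +kernel) (by decide +kernel)
    (aC (chk_sound smok0 c2445 (by decide +kernel)) (aC (chk_sound smok0 c2446 (by decide +kernel)) (aC (chk_sound smok0 c2447 (by decide +kernel)) (aC (chk_sound smok0 c2448 (by decide +kernel)) (aC (chk_sound smok0 c2449 (by decide +kernel)) (aC (chk_sound smok0 c2450 (by decide +kernel)) (aC (chk_sound smok0 c2451 (by decide +kernel)) (aC (chk_sound smok0 c2452 (by decide +kernel)) (aC (chk_sound smok0 c2453 (by decide +kernel)) (aC (chk_sound smok0 c2454 (by decide +kernel)) aN))))))))))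
theorem n261 : Rf E0 xe10 [21, 979, 1227, 1136, 1053] :=
  node_sound smok0 (q := 11) (ch := [914, 913, 911, 910, 909, 908, 901, 900, 896, 892]) (by decide +kernel) (by decide +kernel)
    (aC (chk_sound smok0 c2455 (by decide +kernel)) (aC (chk_sound smok0 c2456 (by decide +kernel)) (aC (chk_sound smok0 c2457 (by decide +kernel)) (aC (chk_sound smok0 c2458 (by decide +kernel)) (aC (chk_sound smok0 c2459 (by decide +kernel)) (aC (chk_sound smok0 c2460 (by decide +kernel)) (aC (chk_sound smok0 c2461 (by decide +kernel)) (aC (chk_sound smok0 c2462 (by decide +kernel)) (aC (chk_sound smok0 c2463 (by decide +kernel)) (aC (chk_sound smok0 c2464 (by decide +kernel)) aN))))))))))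
theorem n262 : Rf E0 xe10 [11, 979, 1227, 1136, 1053] :=
  node_sound smok0 (q := 16) (ch := [1322, 1316, 1315, 1314, 1313, 1306, 1305, 1304, 1302, 1297]) (by decide +kernel) (by decide +kernel)
    (aC (chk_sound smok0 c2465 (by decide +kernel)) (aC (chk_sound smok0 c2466 (by decide +kernel)) (aC (chk_sound smok0 c2467 (by decide +kernel)) (aC (chk_sound smok0 c2468 (by decide +kernel)) (aC (chk_sound smok0 c2469 (by decide +kernel)) (aC (chk_sound smok0 c2470 (by decide +kernel)) (aC (chk_sound smok0 c2471 (by decide +kernel)) (aC (chk_sound smok0 c2472 (by decide +kernel)) (aC (chk_sound smok0 c2473 (by decide +kernel)) (aC (chk_sound smok0 c2474 (by decide +kernel)) aN))))))))))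
theorem n263 : Rf E0 xe10 [3, 979, 1227, 1136, 1053] :=
  node_sound smok0 (q := 11) (ch := [914, 910, 909, 908, 901, 900, 896, 895, 892]) (by decide +kernel) (by decide +kernel)
    (aC (chk_sound smok0 c2475 (by decide +kernel)) (aC (chk_sound smok0 c2476 (by decide +kernel)) (aC (chk_sound smok0 c2477 (by decide +kernel)) (aC (chk_sound smok0 c2478 (by decide +kernel)) (aC (chk_sound smok0 c2479 (by decide +kernel)) (aC (chk_sound smok0 c2480 (by decide +kernel)) (aC (chk_sound smok0 c2481 (by decide +kernel)) (aC (chk_sound smok0 c2482 (by decide +kernel)) (aC (chk_sound smok0 c2483 (by decide +kernel)) aN)))))))))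
theorem n264 : Rf E0 xe10 [979, 1227, 1136, 1053] :=
  node_sound smok0 (q := 0) (ch := [26, 25, 24, 22, 21, 17, 11, 8, 3]) (by decide +kernel) (by decide +kernel)
    (aC n258 (aC (chk_sound smok0 c2484 (by decide +kernel)) (aC n259 (aC n260 (aC n261 (aC (chk_sound smok0 c2485 (by decide +kernel)) (aC n262 (aC (chk_sound smok0 c2486 (by decide +kernel)) (aC n263 aN)))))))))
theorem n265 : Rf E0 xe10 [11, 978, 1227, 1136, 1053] :=
  node_sound smok0 (q := 16) (ch := [1316, 1315, 1314, 1310, 1306, 1305, 1304, 1303, 1297]) (by decide +kernel) (by decide +kernel)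
    (aC (chk_sound smok0 c2487 (by decide +kernel)) (aC (chk_sound smok0 c2488 (by decide +kernel)) (aC (chk_sound smok0 c2489 (by decide +kernel)) (aC (chk_sound smok0 c2490 (by decide +kernel)) (aC (chk_sound smok0 c2491 (by decide +kernel)) (aC (chk_sound smok0 c2492 (by decide +kernel)) (aC (chk_sound smok0 c2493 (by decide +kernel)) (aC (chk_sound smok0 c2494 (by decide +kernel)) (aC (chk_sound smok0 c2495 (by decide +kernel)) aN)))))))))
theorem n266 : Rf E0 xe10 [5, 978, 1227, 1136, 1053] :=
  node_sound smok0 (q := 26) (ch := [2132, 2131, 2130, 2121, 2117, 2116, 2115, 2114, 2113, 2107]) (by decide +kernel) (by decide +kernel)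
    (aC (chk_sound smok0 c2496 (by decide +kernel)) (aC (chk_sound smok0 c2497 (by decide +kernel)) (aC (chk_sound smok0 c2498 (by decide +kernel)) (aC (chk_sound smok0 c2499 (by decide +kernel)) (aC (chk_sound smok0 c2500 (by decide +kernel)) (aC (chk_sound smok0 c2501 (by decide +kernel)) (aC (chk_sound smok0 c2502 (by decide +kernel)) (aC (chk_sound smok0 c2503 (by decide +kernel)) (aC (chk_sound smok0 c2504 (by decide +kernel)) (aC (chk_sound smok0 c2505 (by decide +kernel)) aN))))))))))
theorem n267 : Rf E0 xe10 [978, 1227, 1136, 1053] :=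
  node_sound smok0 (q := 0) (ch := [26, 25, 24, 21, 11, 10, 8, 7, 5, 3]) (by decide +kernel) (by decide +kernel)
    (aC (chk_sound smok0 c2506 (by decide +kernel)) (aC (chk_sound smok0 c2507 (by decide +kernel)) (aC (chk_sound smok0 c2508 (by decide +kernel)) (aC (chk_sound smok0 c2509 (by decide +kernel)) (aC n265 (aC (chk_sound smok0 c2510 (by decide +kernel)) (aC (chk_sound smok0 c2511 (by decide +kernel)) (aC (chk_sound smok0 c2512 (by decide +kernel)) (aC n266 (aC (chk_sound smok0 c2513 (by decide +kernel)) aN))))))))))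
theorem n268 : Rf E0 xe10 [977, 1227, 1136, 1053] :=
  node_sound smok0 (q := 0) (ch := [26, 25, 24, 23, 21, 18, 11, 10, 7]) (by decide +kernel) (by decide +kernel)
    (aC (chk_sound smok0 c2514 (by decide +kernel)) (aC (chk_sound smok0 c2515 (by decide +kernel)) (aC (chk_sound smok0 c2516 (by decide +kernel)) (aC (chk_sound smok0 c2517 (by decide +kernel)) (aC (chk_sound smok0 c2518 (by decide +kernel)) (aC (chk_sound smok0 c2519 (by decide +kernel)) (aC (chk_sound smok0 c2520 (by decide +kernel)) (aC (chk_sound smok0 c2521 (by decide +kernel)) (aC (chk_sound smok0 c2522 (by decide +kernel)) aN)))))))))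
theorem n269 : Rf E0 xe10 [24, 976, 1227, 1136, 1053] :=
  node_sound smok0 (q := 16) (ch := [1316, 1315, 1311, 1310, 1306, 1305, 1304, 1303, 1302]) (by decide +kernel) (by decide +kernel)
    (aC (chk_sound smok0 c2523 (by decide +kernel)) (aC (chk_sound smok0 c2524 (by decide +kernel)) (aC (chk_sound smok0 c2525 (by decide +kernel)) (aC (chk_sound smok0 c2526 (by decide +kernel)) (aC (chk_sound smok0 c2527 (by decide +kernel)) (aC (chk_sound smok0 c2528 (by decide +kernel)) (aC (chk_sound smok0 c2529 (by decide +kernel)) (aC (chk_sound smok0 c2530 (by decide +kernel)) (aC (chk_sound smok0 c2531 (by decide +kernel)) aN)))))))))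
theorem n270 : Rf E0 xe10 [976, 1227, 1136, 1053] :=
  node_sound smok0 (q := 0) (ch := [26, 25, 24, 23, 18, 11, 10, 9, 7, 5]) (by decide +kernel) (by decide +kernel)
    (aC (chk_sound smok0 c2532 (by decide +kernel)) (aC (chk_sound smok0 c2533 (by decide +kernel)) (aC n269 (aC (chk_sound smok0 c2534 (by decide +kernel)) (aC (chk_sound smok0 c2535 (by decide +kernel)) (aC (chk_sound smok0 c2536 (by decide +kernel)) (aC (chk_sound smok0 c2537 (by decide +kernel)) (aC (chk_sound smok0 c2538 (by decide +kernel)) (aC (chk_sound smok0 c2539 (by decide +kernel)) (aC (chk_sound smok0 c2540 (by decide +kernel)) aN))))))))))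
theorem n271 : Rf E0 xe10 [26, 975, 1227, 1136, 1053] :=
  node_sound smok0 (q := 1) (ch := [105, 104, 103, 99, 98, 95, 94, 92, 91, 90, 89, 82]) (by decide +kernel) (by decide +kernel)
    (aC (chk_sound smok0 c2541 (by decide +kernel)) (aC (chk_sound smok0 c2542 (by decide +kernel)) (aC (chk_sound smok0 c2543 (by decide +kernel)) (aC (chk_sound smok0 c2544 (by decide +kernel)) (aC (chk_sound smok0 c2545 (by decide +kernel)) (aC (chk_sound smok0 c2546 (by decide +kernel)) (aC (chk_sound smok0 c2547 (by decide +kernel)) (aC (chk_sound smok0 c2548 (by decide +kernel)) (aC (chk_sound smok0 c2549 (by decide +kernel)) (aC (chk_sound smok0 c2550 (by decide +kernel)) (aC (chk_sound smok0 c2551 (by decide +kernel)) (aC (chk_sound smok0 c2552 (by decide +kernel)) aN))))))))))))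
theorem n272 : Rf E0 xe10 [25, 975, 1227, 1136, 1053] :=
  node_sound smok0 (q := 11) (ch := [914, 913, 912, 911, 910, 909, 908, 904, 900, 899, 892]) (by decide +kernel) (by decide +kernel)
    (aC (chk_sound smok0 c2553 (by decide +kernel)) (aC (chk_sound smok0 c2554 (by decide +kernel)) (aC (chk_sound smok0 c2555 (by decide +kernel)) (aC (chk_sound smok0 c2556 (by decide +kernel)) (aC (chk_sound smok0 c2557 (by decide +kernel)) (aC (chk_sound smok0 c2558 (by decide +kernel)) (aC (chk_sound smok0 c2559 (by decide +kernel)) (aC (chk_sound smok0 c2560 (by decide +kernel)) (aC (chk_sound smok0 c2561 (by decide +kernel)) (aC (chk_sound smok0 c2562 (by decide +kernel)) (aC (chk_sound smok0 c2563 (by decide +kernel)) aN)))))))))))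
theorem n273 : Rf E0 xe10 [24, 975, 1227, 1136, 1053] :=
  node_sound smok0 (q := 11) (ch := [914, 913, 912, 911, 910, 909, 908, 904, 902, 892]) (by decide +kernel) (by decide +kernel)
    (aC (chk_sound smok0 c2564 (by decide +kernel)) (aC (chk_sound smok0 c2565 (by decide +kernel)) (aC (chk_sound smok0 c2566 (by decide +kernel)) (aC (chk_sound smok0 c2567 (by decide +kernel)) (aC (chk_sound smok0 c2568 (by decide +kernel)) (aC (chk_sound smok0 c2569 (by decide +kernel)) (aC (chk_sound smok0 c2570 (by decide +kernel)) (aC (chk_sound smok0 c2571 (by decide +kernel)) (aC (chk_sound smok0 c2572 (by decide +kernel)) (aC (chk_sound smok0 c2573 (by decide +kernel)) aN))))))))))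
theorem n274 : Rf E0 xe10 [22, 975, 1227, 1136, 1053] :=
  node_sound smok0 (q := 1) (ch := [105, 99, 98, 95, 94, 92, 86, 85, 82]) (by decide +kernel) (by decide +kernel)
    (aC (chk_sound smok0 c2574 (by decide +kernel)) (aC (chk_sound smok0 c2575 (by decide +kernel)) (aC (chk_sound smok0 c2576 (by decide +kernel)) (aC (chk_sound smok0 c2577 (by decide +kernel)) (aC (chk_sound smok0 c2578 (by decide +kernel)) (aC (chk_sound smok0 c2579 (by decide +kernel)) (aC (chk_sound smok0 c2580 (by decide +kernel)) (aC (chk_sound smok0 c2581 (by decide +kernel)) (aC (chk_sound smok0 c2582 (by decide +kernel)) aN)))))))))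
theorem n275 : Rf E0 xe10 [11, 975, 1227, 1136, 1053] :=
  node_sound smok0 (q := 48) (ch := [2127, 1803, 1722, 912, 588, 426, 345, 264]) (by decide +kernel) (by decide +kernel)
    (aC (chk_sound smok0 c2583 (by decide +kernel)) (aC (chk_sound smok0 c2584 (by decide +kernel)) (aC (chk_sound smok0 c2585 (by decide +kernel)) (aC (chk_sound smok0 c2586 (by decide +kernel)) (aC (chk_sound smok0 c2587 (by decide +kernel)) (aC (chk_sound smok0 c2588 (by decide +kernel)) (aC (chk_sound smok0 c2589 (by decide +kernel)) (aC (chk_sound smok0 c2590 (by decide +kernel)) aN))))))))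
theorem n276 : Rf E0 xe10 [975, 1227, 1136, 1053] :=
  node_sound smok0 (q := 0) (ch := [26, 25, 24, 23, 22, 18, 17, 11, 10, 9, 5, 4]) (by decide +kernel) (by decide +kernel)
    (aC n271 (aC n272 (aC n273 (aC (chk_sound smok0 c2591 (by decide +kernel)) (aC n274 (aC (chk_sound smok0 c2592 (by decide +kernel)) (aC (chk_sound smok0 c2593 (by decide +kernel)) (aC n275 (aC (chk_sound smok0 c2594 (by decide +kernel)) (aC (chk_sound smok0 c2595 (by decide +kernel)) (aC (chk_sound smok0 c2596 (by decide +kernel)) (aC (chk_sound smok0 c2597 (by decide +kernel)) aN))))))))))))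
theorem n277 : Rf E0 xe10 [1227, 1136, 1053] :=
  node_sound smok0 (q := 12) (ch := [989, 985, 983, 982, 981, 980, 979, 978, 977, 976, 975]) (by decide +kernel) (by decide +kernel)
    (aC n248 (aC n250 (aC n251 (aC n252 (aC n254 (aC n257 (aC n264 (aC n267 (aC n268 (aC n270 (aC n276 aN)))))))))))
theorem R0_10 : Rf E0 xe10 [1227, 1136, 1053] := n277
theorem n278 : Rf E0 xe11 [914, 988, 1228, 1136, 1053] :=
  node_sound smok0 (q := 26) (ch := [2130, 2126, 2125, 2123, 2121, 2116, 2113, 2112, 2107]) (by decide +kernel) (by decide +kernel)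
    (aC (chk_sound smok0 c2598 (by decide +kernel)) (aC (chk_sound smok0 c2599 (by decide +kernel)) (aC (chk_sound smok0 c2600 (by decide +kernel)) (aC (chk_sound smok0 c2601 (by decide +kernel)) (aC (chk_sound smok0 c2602 (by decide +kernel)) (aC (chk_sound smok0 c2603 (by decide +kernel)) (aC (chk_sound smok0 c2604 (by decide +kernel)) (aC (chk_sound smok0 c2605 (by decide +kernel)) (aC (chk_sound smok0 c2606 (by decide +kernel)) aN)))))))))
theorem n279 : Rf E0 xe11 [909, 988, 1228, 1136, 1053] :=
  node_sound smok0 (q := 10) (ch := [836, 835, 834, 833, 832, 822, 821, 817, 811]) (by decide +kernel) (by decide +kernel)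
    (aC (chk_sound smok0 c2607 (by decide +kernel)) (aC (chk_sound smok0 c2608 (by decide +kernel)) (aC (chk_sound smok0 c2609 (by decide +kernel)) (aC (chk_sound smok0 c2610 (by decide +kernel)) (aC (chk_sound smok0 c2611 (by decide +kernel)) (aC (chk_sound smok0 c2612 (by decide +kernel)) (aC (chk_sound smok0 c2613 (by decide +kernel)) (aC (chk_sound smok0 c2614 (by decide +kernel)) (aC (chk_sound smok0 c2615 (by decide +kernel)) aN)))))))))
theorem n280 : Rf E0 xe11 [892, 988, 1228, 1136, 1053] :=
  node_sound smok0 (q := 17) (ch := [1399, 1398, 1397, 1396, 1395, 1394, 1389, 1385, 1384, 1383, 1382]) (by decide +kernel) (by decide +kernel)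
    (aC (chk_sound smok0 c2616 (by decide +kernel)) (aC (chk_sound smok0 c2617 (by decide +kernel)) (aC (chk_sound smok0 c2618 (by decide +kernel)) (aC (chk_sound smok0 c2619 (by decide +kernel)) (aC (chk_sound smok0 c2620 (by decide +kernel)) (aC (chk_sound smok0 c2621 (by decide +kernel)) (aC (chk_sound smok0 c2622 (by decide +kernel)) (aC (chk_sound smok0 c2623 (by decide +kernel)) (aC (chk_sound smok0 c2624 (by decide +kernel)) (aC (chk_sound smok0 c2625 (by decide +kernel)) (aC (chk_sound smok0 c2626 (by decide +kernel)) aN)))))))))))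
theorem n281 : Rf E0 xe11 [988, 1228, 1136, 1053] :=
  node_sound smok0 (q := 11) (ch := [914, 913, 912, 911, 910, 909, 903, 902, 901, 900, 899, 898, 892]) (by decide +kernel) (by decide +kernel)
    (aC n278 (aC (chk_sound smok0 c2627 (by decide +kernel)) (aC (chk_sound smok0 c2628 (by decide +kernel)) (aC (chk_sound smok0 c2629 (by decide +kernel)) (aC (chk_sound smok0 c2630 (by decide +kernel)) (aC n279 (aC (chk_sound smok0 c2631 (by decide +kernel)) (aC (chk_sound smok0 c2632 (by decide +kernel)) (aC (chk_sound smok0 c2633 (by decide +kernel)) (aC (chk_sound smok0 c2634 (by decide +kernel)) (aC (chk_sound smok0 c2635 (by decide +kernel)) (aC (chk_sound smok0 c2636 (by decide +kernel)) (aC n280 aN)))))))))))))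
theorem n282 : Rf E0 xe11 [1311, 984, 1228, 1136, 1053] :=
  node_sound smok0 (q := 17) (ch := [1399, 1398, 1388, 1387, 1386, 1385, 1384, 1383, 1382, 1381, 1380]) (by decide +kernel) (by decide +kernel)
    (aC (chk_sound smok0 c2637 (by decide +kernel)) (aC (chk_sound smok0 c2638 (by decide +kernel)) (aC (chk_sound smok0 c2639 (by decide +kernel)) (aC (chk_sound smok0 c2640 (by decide +kernel)) (aC (chk_sound smok0 c2641 (by decide +kernel)) (aC (chk_sound smok0 c2642 (by decide +kernel)) (aC (chk_sound smok0 c2643 (by decide +kernel)) (aC (chk_sound smok0 c2644 (by decide +kernel)) (aC (chk_sound smok0 c2645 (by decide +kernel)) (aC (chk_sound smok0 c2646 (by decide +kernel)) (aC (chk_sound smok0 c2647 (by decide +kernel)) aN)))))))))))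
theorem n283 : Rf E0 xe11 [984, 1228, 1136, 1053] :=
  node_sound smok0 (q := 16) (ch := [1318, 1317, 1313, 1312, 1311, 1307, 1306, 1305, 1304, 1303, 1302, 1297]) (by decide +kernel) (by decide +kernel)
    (aC (chk_sound smok0 c2648 (by decide +kernel)) (aC (chk_sound smok0 c2649 (by decide +kernel)) (aC (chk_sound smok0 c2650 (by decide +kernel)) (aC (chk_sound smok0 c2651 (by decide +kernel)) (aC n282 (aC (chk_sound smok0 c2652 (by decide +kernel)) (aC (chk_sound smok0 c2653 (by decide +kernel)) (aC (chk_sound smok0 c2654 (by decide +kernel)) (aC (chk_sound smok0 c2655 (by decide +kernel)) (aC (chk_sound smok0 c2656 (by decide +kernel)) (aC (chk_sound smok0 c2657 (by decide +kernel)) (aC (chk_sound smok0 c2658 (by decide +kernel)) aN))))))))))))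
theorem n284 : Rf E0 xe11 [983, 1228, 1136, 1053] :=
  node_sound smok0 (q := 11) (ch := [909, 908, 907, 900, 899, 898, 897, 896, 895, 894, 892]) (by decide +kernel) (by decide +kernel)
    (aC (chk_sound smok0 c2659 (by decide +kernel)) (aC (chk_sound smok0 c2660 (by decide +kernel)) (aC (chk_sound smok0 c2661 (by decide +kernel)) (aC (chk_sound smok0 c2662 (by decide +kernel)) (aC (chk_sound smok0 c2663 (by decide +kernel)) (aC (chk_sound smok0 c2664 (by decide +kernel)) (aC (chk_sound smok0 c2665 (by decide +kernel)) (aC (chk_sound smok0 c2666 (by decide +kernel)) (aC (chk_sound smok0 c2667 (by decide +kernel)) (aC (chk_sound smok0 c2668 (by decide +kernel)) (aC (chk_sound smok0 c2669 (by decide +kernel)) aN)))))))))))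
theorem n285 : Rf E0 xe11 [899, 982, 1228, 1136, 1053] :=
  node_sound smok0 (q := 16) (ch := [1313, 1312, 1311, 1307, 1305, 1303, 1302, 1297]) (by decide +kernel) (by decide +kernel)
    (aC (chk_sound smok0 c2670 (by decide +kernel)) (aC (chk_sound smok0 c2671 (by decide +kernel)) (aC (chk_sound smok0 c2672 (by decide +kernel)) (aC (chk_sound smok0 c2673 (by decide +kernel)) (aC (chk_sound smok0 c2674 (by decide +kernel)) (aC (chk_sound smok0 c2675 (by decide +kernel)) (aC (chk_sound smok0 c2676 (by decide +kernel)) (aC (chk_sound smok0 c2677 (by decide +kernel)) aN))))))))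
theorem n286 : Rf E0 xe11 [898, 982, 1228, 1136, 1053] :=
  node_sound smok0 (q := 16) (ch := [1314, 1313, 1312, 1311, 1307, 1305, 1304, 1302, 1297]) (by decide +kernel) (by decide +kernel)
    (aC (chk_sound smok0 c2678 (by decide +kernel)) (aC (chk_sound smok0 c2679 (by decide +kernel)) (aC (chk_sound smok0 c2680 (by decide +kernel)) (aC (chk_sound smok0 c2681 (by decide +kernel)) (aC (chk_sound smok0 c2682 (by decide +kernel)) (aC (chk_sound smok0 c2683 (by decide +kernel)) (aC (chk_sound smok0 c2684 (by decide +kernel)) (aC (chk_sound smok0 c2685 (by decide +kernel)) (aC (chk_sound smok0 c2686 (by decide +kernel)) aN)))))))))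
theorem n287 : Rf E0 xe11 [982, 1228, 1136, 1053] :=
  node_sound smok0 (q := 11) (ch := [914, 913, 907, 903, 899, 898, 897, 896, 895, 894, 892]) (by decide +kernel) (by decide +kernel)
    (aC (chk_sound smok0 c2687 (by decide +kernel)) (aC (chk_sound smok0 c2688 (by decide +kernel)) (aC (chk_sound smok0 c2689 (by decide +kernel)) (aC (chk_sound smok0 c2690 (by decide +kernel)) (aC n285 (aC n286 (aC (chk_sound smok0 c2691 (by decide +kernel)) (aC (chk_sound smok0 c2692 (by decide +kernel)) (aC (chk_sound smok0 c2693 (by decide +kernel)) (aC (chk_sound smok0 c2694 (by decide +kernel)) (aC (chk_sound smok0 c2695 (by decide +kernel)) aN)))))))))))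
theorem n288 : Rf E0 xe11 [17, 981, 1228, 1136, 1053] :=
  node_sound smok0 (q := 11) (ch := [914, 903, 902, 898, 897, 896, 895, 894, 892]) (by decide +kernel) (by decide +kernel)
    (aC (chk_sound smok0 c2696 (by decide +kernel)) (aC (chk_sound smok0 c2697 (by decide +kernel)) (aC (chk_sound smok0 c2698 (by decide +kernel)) (aC (chk_sound smok0 c2699 (by decide +kernel)) (aC (chk_sound smok0 c2700 (by decide +kernel)) (aC (chk_sound smok0 c2701 (by decide +kernel)) (aC (chk_sound smok0 c2702 (by decide +kernel)) (aC (chk_sound smok0 c2703 (by decide +kernel)) (aC (chk_sound smok0 c2704 (by decide +kernel)) aN)))))))))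
theorem n289 : Rf E0 xe11 [981, 1228, 1136, 1053] :=
  node_sound smok0 (q := 0) (ch := [26, 23, 22, 21, 18, 17, 12, 10, 8, 4, 3]) (by decide +kernel) (by decide +kernel)
    (aC (chk_sound smok0 c2705 (by decide +kernel)) (aC (chk_sound smok0 c2706 (by decide +kernel)) (aC (chk_sound smok0 c2707 (by decide +kernel)) (aC (chk_sound smok0 c2708 (by decide +kernel)) (aC (chk_sound smok0 c2709 (by decide +kernel)) (aC n288 (aC (chk_sound smok0 c2710 (by decide +kernel)) (aC (chk_sound smok0 c2711 (by decide +kernel)) (aC (chk_sound smok0 c2712 (by decide +kernel)) (aC (chk_sound smok0 c2713 (by decide +kernel)) (aC (chk_sound smok0 c2714 (by decide +kernel)) aN)))))))))))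
theorem n290 : Rf E0 xe11 [26, 980, 1228, 1136, 1053] :=
  node_sound smok0 (q := 16) (ch := [1317, 1316, 1315, 1311, 1307, 1306, 1305, 1303, 1302, 1297]) (by decide +kernel) (by decide +kernel)
    (aC (chk_sound smok0 c2715 (by decide +kernel)) (aC (chk_sound smok0 c2716 (by decide +kernel)) (aC (chk_sound smok0 c2717 (by decide +kernel)) (aC (chk_sound smok0 c2718 (by decide +kernel)) (aC (chk_sound smok0 c2719 (by decide +kernel)) (aC (chk_sound smok0 c2720 (by decide +kernel)) (aC (chk_sound smok0 c2721 (by decide +kernel)) (aC (chk_sound smok0 c2722 (by decide +kernel)) (aC (chk_sound smok0 c2723 (by decide +kernel)) (aC (chk_sound smok0 c2724 (by decide +kernel)) aN))))))))))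
theorem n291 : Rf E0 xe11 [25, 980, 1228, 1136, 1053] :=
  node_sound smok0 (q := 26) (ch := [2129, 2126, 2122, 2121, 2118, 2117, 2116, 2115, 2113, 2112]) (by decide +kernel) (by decide +kernel)
    (aC (chk_sound smok0 c2725 (by decide +kernel)) (aC (chk_sound smok0 c2726 (by decide +kernel)) (aC (chk_sound smok0 c2727 (by decide +kernel)) (aC (chk_sound smok0 c2728 (by decide +kernel)) (aC (chk_sound smok0 c2729 (by decide +kernel)) (aC (chk_sound smok0 c2730 (by decide +kernel)) (aC (chk_sound smok0 c2731 (by decide +kernel)) (aC (chk_sound smok0 c2732 (by decide +kernel)) (aC (chk_sound smok0 c2733 (by decide +kernel)) (aC (chk_sound smok0 c2734 (by decide +kernel)) aN))))))))))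
theorem n292 : Rf E0 xe11 [23, 980, 1228, 1136, 1053] :=
  node_sound smok0 (q := 11) (ch := [913, 912, 911, 910, 909, 903, 902, 901, 895, 894, 892]) (by decide +kernel) (by decide +kernel)
    (aC (chk_sound smok0 c2735 (by decide +kernel)) (aC (chk_sound smok0 c2736 (by decide +kernel)) (aC (chk_sound smok0 c2737 (by decide +kernel)) (aC (chk_sound smok0 c2738 (by decide +kernel)) (aC (chk_sound smok0 c2739 (by decide +kernel)) (aC (chk_sound smok0 c2740 (by decide +kernel)) (aC (chk_sound smok0 c2741 (by decide +kernel)) (aC (chk_sound smok0 c2742 (by decide +kernel)) (aC (chk_sound smok0 c2743 (by decide +kernel)) (aC (chk_sound smok0 c2744 (by decide +kernel)) (aC (chk_sound smok0 c2745 (by decide +kernel)) aN)))))))))))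
theorem n293 : Rf E0 xe11 [22, 980, 1228, 1136, 1053] :=
  node_sound smok0 (q := 11) (ch := [914, 912, 911, 910, 909, 903, 902, 901, 897, 892]) (by decide +kernel) (by decide +kernel)
    (aC (chk_sound smok0 c2746 (by decide +kernel)) (aC (chk_sound smok0 c2747 (by decide +kernel)) (aC (chk_sound smok0 c2748 (by decide +kernel)) (aC (chk_sound smok0 c2749 (by decide +kernel)) (aC (chk_sound smok0 c2750 (by decide +kernel)) (aC (chk_sound smok0 c2751 (by decide +kernel)) (aC (chk_sound smok0 c2752 (by decide +kernel)) (aC (chk_sound smok0 c2753 (by decide +kernel)) (aC (chk_sound smok0 c2754 (by decide +kernel)) (aC (chk_sound smok0 c2755 (by decide +kernel)) aN))))))))))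
theorem n294 : Rf E0 xe11 [21, 980, 1228, 1136, 1053] :=
  node_sound smok0 (q := 16) (ch := [1316, 1315, 1314, 1313, 1312, 1311, 1307, 1306, 1305, 1297]) (by decide +kernel) (by decide +kernel)
    (aC (chk_sound smok0 c2756 (by decide +kernel)) (aC (chk_sound smok0 c2757 (by decide +kernel)) (aC (chk_sound smok0 c2758 (by decide +kernel)) (aC (chk_sound smok0 c2759 (by decide +kernel)) (aC (chk_sound smok0 c2760 (by decide +kernel)) (aC (chk_sound smok0 c2761 (by decide +kernel)) (aC (chk_sound smok0 c2762 (by decide +kernel)) (aC (chk_sound smok0 c2763 (by decide +kernel)) (aC (chk_sound smok0 c2764 (by decide +kernel)) (aC (chk_sound smok0 c2765 (by decide +kernel)) aN))))))))))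
theorem n295 : Rf E0 xe11 [17, 980, 1228, 1136, 1053] :=
  node_sound smok0 (q := 53) (ch := [2132, 1808, 1727, 836, 755, 674, 593, 431, 350, 269]) (by decide +kernel) (by decide +kernel)
    (aC (chk_sound smok0 c2766 (by decide +kernel)) (aC (chk_sound smok0 c2767 (by decide +kernel)) (aC (chk_sound smok0 c2768 (by decide +kernel)) (aC (chk_sound smok0 c2769 (by decide +kernel)) (aC (chk_sound smok0 c2770 (by decide +kernel)) (aC (chk_sound smok0 c2771 (by decide +kernel)) (aC (chk_sound smok0 c2772 (by decide +kernel)) (aC (chk_sound smok0 c2773 (by decide +kernel)) (aC (chk_sound smok0 c2774 (by decide +kernel)) (aC (chk_sound smok0 c2775 (by decide +kernel)) aN))))))))))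
theorem n296 : Rf E0 xe11 [9, 980, 1228, 1136, 1053] :=
  node_sound smok0 (q := 16) (ch := [1317, 1316, 1315, 1314, 1313, 1312, 1311, 1303, 1302, 1297]) (by decide +kernel) (by decide +kernel)
    (aC (chk_sound smok0 c2776 (by decide +kernel)) (aC (chk_sound smok0 c2777 (by decide +kernel)) (aC (chk_sound smok0 c2778 (by decide +kernel)) (aC (chk_sound smok0 c2779 (by decide +kernel)) (aC (chk_sound smok0 c2780 (by decide +kernel)) (aC (chk_sound smok0 c2781 (by decide +kernel)) (aC (chk_sound smok0 c2782 (by decide +kernel)) (aC (chk_sound smok0 c2783 (by decide +kernel)) (aC (chk_sound smok0 c2784 (by decide +kernel)) (aC (chk_sound smok0 c2785 (by decide +kernel)) aN))))))))))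
theorem n297 : Rf E0 xe11 [4, 980, 1228, 1136, 1053] :=
  node_sound smok0 (q := 11) (ch := [911, 910, 909, 903, 902, 901, 897, 896, 894, 892]) (by decide +kernel) (by decide +kernel)
    (aC (chk_sound smok0 c2786 (by decide +kernel)) (aC (chk_sound smok0 c2787 (by decide +kernel)) (aC (chk_sound smok0 c2788 (by decide +kernel)) (aC (chk_sound smok0 c2789 (by decide +kernel)) (aC (chk_sound smok0 c2790 (by decide +kernel)) (aC (chk_sound smok0 c2791 (by decide +kernel)) (aC (chk_sound smok0 c2792 (by decide +kernel)) (aC (chk_sound smok0 c2793 (by decide +kernel)) (aC (chk_sound smok0 c2794 (by decide +kernel)) (aC (chk_sound smok0 c2795 (by decide +kernel)) aN))))))))))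
theorem n298 : Rf E0 xe11 [3, 980, 1228, 1136, 1053] :=
  node_sound smok0 (q := 11) (ch := [914, 913, 909, 903, 902, 901, 897, 896, 895, 892]) (by decide +kernel) (by decide +kernel)
    (aC (chk_sound smok0 c2796 (by decide +kernel)) (aC (chk_sound smok0 c2797 (by decide +kernel)) (aC (chk_sound smok0 c2798 (by decide +kernel)) (aC (chk_sound smok0 c2799 (by decide +kernel)) (aC (chk_sound smok0 c2800 (by decide +kernel)) (aC (chk_sound smok0 c2801 (by decide +kernel)) (aC (chk_sound smok0 c2802 (by decide +kernel)) (aC (chk_sound smok0 c2803 (by decide +kernel)) (aC (chk_sound smok0 c2804 (by decide +kernel)) (aC (chk_sound smok0 c2805 (by decide +kernel)) aN))))))))))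
theorem n299 : Rf E0 xe11 [980, 1228, 1136, 1053] :=
  node_sound smok0 (q := 0) (ch := [26, 25, 23, 22, 21, 17, 12, 9, 4, 3]) (by decide +kernel) (by decide +kernel)
    (aC n290 (aC n291 (aC n292 (aC n293 (aC n294 (aC n295 (aC (chk_sound smok0 c2806 (by decide +kernel)) (aC n296 (aC n297 (aC n298 aN))))))))))
theorem n300 : Rf E0 xe11 [26, 979, 1228, 1136, 1053] :=
  node_sound smok0 (q := 16) (ch := [1318, 1317, 1316, 1312, 1311, 1307, 1306, 1305, 1304, 1302, 1297]) (by decide +kernel) (by decide +kernel)
    (aC (chk_sound smok0 c2807 (by decide +kernel)) (aC (chk_sound smok0 c2808 (by decide +kernel)) (aC (chk_sound smok0 c2809 (by decide +kernel)) (aC (chk_sound smok0 c2810 (by decide +kernel)) (aC (chk_sound smok0 c2811 (by decide +kernel)) (aC (chk_sound smok0 c2812 (by decide +kernel)) (aC (chk_sound smok0 c2813 (by decide +kernel)) (aC (chk_sound smok0 c2814 (by decide +kernel)) (aC (chk_sound smok0 c2815 (by decide +kernel)) (aC (chk_sound smok0 c2816 (by decide +kernel)) (aC (chk_sound smok0 c2817 (by decide +kernel))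 aN)))))))))))
theorem n301 : Rf E0 xe11 [25, 979, 1228, 1136, 1053] :=
  node_sound smok0 (q := 16) (ch := [1318, 1317, 1316, 1315, 1314, 1307, 1306, 1305, 1304, 1302, 1297]) (by decide +kernel) (by decide +kernel)
    (aC (chk_sound smok0 c2818 (by decide +kernel)) (aC (chk_sound smok0 c2819 (by decide +kernel)) (aC (chk_sound smok0 c2820 (by decide +kernel)) (aC (chk_sound smok0 c2821 (by decide +kernel)) (aC (chk_sound smok0 c2822 (by decide +kernel)) (aC (chk_sound smok0 c2823 (by decide +kernel)) (aC (chk_sound smok0 c2824 (by decide +kernel)) (aC (chk_sound smok0 c2825 (by decide +kernel)) (aC (chk_sound smok0 c2826 (by decide +kernel)) (aC (chk_sound smok0 c2827 (by decide +kernel)) (aC (chk_sound smok0 c2828 (by decide +kernel)) aN)))))))))))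
theorem n302 : Rf E0 xe11 [22, 979, 1228, 1136, 1053] :=
  node_sound smok0 (q := 11) (ch := [914, 912, 911, 910, 909, 908, 907, 901, 900, 892]) (by decide +kernel) (by decide +kernel)
    (aC (chk_sound smok0 c2829 (by decide +kernel)) (aC (chk_sound smok0 c2830 (by decide +kernel)) (aC (chk_sound smok0 c2831 (by decide +kernel)) (aC (chk_sound smok0 c2832 (by decide +kernel)) (aC (chk_sound smok0 c2833 (by decide +kernel)) (aC (chk_sound smok0 c2834 (by decide +kernel)) (aC (chk_sound smok0 c2835 (by decide +kernel)) (aC (chk_sound smok0 c2836 (by decide +kernel)) (aC (chk_sound smok0 c2837 (by decide +kernel)) (aC (chk_sound smok0 c2838 (by decide +kernel)) aN))))))))))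
theorem n303 : Rf E0 xe11 [21, 979, 1228, 1136, 1053] :=
  node_sound smok0 (q := 11) (ch := [914, 913, 911, 910, 909, 908, 907, 901, 900, 896, 895]) (by decide +kernel) (by decide +kernel)
    (aC (chk_sound smok0 c2839 (by decide +kernel)) (aC (chk_sound smok0 c2840 (by decide +kernel)) (aC (chk_sound smok0 c2841 (by decide +kernel)) (aC (chk_sound smok0 c2842 (by decide +kernel)) (aC (chk_sound smok0 c2843 (by decide +kernel)) (aC (chk_sound smok0 c2844 (by decide +kernel)) (aC (chk_sound smok0 c2845 (by decide +kernel)) (aC (chk_sound smok0 c2846 (by decide +kernel)) (aC (chk_sound smok0 c2847 (by decide +kernel)) (aC (chk_sound smok0 c2848 (by decide +kernel)) (aC (chk_sound smok0 c2849 (by decide +kernel)) aN)))))))))))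
theorem n304 : Rf E0 xe11 [19, 979, 1228, 1136, 1053] :=
  node_sound smok0 (q := 1) (ch := [106, 105, 104, 103, 98, 95, 91, 90, 86, 85, 84, 82]) (by decide +kernel) (by decide +kernel)
    (aC (chk_sound smok0 c2850 (by decide +kernel)) (aC (chk_sound smok0 c2851 (by decide +kernel)) (aC (chk_sound smok0 c2852 (by decide +kernel)) (aC (chk_sound smok0 c2853 (by decide +kernel)) (aC (chk_sound smok0 c2854 (by decide +kernel)) (aC (chk_sound smok0 c2855 (by decide +kernel)) (aC (chk_sound smok0 c2856 (by decide +kernel)) (aC (chk_sound smok0 c2857 (by decide +kernel)) (aC (chk_sound smok0 c2858 (by decide +kernel)) (aC (chk_sound smok0 c2859 (by decide +kernel)) (aC (chk_sound smok0 c2860 (by decide +kernel)) (aC (chk_sound smok0 c2861 (by decide +kernel)) aN))))))))))))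
theorem n305 : Rf E0 xe11 [17, 979, 1228, 1136, 1053] :=
  node_sound smok0 (q := 11) (ch := [914, 910, 909, 907, 901, 900, 896, 895, 894, 892]) (by decide +kernel) (by decide +kernel)
    (aC (chk_sound smok0 c2862 (by decide +kernel)) (aC (chk_sound smok0 c2863 (by decide +kernel)) (aC (chk_sound smok0 c2864 (by decide +kernel)) (aC (chk_sound smok0 c2865 (by decide +kernel)) (aC (chk_sound smok0 c2866 (by decide +kernel)) (aC (chk_sound smok0 c2867 (by decide +kernel)) (aC (chk_sound smok0 c2868 (by decide +kernel)) (aC (chk_sound smok0 c2869 (by decide +kernel)) (aC (chk_sound smok0 c2870 (by decide +kernel)) (aC (chk_sound smok0 c2871 (by decide +kernel)) aN))))))))))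
theorem n306 : Rf E0 xe11 [12, 979, 1228, 1136, 1053] :=
  node_sound smok0 (q := 16) (ch := [1318, 1317, 1316, 1315, 1311, 1307, 1306, 1305, 1304, 1302, 1297]) (by decide +kernel) (by decide +kernel)
    (aC (chk_sound smok0 c2872 (by decide +kernel)) (aC (chk_sound smok0 c2873 (by decide +kernel)) (aC (chk_sound smok0 c2874 (by decide +kernel)) (aC (chk_sound smok0 c2875 (by decide +kernel)) (aC (chk_sound smok0 c2876 (by decide +kernel)) (aC (chk_sound smok0 c2877 (by decide +kernel)) (aC (chk_sound smok0 c2878 (by decide +kernel)) (aC (chk_sound smok0 c2879 (by decide +kernel)) (aC (chk_sound smok0 c2880 (by decide +kernel)) (aC (chk_sound smok0 c2881 (by decide +kernel)) (aC (chk_sound smok0 c2882 (by decide +kernel)) aN)))))))))))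
theorem n307 : Rf E0 xe11 [9, 979, 1228, 1136, 1053] :=
  node_sound smok0 (q := 11) (ch := [914, 913, 912, 911, 910, 909, 908, 907, 901, 894, 892]) (by decide +kernel) (by decide +kernel)
    (aC (chk_sound smok0 c2883 (by decide +kernel)) (aC (chk_sound smok0 c2884 (by decide +kernel)) (aC (chk_sound smok0 c2885 (by decide +kernel)) (aC (chk_sound smok0 c2886 (by decide +kernel)) (aC (chk_sound smok0 c2887 (by decide +kernel)) (aC (chk_sound smok0 c2888 (by decide +kernel)) (aC (chk_sound smok0 c2889 (by decide +kernel)) (aC (chk_sound smok0 c2890 (by decide +kernel)) (aC (chk_sound smok0 c2891 (by decide +kernel)) (aC (chk_sound smok0 c2892 (by decide +kernel)) (aC (chk_sound smok0 c2893 (by decide +kernel)) aN)))))))))))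
theorem n308 : Rf E0 xe11 [8, 979, 1228, 1136, 1053] :=
  node_sound smok0 (q := 45) (ch := [1962, 1881, 1800, 1314, 909, 828, 747, 666, 423, 99]) (by decide +kernel) (by decide +kernel)
    (aC (chk_sound smok0 c2894 (by decide +kernel)) (aC (chk_sound smok0 c2895 (by decide +kernel)) (aC (chk_sound smok0 c2896 (by decide +kernel)) (aC (chk_sound smok0 c2897 (by decide +kernel)) (aC (chk_sound smok0 c2898 (by decide +kernel)) (aC (chk_sound smok0 c2899 (by decide +kernel)) (aC (chk_sound smok0 c2900 (by decide +kernel)) (aC (chk_sound smok0 c2901 (by decide +kernel)) (aC (chk_sound smok0 c2902 (by decide +kernel)) (aC (chk_sound smok0 c2903 (by decide +kernel)) aN))))))))))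
theorem n309 : Rf E0 xe11 [3, 979, 1228, 1136, 1053] :=
  node_sound smok0 (q := 11) (ch := [914, 913, 909, 908, 907, 901, 900, 896, 895, 892]) (by decide +kernel) (by decide +kernel)
    (aC (chk_sound smok0 c2904 (by decide +kernel)) (aC (chk_sound smok0 c2905 (by decide +kernel)) (aC (chk_sound smok0 c2906 (by decide +kernel)) (aC (chk_sound smok0 c2907 (by decide +kernel)) (aC (chk_sound smok0 c2908 (by decide +kernel)) (aC (chk_sound smok0 c2909 (by decide +kernel)) (aC (chk_sound smok0 c2910 (by decide +kernel)) (aC (chk_sound smok0 c2911 (by decide +kernel)) (aC (chk_sound smok0 c2912 (by decide +kernel)) (aC (chk_sound smok0 c2913 (by decide +kernel)) aN))))))))))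
theorem n310 : Rf E0 xe11 [979, 1228, 1136, 1053] :=
  node_sound smok0 (q := 0) (ch := [26, 25, 22, 21, 19, 17, 12, 11, 9, 8, 3]) (by decide +kernel) (by decide +kernel)
    (aC n300 (aC n301 (aC n302 (aC n303 (aC n304 (aC n305 (aC n306 (aC (chk_sound smok0 c2914 (by decide +kernel)) (aC n307 (aC n308 (aC n309 aN)))))))))))
theorem n311 : Rf E0 xe11 [26, 978, 1228, 1136, 1053] :=
  node_sound smok0 (q := 16) (ch := [1318, 1317, 1313, 1312, 1311, 1307, 1306, 1305, 1304, 1303, 1297]) (by decide +kernel) (by decide +kernel)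
    (aC (chk_sound smok0 c2915 (by decide +kernel)) (aC (chk_sound smok0 c2916 (by decide +kernel)) (aC (chk_sound smok0 c2917 (by decide +kernel)) (aC (chk_sound smok0 c2918 (by decide +kernel)) (aC (chk_sound smok0 c2919 (by decide +kernel)) (aC (chk_sound smok0 c2920 (by decide +kernel)) (aC (chk_sound smok0 c2921 (by decide +kernel)) (aC (chk_sound smok0 c2922 (by decide +kernel)) (aC (chk_sound smok0 c2923 (by decide +kernel)) (aC (chk_sound smok0 c2924 (by decide +kernel)) (aC (chk_sound smok0 c2925 (by decide +kernel)) aN)))))))))))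
theorem n312 : Rf E0 xe11 [25, 978, 1228, 1136, 1053] :=
  node_sound smok0 (q := 53) (ch := [2051, 1970, 1889, 1808, 1727, 1565, 431, 350, 269]) (by decide +kernel) (by decide +kernel)
    (aC (chk_sound smok0 c2926 (by decide +kernel)) (aC (chk_sound smok0 c2927 (by decide +kernel)) (aC (chk_sound smok0 c2928 (by decide +kernel)) (aC (chk_sound smok0 c2929 (by decide +kernel)) (aC (chk_sound smok0 c2930 (by decide +kernel)) (aC (chk_sound smok0 c2931 (by decide +kernel)) (aC (chk_sound smok0 c2932 (by decide +kernel)) (aC (chk_sound smok0 c2933 (by decide +kernel)) (aC (chk_sound smok0 c2934 (by decide +kernel)) aN)))))))))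
theorem n313 : Rf E0 xe11 [22, 978, 1228, 1136, 1053] :=
  node_sound smok0 (q := 11) (ch := [914, 912, 911, 910, 909, 908, 907, 899, 892]) (by decide +kernel) (by decide +kernel)
    (aC (chk_sound smok0 c2935 (by decide +kernel)) (aC (chk_sound smok0 c2936 (by decide +kernel)) (aC (chk_sound smok0 c2937 (by decide +kernel)) (aC (chk_sound smok0 c2938 (by decide +kernel)) (aC (chk_sound smok0 c2939 (by decide +kernel)) (aC (chk_sound smok0 c2940 (by decide +kernel)) (aC (chk_sound smok0 c2941 (by decide +kernel)) (aC (chk_sound smok0 c2942 (by decide +kernel)) (aC (chk_sound smok0 c2943 (by decide +kernel)) aN)))))))))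
theorem n314 : Rf E0 xe11 [19, 978, 1228, 1136, 1053] :=
  node_sound smok0 (q := 53) (ch := [2132, 2051, 1970, 1889, 1808, 1727, 593, 431, 350, 269]) (by decide +kernel) (by decide +kernel)
    (aC (chk_sound smok0 c2944 (by decide +kernel)) (aC (chk_sound smok0 c2945 (by decide +kernel)) (aC (chk_sound smok0 c2946 (by decide +kernel)) (aC (chk_sound smok0 c2947 (by decide +kernel)) (aC (chk_sound smok0 c2948 (by decide +kernel)) (aC (chk_sound smok0 c2949 (by decide +kernel)) (aC (chk_sound smok0 c2950 (by decide +kernel)) (aC (chk_sound smok0 c2951 (by decide +kernel)) (aC (chk_sound smok0 c2952 (by decide +kernel)) (aC (chk_sound smok0 c2953 (by decide +kernel)) aN))))))))))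
theorem n315 : Rf E0 xe11 [8, 978, 1228, 1136, 1053] :=
  node_sound smok0 (q := 11) (ch := [914, 913, 912, 911, 910, 909, 908, 907, 892]) (by decide +kernel) (by decide +kernel)
    (aC (chk_sound smok0 c2954 (by decide +kernel)) (aC (chk_sound smok0 c2955 (by decide +kernel)) (aC (chk_sound smok0 c2956 (by decide +kernel)) (aC (chk_sound smok0 c2957 (by decide +kernel)) (aC (chk_sound smok0 c2958 (by decide +kernel)) (aC (chk_sound smok0 c2959 (by decide +kernel)) (aC (chk_sound smok0 c2960 (by decide +kernel)) (aC (chk_sound smok0 c2961 (by decide +kernel)) (aC (chk_sound smok0 c2962 (by decide +kernel)) aN)))))))))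
theorem n316 : Rf E0 xe11 [5, 978, 1228, 1136, 1053] :=
  node_sound smok0 (q := 11) (ch := [913, 912, 911, 910, 909, 908, 907, 899, 895, 894, 892]) (by decide +kernel) (by decide +kernel)
    (aC (chk_sound smok0 c2963 (by decide +kernel)) (aC (chk_sound smok0 c2964 (by decide +kernel)) (aC (chk_sound smok0 c2965 (by decide +kernel)) (aC (chk_sound smok0 c2966 (by decide +kernel)) (aC (chk_sound smok0 c2967 (by decide +kernel)) (aC (chk_sound smok0 c2968 (by decide +kernel)) (aC (chk_sound smok0 c2969 (by decide +kernel)) (aC (chk_sound smok0 c2970 (by decide +kernel)) (aC (chk_sound smok0 c2971 (by decide +kernel)) (aC (chk_sound smok0 c2972 (by decide +kernel)) (aC (chk_sound smok0 c2973 (by decide +kernel)) aN)))))))))))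
theorem n317 : Rf E0 xe11 [978, 1228, 1136, 1053] :=
  node_sound smok0 (q := 0) (ch := [26, 25, 24, 22, 21, 19, 12, 11, 8, 5, 3]) (by decide +kernel) (by decide +kernel)
    (aC n311 (aC n312 (aC (chk_sound smok0 c2974 (by decide +kernel)) (aC n313 (aC (chk_sound smok0 c2975 (by decide +kernel)) (aC n314 (aC (chk_sound smok0 c2976 (by decide +kernel)) (aC (chk_sound smok0 c2977 (by decide +kernel)) (aC n315 (aC n316 (aC (chk_sound smok0 c2978 (by decide +kernel)) aN)))))))))))
theorem n318 : Rf E0 xe11 [25, 977, 1228, 1136, 1053] :=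
  node_sound smok0 (q := 11) (ch := [914, 913, 912, 911, 910, 909, 908, 907, 903, 894, 892]) (by decide +kernel) (by decide +kernel)
    (aC (chk_sound smok0 c2979 (by decide +kernel)) (aC (chk_sound smok0 c2980 (by decide +kernel)) (aC (chk_sound smok0 c2981 (by decide +kernel)) (aC (chk_sound smok0 c2982 (by decide +kernel)) (aC (chk_sound smok0 c2983 (by decide +kernel)) (aC (chk_sound smok0 c2984 (by decide +kernel)) (aC (chk_sound smok0 c2985 (by decide +kernel)) (aC (chk_sound smok0 c2986 (by decide +kernel)) (aC (chk_sound smok0 c2987 (by decide +kernel)) (aC (chk_sound smok0 c2988 (by decide +kernel)) (aC (chk_sound smok0 c2989 (by decide +kernel)) aN)))))))))))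
theorem n319 : Rf E0 xe11 [10, 977, 1228, 1136, 1053] :=
  node_sound smok0 (q := 1) (ch := [106, 105, 104, 100, 99, 98, 95, 93, 85, 84, 82]) (by decide +kernel) (by decide +kernel)
    (aC (chk_sound smok0 c2990 (by decide +kernel)) (aC (chk_sound smok0 c2991 (by decide +kernel)) (aC (chk_sound smok0 c2992 (by decide +kernel)) (aC (chk_sound smok0 c2993 (by decide +kernel)) (aC (chk_sound smok0 c2994 (by decide +kernel)) (aC (chk_sound smok0 c2995 (by decide +kernel)) (aC (chk_sound smok0 c2996 (by decide +kernel)) (aC (chk_sound smok0 c2997 (by decide +kernel)) (aC (chk_sound smok0 c2998 (by decide +kernel)) (aC (chk_sound smok0 c2999 (by decide +kernel)) (aC (chk_sound smok0 c3000 (by decide +kernel)) aN)))))))))))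
theorem n320 : Rf E0 xe11 [8, 977, 1228, 1136, 1053] :=
  node_sound smok0 (q := 11) (ch := [914, 913, 912, 911, 910, 909, 908, 907, 903, 892]) (by decide +kernel) (by decide +kernel)
    (aC (chk_sound smok0 c3001 (by decide +kernel)) (aC (chk_sound smok0 c3002 (by decide +kernel)) (aC (chk_sound smok0 c3003 (by decide +kernel)) (aC (chk_sound smok0 c3004 (by decide +kernel)) (aC (chk_sound smok0 c3005 (by decide +kernel)) (aC (chk_sound smok0 c3006 (by decide +kernel)) (aC (chk_sound smok0 c3007 (by decide +kernel)) (aC (chk_sound smok0 c3008 (by decide +kernel)) (aC (chk_sound smok0 c3009 (by decide +kernel)) (aC (chk_sound smok0 c3010 (by decide +kernel)) aN))))))))))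
theorem n321 : Rf E0 xe11 [977, 1228, 1136, 1053] :=
  node_sound smok0 (q := 0) (ch := [26, 25, 24, 21, 19, 18, 12, 11, 10, 8]) (by decide +kernel) (by decide +kernel)
    (aC (chk_sound smok0 c3011 (by decide +kernel)) (aC n318 (aC (chk_sound smok0 c3012 (by decide +kernel)) (aC (chk_sound smok0 c3013 (by decide +kernel)) (aC (chk_sound smok0 c3014 (by decide +kernel)) (aC (chk_sound smok0 c3015 (by decide +kernel)) (aC (chk_sound smok0 c3016 (by decide +kernel)) (aC (chk_sound smok0 c3017 (by decide +kernel)) (aC n319 (aC n320 aN))))))))))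
theorem n322 : Rf E0 xe11 [25, 976, 1228, 1136, 1053] :=
  node_sound smok0 (q := 11) (ch := [914, 913, 912, 911, 910, 909, 908, 907, 903, 892]) (by decide +kernel) (by decide +kernel)
    (aC (chk_sound smok0 c3018 (by decide +kernel)) (aC (chk_sound smok0 c3019 (by decide +kernel)) (aC (chk_sound smok0 c3020 (by decide +kernel)) (aC (chk_sound smok0 c3021 (by decide +kernel)) (aC (chk_sound smok0 c3022 (by decide +kernel)) (aC (chk_sound smok0 c3023 (by decide +kernel)) (aC (chk_sound smok0 c3024 (by decide +kernel)) (aC (chk_sound smok0 c3025 (by decide +kernel)) (aC (chk_sound smok0 c3026 (by decide +kernel)) (aC (chk_sound smok0 c3027 (by decide +kernel)) aN))))))))))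
theorem n323 : Rf E0 xe11 [24, 976, 1228, 1136, 1053] :=
  node_sound smok0 (q := 16) (ch := [1318, 1317, 1316, 1315, 1311, 1307, 1306, 1305, 1304, 1303, 1302]) (by decide +kernel) (by decide +kernel)
    (aC (chk_sound smok0 c3028 (by decide +kernel)) (aC (chk_sound smok0 c3029 (by decide +kernel)) (aC (chk_sound smok0 c3030 (by decide +kernel)) (aC (chk_sound smok0 c3031 (by decide +kernel)) (aC (chk_sound smok0 c3032 (by decide +kernel)) (aC (chk_sound smok0 c3033 (by decide +kernel)) (aC (chk_sound smok0 c3034 (by decide +kernel)) (aC (chk_sound smok0 c3035 (by decide +kernel)) (aC (chk_sound smok0 c3036 (by decide +kernel)) (aC (chk_sound smok0 c3037 (by decide +kernel)) (aC (chk_sound smok0 c3038 (by decide +kernel)) aN)))))))))))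
theorem n324 : Rf E0 xe11 [23, 976, 1228, 1136, 1053] :=
  node_sound smok0 (q := 1) (ch := [106, 100, 99, 98, 95, 93, 92, 91, 86, 84, 82]) (by decide +kernel) (by decide +kernel)
    (aC (chk_sound smok0 c3039 (by decide +kernel)) (aC (chk_sound smok0 c3040 (by decide +kernel)) (aC (chk_sound smok0 c3041 (by decide +kernel)) (aC (chk_sound smok0 c3042 (by decide +kernel)) (aC (chk_sound smok0 c3043 (by decide +kernel)) (aC (chk_sound smok0 c3044 (by decide +kernel)) (aC (chk_sound smok0 c3045 (by decide +kernel)) (aC (chk_sound smok0 c3046 (by decide +kernel)) (aC (chk_sound smok0 c3047 (by decide +kernel)) (aC (chk_sound smok0 c3048 (by decide +kernel)) (aC (chk_sound smok0 c3049 (by decide +kernel)) aN)))))))))))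
theorem n325 : Rf E0 xe11 [976, 1228, 1136, 1053] :=
  node_sound smok0 (q := 0) (ch := [26, 25, 24, 23, 21, 19, 18, 12, 11, 10, 5]) (by decide +kernel) (by decide +kernel)
    (aC (chk_sound smok0 c3050 (by decide +kernel)) (aC n322 (aC n323 (aC n324 (aC (chk_sound smok0 c3051 (by decide +kernel)) (aC (chk_sound smok0 c3052 (by decide +kernel)) (aC (chk_sound smok0 c3053 (by decide +kernel)) (aC (chk_sound smok0 c3054 (by decide +kernel)) (aC (chk_sound smok0 c3055 (by decide +kernel)) (aC (chk_sound smok0 c3056 (by decide +kernel)) (aC (chk_sound smok0 c3057 (by decide +kernel)) aN)))))))))))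
theorem n326 : Rf E0 xe11 [26, 975, 1228, 1136, 1053] :=
  node_sound smok0 (q := 28) (ch := [1945, 1864, 1783, 1459, 892, 811, 730, 649, 406, 82]) (by decide +kernel) (by decide +kernel)
    (aC (chk_sound smok0 c3058 (by decide +kernel)) (aC (chk_sound smok0 c3059 (by decide +kernel)) (aC (chk_sound smok0 c3060 (by decide +kernel)) (aC (chk_sound smok0 c3061 (by decide +kernel)) (aC (chk_sound smok0 c3062 (by decide +kernel)) (aC (chk_sound smok0 c3063 (by decide +kernel)) (aC (chk_sound smok0 c3064 (by decide +kernel)) (aC (chk_sound smok0 c3065 (by decide +kernel)) (aC (chk_sound smok0 c3066 (by decide +kernel)) (aC (chk_sound smok0 c3067 (by decide +kernel)) aN))))))))))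
theorem n327 : Rf E0 xe11 [25, 975, 1228, 1136, 1053] :=
  node_sound smok0 (q := 11) (ch := [914, 913, 912, 911, 910, 909, 908, 907, 903, 899, 892]) (by decide +kernel) (by decide +kernel)
    (aC (chk_sound smok0 c3068 (by decide +kernel)) (aC (chk_sound smok0 c3069 (by decide +kernel)) (aC (chk_sound smok0 c3070 (by decide +kernel)) (aC (chk_sound smok0 c3071 (by decide +kernel)) (aC (chk_sound smok0 c3072 (by decide +kernel)) (aC (chk_sound smok0 c3073 (by decide +kernel)) (aC (chk_sound smok0 c3074 (by decide +kernel)) (aC (chk_sound smok0 c3075 (by decide +kernel)) (aC (chk_sound smok0 c3076 (by decide +kernel)) (aC (chk_sound smok0 c3077 (by decide +kernel)) (aC (chk_sound smok0 c3078 (by decide +kernel)) aN)))))))))))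
theorem n328 : Rf E0 xe11 [24, 975, 1228, 1136, 1053] :=
  node_sound smok0 (q := 16) (ch := [1318, 1317, 1316, 1312, 1311, 1307, 1306, 1305, 1304, 1303, 1302]) (by decide +kernel) (by decide +kernel)
    (aC (chk_sound smok0 c3079 (by decide +kernel)) (aC (chk_sound smok0 c3080 (by decide +kernel)) (aC (chk_sound smok0 c3081 (by decide +kernel)) (aC (chk_sound smok0 c3082 (by decide +kernel)) (aC (chk_sound smok0 c3083 (by decide +kernel)) (aC (chk_sound smok0 c3084 (by decide +kernel)) (aC (chk_sound smok0 c3085 (by decide +kernel)) (aC (chk_sound smok0 c3086 (by decide +kernel)) (aC (chk_sound smok0 c3087 (by decide +kernel)) (aC (chk_sound smok0 c3088 (by decide +kernel)) (aC (chk_sound smok0 c3089 (by decide +kernel)) aN)))))))))))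
theorem n329 : Rf E0 xe11 [19, 975, 1228, 1136, 1053] :=
  node_sound smok0 (q := 16) (ch := [1318, 1317, 1316, 1314, 1313, 1312, 1311, 1307, 1306, 1302]) (by decide +kernel) (by decide +kernel)
    (aC (chk_sound smok0 c3090 (by decide +kernel)) (aC (chk_sound smok0 c3091 (by decide +kernel)) (aC (chk_sound smok0 c3092 (by decide +kernel)) (aC (chk_sound smok0 c3093 (by decide +kernel)) (aC (chk_sound smok0 c3094 (by decide +kernel)) (aC (chk_sound smok0 c3095 (by decide +kernel)) (aC (chk_sound smok0 c3096 (by decide +kernel)) (aC (chk_sound smok0 c3097 (by decide +kernel)) (aC (chk_sound smok0 c3098 (by decide +kernel)) (aC (chk_sound smok0 c3099 (by decide +kernel)) aN))))))))))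
theorem n330 : Rf E0 xe11 [17, 975, 1228, 1136, 1053] :=
  node_sound smok0 (q := 11) (ch := [914, 910, 909, 907, 903, 902, 901, 900, 899, 892]) (by decide +kernel) (by decide +kernel)
    (aC (chk_sound smok0 c3100 (by decide +kernel)) (aC (chk_sound smok0 c3101 (by decide +kernel)) (aC (chk_sound smok0 c3102 (by decide +kernel)) (aC (chk_sound smok0 c3103 (by decide +kernel)) (aC (chk_sound smok0 c3104 (by decide +kernel)) (aC (chk_sound smok0 c3105 (by decide +kernel)) (aC (chk_sound smok0 c3106 (by decide +kernel)) (aC (chk_sound smok0 c3107 (by decide +kernel)) (aC (chk_sound smok0 c3108 (by decide +kernel)) (aC (chk_sound smok0 c3109 (by decide +kernel)) aN))))))))))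
theorem n331 : Rf E0 xe11 [10, 975, 1228, 1136, 1053] :=
  node_sound smok0 (q := 16) (ch := [1318, 1317, 1316, 1315, 1311, 1307, 1305, 1304, 1303, 1302]) (by decide +kernel) (by decide +kernel)
    (aC (chk_sound smok0 c3110 (by decide +kernel)) (aC (chk_sound smok0 c3111 (by decide +kernel)) (aC (chk_sound smok0 c3112 (by decide +kernel)) (aC (chk_sound smok0 c3113 (by decide +kernel)) (aC (chk_sound smok0 c3114 (by decide +kernel)) (aC (chk_sound smok0 c3115 (by decide +kernel)) (aC (chk_sound smok0 c3116 (by decide +kernel)) (aC (chk_sound smok0 c3117 (by decide +kernel)) (aC (chk_sound smok0 c3118 (by decide +kernel)) (aC (chk_sound smok0 c3119 (by decide +kernel)) aN))))))))))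
theorem n332 : Rf E0 xe11 [9, 975, 1228, 1136, 1053] :=
  node_sound smok0 (q := 1) (ch := [106, 105, 100, 99, 98, 95, 93, 92, 86, 85, 82]) (by decide +kernel) (by decide +kernel)
    (aC (chk_sound smok0 c3120 (by decide +kernel)) (aC (chk_sound smok0 c3121 (by decide +kernel)) (aC (chk_sound smok0 c3122 (by decide +kernel)) (aC (chk_sound smok0 c3123 (by decide +kernel)) (aC (chk_sound smok0 c3124 (by decide +kernel)) (aC (chk_sound smok0 c3125 (by decide +kernel)) (aC (chk_sound smok0 c3126 (by decide +kernel)) (aC (chk_sound smok0 c3127 (by decide +kernel)) (aC (chk_sound smok0 c3128 (by decide +kernel)) (aC (chk_sound smok0 c3129 (by decide +kernel)) (aC (chk_sound smok0 c3130 (by decide +kernel)) aN)))))))))))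
theorem n333 : Rf E0 xe11 [4, 975, 1228, 1136, 1053] :=
  node_sound smok0 (q := 49) (ch := [1966, 1885, 1804, 1642, 1318, 832, 751, 508, 427, 103]) (by decide +kernel) (by decide +kernel)
    (aC (chk_sound smok0 c3131 (by decide +kernel)) (aC (chk_sound smok0 c3132 (by decide +kernel)) (aC (chk_sound smok0 c3133 (by decide +kernel)) (aC (chk_sound smok0 c3134 (by decide +kernel)) (aC (chk_sound smok0 c3135 (by decide +kernel)) (aC (chk_sound smok0 c3136 (by decide +kernel)) (aC (chk_sound smok0 c3137 (by decide +kernel)) (aC (chk_sound smok0 c3138 (by decide +kernel)) (aC (chk_sound smok0 c3139 (by decide +kernel)) (aC (chk_sound smok0 c3140 (by decide +kernel)) aN))))))))))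
theorem n334 : Rf E0 xe11 [975, 1228, 1136, 1053] :=
  node_sound smok0 (q := 0) (ch := [26, 25, 24, 23, 19, 18, 17, 12, 11, 10, 9, 5, 4]) (by decide +kernel) (by decide +kernel)
    (aC n326 (aC n327 (aC n328 (aC (chk_sound smok0 c3141 (by decide +kernel)) (aC n329 (aC (chk_sound smok0 c3142 (by decide +kernel)) (aC n330 (aC (chk_sound smok0 c3143 (by decide +kernel)) (aC (chk_sound smok0 c3144 (by decide +kernel)) (aC n331 (aC n332 (aC (chk_sound smok0 c3145 (by decide +kernel)) (aC n333 aN)))))))))))))
theorem n335 : Rf E0 xe11 [1228, 1136, 1053] :=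
  node_sound smok0 (q := 12) (ch := [988, 984, 983, 982, 981, 980, 979, 978, 977, 976, 975]) (by decide +kernel) (by decide +kernel)
    (aC n281 (aC n283 (aC n284 (aC n287 (aC n289 (aC n299 (aC n310 (aC n317 (aC n321 (aC n325 (aC n334 aN)))))))))))
theorem R0_11 : Rf E0 xe11 [1228, 1136, 1053] := n335

end Pool.Agent.R989.ZP
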