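import Pool.Agent.R989.ZP.Ms
import Pool.Agent.R989.ZP.C00
import Pool.Agent.R989.ZP.C01
import Pool.Agent.R989.ZP.C02
import Pool.Agent.R989.ZP.C03
import Pool.Agent.R989.ZP.C04
import Pool.Agent.R989.ZP.C05
import Pool.Agent.R989.ZP.C06
import Pool.Agent.R989.ZP.C07
import Pool.Agent.R989.ZP.C08
import Pool.Agent.R989.ZP.C09
import Pool.Agent.R989.ZP.C10
import Pool.Agent.R989.ZP.C11
import Pool.Agent.R989.ZP.C12
import Pool.Agent.R989.ZP.C13
import Pool.Agent.R989.ZP.C14
import Pool.Agent.R989.ZP.C15
import Pool.Agent.R989.ZP.C16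
import Pool.Agent.R989.ZP.C17
import Pool.Agent.R989.ZP.C18
import Pool.Agent.R989.ZP.C19
import Pool.Agent.R989.ZP.C20
import Pool.Agent.R989.ZP.C21
import Pool.Agent.R989.ZP.C22
import Pool.Agent.R989.ZP.C23
import Pool.Agent.R989.ZP.C24
import Pool.Agent.R989.ZP.C25
import Pool.Agent.R989.ZP.C26
import Pool.Agent.R989.ZP.C27
import Pool.Agent.R989.ZP.C28
import Pool.Agent.R989.ZP.C29
import Pool.Agent.R989.ZP.C30
import Pool.Agent.R989.ZP.C31
import Pool.Agent.R989.ZP.C32
import Pool.Agent.R989.ZP.C33
import Pool.Agent.R989.ZP.C34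
import Pool.Agent.R989.ZP.C35
import Pool.Agent.R989.ZP.C36
import Pool.Agent.R989.ZP.C37
import Pool.Agent.R989.ZP.C38
import Pool.Agent.R989.ZP.C39
import Pool.Agent.R989.ZP.C40
import Pool.Agent.R989.ZP.C41
import Pool.Agent.R989.ZP.C42
import Pool.Agent.R989.ZP.C43
import Pool.Agent.R989.ZP.C44
import Pool.Agent.R989.ZP.C45
import Pool.Agent.R989.ZP.C46
import Pool.Agent.R989.ZP.C47

set_option maxRecDepth 100000

namespace Pool.Agent.R989.ZP

theorem n336 : Rf E0 xe12 [987, 1229, 1136, 1053] :=
  node_sound smok0 (q := 28) (ch := [1945, 1864, 1783, 1702, 1621, 1540, 649, 568, 487, 406, 325, 244]) (by decide +kernel) (by decide +kernel)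
    (aC (chk_sound smok0 c3146 (by decide +kernel)) (aC (chk_sound smok0 c3147 (by decide +kernel)) (aC (chk_sound smok0 c3148 (by decide +kernel)) (aC (chk_sound smok0 c3149 (by decide +kernel)) (aC (chk_sound smok0 c3150 (by decide +kernel)) (aC (chk_sound smok0 c3151 (by decide +kernel)) (aC (chk_sound smok0 c3152 (by decide +kernel)) (aC (chk_sound smok0 c3153 (by decide +kernel)) (aC (chk_sound smok0 c3154 (by decide +kernel)) (aC (chk_sound smok0 c3155 (by decide +kernel)) (aC (chk_sound smok0 c3156 (by decide +kernel)) (aC (chk_sound smok0 c3157 (by decide +kernel)) aN))))))))))))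
theorem n337 : Rf E0 xe12 [892, 983, 1229, 1136, 1053] :=
  node_sound smok0 (q := 10) (ch := [836, 835, 834, 826, 825, 820, 816, 815, 814]) (by decide +kernel) (by decide +kernel)
    (aC (chk_sound smok0 c3158 (by decide +kernel)) (aC (chk_sound smok0 c3159 (by decide +kernel)) (aC (chk_sound smok0 c3160 (by decide +kernel)) (aC (chk_sound smok0 c3161 (by decide +kernel)) (aC (chk_sound smok0 c3162 (by decide +kernel)) (aC (chk_sound smok0 c3163 (by decide +kernel)) (aC (chk_sound smok0 c3164 (by decide +kernel)) (aC (chk_sound smok0 c3165 (by decide +kernel)) (aC (chk_sound smok0 c3166 (by decide +kernel)) aN)))))))))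
theorem n338 : Rf E0 xe12 [983, 1229, 1136, 1053] :=
  node_sound smok0 (q := 11) (ch := [909, 908, 907, 906, 900, 899, 898, 897, 896, 895, 894, 892]) (by decide +kernel) (by decide +kernel)
    (aC (chk_sound smok0 c3167 (by decide +kernel)) (aC (chk_sound smok0 c3168 (by decide +kernel)) (aC (chk_sound smok0 c3169 (by decide +kernel)) (aC (chk_sound smok0 c3170 (by decide +kernel)) (aC (chk_sound smok0 c3171 (by decide +kernel)) (aC (chk_sound smok0 c3172 (by decide +kernel)) (aC (chk_sound smok0 c3173 (by decide +kernel)) (aC (chk_sound smok0 c3174 (by decide +kernel)) (aC (chk_sound smok0 c3175 (by decide +kernel)) (aC (chk_sound smok0 c3176 (by decide +kernel)) (aC (chk_sound smok0 c3177 (by decide +kernel)) (aC n337 aN))))))))))))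
theorem n339 : Rf E0 xe12 [18, 982, 1229, 1136, 1053] :=
  node_sound smok0 (q := 11) (ch := [907, 906, 899, 898, 897, 896, 895, 894, 892]) (by decide +kernel) (by decide +kernel)
    (aC (chk_sound smok0 c3178 (by decide +kernel)) (aC (chk_sound smok0 c3179 (by decide +kernel)) (aC (chk_sound smok0 c3180 (by decide +kernel)) (aC (chk_sound smok0 c3181 (by decide +kernel)) (aC (chk_sound smok0 c3182 (by decide +kernel)) (aC (chk_sound smok0 c3183 (by decide +kernel)) (aC (chk_sound smok0 c3184 (by decide +kernel)) (aC (chk_sound smok0 c3185 (by decide +kernel)) (aC (chk_sound smok0 c3186 (by decide +kernel)) aN)))))))))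
theorem n340 : Rf E0 xe12 [17, 982, 1229, 1136, 1053] :=
  node_sound smok0 (q := 16) (ch := [1315, 1314, 1312, 1308, 1307, 1305, 1304, 1303, 1302]) (by decide +kernel) (by decide +kernel)
    (aC (chk_sound smok0 c3187 (by decide +kernel)) (aC (chk_sound smok0 c3188 (by decide +kernel)) (aC (chk_sound smok0 c3189 (by decide +kernel)) (aC (chk_sound smok0 c3190 (by decide +kernel)) (aC (chk_sound smok0 c3191 (by decide +kernel)) (aC (chk_sound smok0 c3192 (by decide +kernel)) (aC (chk_sound smok0 c3193 (by decide +kernel)) (aC (chk_sound smok0 c3194 (by decide +kernel)) (aC (chk_sound smok0 c3195 (by decide +kernel)) aN)))))))))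
theorem n341 : Rf E0 xe12 [3, 982, 1229, 1136, 1053] :=
  node_sound smok0 (q := 11) (ch := [914, 913, 907, 906, 899, 898, 897, 896, 895, 892]) (by decide +kernel) (by decide +kernel)
    (aC (chk_sound smok0 c3196 (by decide +kernel)) (aC (chk_sound smok0 c3197 (by decide +kernel)) (aC (chk_sound smok0 c3198 (by decide +kernel)) (aC (chk_sound smok0 c3199 (by decide +kernel)) (aC (chk_sound smok0 c3200 (by decide +kernel)) (aC (chk_sound smok0 c3201 (by decide +kernel)) (aC (chk_sound smok0 c3202 (by decide +kernel)) (aC (chk_sound smok0 c3203 (by decide +kernel)) (aC (chk_sound smok0 c3204 (by decide +kernel)) (aC (chk_sound smok0 c3205 (by decide +kernel)) aN))))))))))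
theorem n342 : Rf E0 xe12 [982, 1229, 1136, 1053] :=
  node_sound smok0 (q := 0) (ch := [24, 23, 22, 18, 17, 11, 9, 8, 5, 4, 3]) (by decide +kernel) (by decide +kernel)
    (aC (chk_sound smok0 c3206 (by decide +kernel)) (aC (chk_sound smok0 c3207 (by decide +kernel)) (aC (chk_sound smok0 c3208 (by decide +kernel)) (aC n339 (aC n340 (aC (chk_sound smok0 c3209 (by decide +kernel)) (aC (chk_sound smok0 c3210 (by decide +kernel)) (aC (chk_sound smok0 c3211 (by decide +kernel)) (aC (chk_sound smok0 c3212 (by decide +kernel)) (aC (chk_sound smok0 c3213 (by decide +kernel)) (aC n341 aN)))))))))))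
theorem n343 : Rf E0 xe12 [17, 981, 1229, 1136, 1053] :=
  node_sound smok0 (q := 11) (ch := [914, 913, 902, 898, 897, 896, 895, 894, 892]) (by decide +kernel) (by decide +kernel)
    (aC (chk_sound smok0 c3214 (by decide +kernel)) (aC (chk_sound smok0 c3215 (by decide +kernel)) (aC (chk_sound smok0 c3216 (by decide +kernel)) (aC (chk_sound smok0 c3217 (by decide +kernel)) (aC (chk_sound smok0 c3218 (by decide +kernel)) (aC (chk_sound smok0 c3219 (by decide +kernel)) (aC (chk_sound smok0 c3220 (by decide +kernel)) (aC (chk_sound smok0 c3221 (by decide +kernel)) (aC (chk_sound smok0 c3222 (by decide +kernel)) aN)))))))))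
theorem n344 : Rf E0 xe12 [3, 981, 1229, 1136, 1053] :=
  node_sound smok0 (q := 11) (ch := [914, 913, 912, 902, 898, 897, 896, 895, 892]) (by decide +kernel) (by decide +kernel)
    (aC (chk_sound smok0 c3223 (by decide +kernel)) (aC (chk_sound smok0 c3224 (by decide +kernel)) (aC (chk_sound smok0 c3225 (by decide +kernel)) (aC (chk_sound smok0 c3226 (by decide +kernel)) (aC (chk_sound smok0 c3227 (by decide +kernel)) (aC (chk_sound smok0 c3228 (by decide +kernel)) (aC (chk_sound smok0 c3229 (by decide +kernel)) (aC (chk_sound smok0 c3230 (by decide +kernel)) (aC (chk_sound smok0 c3231 (by decide +kernel)) aN)))))))))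
theorem n345 : Rf E0 xe12 [981, 1229, 1136, 1053] :=
  node_sound smok0 (q := 0) (ch := [26, 24, 23, 22, 18, 17, 10, 8, 4, 3]) (by decide +kernel) (by decide +kernel)
    (aC (chk_sound smok0 c3232 (by decide +kernel)) (aC (chk_sound smok0 c3233 (by decide +kernel)) (aC (chk_sound smok0 c3234 (by decide +kernel)) (aC (chk_sound smok0 c3235 (by decide +kernel)) (aC (chk_sound smok0 c3236 (by decide +kernel)) (aC n343 (aC (chk_sound smok0 c3237 (by decide +kernel)) (aC (chk_sound smok0 c3238 (by decide +kernel)) (aC (chk_sound smok0 c3239 (by decide +kernel)) (aC n344 aN))))))))))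
theorem n346 : Rf E0 xe12 [9, 980, 1229, 1136, 1053] :=
  node_sound smok0 (q := 16) (ch := [1317, 1316, 1315, 1314, 1313, 1312, 1308, 1303, 1302]) (by decide +kernel) (by decide +kernel)
    (aC (chk_sound smok0 c3240 (by decide +kernel)) (aC (chk_sound smok0 c3241 (by decide +kernel)) (aC (chk_sound smok0 c3242 (by decide +kernel)) (aC (chk_sound smok0 c3243 (by decide +kernel)) (aC (chk_sound smok0 c3244 (by decide +kernel)) (aC (chk_sound smok0 c3245 (by decide +kernel)) (aC (chk_sound smok0 c3246 (by decide +kernel)) (aC (chk_sound smok0 c3247 (by decide +kernel)) (aC (chk_sound smok0 c3248 (by decide +kernel)) aN)))))))))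
theorem n347 : Rf E0 xe12 [3, 980, 1229, 1136, 1053] :=
  node_sound smok0 (q := 11) (ch := [914, 913, 912, 902, 901, 897, 896, 895, 892]) (by decide +kernel) (by decide +kernel)
    (aC (chk_sound smok0 c3249 (by decide +kernel)) (aC (chk_sound smok0 c3250 (by decide +kernel)) (aC (chk_sound smok0 c3251 (by decide +kernel)) (aC (chk_sound smok0 c3252 (by decide +kernel)) (aC (chk_sound smok0 c3253 (by decide +kernel)) (aC (chk_sound smok0 c3254 (by decide +kernel)) (aC (chk_sound smok0 c3255 (by decide +kernel)) (aC (chk_sound smok0 c3256 (by decide +kernel)) (aC (chk_sound smok0 c3257 (by decide +kernel)) aN)))))))))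
theorem n348 : Rf E0 xe12 [980, 1229, 1136, 1053] :=
  node_sound smok0 (q := 0) (ch := [26, 23, 22, 17, 12, 10, 9, 6, 4, 3]) (by decide +kernel) (by decide +kernel)
    (aC (chk_sound smok0 c3258 (by decide +kernel)) (aC (chk_sound smok0 c3259 (by decide +kernel)) (aC (chk_sound smok0 c3260 (by decide +kernel)) (aC (chk_sound smok0 c3261 (by decide +kernel)) (aC (chk_sound smok0 c3262 (by decide +kernel)) (aC (chk_sound smok0 c3263 (by decide +kernel)) (aC n346 (aC (chk_sound smok0 c3264 (by decide +kernel)) (aC (chk_sound smok0 c3265 (by decide +kernel)) (aC n347 aN))))))))))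
theorem n349 : Rf E0 xe12 [25, 979, 1229, 1136, 1053] :=
  node_sound smok0 (q := 1) (ch := [104, 100, 99, 98, 94, 93, 92, 91, 90, 85, 84]) (by decide +kernel) (by decide +kernel)
    (aC (chk_sound smok0 c3266 (by decide +kernel)) (aC (chk_sound smok0 c3267 (by decide +kernel)) (aC (chk_sound smok0 c3268 (by decide +kernel)) (aC (chk_sound smok0 c3269 (by decide +kernel)) (aC (chk_sound smok0 c3270 (by decide +kernel)) (aC (chk_sound smok0 c3271 (by decide +kernel)) (aC (chk_sound smok0 c3272 (by decide +kernel)) (aC (chk_sound smok0 c3273 (by decide +kernel)) (aC (chk_sound smok0 c3274 (by decide +kernel)) (aC (chk_sound smok0 c3275 (by decide +kernel)) (aC (chk_sound smok0 c3276 (by decide +kernel)) aN)))))))))))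
theorem n350 : Rf E0 xe12 [23, 979, 1229, 1136, 1053] :=
  node_sound smok0 (q := 11) (ch := [913, 912, 911, 910, 909, 908, 907, 901, 900, 894, 892]) (by decide +kernel) (by decide +kernel)
    (aC (chk_sound smok0 c3277 (by decide +kernel)) (aC (chk_sound smok0 c3278 (by decide +kernel)) (aC (chk_sound smok0 c3279 (by decide +kernel)) (aC (chk_sound smok0 c3280 (by decide +kernel)) (aC (chk_sound smok0 c3281 (by decide +kernel)) (aC (chk_sound smok0 c3282 (by decide +kernel)) (aC (chk_sound smok0 c3283 (by decide +kernel)) (aC (chk_sound smok0 c3284 (by decide +kernel)) (aC (chk_sound smok0 c3285 (by decide +kernel)) (aC (chk_sound smok0 c3286 (by decide +kernel)) (aC (chk_sound smok0 c3287 (by decide +kernel)) aN)))))))))))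
theorem n351 : Rf E0 xe12 [22, 979, 1229, 1136, 1053] :=
  node_sound smok0 (q := 16) (ch := [1317, 1316, 1315, 1314, 1313, 1312, 1308, 1304, 1302]) (by decide +kernel) (by decide +kernel)
    (aC (chk_sound smok0 c3288 (by decide +kernel)) (aC (chk_sound smok0 c3289 (by decide +kernel)) (aC (chk_sound smok0 c3290 (by decide +kernel)) (aC (chk_sound smok0 c3291 (by decide +kernel)) (aC (chk_sound smok0 c3292 (by decide +kernel)) (aC (chk_sound smok0 c3293 (by decide +kernel)) (aC (chk_sound smok0 c3294 (by decide +kernel)) (aC (chk_sound smok0 c3295 (by decide +kernel)) (aC (chk_sound smok0 c3296 (by decide +kernel)) aN)))))))))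
theorem n352 : Rf E0 xe12 [19, 979, 1229, 1136, 1053] :=
  node_sound smok0 (q := 1) (ch := [107, 106, 105, 104, 98, 91, 90, 87, 86, 85, 84]) (by decide +kernel) (by decide +kernel)
    (aC (chk_sound smok0 c3297 (by decide +kernel)) (aC (chk_sound smok0 c3298 (by decide +kernel)) (aC (chk_sound smok0 c3299 (by decide +kernel)) (aC (chk_sound smok0 c3300 (by decide +kernel)) (aC (chk_sound smok0 c3301 (by decide +kernel)) (aC (chk_sound smok0 c3302 (by decide +kernel)) (aC (chk_sound smok0 c3303 (by decide +kernel)) (aC (chk_sound smok0 c3304 (by decide +kernel)) (aC (chk_sound smok0 c3305 (by decide +kernel)) (aC (chk_sound smok0 c3306 (by decide +kernel)) (aC (chk_sound smok0 c3307 (by decide +kernel)) aN)))))))))))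
theorem n353 : Rf E0 xe12 [17, 979, 1229, 1136, 1053] :=
  node_sound smok0 (q := 11) (ch := [914, 913, 909, 907, 901, 900, 896, 895, 894, 892]) (by decide +kernel) (by decide +kernel)
    (aC (chk_sound smok0 c3308 (by decide +kernel)) (aC (chk_sound smok0 c3309 (by decide +kernel)) (aC (chk_sound smok0 c3310 (by decide +kernel)) (aC (chk_sound smok0 c3311 (by decide +kernel)) (aC (chk_sound smok0 c3312 (by decide +kernel)) (aC (chk_sound smok0 c3313 (by decide +kernel)) (aC (chk_sound smok0 c3314 (by decide +kernel)) (aC (chk_sound smok0 c3315 (by decide +kernel)) (aC (chk_sound smok0 c3316 (by decide +kernel)) (aC (chk_sound smok0 c3317 (by decide +kernel)) aN))))))))))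
theorem n354 : Rf E0 xe12 [8, 979, 1229, 1136, 1053] :=
  node_sound smok0 (q := 16) (ch := [1318, 1317, 1316, 1315, 1314, 1313, 1312, 1308, 1307, 1302]) (by decide +kernel) (by decide +kernel)
    (aC (chk_sound smok0 c3318 (by decide +kernel)) (aC (chk_sound smok0 c3319 (by decide +kernel)) (aC (chk_sound smok0 c3320 (by decide +kernel)) (aC (chk_sound smok0 c3321 (by decide +kernel)) (aC (chk_sound smok0 c3322 (by decide +kernel)) (aC (chk_sound smok0 c3323 (by decide +kernel)) (aC (chk_sound smok0 c3324 (by decide +kernel)) (aC (chk_sound smok0 c3325 (by decide +kernel)) (aC (chk_sound smok0 c3326 (by decide +kernel)) (aC (chk_sound smok0 c3327 (by decide +kernel)) aN))))))))))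
theorem n355 : Rf E0 xe12 [3, 979, 1229, 1136, 1053] :=
  node_sound smok0 (q := 11) (ch := [914, 913, 912, 908, 907, 901, 900, 896, 895, 892]) (by decide +kernel) (by decide +kernel)
    (aC (chk_sound smok0 c3328 (by decide +kernel)) (aC (chk_sound smok0 c3329 (by decide +kernel)) (aC (chk_sound smok0 c3330 (by decide +kernel)) (aC (chk_sound smok0 c3331 (by decide +kernel)) (aC (chk_sound smok0 c3332 (by decide +kernel)) (aC (chk_sound smok0 c3333 (by decide +kernel)) (aC (chk_sound smok0 c3334 (by decide +kernel)) (aC (chk_sound smok0 c3335 (by decide +kernel)) (aC (chk_sound smok0 c3336 (by decide +kernel)) (aC (chk_sound smok0 c3337 (by decide +kernel)) aN))))))))))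
theorem n356 : Rf E0 xe12 [979, 1229, 1136, 1053] :=
  node_sound smok0 (q := 0) (ch := [26, 25, 23, 22, 19, 17, 12, 9, 8, 6, 3]) (by decide +kernel) (by decide +kernel)
    (aC (chk_sound smok0 c3338 (by decide +kernel)) (aC n349 (aC n350 (aC n351 (aC n352 (aC n353 (aC (chk_sound smok0 c3339 (by decide +kernel)) (aC (chk_sound smok0 c3340 (by decide +kernel)) (aC n354 (aC (chk_sound smok0 c3341 (by decide +kernel)) (aC n355 aN)))))))))))
theorem n357 : Rf E0 xe12 [26, 978, 1229, 1136, 1053] :=
  node_sound smok0 (q := 28) (ch := [1945, 1864, 1783, 1540, 892, 811, 730, 649, 487, 406]) (by decide +kernel) (by decide +kernel)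
    (aC (chk_sound smok0 c3342 (by decide +kernel)) (aC (chk_sound smok0 c3343 (by decide +kernel)) (aC (chk_sound smok0 c3344 (by decide +kernel)) (aC (chk_sound smok0 c3345 (by decide +kernel)) (aC (chk_sound smok0 c3346 (by decide +kernel)) (aC (chk_sound smok0 c3347 (by decide +kernel)) (aC (chk_sound smok0 c3348 (by decide +kernel)) (aC (chk_sound smok0 c3349 (by decide +kernel)) (aC (chk_sound smok0 c3350 (by decide +kernel)) (aC (chk_sound smok0 c3351 (by decide +kernel)) aN))))))))))
theorem n358 : Rf E0 xe12 [25, 978, 1229, 1136, 1053] :=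
  node_sound smok0 (q := 1) (ch := [104, 100, 99, 98, 94, 93, 92, 91, 90, 85, 84]) (by decide +kernel) (by decide +kernel)
    (aC (chk_sound smok0 c3352 (by decide +kernel)) (aC (chk_sound smok0 c3353 (by decide +kernel)) (aC (chk_sound smok0 c3354 (by decide +kernel)) (aC (chk_sound smok0 c3355 (by decide +kernel)) (aC (chk_sound smok0 c3356 (by decide +kernel)) (aC (chk_sound smok0 c3357 (by decide +kernel)) (aC (chk_sound smok0 c3358 (by decide +kernel)) (aC (chk_sound smok0 c3359 (by decide +kernel)) (aC (chk_sound smok0 c3360 (by decide +kernel)) (aC (chk_sound smok0 c3361 (by decide +kernel)) (aC (chk_sound smok0 c3362 (by decide +kernel)) aN)))))))))))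
theorem n359 : Rf E0 xe12 [22, 978, 1229, 1136, 1053] :=
  node_sound smok0 (q := 11) (ch := [914, 912, 911, 910, 909, 908, 907, 906, 899, 892]) (by decide +kernel) (by decide +kernel)
    (aC (chk_sound smok0 c3363 (by decide +kernel)) (aC (chk_sound smok0 c3364 (by decide +kernel)) (aC (chk_sound smok0 c3365 (by decide +kernel)) (aC (chk_sound smok0 c3366 (by decide +kernel)) (aC (chk_sound smok0 c3367 (by decide +kernel)) (aC (chk_sound smok0 c3368 (by decide +kernel)) (aC (chk_sound smok0 c3369 (by decide +kernel)) (aC (chk_sound smok0 c3370 (by decide +kernel)) (aC (chk_sound smok0 c3371 (by decide +kernel)) (aC (chk_sound smok0 c3372 (by decide +kernel)) aN))))))))))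
theorem n360 : Rf E0 xe12 [11, 978, 1229, 1136, 1053] :=
  node_sound smok0 (q := 1) (ch := [107, 106, 105, 104, 99, 98, 94, 90, 86, 85, 84]) (by decide +kernel) (by decide +kernel)
    (aC (chk_sound smok0 c3373 (by decide +kernel)) (aC (chk_sound smok0 c3374 (by decide +kernel)) (aC (chk_sound smok0 c3375 (by decide +kernel)) (aC (chk_sound smok0 c3376 (by decide +kernel)) (aC (chk_sound smok0 c3377 (by decide +kernel)) (aC (chk_sound smok0 c3378 (by decide +kernel)) (aC (chk_sound smok0 c3379 (by decide +kernel)) (aC (chk_sound smok0 c3380 (by decide +kernel)) (aC (chk_sound smok0 c3381 (by decide +kernel)) (aC (chk_sound smok0 c3382 (by decide +kernel)) (aC (chk_sound smok0 c3383 (by decide +kernel)) aN)))))))))))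
theorem n361 : Rf E0 xe12 [9, 978, 1229, 1136, 1053] :=
  node_sound smok0 (q := 11) (ch := [914, 913, 912, 911, 910, 909, 908, 907, 906, 899, 892]) (by decide +kernel) (by decide +kernel)
    (aC (chk_sound smok0 c3384 (by decide +kernel)) (aC (chk_sound smok0 c3385 (by decide +kernel)) (aC (chk_sound smok0 c3386 (by decide +kernel)) (aC (chk_sound smok0 c3387 (by decide +kernel)) (aC (chk_sound smok0 c3388 (by decide +kernel)) (aC (chk_sound smok0 c3389 (by decide +kernel)) (aC (chk_sound smok0 c3390 (by decide +kernel)) (aC (chk_sound smok0 c3391 (by decide +kernel)) (aC (chk_sound smok0 c3392 (by decide +kernel)) (aC (chk_sound smok0 c3393 (by decide +kernel)) (aC (chk_sound smok0 c3394 (by decide +kernel)) aN)))))))))))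
theorem n362 : Rf E0 xe12 [8, 978, 1229, 1136, 1053] :=
  node_sound smok0 (q := 11) (ch := [914, 913, 912, 911, 910, 909, 908, 907, 906, 895]) (by decide +kernel) (by decide +kernel)
    (aC (chk_sound smok0 c3395 (by decide +kernel)) (aC (chk_sound smok0 c3396 (by decide +kernel)) (aC (chk_sound smok0 c3397 (by decide +kernel)) (aC (chk_sound smok0 c3398 (by decide +kernel)) (aC (chk_sound smok0 c3399 (by decide +kernel)) (aC (chk_sound smok0 c3400 (by decide +kernel)) (aC (chk_sound smok0 c3401 (by decide +kernel)) (aC (chk_sound smok0 c3402 (by decide +kernel)) (aC (chk_sound smok0 c3403 (by decide +kernel)) (aC (chk_sound smok0 c3404 (by decide +kernel)) aN))))))))))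
theorem n363 : Rf E0 xe12 [3, 978, 1229, 1136, 1053] :=
  node_sound smok0 (q := 11) (ch := [914, 913, 912, 908, 907, 906, 899, 895, 892]) (by decide +kernel) (by decide +kernel)
    (aC (chk_sound smok0 c3405 (by decide +kernel)) (aC (chk_sound smok0 c3406 (by decide +kernel)) (aC (chk_sound smok0 c3407 (by decide +kernel)) (aC (chk_sound smok0 c3408 (by decide +kernel)) (aC (chk_sound smok0 c3409 (by decide +kernel)) (aC (chk_sound smok0 c3410 (by decide +kernel)) (aC (chk_sound smok0 c3411 (by decide +kernel)) (aC (chk_sound smok0 c3412 (by decide +kernel)) (aC (chk_sound smok0 c3413 (by decide +kernel)) aN)))))))))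
theorem n364 : Rf E0 xe12 [978, 1229, 1136, 1053] :=
  node_sound smok0 (q := 0) (ch := [26, 25, 22, 19, 12, 11, 9, 8, 5, 3]) (by decide +kernel) (by decide +kernel)
    (aC n357 (aC n358 (aC n359 (aC (chk_sound smok0 c3414 (by decide +kernel)) (aC (chk_sound smok0 c3415 (by decide +kernel)) (aC n360 (aC n361 (aC n362 (aC (chk_sound smok0 c3416 (by decide +kernel)) (aC n363 aN))))))))))
theorem n365 : Rf E0 xe12 [26, 977, 1229, 1136, 1053] :=
  node_sound smok0 (q := 28) (ch := [1945, 1864, 1783, 1540, 892, 811, 730, 649, 487, 406]) (by decide +kernel) (by decide +kernel)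
    (aC (chk_sound smok0 c3417 (by decide +kernel)) (aC (chk_sound smok0 c3418 (by decide +kernel)) (aC (chk_sound smok0 c3419 (by decide +kernel)) (aC (chk_sound smok0 c3420 (by decide +kernel)) (aC (chk_sound smok0 c3421 (by decide +kernel)) (aC (chk_sound smok0 c3422 (by decide +kernel)) (aC (chk_sound smok0 c3423 (by decide +kernel)) (aC (chk_sound smok0 c3424 (by decide +kernel)) (aC (chk_sound smok0 c3425 (by decide +kernel)) (aC (chk_sound smok0 c3426 (by decide +kernel)) aN))))))))))
theorem n366 : Rf E0 xe12 [24, 977, 1229, 1136, 1053] :=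
  node_sound smok0 (q := 1) (ch := [107, 100, 99, 98, 94, 93, 92, 91, 90, 85, 84]) (by decide +kernel) (by decide +kernel)
    (aC (chk_sound smok0 c3427 (by decide +kernel)) (aC (chk_sound smok0 c3428 (by decide +kernel)) (aC (chk_sound smok0 c3429 (by decide +kernel)) (aC (chk_sound smok0 c3430 (by decide +kernel)) (aC (chk_sound smok0 c3431 (by decide +kernel)) (aC (chk_sound smok0 c3432 (by decide +kernel)) (aC (chk_sound smok0 c3433 (by decide +kernel)) (aC (chk_sound smok0 c3434 (by decide +kernel)) (aC (chk_sound smok0 c3435 (by decide +kernel)) (aC (chk_sound smok0 c3436 (by decide +kernel)) (aC (chk_sound smok0 c3437 (by decide +kernel)) aN)))))))))))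
theorem n367 : Rf E0 xe12 [22, 977, 1229, 1136, 1053] :=
  node_sound smok0 (q := 11) (ch := [914, 912, 911, 910, 909, 908, 907, 906, 892]) (by decide +kernel) (by decide +kernel)
    (aC (chk_sound smok0 c3438 (by decide +kernel)) (aC (chk_sound smok0 c3439 (by decide +kernel)) (aC (chk_sound smok0 c3440 (by decide +kernel)) (aC (chk_sound smok0 c3441 (by decide +kernel)) (aC (chk_sound smok0 c3442 (by decide +kernel)) (aC (chk_sound smok0 c3443 (by decide +kernel)) (aC (chk_sound smok0 c3444 (by decide +kernel)) (aC (chk_sound smok0 c3445 (by decide +kernel)) (aC (chk_sound smok0 c3446 (by decide +kernel)) aN)))))))))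
theorem n368 : Rf E0 xe12 [11, 977, 1229, 1136, 1053] :=
  node_sound smok0 (q := 1) (ch := [107, 106, 105, 104, 99, 98, 94, 90, 87, 85, 84]) (by decide +kernel) (by decide +kernel)
    (aC (chk_sound smok0 c3447 (by decide +kernel)) (aC (chk_sound smok0 c3448 (by decide +kernel)) (aC (chk_sound smok0 c3449 (by decide +kernel)) (aC (chk_sound smok0 c3450 (by decide +kernel)) (aC (chk_sound smok0 c3451 (by decide +kernel)) (aC (chk_sound smok0 c3452 (by decide +kernel)) (aC (chk_sound smok0 c3453 (by decide +kernel)) (aC (chk_sound smok0 c3454 (by decide +kernel)) (aC (chk_sound smok0 c3455 (by decide +kernel)) (aC (chk_sound smok0 c3456 (by decide +kernel)) (aC (chk_sound smok0 c3457 (by decide +kernel)) aN)))))))))))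
theorem n369 : Rf E0 xe12 [977, 1229, 1136, 1053] :=
  node_sound smok0 (q := 0) (ch := [26, 25, 24, 22, 19, 18, 12, 11, 8, 6]) (by decide +kernel) (by decide +kernel)
    (aC n365 (aC (chk_sound smok0 c3458 (by decide +kernel)) (aC n366 (aC n367 (aC (chk_sound smok0 c3459 (by decide +kernel)) (aC (chk_sound smok0 c3460 (by decide +kernel)) (aC (chk_sound smok0 c3461 (by decide +kernel)) (aC n368 (aC (chk_sound smok0 c3462 (by decide +kernel)) (aC (chk_sound smok0 c3463 (by decide +kernel)) aN))))))))))
theorem n370 : Rf E0 xe12 [25, 976, 1229, 1136, 1053] :=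
  node_sound smok0 (q := 1) (ch := [104, 100, 99, 98, 94, 93, 92, 91, 90, 84]) (by decide +kernel) (by decide +kernel)
    (aC (chk_sound smok0 c3464 (by decide +kernel)) (aC (chk_sound smok0 c3465 (by decide +kernel)) (aC (chk_sound smok0 c3466 (by decide +kernel)) (aC (chk_sound smok0 c3467 (by decide +kernel)) (aC (chk_sound smok0 c3468 (by decide +kernel)) (aC (chk_sound smok0 c3469 (by decide +kernel)) (aC (chk_sound smok0 c3470 (by decide +kernel)) (aC (chk_sound smok0 c3471 (by decide +kernel)) (aC (chk_sound smok0 c3472 (by decide +kernel)) (aC (chk_sound smok0 c3473 (by decide +kernel)) aN))))))))))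
theorem n371 : Rf E0 xe12 [24, 976, 1229, 1136, 1053] :=
  node_sound smok0 (q := 1) (ch := [107, 100, 99, 98, 94, 93, 92, 91, 90, 86, 84]) (by decide +kernel) (by decide +kernel)
    (aC (chk_sound smok0 c3474 (by decide +kernel)) (aC (chk_sound smok0 c3475 (by decide +kernel)) (aC (chk_sound smok0 c3476 (by decide +kernel)) (aC (chk_sound smok0 c3477 (by decide +kernel)) (aC (chk_sound smok0 c3478 (by decide +kernel)) (aC (chk_sound smok0 c3479 (by decide +kernel)) (aC (chk_sound smok0 c3480 (by decide +kernel)) (aC (chk_sound smok0 c3481 (by decide +kernel)) (aC (chk_sound smok0 c3482 (by decide +kernel)) (aC (chk_sound smok0 c3483 (by decide +kernel)) (aC (chk_sound smok0 c3484 (by decide +kernel)) aN)))))))))))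
theorem n372 : Rf E0 xe12 [12, 976, 1229, 1136, 1053] :=
  node_sound smok0 (q := 1) (ch := [107, 106, 105, 104, 98, 91, 90, 87, 86, 84]) (by decide +kernel) (by decide +kernel)
    (aC (chk_sound smok0 c3485 (by decide +kernel)) (aC (chk_sound smok0 c3486 (by decide +kernel)) (aC (chk_sound smok0 c3487 (by decide +kernel)) (aC (chk_sound smok0 c3488 (by decide +kernel)) (aC (chk_sound smok0 c3489 (by decide +kernel)) (aC (chk_sound smok0 c3490 (by decide +kernel)) (aC (chk_sound smok0 c3491 (by decide +kernel)) (aC (chk_sound smok0 c3492 (by decide +kernel)) (aC (chk_sound smok0 c3493 (by decide +kernel)) (aC (chk_sound smok0 c3494 (by decide +kernel)) aN))))))))))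
theorem n373 : Rf E0 xe12 [11, 976, 1229, 1136, 1053] :=
  node_sound smok0 (q := 1) (ch := [107, 106, 105, 104, 99, 98, 94, 90, 87, 86, 84]) (by decide +kernel) (by decide +kernel)
    (aC (chk_sound smok0 c3495 (by decide +kernel)) (aC (chk_sound smok0 c3496 (by decide +kernel)) (aC (chk_sound smok0 c3497 (by decide +kernel)) (aC (chk_sound smok0 c3498 (by decide +kernel)) (aC (chk_sound smok0 c3499 (by decide +kernel)) (aC (chk_sound smok0 c3500 (by decide +kernel)) (aC (chk_sound smok0 c3501 (by decide +kernel)) (aC (chk_sound smok0 c3502 (by decide +kernel)) (aC (chk_sound smok0 c3503 (by decide +kernel)) (aC (chk_sound smok0 c3504 (by decide +kernel)) (aC (chk_sound smok0 c3505 (by decide +kernel)) aN)))))))))))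
theorem n374 : Rf E0 xe12 [10, 976, 1229, 1136, 1053] :=
  node_sound smok0 (q := 11) (ch := [914, 913, 912, 911, 910, 909, 908, 907, 906, 902, 892]) (by decide +kernel) (by decide +kernel)
    (aC (chk_sound smok0 c3506 (by decide +kernel)) (aC (chk_sound smok0 c3507 (by decide +kernel)) (aC (chk_sound smok0 c3508 (by decide +kernel)) (aC (chk_sound smok0 c3509 (by decide +kernel)) (aC (chk_sound smok0 c3510 (by decide +kernel)) (aC (chk_sound smok0 c3511 (by decide +kernel)) (aC (chk_sound smok0 c3512 (by decide +kernel)) (aC (chk_sound smok0 c3513 (by decide +kernel)) (aC (chk_sound smok0 c3514 (by decide +kernel)) (aC (chk_sound smok0 c3515 (by decide +kernel)) (aC (chk_sound smok0 c3516 (by decide +kernel)) aN)))))))))))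
theorem n375 : Rf E0 xe12 [8, 976, 1229, 1136, 1053] :=
  node_sound smok0 (q := 47) (ch := [1964, 1883, 1802, 1721, 1478, 1397, 1316, 911, 587, 425]) (by decide +kernel) (by decide +kernel)
    (aC (chk_sound smok0 c3517 (by decide +kernel)) (aC (chk_sound smok0 c3518 (by decide +kernel)) (aC (chk_sound smok0 c3519 (by decide +kernel)) (aC (chk_sound smok0 c3520 (by decide +kernel)) (aC (chk_sound smok0 c3521 (by decide +kernel)) (aC (chk_sound smok0 c3522 (by decide +kernel)) (aC (chk_sound smok0 c3523 (by decide +kernel)) (aC (chk_sound smok0 c3524 (by decide +kernel)) (aC (chk_sound smok0 c3525 (by decide +kernel)) (aC (chk_sound smok0 c3526 (by decide +kernel)) aN))))))))))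
theorem n376 : Rf E0 xe12 [5, 976, 1229, 1136, 1053] :=
  node_sound smok0 (q := 11) (ch := [912, 911, 910, 909, 908, 907, 906, 902, 901, 892]) (by decide +kernel) (by decide +kernel)
    (aC (chk_sound smok0 c3527 (by decide +kernel)) (aC (chk_sound smok0 c3528 (by decide +kernel)) (aC (chk_sound smok0 c3529 (by decide +kernel)) (aC (chk_sound smok0 c3530 (by decide +kernel)) (aC (chk_sound smok0 c3531 (by decide +kernel)) (aC (chk_sound smok0 c3532 (by decide +kernel)) (aC (chk_sound smok0 c3533 (by decide +kernel)) (aC (chk_sound smok0 c3534 (by decide +kernel)) (aC (chk_sound smok0 c3535 (by decide +kernel)) (aC (chk_sound smok0 c3536 (by decide +kernel)) aN))))))))))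
theorem n377 : Rf E0 xe12 [976, 1229, 1136, 1053] :=
  node_sound smok0 (q := 0) (ch := [26, 25, 24, 19, 18, 12, 11, 10, 8, 6, 5]) (by decide +kernel) (by decide +kernel)
    (aC (chk_sound smok0 c3537 (by decide +kernel)) (aC n370 (aC n371 (aC (chk_sound smok0 c3538 (by decide +kernel)) (aC (chk_sound smok0 c3539 (by decide +kernel)) (aC n372 (aC n373 (aC n374 (aC n375 (aC (chk_sound smok0 c3540 (by decide +kernel)) (aC n376 aN)))))))))))
theorem n378 : Rf E0 xe12 [26, 975, 1229, 1136, 1053] :=
  node_sound smok0 (q := 28) (ch := [1945, 1864, 1783, 892, 811, 730, 649, 406]) (by decide +kernel) (by decide +kernel)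
    (aC (chk_sound smok0 c3541 (by decide +kernel)) (aC (chk_sound smok0 c3542 (by decide +kernel)) (aC (chk_sound smok0 c3543 (by decide +kernel)) (aC (chk_sound smok0 c3544 (by decide +kernel)) (aC (chk_sound smok0 c3545 (by decide +kernel)) (aC (chk_sound smok0 c3546 (by decide +kernel)) (aC (chk_sound smok0 c3547 (by decide +kernel)) (aC (chk_sound smok0 c3548 (by decide +kernel)) aN))))))))
theorem n379 : Rf E0 xe12 [25, 975, 1229, 1136, 1053] :=
  node_sound smok0 (q := 1) (ch := [104, 100, 99, 98, 94, 93, 92, 91, 90, 85]) (by decide +kernel) (by decide +kernel)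
    (aC (chk_sound smok0 c3549 (by decide +kernel)) (aC (chk_sound smok0 c3550 (by decide +kernel)) (aC (chk_sound smok0 c3551 (by decide +kernel)) (aC (chk_sound smok0 c3552 (by decide +kernel)) (aC (chk_sound smok0 c3553 (by decide +kernel)) (aC (chk_sound smok0 c3554 (by decide +kernel)) (aC (chk_sound smok0 c3555 (by decide +kernel)) (aC (chk_sound smok0 c3556 (by decide +kernel)) (aC (chk_sound smok0 c3557 (by decide +kernel)) (aC (chk_sound smok0 c3558 (by decide +kernel)) aN))))))))))
theorem n380 : Rf E0 xe12 [24, 975, 1229, 1136, 1053] :=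
  node_sound smok0 (q := 1) (ch := [107, 100, 99, 98, 94, 93, 92, 91, 90, 86, 85]) (by decide +kernel) (by decide +kernel)
    (aC (chk_sound smok0 c3559 (by decide +kernel)) (aC (chk_sound smok0 c3560 (by decide +kernel)) (aC (chk_sound smok0 c3561 (by decide +kernel)) (aC (chk_sound smok0 c3562 (by decide +kernel)) (aC (chk_sound smok0 c3563 (by decide +kernel)) (aC (chk_sound smok0 c3564 (by decide +kernel)) (aC (chk_sound smok0 c3565 (by decide +kernel)) (aC (chk_sound smok0 c3566 (by decide +kernel)) (aC (chk_sound smok0 c3567 (by decide +kernel)) (aC (chk_sound smok0 c3568 (by decide +kernel)) (aC (chk_sound smok0 c3569 (by decide +kernel)) aN)))))))))))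
theorem n381 : Rf E0 xe12 [23, 975, 1229, 1136, 1053] :=
  node_sound smok0 (q := 32) (ch := [1949, 1868, 1787, 1625, 1544, 1463, 1382, 491, 410, 86]) (by decide +kernel) (by decide +kernel)
    (aC (chk_sound smok0 c3570 (by decide +kernel)) (aC (chk_sound smok0 c3571 (by decide +kernel)) (aC (chk_sound smok0 c3572 (by decide +kernel)) (aC (chk_sound smok0 c3573 (by decide +kernel)) (aC (chk_sound smok0 c3574 (by decide +kernel)) (aC (chk_sound smok0 c3575 (by decide +kernel)) (aC (chk_sound smok0 c3576 (by decide +kernel)) (aC (chk_sound smok0 c3577 (by decide +kernel)) (aC (chk_sound smok0 c3578 (by decide +kernel)) (aC (chk_sound smok0 c3579 (by decide +kernel)) aN))))))))))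
theorem n382 : Rf E0 xe12 [19, 975, 1229, 1136, 1053] :=
  node_sound smok0 (q := 1) (ch := [107, 106, 105, 104, 98, 91, 90, 87, 86, 85]) (by decide +kernel) (by decide +kernel)
    (aC (chk_sound smok0 c3580 (by decide +kernel)) (aC (chk_sound smok0 c3581 (by decide +kernel)) (aC (chk_sound smok0 c3582 (by decide +kernel)) (aC (chk_sound smok0 c3583 (by decide +kernel)) (aC (chk_sound smok0 c3584 (by decide +kernel)) (aC (chk_sound smok0 c3585 (by decide +kernel)) (aC (chk_sound smok0 c3586 (by decide +kernel)) (aC (chk_sound smok0 c3587 (by decide +kernel)) (aC (chk_sound smok0 c3588 (by decide +kernel)) (aC (chk_sound smok0 c3589 (by decide +kernel)) aN))))))))))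
theorem n383 : Rf E0 xe12 [18, 975, 1229, 1136, 1053] :=
  node_sound smok0 (q := 1) (ch := [107, 106, 105, 104, 92, 91, 90, 87, 86, 85]) (by decide +kernel) (by decide +kernel)
    (aC (chk_sound smok0 c3590 (by decide +kernel)) (aC (chk_sound smok0 c3591 (by decide +kernel)) (aC (chk_sound smok0 c3592 (by decide +kernel)) (aC (chk_sound smok0 c3593 (by decide +kernel)) (aC (chk_sound smok0 c3594 (by decide +kernel)) (aC (chk_sound smok0 c3595 (by decide +kernel)) (aC (chk_sound smok0 c3596 (by decide +kernel)) (aC (chk_sound smok0 c3597 (by decide +kernel)) (aC (chk_sound smok0 c3598 (by decide +kernel)) (aC (chk_sound smok0 c3599 (by decide +kernel)) aN))))))))))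
theorem n384 : Rf E0 xe12 [17, 975, 1229, 1136, 1053] :=
  node_sound smok0 (q := 11) (ch := [914, 913, 909, 907, 906, 902, 901, 900, 899, 892]) (by decide +kernel) (by decide +kernel)
    (aC (chk_sound smok0 c3600 (by decide +kernel)) (aC (chk_sound smok0 c3601 (by decide +kernel)) (aC (chk_sound smok0 c3602 (by decide +kernel)) (aC (chk_sound smok0 c3603 (by decide +kernel)) (aC (chk_sound smok0 c3604 (by decide +kernel)) (aC (chk_sound smok0 c3605 (by decide +kernel)) (aC (chk_sound smok0 c3606 (by decide +kernel)) (aC (chk_sound smok0 c3607 (by decide +kernel)) (aC (chk_sound smok0 c3608 (by decide +kernel)) (aC (chk_sound smok0 c3609 (by decide +kernel)) aN))))))))))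
theorem n385 : Rf E0 xe12 [11, 975, 1229, 1136, 1053] :=
  node_sound smok0 (q := 1) (ch := [107, 106, 105, 104, 99, 98, 94, 90, 87, 86, 85]) (by decide +kernel) (by decide +kernel)
    (aC (chk_sound smok0 c3610 (by decide +kernel)) (aC (chk_sound smok0 c3611 (by decide +kernel)) (aC (chk_sound smok0 c3612 (by decide +kernel)) (aC (chk_sound smok0 c3613 (by decide +kernel)) (aC (chk_sound smok0 c3614 (by decide +kernel)) (aC (chk_sound smok0 c3615 (by decide +kernel)) (aC (chk_sound smok0 c3616 (by decide +kernel)) (aC (chk_sound smok0 c3617 (by decide +kernel)) (aC (chk_sound smok0 c3618 (by decide +kernel)) (aC (chk_sound smok0 c3619 (by decide +kernel)) (aC (chk_sound smok0 c3620 (by decide +kernel)) aN)))))))))))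
theorem n386 : Rf E0 xe12 [10, 975, 1229, 1136, 1053] :=
  node_sound smok0 (q := 45) (ch := [1962, 1881, 1800, 1719, 1557, 1476, 1395, 909, 423, 99]) (by decide +kernel) (by decide +kernel)
    (aC (chk_sound smok0 c3621 (by decide +kernel)) (aC (chk_sound smok0 c3622 (by decide +kernel)) (aC (chk_sound smok0 c3623 (by decide +kernel)) (aC (chk_sound smok0 c3624 (by decide +kernel)) (aC (chk_sound smok0 c3625 (by decide +kernel)) (aC (chk_sound smok0 c3626 (by decide +kernel)) (aC (chk_sound smok0 c3627 (by decide +kernel)) (aC (chk_sound smok0 c3628 (by decide +kernel)) (aC (chk_sound smok0 c3629 (by decide +kernel)) (aC (chk_sound smok0 c3630 (by decide +kernel)) aN))))))))))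
theorem n387 : Rf E0 xe12 [4, 975, 1229, 1136, 1053] :=
  node_sound smok0 (q := 11) (ch := [914, 910, 909, 908, 907, 906, 902, 901, 900, 899, 892]) (by decide +kernel) (by decide +kernel)
    (aC (chk_sound smok0 c3631 (by decide +kernel)) (aC (chk_sound smok0 c3632 (by decide +kernel)) (aC (chk_sound smok0 c3633 (by decide +kernel)) (aC (chk_sound smok0 c3634 (by decide +kernel)) (aC (chk_sound smok0 c3635 (by decide +kernel)) (aC (chk_sound smok0 c3636 (by decide +kernel)) (aC (chk_sound smok0 c3637 (by decide +kernel)) (aC (chk_sound smok0 c3638 (by decide +kernel)) (aC (chk_sound smok0 c3639 (by decide +kernel)) (aC (chk_sound smok0 c3640 (by decide +kernel)) (aC (chk_sound smok0 c3641 (by decide +kernel)) aN)))))))))))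
theorem n388 : Rf E0 xe12 [975, 1229, 1136, 1053] :=
  node_sound smok0 (q := 0) (ch := [26, 25, 24, 23, 19, 18, 17, 12, 11, 10, 6, 5, 4]) (by decide +kernel) (by decide +kernel)
    (aC n378 (aC n379 (aC n380 (aC n381 (aC n382 (aC n383 (aC n384 (aC (chk_sound smok0 c3642 (by decide +kernel)) (aC n385 (aC n386 (aC (chk_sound smok0 c3643 (by decide +kernel)) (aC (chk_sound smok0 c3644 (by decide +kernel)) (aC n387 aN)))))))))))))
theorem n389 : Rf E0 xe12 [1229, 1136, 1053] :=
  node_sound smok0 (q := 12) (ch := [987, 983, 982, 981, 980, 979, 978, 977, 976, 975]) (by decide +kernel) (by decide +kernel)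
    (aC n336 (aC n338 (aC n342 (aC n345 (aC n348 (aC n356 (aC n364 (aC n369 (aC n377 (aC n388 aN))))))))))
theorem R0_12 : Rf E0 xe12 [1229, 1136, 1053] := n389
theorem n390 : Rf E0 xe13 [1864, 986, 1230, 1136, 1053] :=
  node_sound smok0 (q := 53) (ch := [2132, 2051, 1970, 1808, 1727, 1646, 1565, 1484, 1403, 1322, 674, 593]) (by decide +kernel) (by decide +kernel)
    (aC (chk_sound smok0 c3645 (by decide +kernel)) (aC (chk_sound smok0 c3646 (by decide +kernel)) (aC (chk_sound smok0 c3647 (by decide +kernel)) (aC (chk_sound smok0 c3648 (by decide +kernel)) (aC (chk_sound smok0 c3649 (by decide +kernel)) (aC (chk_sound smok0 c3650 (by decide +kernel)) (aC (chk_sound smok0 c3651 (by decide +kernel)) (aC (chk_sound smok0 c3652 (by decide +kernel)) (aC (chk_sound smok0 c3653 (by decide +kernel)) (aC (chk_sound smok0 c3654 (by decide +kernel)) (aC (chk_sound smok0 c3655 (by decide +kernel)) (aC (chk_sound smok0 c3656 (by decide +kernel)) aN))))))))))))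
theorem n391 : Rf E0 xe13 [1783, 986, 1230, 1136, 1053] :=
  node_sound smok0 (q := 30) (ch := [2109, 2028, 1947, 1866, 1704, 1623, 1542, 894, 813, 165, 84, 3]) (by decide +kernel) (by decide +kernel)
    (aC (chk_sound smok0 c3657 (by decide +kernel)) (aC (chk_sound smok0 c3658 (by decide +kernel)) (aC (chk_sound smok0 c3659 (by decide +kernel)) (aC (chk_sound smok0 c3660 (by decide +kernel)) (aC (chk_sound smok0 c3661 (by decide +kernel)) (aC (chk_sound smok0 c3662 (by decide +kernel)) (aC (chk_sound smok0 c3663 (by decide +kernel)) (aC (chk_sound smok0 c3664 (by decide +kernel)) (aC (chk_sound smok0 c3665 (by decide +kernel)) (aC (chk_sound smok0 c3666 (by decide +kernel)) (aC (chk_sound smok0 c3667 (by decide +kernel)) (aC (chk_sound smok0 c3668 (by decide +kernel)) aN))))))))))))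
theorem n392 : Rf E0 xe13 [1702, 986, 1230, 1136, 1053] :=
  node_sound smok0 (q := 30) (ch := [2109, 2028, 1947, 1866, 1785, 1623, 1542, 894, 408, 327, 3]) (by decide +kernel) (by decide +kernel)
    (aC (chk_sound smok0 c3669 (by decide +kernel)) (aC (chk_sound smok0 c3670 (by decide +kernel)) (aC (chk_sound smok0 c3671 (by decide +kernel)) (aC (chk_sound smok0 c3672 (by decide +kernel)) (aC (chk_sound smok0 c3673 (by decide +kernel)) (aC (chk_sound smok0 c3674 (by decide +kernel)) (aC (chk_sound smok0 c3675 (by decide +kernel)) (aC (chk_sound smok0 c3676 (by decide +kernel)) (aC (chk_sound smok0 c3677 (by decide +kernel)) (aC (chk_sound smok0 c3678 (by decide +kernel)) (aC (chk_sound smok0 c3679 (by decide +kernel)) aN)))))))))))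
theorem n393 : Rf E0 xe13 [1459, 986, 1230, 1136, 1053] :=
  node_sound smok0 (q := 53) (ch := [2132, 2051, 1970, 1646, 1565, 1403, 1322, 350, 269, 188, 107, 26]) (by decide +kernel) (by decide +kernel)
    (aC (chk_sound smok0 c3680 (by decide +kernel)) (aC (chk_sound smok0 c3681 (by decide +kernel)) (aC (chk_sound smok0 c3682 (by decide +kernel)) (aC (chk_sound smok0 c3683 (by decide +kernel)) (aC (chk_sound smok0 c3684 (by decide +kernel)) (aC (chk_sound smok0 c3685 (by decide +kernel)) (aC (chk_sound smok0 c3686 (by decide +kernel)) (aC (chk_sound smok0 c3687 (by decide +kernel)) (aC (chk_sound smok0 c3688 (by decide +kernel)) (aC (chk_sound smok0 c3689 (by decide +kernel)) (aC (chk_sound smok0 c3690 (by decide +kernel)) (aC (chk_sound smok0 c3691 (by decide +kernel)) aN))))))))))))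
theorem n394 : Rf E0 xe13 [730, 986, 1230, 1136, 1053] :=
  node_sound smok0 (q := 30) (ch := [2109, 2028, 1947, 1866, 894, 813, 651, 570, 246, 165, 84, 3]) (by decide +kernel) (by decide +kernel)
    (aC (chk_sound smok0 c3692 (by decide +kernel)) (aC (chk_sound smok0 c3693 (by decide +kernel)) (aC (chk_sound smok0 c3694 (by decide +kernel)) (aC (chk_sound smok0 c3695 (by decide +kernel)) (aC (chk_sound smok0 c3696 (by decide +kernel)) (aC (chk_sound smok0 c3697 (by decide +kernel)) (aC (chk_sound smok0 c3698 (by decide +kernel)) (aC (chk_sound smok0 c3699 (by decide +kernel)) (aC (chk_sound smok0 c3700 (by decide +kernel)) (aC (chk_sound smok0 c3701 (by decide +kernel)) (aC (chk_sound smok0 c3702 (by decide +kernel)) (aC (chk_sound smok0 c3703 (by decide +kernel)) aN))))))))))))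
theorem n395 : Rf E0 xe13 [487, 986, 1230, 1136, 1053] :=
  node_sound smok0 (q := 53) (ch := [1889, 1808, 1322, 674, 593, 431, 350, 269, 188, 107, 26]) (by decide +kernel) (by decide +kernel)
    (aC (chk_sound smok0 c3704 (by decide +kernel)) (aC (chk_sound smok0 c3705 (by decide +kernel)) (aC (chk_sound smok0 c3706 (by decide +kernel)) (aC (chk_sound smok0 c3707 (by decide +kernel)) (aC (chk_sound smok0 c3708 (by decide +kernel)) (aC (chk_sound smok0 c3709 (by decide +kernel)) (aC (chk_sound smok0 c3710 (by decide +kernel)) (aC (chk_sound smok0 c3711 (by decide +kernel)) (aC (chk_sound smok0 c3712 (by decide +kernel)) (aC (chk_sound smok0 c3713 (by decide +kernel)) (aC (chk_sound smok0 c3714 (by decide +kernel)) aN)))))))))))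
theorem n396 : Rf E0 xe13 [406, 986, 1230, 1136, 1053] :=
  node_sound smok0 (q := 53) (ch := [2132, 2051, 1403, 1322, 674, 593, 512, 350, 269, 188, 107, 26]) (by decide +kernel) (by decide +kernel)
    (aC (chk_sound smok0 c3715 (by decide +kernel)) (aC (chk_sound smok0 c3716 (by decide +kernel)) (aC (chk_sound smok0 c3717 (by decide +kernel)) (aC (chk_sound smok0 c3718 (by decide +kernel)) (aC (chk_sound smok0 c3719 (by decide +kernel)) (aC (chk_sound smok0 c3720 (by decide +kernel)) (aC (chk_sound smok0 c3721 (by decide +kernel)) (aC (chk_sound smok0 c3722 (by decide +kernel)) (aC (chk_sound smok0 c3723 (by decide +kernel)) (aC (chk_sound smok0 c3724 (by decide +kernel)) (aC (chk_sound smok0 c3725 (by decide +kernel)) (aC (chk_sound smok0 c3726 (by decide +kernel)) aN))))))))))))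
theorem n397 : Rf E0 xe13 [325, 986, 1230, 1136, 1053] :=
  node_sound smok0 (q := 30) (ch := [1623, 1542, 894, 813, 732, 651, 570, 489, 408, 246, 165, 84]) (by decide +kernel) (by decide +kernel)
    (aC (chk_sound smok0 c3727 (by decide +kernel)) (aC (chk_sound smok0 c3728 (by decide +kernel)) (aC (chk_sound smok0 c3729 (by decide +kernel)) (aC (chk_sound smok0 c3730 (by decide +kernel)) (aC (chk_sound smok0 c3731 (by decide +kernel)) (aC (chk_sound smok0 c3732 (by decide +kernel)) (aC (chk_sound smok0 c3733 (by decide +kernel)) (aC (chk_sound smok0 c3734 (by decide +kernel)) (aC (chk_sound smok0 c3735 (by decide +kernel)) (aC (chk_sound smok0 c3736 (by decide +kernel)) (aC (chk_sound smok0 c3737 (by decide +kernel)) (aC (chk_sound smok0 c3738 (by decide +kernel)) aN))))))))))))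
theorem n398 : Rf E0 xe13 [986, 1230, 1136, 1053] :=
  node_sound smok0 (q := 28) (ch := [1945, 1864, 1783, 1702, 1621, 1540, 1459, 730, 649, 568, 487, 406, 325, 244]) (by decide +kernel) (by decide +kernel)
    (aC (chk_sound smok0 c3739 (by decide +kernel)) (aC n390 (aC n391 (aC n392 (aC (chk_sound smok0 c3740 (by decide +kernel)) (aC (chk_sound smok0 c3741 (by decide +kernel)) (aC n393 (aC n394 (aC (chk_sound smok0 c3742 (by decide +kernel)) (aC (chk_sound smok0 c3743 (by decide +kernel)) (aC n395 (aC n396 (aC n397 (aC (chk_sound smok0 c3744 (by decide +kernel)) aN))))))))))))))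
theorem n399 : Rf E0 xe13 [17, 982, 1230, 1136, 1053] :=
  node_sound smok0 (q := 16) (ch := [1322, 1315, 1314, 1309, 1308, 1307, 1305, 1304, 1303, 1302]) (by decide +kernel) (by decide +kernel)
    (aC (chk_sound smok0 c3745 (by decide +kernel)) (aC (chk_sound smok0 c3746 (by decide +kernel)) (aC (chk_sound smok0 c3747 (by decide +kernel)) (aC (chk_sound smok0 c3748 (by decide +kernel)) (aC (chk_sound smok0 c3749 (by decide +kernel)) (aC (chk_sound smok0 c3750 (by decide +kernel)) (aC (chk_sound smok0 c3751 (by decide +kernel)) (aC (chk_sound smok0 c3752 (by decide +kernel)) (aC (chk_sound smok0 c3753 (by decide +kernel)) (aC (chk_sound smok0 c3754 (by decide +kernel)) aN))))))))))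
theorem n400 : Rf E0 xe13 [4, 982, 1230, 1136, 1053] :=
  node_sound smok0 (q := 11) (ch := [914, 913, 907, 905, 899, 898, 897, 896, 894, 892]) (by decide +kernel) (by decide +kernel)
    (aC (chk_sound smok0 c3755 (by decide +kernel)) (aC (chk_sound smok0 c3756 (by decide +kernel)) (aC (chk_sound smok0 c3757 (by decide +kernel)) (aC (chk_sound smok0 c3758 (by decide +kernel)) (aC (chk_sound smok0 c3759 (by decide +kernel)) (aC (chk_sound smok0 c3760 (by decide +kernel)) (aC (chk_sound smok0 c3761 (by decide +kernel)) (aC (chk_sound smok0 c3762 (by decide +kernel)) (aC (chk_sound smok0 c3763 (by decide +kernel)) (aC (chk_sound smok0 c3764 (by decide +kernel)) aN))))))))))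
theorem n401 : Rf E0 xe13 [3, 982, 1230, 1136, 1053] :=
  node_sound smok0 (q := 11) (ch := [914, 913, 907, 905, 899, 898, 897, 896, 895, 892]) (by decide +kernel) (by decide +kernel)
    (aC (chk_sound smok0 c3765 (by decide +kernel)) (aC (chk_sound smok0 c3766 (by decide +kernel)) (aC (chk_sound smok0 c3767 (by decide +kernel)) (aC (chk_sound smok0 c3768 (by decide +kernel)) (aC (chk_sound smok0 c3769 (by decide +kernel)) (aC (chk_sound smok0 c3770 (by decide +kernel)) (aC (chk_sound smok0 c3771 (by decide +kernel)) (aC (chk_sound smok0 c3772 (by decide +kernel)) (aC (chk_sound smok0 c3773 (by decide +kernel)) (aC (chk_sound smok0 c3774 (by decide +kernel)) aN))))))))))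
theorem n402 : Rf E0 xe13 [982, 1230, 1136, 1053] :=
  node_sound smok0 (q := 0) (ch := [25, 24, 23, 22, 18, 17, 11, 9, 5, 4, 3]) (by decide +kernel) (by decide +kernel)
    (aC (chk_sound smok0 c3775 (by decide +kernel)) (aC (chk_sound smok0 c3776 (by decide +kernel)) (aC (chk_sound smok0 c3777 (by decide +kernel)) (aC (chk_sound smok0 c3778 (by decide +kernel)) (aC (chk_sound smok0 c3779 (by decide +kernel)) (aC n399 (aC (chk_sound smok0 c3780 (by decide +kernel)) (aC (chk_sound smok0 c3781 (by decide +kernel)) (aC (chk_sound smok0 c3782 (by decide +kernel)) (aC n400 (aC n401 aN)))))))))))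
theorem n403 : Rf E0 xe13 [22, 981, 1230, 1136, 1053] :=
  node_sound smok0 (q := 11) (ch := [914, 912, 911, 905, 898, 897, 896, 895]) (by decide +kernel) (by decide +kernel)
    (aC (chk_sound smok0 c3783 (by decide +kernel)) (aC (chk_sound smok0 c3784 (by decide +kernel)) (aC (chk_sound smok0 c3785 (by decide +kernel)) (aC (chk_sound smok0 c3786 (by decide +kernel)) (aC (chk_sound smok0 c3787 (by decide +kernel)) (aC (chk_sound smok0 c3788 (by decide +kernel)) (aC (chk_sound smok0 c3789 (by decide +kernel)) (aC (chk_sound smok0 c3790 (by decide +kernel)) aN))))))))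
theorem n404 : Rf E0 xe13 [20, 981, 1230, 1136, 1053] :=
  node_sound smok0 (q := 11) (ch := [914, 913, 912, 905, 898, 897, 896, 895, 894, 892]) (by decide +kernel) (by decide +kernel)
    (aC (chk_sound smok0 c3791 (by decide +kernel)) (aC (chk_sound smok0 c3792 (by decide +kernel)) (aC (chk_sound smok0 c3793 (by decide +kernel)) (aC (chk_sound smok0 c3794 (by decide +kernel)) (aC (chk_sound smok0 c3795 (by decide +kernel)) (aC (chk_sound smok0 c3796 (by decide +kernel)) (aC (chk_sound smok0 c3797 (by decide +kernel)) (aC (chk_sound smok0 c3798 (by decide +kernel)) (aC (chk_sound smok0 c3799 (by decide +kernel)) (aC (chk_sound smok0 c3800 (by decide +kernel)) aN))))))))))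
theorem n405 : Rf E0 xe13 [18, 981, 1230, 1136, 1053] :=
  node_sound smok0 (q := 11) (ch := [914, 905, 898, 897, 896, 895, 894, 892]) (by decide +kernel) (by decide +kernel)
    (aC (chk_sound smok0 c3801 (by decide +kernel)) (aC (chk_sound smok0 c3802 (by decide +kernel)) (aC (chk_sound smok0 c3803 (by decide +kernel)) (aC (chk_sound smok0 c3804 (by decide +kernel)) (aC (chk_sound smok0 c3805 (by decide +kernel)) (aC (chk_sound smok0 c3806 (by decide +kernel)) (aC (chk_sound smok0 c3807 (by decide +kernel)) (aC (chk_sound smok0 c3808 (by decide +kernel)) aN))))))))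
theorem n406 : Rf E0 xe13 [17, 981, 1230, 1136, 1053] :=
  node_sound smok0 (q := 11) (ch := [914, 913, 912, 905, 898, 897, 896, 895, 894, 892]) (by decide +kernel) (by decide +kernel)
    (aC (chk_sound smok0 c3809 (by decide +kernel)) (aC (chk_sound smok0 c3810 (by decide +kernel)) (aC (chk_sound smok0 c3811 (by decide +kernel)) (aC (chk_sound smok0 c3812 (by decide +kernel)) (aC (chk_sound smok0 c3813 (by decide +kernel)) (aC (chk_sound smok0 c3814 (by decide +kernel)) (aC (chk_sound smok0 c3815 (by decide +kernel)) (aC (chk_sound smok0 c3816 (by decide +kernel)) (aC (chk_sound smok0 c3817 (by decide +kernel)) (aC (chk_sound smok0 c3818 (by decide +kernel)) aN))))))))))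
theorem n407 : Rf E0 xe13 [4, 981, 1230, 1136, 1053] :=
  node_sound smok0 (q := 11) (ch := [914, 913, 905, 898, 897, 896, 894, 892]) (by decide +kernel) (by decide +kernel)
    (aC (chk_sound smok0 c3819 (by decide +kernel)) (aC (chk_sound smok0 c3820 (by decide +kernel)) (aC (chk_sound smok0 c3821 (by decide +kernel)) (aC (chk_sound smok0 c3822 (by decide +kernel)) (aC (chk_sound smok0 c3823 (by decide +kernel)) (aC (chk_sound smok0 c3824 (by decide +kernel)) (aC (chk_sound smok0 c3825 (by decide +kernel)) (aC (chk_sound smok0 c3826 (by decide +kernel)) aN))))))))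
theorem n408 : Rf E0 xe13 [3, 981, 1230, 1136, 1053] :=
  node_sound smok0 (q := 11) (ch := [914, 913, 912, 911, 905, 898, 897, 896, 895, 892]) (by decide +kernel) (by decide +kernel)
    (aC (chk_sound smok0 c3827 (by decide +kernel)) (aC (chk_sound smok0 c3828 (by decide +kernel)) (aC (chk_sound smok0 c3829 (by decide +kernel)) (aC (chk_sound smok0 c3830 (by decide +kernel)) (aC (chk_sound smok0 c3831 (by decide +kernel)) (aC (chk_sound smok0 c3832 (by decide +kernel)) (aC (chk_sound smok0 c3833 (by decide +kernel)) (aC (chk_sound smok0 c3834 (by decide +kernel)) (aC (chk_sound smok0 c3835 (by decide +kernel)) (aC (chk_sound smok0 c3836 (by decide +kernel)) aN))))))))))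
theorem n409 : Rf E0 xe13 [981, 1230, 1136, 1053] :=
  node_sound smok0 (q := 0) (ch := [24, 23, 22, 20, 18, 17, 11, 10, 4, 3]) (by decide +kernel) (by decide +kernel)
    (aC (chk_sound smok0 c3837 (by decide +kernel)) (aC (chk_sound smok0 c3838 (by decide +kernel)) (aC n403 (aC n404 (aC n405 (aC n406 (aC (chk_sound smok0 c3839 (by decide +kernel)) (aC (chk_sound smok0 c3840 (by decide +kernel)) (aC n407 (aC n408 aN))))))))))
theorem n410 : Rf E0 xe13 [24, 980, 1230, 1136, 1053] :=
  node_sound smok0 (q := 11) (ch := [914, 913, 912, 911, 910, 909, 901, 895, 894, 892]) (by decide +kernel) (by decide +kernel)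
    (aC (chk_sound smok0 c3841 (by decide +kernel)) (aC (chk_sound smok0 c3842 (by decide +kernel)) (aC (chk_sound smok0 c3843 (by decide +kernel)) (aC (chk_sound smok0 c3844 (by decide +kernel)) (aC (chk_sound smok0 c3845 (by decide +kernel)) (aC (chk_sound smok0 c3846 (by decide +kernel)) (aC (chk_sound smok0 c3847 (by decide +kernel)) (aC (chk_sound smok0 c3848 (by decide +kernel)) (aC (chk_sound smok0 c3849 (by decide +kernel)) (aC (chk_sound smok0 c3850 (by decide +kernel)) aN))))))))))
theorem n411 : Rf E0 xe13 [23, 980, 1230, 1136, 1053] :=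
  node_sound smok0 (q := 11) (ch := [913, 912, 911, 910, 909, 901, 897, 892]) (by decide +kernel) (by decide +kernel)
    (aC (chk_sound smok0 c3851 (by decide +kernel)) (aC (chk_sound smok0 c3852 (by decide +kernel)) (aC (chk_sound smok0 c3853 (by decide +kernel)) (aC (chk_sound smok0 c3854 (by decide +kernel)) (aC (chk_sound smok0 c3855 (by decide +kernel)) (aC (chk_sound smok0 c3856 (by decide +kernel)) (aC (chk_sound smok0 c3857 (by decide +kernel)) (aC (chk_sound smok0 c3858 (by decide +kernel)) aN))))))))
theorem n412 : Rf E0 xe13 [22, 980, 1230, 1136, 1053] :=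
  node_sound smok0 (q := 11) (ch := [914, 912, 911, 910, 909, 901, 897, 896, 895]) (by decide +kernel) (by decide +kernel)
    (aC (chk_sound smok0 c3859 (by decide +kernel)) (aC (chk_sound smok0 c3860 (by decide +kernel)) (aC (chk_sound smok0 c3861 (by decide +kernel)) (aC (chk_sound smok0 c3862 (by decide +kernel)) (aC (chk_sound smok0 c3863 (by decide +kernel)) (aC (chk_sound smok0 c3864 (by decide +kernel)) (aC (chk_sound smok0 c3865 (by decide +kernel)) (aC (chk_sound smok0 c3866 (by decide +kernel)) (aC (chk_sound smok0 c3867 (by decide +kernel)) aN)))))))))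
theorem n413 : Rf E0 xe13 [20, 980, 1230, 1136, 1053] :=
  node_sound smok0 (q := 11) (ch := [914, 913, 912, 910, 909, 901, 897, 896, 895, 894, 892]) (by decide +kernel) (by decide +kernel)
    (aC (chk_sound smok0 c3868 (by decide +kernel)) (aC (chk_sound smok0 c3869 (by decide +kernel)) (aC (chk_sound smok0 c3870 (by decide +kernel)) (aC (chk_sound smok0 c3871 (by decide +kernel)) (aC (chk_sound smok0 c3872 (by decide +kernel)) (aC (chk_sound smok0 c3873 (by decide +kernel)) (aC (chk_sound smok0 c3874 (by decide +kernel)) (aC (chk_sound smok0 c3875 (by decide +kernel)) (aC (chk_sound smok0 c3876 (by decide +kernel)) (aC (chk_sound smok0 c3877 (by decide +kernel)) (aC (chk_sound smok0 c3878 (by decide +kernel)) aN)))))))))))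
theorem n414 : Rf E0 xe13 [9, 980, 1230, 1136, 1053] :=
  node_sound smok0 (q := 11) (ch := [914, 913, 912, 911, 910, 909, 901, 897, 896, 892]) (by decide +kernel) (by decide +kernel)
    (aC (chk_sound smok0 c3879 (by decide +kernel)) (aC (chk_sound smok0 c3880 (by decide +kernel)) (aC (chk_sound smok0 c3881 (by decide +kernel)) (aC (chk_sound smok0 c3882 (by decide +kernel)) (aC (chk_sound smok0 c3883 (by decide +kernel)) (aC (chk_sound smok0 c3884 (by decide +kernel)) (aC (chk_sound smok0 c3885 (by decide +kernel)) (aC (chk_sound smok0 c3886 (by decide +kernel)) (aC (chk_sound smok0 c3887 (by decide +kernel)) (aC (chk_sound smok0 c3888 (by decide +kernel)) aN))))))))))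
theorem n415 : Rf E0 xe13 [6, 980, 1230, 1136, 1053] :=
  node_sound smok0 (q := 11) (ch := [913, 912, 911, 910, 909, 901, 896, 895, 894, 892]) (by decide +kernel) (by decide +kernel)
    (aC (chk_sound smok0 c3889 (by decide +kernel)) (aC (chk_sound smok0 c3890 (by decide +kernel)) (aC (chk_sound smok0 c3891 (by decide +kernel)) (aC (chk_sound smok0 c3892 (by decide +kernel)) (aC (chk_sound smok0 c3893 (by decide +kernel)) (aC (chk_sound smok0 c3894 (by decide +kernel)) (aC (chk_sound smok0 c3895 (by decide +kernel)) (aC (chk_sound smok0 c3896 (by decide +kernel)) (aC (chk_sound smok0 c3897 (by decide +kernel)) (aC (chk_sound smok0 c3898 (by decide +kernel)) aN))))))))))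
theorem n416 : Rf E0 xe13 [3, 980, 1230, 1136, 1053] :=
  node_sound smok0 (q := 11) (ch := [914, 913, 912, 911, 901, 897, 896, 895, 892]) (by decide +kernel) (by decide +kernel)
    (aC (chk_sound smok0 c3899 (by decide +kernel)) (aC (chk_sound smok0 c3900 (by decide +kernel)) (aC (chk_sound smok0 c3901 (by decide +kernel)) (aC (chk_sound smok0 c3902 (by decide +kernel)) (aC (chk_sound smok0 c3903 (by decide +kernel)) (aC (chk_sound smok0 c3904 (by decide +kernel)) (aC (chk_sound smok0 c3905 (by decide +kernel)) (aC (chk_sound smok0 c3906 (by decide +kernel)) (aC (chk_sound smok0 c3907 (by decide +kernel)) aN)))))))))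
theorem n417 : Rf E0 xe13 [980, 1230, 1136, 1053] :=
  node_sound smok0 (q := 0) (ch := [26, 24, 23, 22, 20, 17, 10, 9, 6, 4, 3]) (by decide +kernel) (by decide +kernel)
    (aC (chk_sound smok0 c3908 (by decide +kernel)) (aC n410 (aC n411 (aC n412 (aC n413 (aC (chk_sound smok0 c3909 (by decide +kernel)) (aC (chk_sound smok0 c3910 (by decide +kernel)) (aC n414 (aC n415 (aC (chk_sound smok0 c3911 (by decide +kernel)) (aC n416 aN)))))))))))
theorem n418 : Rf E0 xe13 [26, 979, 1230, 1136, 1053] :=
  node_sound smok0 (q := 16) (ch := [1318, 1317, 1316, 1309, 1308, 1307, 1306, 1305, 1304, 1302]) (by decide +kernel) (by decide +kernel)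
    (aC (chk_sound smok0 c3912 (by decide +kernel)) (aC (chk_sound smok0 c3913 (by decide +kernel)) (aC (chk_sound smok0 c3914 (by decide +kernel)) (aC (chk_sound smok0 c3915 (by decide +kernel)) (aC (chk_sound smok0 c3916 (by decide +kernel)) (aC (chk_sound smok0 c3917 (by decide +kernel)) (aC (chk_sound smok0 c3918 (by decide +kernel)) (aC (chk_sound smok0 c3919 (by decide +kernel)) (aC (chk_sound smok0 c3920 (by decide +kernel)) (aC (chk_sound smok0 c3921 (by decide +kernel)) aN))))))))))
theorem n419 : Rf E0 xe13 [23, 979, 1230, 1136, 1053] :=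
  node_sound smok0 (q := 11) (ch := [913, 912, 911, 910, 909, 908, 907, 901, 900, 892]) (by decide +kernel) (by decide +kernel)
    (aC (chk_sound smok0 c3922 (by decide +kernel)) (aC (chk_sound smok0 c3923 (by decide +kernel)) (aC (chk_sound smok0 c3924 (by decide +kernel)) (aC (chk_sound smok0 c3925 (by decide +kernel)) (aC (chk_sound smok0 c3926 (by decide +kernel)) (aC (chk_sound smok0 c3927 (by decide +kernel)) (aC (chk_sound smok0 c3928 (by decide +kernel)) (aC (chk_sound smok0 c3929 (by decide +kernel)) (aC (chk_sound smok0 c3930 (by decide +kernel)) (aC (chk_sound smok0 c3931 (by decide +kernel)) aN))))))))))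
theorem n420 : Rf E0 xe13 [22, 979, 1230, 1136, 1053] :=
  node_sound smok0 (q := 16) (ch := [1322, 1317, 1316, 1315, 1314, 1313, 1309, 1308, 1304, 1302]) (by decide +kernel) (by decide +kernel)
    (aC (chk_sound smok0 c3932 (by decide +kernel)) (aC (chk_sound smok0 c3933 (by decide +kernel)) (aC (chk_sound smok0 c3934 (by decide +kernel)) (aC (chk_sound smok0 c3935 (by decide +kernel)) (aC (chk_sound smok0 c3936 (by decide +kernel)) (aC (chk_sound smok0 c3937 (by decide +kernel)) (aC (chk_sound smok0 c3938 (by decide +kernel)) (aC (chk_sound smok0 c3939 (by decide +kernel)) (aC (chk_sound smok0 c3940 (by decide +kernel)) (aC (chk_sound smok0 c3941 (by decide +kernel)) aN))))))))))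
theorem n421 : Rf E0 xe13 [20, 979, 1230, 1136, 1053] :=
  node_sound smok0 (q := 26) (ch := [2132, 2131, 2130, 2129, 2128, 2122, 2118, 2117, 2116, 2115, 2107]) (by decide +kernel) (by decide +kernel)
    (aC (chk_sound smok0 c3942 (by decide +kernel)) (aC (chk_sound smok0 c3943 (by decide +kernel)) (aC (chk_sound smok0 c3944 (by decide +kernel)) (aC (chk_sound smok0 c3945 (by decide +kernel)) (aC (chk_sound smok0 c3946 (by decide +kernel)) (aC (chk_sound smok0 c3947 (by decide +kernel)) (aC (chk_sound smok0 c3948 (by decide +kernel)) (aC (chk_sound smok0 c3949 (by decide +kernel)) (aC (chk_sound smok0 c3950 (by decide +kernel)) (aC (chk_sound smok0 c3951 (by decide +kernel)) (aC (chk_sound smok0 c3952 (by decide +kernel)) aN)))))))))))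
theorem n422 : Rf E0 xe13 [19, 979, 1230, 1136, 1053] :=
  node_sound smok0 (q := 1) (ch := [107, 106, 105, 104, 98, 95, 91, 87, 86, 85, 84]) (by decide +kernel) (by decide +kernel)
    (aC (chk_sound smok0 c3953 (by decide +kernel)) (aC (chk_sound smok0 c3954 (by decide +kernel)) (aC (chk_sound smok0 c3955 (by decide +kernel)) (aC (chk_sound smok0 c3956 (by decide +kernel)) (aC (chk_sound smok0 c3957 (by decide +kernel)) (aC (chk_sound smok0 c3958 (by decide +kernel)) (aC (chk_sound smok0 c3959 (by decide +kernel)) (aC (chk_sound smok0 c3960 (by decide +kernel)) (aC (chk_sound smok0 c3961 (by decide +kernel)) (aC (chk_sound smok0 c3962 (by decide +kernel)) (aC (chk_sound smok0 c3963 (by decide +kernel)) aN)))))))))))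
theorem n423 : Rf E0 xe13 [12, 979, 1230, 1136, 1053] :=
  node_sound smok0 (q := 1) (ch := [107, 106, 105, 104, 98, 95, 91, 87, 86, 85, 84]) (by decide +kernel) (by decide +kernel)
    (aC (chk_sound smok0 c3964 (by decide +kernel)) (aC (chk_sound smok0 c3965 (by decide +kernel)) (aC (chk_sound smok0 c3966 (by decide +kernel)) (aC (chk_sound smok0 c3967 (by decide +kernel)) (aC (chk_sound smok0 c3968 (by decide +kernel)) (aC (chk_sound smok0 c3969 (by decide +kernel)) (aC (chk_sound smok0 c3970 (by decide +kernel)) (aC (chk_sound smok0 c3971 (by decide +kernel)) (aC (chk_sound smok0 c3972 (by decide +kernel)) (aC (chk_sound smok0 c3973 (by decide +kernel)) (aC (chk_sound smok0 c3974 (by decide +kernel)) aN)))))))))))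
theorem n424 : Rf E0 xe13 [10, 979, 1230, 1136, 1053] :=
  node_sound smok0 (q := 26) (ch := [2132, 2131, 2130, 2129, 2128, 2125, 2118, 2114, 2112, 2107]) (by decide +kernel) (by decide +kernel)
    (aC (chk_sound smok0 c3975 (by decide +kernel)) (aC (chk_sound smok0 c3976 (by decide +kernel)) (aC (chk_sound smok0 c3977 (by decide +kernel)) (aC (chk_sound smok0 c3978 (by decide +kernel)) (aC (chk_sound smok0 c3979 (by decide +kernel)) (aC (chk_sound smok0 c3980 (by decide +kernel)) (aC (chk_sound smok0 c3981 (by decide +kernel)) (aC (chk_sound smok0 c3982 (by decide +kernel)) (aC (chk_sound smok0 c3983 (by decide +kernel)) (aC (chk_sound smok0 c3984 (by decide +kernel)) aN))))))))))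
theorem n425 : Rf E0 xe13 [9, 979, 1230, 1136, 1053] :=
  node_sound smok0 (q := 16) (ch := [1322, 1318, 1317, 1316, 1315, 1314, 1313, 1309, 1304, 1302]) (by decide +kernel) (by decide +kernel)
    (aC (chk_sound smok0 c3985 (by decide +kernel)) (aC (chk_sound smok0 c3986 (by decide +kernel)) (aC (chk_sound smok0 c3987 (by decide +kernel)) (aC (chk_sound smok0 c3988 (by decide +kernel)) (aC (chk_sound smok0 c3989 (by decide +kernel)) (aC (chk_sound smok0 c3990 (by decide +kernel)) (aC (chk_sound smok0 c3991 (by decide +kernel)) (aC (chk_sound smok0 c3992 (by decide +kernel)) (aC (chk_sound smok0 c3993 (by decide +kernel)) (aC (chk_sound smok0 c3994 (by decide +kernel)) aN))))))))))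
theorem n426 : Rf E0 xe13 [6, 979, 1230, 1136, 1053] :=
  node_sound smok0 (q := 51) (ch := [2130, 2049, 1968, 1887, 1806, 1644, 834, 753, 510, 429]) (by decide +kernel) (by decide +kernel)
    (aC (chk_sound smok0 c3995 (by decide +kernel)) (aC (chk_sound smok0 c3996 (by decide +kernel)) (aC (chk_sound smok0 c3997 (by decide +kernel)) (aC (chk_sound smok0 c3998 (by decide +kernel)) (aC (chk_sound smok0 c3999 (by decide +kernel)) (aC (chk_sound smok0 c4000 (by decide +kernel)) (aC (chk_sound smok0 c4001 (by decide +kernel)) (aC (chk_sound smok0 c4002 (by decide +kernel)) (aC (chk_sound smok0 c4003 (by decide +kernel)) (aC (chk_sound smok0 c4004 (by decide +kernel)) aN))))))))))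
theorem n427 : Rf E0 xe13 [3, 979, 1230, 1136, 1053] :=
  node_sound smok0 (q := 11) (ch := [914, 913, 912, 911, 907, 901, 900, 896, 895, 892]) (by decide +kernel) (by decide +kernel)
    (aC (chk_sound smok0 c4005 (by decide +kernel)) (aC (chk_sound smok0 c4006 (by decide +kernel)) (aC (chk_sound smok0 c4007 (by decide +kernel)) (aC (chk_sound smok0 c4008 (by decide +kernel)) (aC (chk_sound smok0 c4009 (by decide +kernel)) (aC (chk_sound smok0 c4010 (by decide +kernel)) (aC (chk_sound smok0 c4011 (by decide +kernel)) (aC (chk_sound smok0 c4012 (by decide +kernel)) (aC (chk_sound smok0 c4013 (by decide +kernel)) (aC (chk_sound smok0 c4014 (by decide +kernel)) aN))))))))))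
theorem n428 : Rf E0 xe13 [979, 1230, 1136, 1053] :=
  node_sound smok0 (q := 0) (ch := [26, 23, 22, 20, 19, 17, 12, 10, 9, 6, 3]) (by decide +kernel) (by decide +kernel)
    (aC n418 (aC n419 (aC n420 (aC n421 (aC n422 (aC (chk_sound smok0 c4015 (by decide +kernel)) (aC n423 (aC n424 (aC n425 (aC n426 (aC n427 aN)))))))))))
theorem n429 : Rf E0 xe13 [26, 978, 1230, 1136, 1053] :=
  node_sound smok0 (q := 16) (ch := [1319, 1318, 1317, 1313, 1309, 1308, 1307, 1306, 1305, 1304, 1303]) (by decide +kernel) (by decide +kernel)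
    (aC (chk_sound smok0 c4016 (by decide +kernel)) (aC (chk_sound smok0 c4017 (by decide +kernel)) (aC (chk_sound smok0 c4018 (by decide +kernel)) (aC (chk_sound smok0 c4019 (by decide +kernel)) (aC (chk_sound smok0 c4020 (by decide +kernel)) (aC (chk_sound smok0 c4021 (by decide +kernel)) (aC (chk_sound smok0 c4022 (by decide +kernel)) (aC (chk_sound smok0 c4023 (by decide +kernel)) (aC (chk_sound smok0 c4024 (by decide +kernel)) (aC (chk_sound smok0 c4025 (by decide +kernel)) (aC (chk_sound smok0 c4026 (by decide +kernel)) aN)))))))))))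
theorem n430 : Rf E0 xe13 [25, 978, 1230, 1136, 1053] :=
  node_sound smok0 (q := 26) (ch := [2129, 2128, 2127, 2118, 2117, 2116, 2115, 2114, 2113, 2111]) (by decide +kernel) (by decide +kernel)
    (aC (chk_sound smok0 c4027 (by decide +kernel)) (aC (chk_sound smok0 c4028 (by decide +kernel)) (aC (chk_sound smok0 c4029 (by decide +kernel)) (aC (chk_sound smok0 c4030 (by decide +kernel)) (aC (chk_sound smok0 c4031 (by decide +kernel)) (aC (chk_sound smok0 c4032 (by decide +kernel)) (aC (chk_sound smok0 c4033 (by decide +kernel)) (aC (chk_sound smok0 c4034 (by decide +kernel)) (aC (chk_sound smok0 c4035 (by decide +kernel)) (aC (chk_sound smok0 c4036 (by decide +kernel)) aN))))))))))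
theorem n431 : Rf E0 xe13 [23, 978, 1230, 1136, 1053] :=
  node_sound smok0 (q := 11) (ch := [913, 912, 911, 910, 909, 908, 907, 905, 899, 892]) (by decide +kernel) (by decide +kernel)
    (aC (chk_sound smok0 c4037 (by decide +kernel)) (aC (chk_sound smok0 c4038 (by decide +kernel)) (aC (chk_sound smok0 c4039 (by decide +kernel)) (aC (chk_sound smok0 c4040 (by decide +kernel)) (aC (chk_sound smok0 c4041 (by decide +kernel)) (aC (chk_sound smok0 c4042 (by decide +kernel)) (aC (chk_sound smok0 c4043 (by decide +kernel)) (aC (chk_sound smok0 c4044 (by decide +kernel)) (aC (chk_sound smok0 c4045 (by decide +kernel)) (aC (chk_sound smok0 c4046 (by decide +kernel)) aN))))))))))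
theorem n432 : Rf E0 xe13 [22, 978, 1230, 1136, 1053] :=
  node_sound smok0 (q := 11) (ch := [914, 912, 911, 910, 909, 908, 907, 905, 899, 895]) (by decide +kernel) (by decide +kernel)
    (aC (chk_sound smok0 c4047 (by decide +kernel)) (aC (chk_sound smok0 c4048 (by decide +kernel)) (aC (chk_sound smok0 c4049 (by decide +kernel)) (aC (chk_sound smok0 c4050 (by decide +kernel)) (aC (chk_sound smok0 c4051 (by decide +kernel)) (aC (chk_sound smok0 c4052 (by decide +kernel)) (aC (chk_sound smok0 c4053 (by decide +kernel)) (aC (chk_sound smok0 c4054 (by decide +kernel)) (aC (chk_sound smok0 c4055 (by decide +kernel)) (aC (chk_sound smok0 c4056 (by decide +kernel)) aN))))))))))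
theorem n433 : Rf E0 xe13 [9, 978, 1230, 1136, 1053] :=
  node_sound smok0 (q := 16) (ch := [1319, 1318, 1317, 1316, 1315, 1314, 1313, 1306, 1304, 1303]) (by decide +kernel) (by decide +kernel)
    (aC (chk_sound smok0 c4057 (by decide +kernel)) (aC (chk_sound smok0 c4058 (by decide +kernel)) (aC (chk_sound smok0 c4059 (by decide +kernel)) (aC (chk_sound smok0 c4060 (by decide +kernel)) (aC (chk_sound smok0 c4061 (by decide +kernel)) (aC (chk_sound smok0 c4062 (by decide +kernel)) (aC (chk_sound smok0 c4063 (by decide +kernel)) (aC (chk_sound smok0 c4064 (by decide +kernel)) (aC (chk_sound smok0 c4065 (by decide +kernel)) (aC (chk_sound smok0 c4066 (by decide +kernel)) aN))))))))))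
theorem n434 : Rf E0 xe13 [978, 1230, 1136, 1053] :=
  node_sound smok0 (q := 0) (ch := [26, 25, 23, 22, 20, 19, 12, 9, 5, 3]) (by decide +kernel) (by decide +kernel)
    (aC n429 (aC n430 (aC n431 (aC n432 (aC (chk_sound smok0 c4067 (by decide +kernel)) (aC (chk_sound smok0 c4068 (by decide +kernel)) (aC (chk_sound smok0 c4069 (by decide +kernel)) (aC n433 (aC (chk_sound smok0 c4070 (by decide +kernel)) (aC (chk_sound smok0 c4071 (by decide +kernel)) aN))))))))))
theorem n435 : Rf E0 xe13 [26, 977, 1230, 1136, 1053] :=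
  node_sound smok0 (q := 11) (ch := [914, 913, 912, 911, 910, 909, 908, 907, 905, 894, 892]) (by decide +kernel) (by decide +kernel)
    (aC (chk_sound smok0 c4072 (by decide +kernel)) (aC (chk_sound smok0 c4073 (by decide +kernel)) (aC (chk_sound smok0 c4074 (by decide +kernel)) (aC (chk_sound smok0 c4075 (by decide +kernel)) (aC (chk_sound smok0 c4076 (by decide +kernel)) (aC (chk_sound smok0 c4077 (by decide +kernel)) (aC (chk_sound smok0 c4078 (by decide +kernel)) (aC (chk_sound smok0 c4079 (by decide +kernel)) (aC (chk_sound smok0 c4080 (by decide +kernel)) (aC (chk_sound smok0 c4081 (by decide +kernel)) (aC (chk_sound smok0 c4082 (by decide +kernel)) aN)))))))))))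
theorem n436 : Rf E0 xe13 [25, 977, 1230, 1136, 1053] :=
  node_sound smok0 (q := 11) (ch := [914, 913, 912, 911, 910, 909, 908, 907, 905, 894, 892]) (by decide +kernel) (by decide +kernel)
    (aC (chk_sound smok0 c4083 (by decide +kernel)) (aC (chk_sound smok0 c4084 (by decide +kernel)) (aC (chk_sound smok0 c4085 (by decide +kernel)) (aC (chk_sound smok0 c4086 (by decide +kernel)) (aC (chk_sound smok0 c4087 (by decide +kernel)) (aC (chk_sound smok0 c4088 (by decide +kernel)) (aC (chk_sound smok0 c4089 (by decide +kernel)) (aC (chk_sound smok0 c4090 (by decide +kernel)) (aC (chk_sound smok0 c4091 (by decide +kernel)) (aC (chk_sound smok0 c4092 (by decide +kernel)) (aC (chk_sound smok0 c4093 (by decide +kernel)) aN)))))))))))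
theorem n437 : Rf E0 xe13 [11, 977, 1230, 1136, 1053] :=
  node_sound smok0 (q := 1) (ch := [107, 106, 105, 104, 99, 98, 95, 94, 87, 85, 84]) (by decide +kernel) (by decide +kernel)
    (aC (chk_sound smok0 c4094 (by decide +kernel)) (aC (chk_sound smok0 c4095 (by decide +kernel)) (aC (chk_sound smok0 c4096 (by decide +kernel)) (aC (chk_sound smok0 c4097 (by decide +kernel)) (aC (chk_sound smok0 c4098 (by decide +kernel)) (aC (chk_sound smok0 c4099 (by decide +kernel)) (aC (chk_sound smok0 c4100 (by decide +kernel)) (aC (chk_sound smok0 c4101 (by decide +kernel)) (aC (chk_sound smok0 c4102 (by decide +kernel)) (aC (chk_sound smok0 c4103 (by decide +kernel)) (aC (chk_sound smok0 c4104 (by decide +kernel)) aN)))))))))))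
theorem n438 : Rf E0 xe13 [9, 977, 1230, 1136, 1053] :=
  node_sound smok0 (q := 11) (ch := [914, 913, 912, 911, 910, 909, 908, 907, 905, 892]) (by decide +kernel) (by decide +kernel)
    (aC (chk_sound smok0 c4105 (by decide +kernel)) (aC (chk_sound smok0 c4106 (by decide +kernel)) (aC (chk_sound smok0 c4107 (by decide +kernel)) (aC (chk_sound smok0 c4108 (by decide +kernel)) (aC (chk_sound smok0 c4109 (by decide +kernel)) (aC (chk_sound smok0 c4110 (by decide +kernel)) (aC (chk_sound smok0 c4111 (by decide +kernel)) (aC (chk_sound smok0 c4112 (by decide +kernel)) (aC (chk_sound smok0 c4113 (by decide +kernel)) (aC (chk_sound smok0 c4114 (by decide +kernel)) aN))))))))))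
theorem n439 : Rf E0 xe13 [977, 1230, 1136, 1053] :=
  node_sound smok0 (q := 0) (ch := [26, 25, 22, 20, 19, 18, 12, 11, 9, 6]) (by decide +kernel) (by decide +kernel)
    (aC n435 (aC n436 (aC (chk_sound smok0 c4115 (by decide +kernel)) (aC (chk_sound smok0 c4116 (by decide +kernel)) (aC (chk_sound smok0 c4117 (by decide +kernel)) (aC (chk_sound smok0 c4118 (by decide +kernel)) (aC (chk_sound smok0 c4119 (by decide +kernel)) (aC n437 (aC n438 (aC (chk_sound smok0 c4120 (by decide +kernel)) aN))))))))))
theorem n440 : Rf E0 xe13 [26, 976, 1230, 1136, 1053] :=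
  node_sound smok0 (q := 11) (ch := [914, 913, 912, 911, 910, 909, 908, 907, 905, 892]) (by decide +kernel) (by decide +kernel)
    (aC (chk_sound smok0 c4121 (by decide +kernel)) (aC (chk_sound smok0 c4122 (by decide +kernel)) (aC (chk_sound smok0 c4123 (by decide +kernel)) (aC (chk_sound smok0 c4124 (by decide +kernel)) (aC (chk_sound smok0 c4125 (by decide +kernel)) (aC (chk_sound smok0 c4126 (by decide +kernel)) (aC (chk_sound smok0 c4127 (by decide +kernel)) (aC (chk_sound smok0 c4128 (by decide +kernel)) (aC (chk_sound smok0 c4129 (by decide +kernel)) (aC (chk_sound smok0 c4130 (by decide +kernel)) aN))))))))))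
theorem n441 : Rf E0 xe13 [25, 976, 1230, 1136, 1053] :=
  node_sound smok0 (q := 1) (ch := [104, 101, 100, 99, 98, 95, 94, 93, 92, 91, 84]) (by decide +kernel) (by decide +kernel)
    (aC (chk_sound smok0 c4131 (by decide +kernel)) (aC (chk_sound smok0 c4132 (by decide +kernel)) (aC (chk_sound smok0 c4133 (by decide +kernel)) (aC (chk_sound smok0 c4134 (by decide +kernel)) (aC (chk_sound smok0 c4135 (by decide +kernel)) (aC (chk_sound smok0 c4136 (by decide +kernel)) (aC (chk_sound smok0 c4137 (by decide +kernel)) (aC (chk_sound smok0 c4138 (by decide +kernel)) (aC (chk_sound smok0 c4139 (by decide +kernel)) (aC (chk_sound smok0 c4140 (by decide +kernel)) (aC (chk_sound smok0 c4141 (by decide +kernel)) aN)))))))))))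
theorem n442 : Rf E0 xe13 [24, 976, 1230, 1136, 1053] :=
  node_sound smok0 (q := 10) (ch := [836, 835, 833, 832, 828, 827, 826, 824, 820, 813, 811]) (by decide +kernel) (by decide +kernel)
    (aC (chk_sound smok0 c4142 (by decide +kernel)) (aC (chk_sound smok0 c4143 (by decide +kernel)) (aC (chk_sound smok0 c4144 (by decide +kernel)) (aC (chk_sound smok0 c4145 (by decide +kernel)) (aC (chk_sound smok0 c4146 (by decide +kernel)) (aC (chk_sound smok0 c4147 (by decide +kernel)) (aC (chk_sound smok0 c4148 (by decide +kernel)) (aC (chk_sound smok0 c4149 (by decide +kernel)) (aC (chk_sound smok0 c4150 (by decide +kernel)) (aC (chk_sound smok0 c4151 (by decide +kernel)) (aC (chk_sound smok0 c4152 (by decide +kernel)) aN)))))))))))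
theorem n443 : Rf E0 xe13 [22, 976, 1230, 1136, 1053] :=
  node_sound smok0 (q := 11) (ch := [914, 912, 911, 910, 909, 908, 907, 905, 901]) (by decide +kernel) (by decide +kernel)
    (aC (chk_sound smok0 c4153 (by decide +kernel)) (aC (chk_sound smok0 c4154 (by decide +kernel)) (aC (chk_sound smok0 c4155 (by decide +kernel)) (aC (chk_sound smok0 c4156 (by decide +kernel)) (aC (chk_sound smok0 c4157 (by decide +kernel)) (aC (chk_sound smok0 c4158 (by decide +kernel)) (aC (chk_sound smok0 c4159 (by decide +kernel)) (aC (chk_sound smok0 c4160 (by decide +kernel)) (aC (chk_sound smok0 c4161 (by decide +kernel)) aN)))))))))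
theorem n444 : Rf E0 xe13 [20, 976, 1230, 1136, 1053] :=
  node_sound smok0 (q := 11) (ch := [914, 913, 912, 910, 909, 908, 907, 905, 901, 892]) (by decide +kernel) (by decide +kernel)
    (aC (chk_sound smok0 c4162 (by decide +kernel)) (aC (chk_sound smok0 c4163 (by decide +kernel)) (aC (chk_sound smok0 c4164 (by decide +kernel)) (aC (chk_sound smok0 c4165 (by decide +kernel)) (aC (chk_sound smok0 c4166 (by decide +kernel)) (aC (chk_sound smok0 c4167 (by decide +kernel)) (aC (chk_sound smok0 c4168 (by decide +kernel)) (aC (chk_sound smok0 c4169 (by decide +kernel)) (aC (chk_sound smok0 c4170 (by decide +kernel)) (aC (chk_sound smok0 c4171 (by decide +kernel)) aN))))))))))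
theorem n445 : Rf E0 xe13 [12, 976, 1230, 1136, 1053] :=
  node_sound smok0 (q := 1) (ch := [107, 106, 105, 104, 98, 95, 91, 87, 86, 84]) (by decide +kernel) (by decide +kernel)
    (aC (chk_sound smok0 c4172 (by decide +kernel)) (aC (chk_sound smok0 c4173 (by decide +kernel)) (aC (chk_sound smok0 c4174 (by decide +kernel)) (aC (chk_sound smok0 c4175 (by decide +kernel)) (aC (chk_sound smok0 c4176 (by decide +kernel)) (aC (chk_sound smok0 c4177 (by decide +kernel)) (aC (chk_sound smok0 c4178 (by decide +kernel)) (aC (chk_sound smok0 c4179 (by decide +kernel)) (aC (chk_sound smok0 c4180 (by decide +kernel)) (aC (chk_sound smok0 c4181 (by decide +kernel)) aN))))))))))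
theorem n446 : Rf E0 xe13 [11, 976, 1230, 1136, 1053] :=
  node_sound smok0 (q := 1) (ch := [107, 106, 105, 104, 99, 98, 95, 94, 87, 86, 84]) (by decide +kernel) (by decide +kernel)
    (aC (chk_sound smok0 c4182 (by decide +kernel)) (aC (chk_sound smok0 c4183 (by decide +kernel)) (aC (chk_sound smok0 c4184 (by decide +kernel)) (aC (chk_sound smok0 c4185 (by decide +kernel)) (aC (chk_sound smok0 c4186 (by decide +kernel)) (aC (chk_sound smok0 c4187 (by decide +kernel)) (aC (chk_sound smok0 c4188 (by decide +kernel)) (aC (chk_sound smok0 c4189 (by decide +kernel)) (aC (chk_sound smok0 c4190 (by decide +kernel)) (aC (chk_sound smok0 c4191 (by decide +kernel)) (aC (chk_sound smok0 c4192 (by decide +kernel)) aN)))))))))))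
theorem n447 : Rf E0 xe13 [6, 976, 1230, 1136, 1053] :=
  node_sound smok0 (q := 11) (ch := [913, 912, 911, 910, 909, 908, 907, 905, 901, 892]) (by decide +kernel) (by decide +kernel)
    (aC (chk_sound smok0 c4193 (by decide +kernel)) (aC (chk_sound smok0 c4194 (by decide +kernel)) (aC (chk_sound smok0 c4195 (by decide +kernel)) (aC (chk_sound smok0 c4196 (by decide +kernel)) (aC (chk_sound smok0 c4197 (by decide +kernel)) (aC (chk_sound smok0 c4198 (by decide +kernel)) (aC (chk_sound smok0 c4199 (by decide +kernel)) (aC (chk_sound smok0 c4200 (by decide +kernel)) (aC (chk_sound smok0 c4201 (by decide +kernel)) (aC (chk_sound smok0 c4202 (by decide +kernel)) aN))))))))))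
theorem n448 : Rf E0 xe13 [976, 1230, 1136, 1053] :=
  node_sound smok0 (q := 0) (ch := [26, 25, 24, 22, 20, 19, 18, 12, 11, 6, 5]) (by decide +kernel) (by decide +kernel)
    (aC n440 (aC n441 (aC n442 (aC n443 (aC n444 (aC (chk_sound smok0 c4203 (by decide +kernel)) (aC (chk_sound smok0 c4204 (by decide +kernel)) (aC n445 (aC n446 (aC n447 (aC (chk_sound smok0 c4205 (by decide +kernel)) aN)))))))))))
theorem n449 : Rf E0 xe13 [26, 975, 1230, 1136, 1053] :=
  node_sound smok0 (q := 28) (ch := [1945, 1864, 1783, 892, 811, 730, 649, 406, 325, 244]) (by decide +kernel) (by decide +kernel)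
    (aC (chk_sound smok0 c4206 (by decide +kernel)) (aC (chk_sound smok0 c4207 (by decide +kernel)) (aC (chk_sound smok0 c4208 (by decide +kernel)) (aC (chk_sound smok0 c4209 (by decide +kernel)) (aC (chk_sound smok0 c4210 (by decide +kernel)) (aC (chk_sound smok0 c4211 (by decide +kernel)) (aC (chk_sound smok0 c4212 (by decide +kernel)) (aC (chk_sound smok0 c4213 (by decide +kernel)) (aC (chk_sound smok0 c4214 (by decide +kernel)) (aC (chk_sound smok0 c4215 (by decide +kernel)) aN))))))))))
theorem n450 : Rf E0 xe13 [25, 975, 1230, 1136, 1053] :=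
  node_sound smok0 (q := 1) (ch := [104, 101, 100, 99, 98, 95, 94, 93, 92, 91, 85]) (by decide +kernel) (by decide +kernel)
    (aC (chk_sound smok0 c4216 (by decide +kernel)) (aC (chk_sound smok0 c4217 (by decide +kernel)) (aC (chk_sound smok0 c4218 (by decide +kernel)) (aC (chk_sound smok0 c4219 (by decide +kernel)) (aC (chk_sound smok0 c4220 (by decide +kernel)) (aC (chk_sound smok0 c4221 (by decide +kernel)) (aC (chk_sound smok0 c4222 (by decide +kernel)) (aC (chk_sound smok0 c4223 (by decide +kernel)) (aC (chk_sound smok0 c4224 (by decide +kernel)) (aC (chk_sound smok0 c4225 (by decide +kernel)) (aC (chk_sound smok0 c4226 (by decide +kernel)) aN)))))))))))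
theorem n451 : Rf E0 xe13 [24, 975, 1230, 1136, 1053] :=
  node_sound smok0 (q := 1) (ch := [107, 101, 100, 99, 98, 95, 94, 93, 92, 91, 86, 85]) (by decide +kernel) (by decide +kernel)
    (aC (chk_sound smok0 c4227 (by decide +kernel)) (aC (chk_sound smok0 c4228 (by decide +kernel)) (aC (chk_sound smok0 c4229 (by decide +kernel)) (aC (chk_sound smok0 c4230 (by decide +kernel)) (aC (chk_sound smok0 c4231 (by decide +kernel)) (aC (chk_sound smok0 c4232 (by decide +kernel)) (aC (chk_sound smok0 c4233 (by decide +kernel)) (aC (chk_sound smok0 c4234 (by decide +kernel)) (aC (chk_sound smok0 c4235 (by decide +kernel)) (aC (chk_sound smok0 c4236 (by decide +kernel)) (aC (chk_sound smok0 c4237 (by decide +kernel)) (aC (chk_sound smok0 c4238 (by decide +kernel)) aN))))))))))))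
theorem n452 : Rf E0 xe13 [20, 975, 1230, 1136, 1053] :=
  node_sound smok0 (q := 38) (ch := [2117, 2036, 1955, 1874, 1793, 1469, 1388, 740, 659, 416]) (by decide +kernel) (by decide +kernel)
    (aC (chk_sound smok0 c4239 (by decide +kernel)) (aC (chk_sound smok0 c4240 (by decide +kernel)) (aC (chk_sound smok0 c4241 (by decide +kernel)) (aC (chk_sound smok0 c4242 (by decide +kernel)) (aC (chk_sound smok0 c4243 (by decide +kernel)) (aC (chk_sound smok0 c4244 (by decide +kernel)) (aC (chk_sound smok0 c4245 (by decide +kernel)) (aC (chk_sound smok0 c4246 (by decide +kernel)) (aC (chk_sound smok0 c4247 (by decide +kernel)) (aC (chk_sound smok0 c4248 (by decide +kernel)) aN))))))))))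
theorem n453 : Rf E0 xe13 [19, 975, 1230, 1136, 1053] :=
  node_sound smok0 (q := 1) (ch := [107, 106, 105, 104, 98, 95, 91, 87, 86, 85]) (by decide +kernel) (by decide +kernel)
    (aC (chk_sound smok0 c4249 (by decide +kernel)) (aC (chk_sound smok0 c4250 (by decide +kernel)) (aC (chk_sound smok0 c4251 (by decide +kernel)) (aC (chk_sound smok0 c4252 (by decide +kernel)) (aC (chk_sound smok0 c4253 (by decide +kernel)) (aC (chk_sound smok0 c4254 (by decide +kernel)) (aC (chk_sound smok0 c4255 (by decide +kernel)) (aC (chk_sound smok0 c4256 (by decide +kernel)) (aC (chk_sound smok0 c4257 (by decide +kernel)) (aC (chk_sound smok0 c4258 (by decide +kernel)) aN))))))))))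
theorem n454 : Rf E0 xe13 [18, 975, 1230, 1136, 1053] :=
  node_sound smok0 (q := 11) (ch := [914, 910, 908, 907, 905, 901, 900, 899, 892]) (by decide +kernel) (by decide +kernel)
    (aC (chk_sound smok0 c4259 (by decide +kernel)) (aC (chk_sound smok0 c4260 (by decide +kernel)) (aC (chk_sound smok0 c4261 (by decide +kernel)) (aC (chk_sound smok0 c4262 (by decide +kernel)) (aC (chk_sound smok0 c4263 (by decide +kernel)) (aC (chk_sound smok0 c4264 (by decide +kernel)) (aC (chk_sound smok0 c4265 (by decide +kernel)) (aC (chk_sound smok0 c4266 (by decide +kernel)) (aC (chk_sound smok0 c4267 (by decide +kernel)) aN)))))))))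
theorem n455 : Rf E0 xe13 [17, 975, 1230, 1136, 1053] :=
  node_sound smok0 (q := 11) (ch := [914, 913, 912, 907, 905, 901, 900, 899, 892]) (by decide +kernel) (by decide +kernel)
    (aC (chk_sound smok0 c4268 (by decide +kernel)) (aC (chk_sound smok0 c4269 (by decide +kernel)) (aC (chk_sound smok0 c4270 (by decide +kernel)) (aC (chk_sound smok0 c4271 (by decide +kernel)) (aC (chk_sound smok0 c4272 (by decide +kernel)) (aC (chk_sound smok0 c4273 (by decide +kernel)) (aC (chk_sound smok0 c4274 (by decide +kernel)) (aC (chk_sound smok0 c4275 (by decide +kernel)) (aC (chk_sound smok0 c4276 (by decide +kernel)) aN)))))))))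
theorem n456 : Rf E0 xe13 [12, 975, 1230, 1136, 1053] :=
  node_sound smok0 (q := 1) (ch := [107, 106, 105, 104, 98, 95, 91, 87, 86, 85]) (by decide +kernel) (by decide +kernel)
    (aC (chk_sound smok0 c4277 (by decide +kernel)) (aC (chk_sound smok0 c4278 (by decide +kernel)) (aC (chk_sound smok0 c4279 (by decide +kernel)) (aC (chk_sound smok0 c4280 (by decide +kernel)) (aC (chk_sound smok0 c4281 (by decide +kernel)) (aC (chk_sound smok0 c4282 (by decide +kernel)) (aC (chk_sound smok0 c4283 (by decide +kernel)) (aC (chk_sound smok0 c4284 (by decide +kernel)) (aC (chk_sound smok0 c4285 (by decide +kernel)) (aC (chk_sound smok0 c4286 (by decide +kernel)) aN))))))))))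
theorem n457 : Rf E0 xe13 [11, 975, 1230, 1136, 1053] :=
  node_sound smok0 (q := 1) (ch := [107, 106, 105, 104, 99, 98, 95, 94, 87, 86, 85]) (by decide +kernel) (by decide +kernel)
    (aC (chk_sound smok0 c4287 (by decide +kernel)) (aC (chk_sound smok0 c4288 (by decide +kernel)) (aC (chk_sound smok0 c4289 (by decide +kernel)) (aC (chk_sound smok0 c4290 (by decide +kernel)) (aC (chk_sound smok0 c4291 (by decide +kernel)) (aC (chk_sound smok0 c4292 (by decide +kernel)) (aC (chk_sound smok0 c4293 (by decide +kernel)) (aC (chk_sound smok0 c4294 (by decide +kernel)) (aC (chk_sound smok0 c4295 (by decide +kernel)) (aC (chk_sound smok0 c4296 (by decide +kernel)) (aC (chk_sound smok0 c4297 (by decide +kernel)) aN)))))))))))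
theorem n458 : Rf E0 xe13 [10, 975, 1230, 1136, 1053] :=
  node_sound smok0 (q := 10) (ch := [836, 835, 834, 833, 832, 831, 830, 826, 824, 819, 818, 811]) (by decide +kernel) (by decide +kernel)
    (aC (chk_sound smok0 c4298 (by decide +kernel)) (aC (chk_sound smok0 c4299 (by decide +kernel)) (aC (chk_sound smok0 c4300 (by decide +kernel)) (aC (chk_sound smok0 c4301 (by decide +kernel)) (aC (chk_sound smok0 c4302 (by decide +kernel)) (aC (chk_sound smok0 c4303 (by decide +kernel)) (aC (chk_sound smok0 c4304 (by decide +kernel)) (aC (chk_sound smok0 c4305 (by decide +kernel)) (aC (chk_sound smok0 c4306 (by decide +kernel)) (aC (chk_sound smok0 c4307 (by decide +kernel)) (aC (chk_sound smok0 c4308 (by decide +kernel)) (aC (chk_sound smok0 c4309 (by decide +kernel)) aN))))))))))))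
theorem n459 : Rf E0 xe13 [6, 975, 1230, 1136, 1053] :=
  node_sound smok0 (q := 1) (ch := [104, 101, 100, 99, 98, 95, 94, 93, 92, 91, 85]) (by decide +kernel) (by decide +kernel)
    (aC (chk_sound smok0 c4310 (by decide +kernel)) (aC (chk_sound smok0 c4311 (by decide +kernel)) (aC (chk_sound smok0 c4312 (by decide +kernel)) (aC (chk_sound smok0 c4313 (by decide +kernel)) (aC (chk_sound smok0 c4314 (by decide +kernel)) (aC (chk_sound smok0 c4315 (by decide +kernel)) (aC (chk_sound smok0 c4316 (by decide +kernel)) (aC (chk_sound smok0 c4317 (by decide +kernel)) (aC (chk_sound smok0 c4318 (by decide +kernel)) (aC (chk_sound smok0 c4319 (by decide +kernel)) (aC (chk_sound smok0 c4320 (by decide +kernel)) aN)))))))))))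
theorem n460 : Rf E0 xe13 [5, 975, 1230, 1136, 1053] :=
  node_sound smok0 (q := 31) (ch := [2029, 1948, 1867, 1786, 652, 409, 328, 247, 166]) (by decide +kernel) (by decide +kernel)
    (aC (chk_sound smok0 c4321 (by decide +kernel)) (aC (chk_sound smok0 c4322 (by decide +kernel)) (aC (chk_sound smok0 c4323 (by decide +kernel)) (aC (chk_sound smok0 c4324 (by decide +kernel)) (aC (chk_sound smok0 c4325 (by decide +kernel)) (aC (chk_sound smok0 c4326 (by decide +kernel)) (aC (chk_sound smok0 c4327 (by decide +kernel)) (aC (chk_sound smok0 c4328 (by decide +kernel)) (aC (chk_sound smok0 c4329 (by decide +kernel)) aN)))))))))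
theorem n461 : Rf E0 xe13 [4, 975, 1230, 1136, 1053] :=
  node_sound smok0 (q := 11) (ch := [914, 913, 909, 908, 907, 905, 901, 900, 899, 892]) (by decide +kernel) (by decide +kernel)
    (aC (chk_sound smok0 c4330 (by decide +kernel)) (aC (chk_sound smok0 c4331 (by decide +kernel)) (aC (chk_sound smok0 c4332 (by decide +kernel)) (aC (chk_sound smok0 c4333 (by decide +kernel)) (aC (chk_sound smok0 c4334 (by decide +kernel)) (aC (chk_sound smok0 c4335 (by decide +kernel)) (aC (chk_sound smok0 c4336 (by decide +kernel)) (aC (chk_sound smok0 c4337 (by decide +kernel)) (aC (chk_sound smok0 c4338 (by decide +kernel)) (aC (chk_sound smok0 c4339 (by decide +kernel)) aN))))))))))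
theorem n462 : Rf E0 xe13 [975, 1230, 1136, 1053] :=
  node_sound smok0 (q := 0) (ch := [26, 25, 24, 20, 19, 18, 17, 12, 11, 10, 6, 5, 4]) (by decide +kernel) (by decide +kernel)
    (aC n449 (aC n450 (aC n451 (aC n452 (aC n453 (aC n454 (aC n455 (aC n456 (aC n457 (aC n458 (aC n459 (aC n460 (aC n461 aN)))))))))))))
theorem n463 : Rf E0 xe13 [1230, 1136, 1053] :=
  node_sound smok0 (q := 12) (ch := [986, 982, 981, 980, 979, 978, 977, 976, 975]) (by decide +kernel) (by decide +kernel)
    (aC n398 (aC n402 (aC n409 (aC n417 (aC n428 (aC n434 (aC n439 (aC n448 (aC n462 aN)))))))))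
theorem R0_13 : Rf E0 xe13 [1230, 1136, 1053] := n463

end Pool.Agent.R989.ZP
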