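import Pool.Agent.R989.ZP.Ms
import Pool.Agent.R989.ZP.C00
import Pool.Agent.R989.ZP.C01
import Pool.Agent.R989.ZP.C02
import Pool.Agent.R989.ZP.C03
import Pool.Agent.R989.ZP.C04
import Pool.Agent.R989.ZP.C05
import Pool.Agent.R989.ZP.C06
import Pool.Agent.R989.ZP.C07
import Pool.Agent.R989.ZP.C08
import Pool.Agent.R989.ZP.C09
import Pool.Agent.R989.ZP.C10
import Pool.Agent.R989.ZP.C11
import Pool.Agent.R989.ZP.C12
import Pool.Agent.R989.ZP.C13
import Pool.Agent.R989.ZP.C14
import Pool.Agent.R989.ZP.C15
import Pool.Agent.R989.ZP.C16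
import Pool.Agent.R989.ZP.C17
import Pool.Agent.R989.ZP.C18
import Pool.Agent.R989.ZP.C19
import Pool.Agent.R989.ZP.C20
import Pool.Agent.R989.ZP.C21
import Pool.Agent.R989.ZP.C22
import Pool.Agent.R989.ZP.C23
import Pool.Agent.R989.ZP.C24
import Pool.Agent.R989.ZP.C25
import Pool.Agent.R989.ZP.C26
import Pool.Agent.R989.ZP.C27
import Pool.Agent.R989.ZP.C28
import Pool.Agent.R989.ZP.C29
import Pool.Agent.R989.ZP.C30
import Pool.Agent.R989.ZP.C31
import Pool.Agent.R989.ZP.C32
import Pool.Agent.R989.ZP.C33
import Pool.Agent.R989.ZP.C34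
import Pool.Agent.R989.ZP.C35
import Pool.Agent.R989.ZP.C36
import Pool.Agent.R989.ZP.C37
import Pool.Agent.R989.ZP.C38
import Pool.Agent.R989.ZP.C39
import Pool.Agent.R989.ZP.C40
import Pool.Agent.R989.ZP.C41
import Pool.Agent.R989.ZP.C42
import Pool.Agent.R989.ZP.C43
import Pool.Agent.R989.ZP.C44
import Pool.Agent.R989.ZP.C45
import Pool.Agent.R989.ZP.C46
import Pool.Agent.R989.ZP.C47

set_option maxRecDepth 100000

namespace Pool.Agent.R989.ZP

theorem n464 : Rf E0 xe14 [832, 985, 1231, 1136, 1053] :=
  node_sound smok0 (q := 11) (ch := [911, 910, 906, 900, 899, 898, 897, 896, 894, 892]) (by decide +kernel) (by decide +kernel)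
    (aC (chk_sound smok0 c4340 (by decide +kernel)) (aC (chk_sound smok0 c4341 (by decide +kernel)) (aC (chk_sound smok0 c4342 (by decide +kernel)) (aC (chk_sound smok0 c4343 (by decide +kernel)) (aC (chk_sound smok0 c4344 (by decide +kernel)) (aC (chk_sound smok0 c4345 (by decide +kernel)) (aC (chk_sound smok0 c4346 (by decide +kernel)) (aC (chk_sound smok0 c4347 (by decide +kernel)) (aC (chk_sound smok0 c4348 (by decide +kernel)) (aC (chk_sound smok0 c4349 (by decide +kernel)) aN))))))))))
theorem n465 : Rf E0 xe14 [829, 985, 1231, 1136, 1053] :=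
  node_sound smok0 (q := 26) (ch := [2131, 2129, 2128, 2121, 2118, 2115, 2111, 2109, 2107]) (by decide +kernel) (by decide +kernel)
    (aC (chk_sound smok0 c4350 (by decide +kernel)) (aC (chk_sound smok0 c4351 (by decide +kernel)) (aC (chk_sound smok0 c4352 (by decide +kernel)) (aC (chk_sound smok0 c4353 (by decide +kernel)) (aC (chk_sound smok0 c4354 (by decide +kernel)) (aC (chk_sound smok0 c4355 (by decide +kernel)) (aC (chk_sound smok0 c4356 (by decide +kernel)) (aC (chk_sound smok0 c4357 (by decide +kernel)) (aC (chk_sound smok0 c4358 (by decide +kernel)) aN)))))))))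
theorem n466 : Rf E0 xe14 [825, 985, 1231, 1136, 1053] :=
  node_sound smok0 (q := 11) (ch := [913, 911, 910, 909, 908, 900, 897, 896, 895, 894]) (by decide +kernel) (by decide +kernel)
    (aC (chk_sound smok0 c4359 (by decide +kernel)) (aC (chk_sound smok0 c4360 (by decide +kernel)) (aC (chk_sound smok0 c4361 (by decide +kernel)) (aC (chk_sound smok0 c4362 (by decide +kernel)) (aC (chk_sound smok0 c4363 (by decide +kernel)) (aC (chk_sound smok0 c4364 (by decide +kernel)) (aC (chk_sound smok0 c4365 (by decide +kernel)) (aC (chk_sound smok0 c4366 (by decide +kernel)) (aC (chk_sound smok0 c4367 (by decide +kernel)) (aC (chk_sound smok0 c4368 (by decide +kernel)) aN))))))))))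
theorem n467 : Rf E0 xe14 [824, 985, 1231, 1136, 1053] :=
  node_sound smok0 (q := 11) (ch := [913, 910, 909, 908, 900, 899, 897, 896, 895, 894, 892]) (by decide +kernel) (by decide +kernel)
    (aC (chk_sound smok0 c4369 (by decide +kernel)) (aC (chk_sound smok0 c4370 (by decide +kernel)) (aC (chk_sound smok0 c4371 (by decide +kernel)) (aC (chk_sound smok0 c4372 (by decide +kernel)) (aC (chk_sound smok0 c4373 (by decide +kernel)) (aC (chk_sound smok0 c4374 (by decide +kernel)) (aC (chk_sound smok0 c4375 (by decide +kernel)) (aC (chk_sound smok0 c4376 (by decide +kernel)) (aC (chk_sound smok0 c4377 (by decide +kernel)) (aC (chk_sound smok0 c4378 (by decide +kernel)) (aC (chk_sound smok0 c4379 (by decide +kernel)) aN)))))))))))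
theorem n468 : Rf E0 xe14 [818, 985, 1231, 1136, 1053] :=
  node_sound smok0 (q := 11) (ch := [913, 912, 911, 910, 906, 897, 896, 894, 892]) (by decide +kernel) (by decide +kernel)
    (aC (chk_sound smok0 c4380 (by decide +kernel)) (aC (chk_sound smok0 c4381 (by decide +kernel)) (aC (chk_sound smok0 c4382 (by decide +kernel)) (aC (chk_sound smok0 c4383 (by decide +kernel)) (aC (chk_sound smok0 c4384 (by decide +kernel)) (aC (chk_sound smok0 c4385 (by decide +kernel)) (aC (chk_sound smok0 c4386 (by decide +kernel)) (aC (chk_sound smok0 c4387 (by decide +kernel)) (aC (chk_sound smok0 c4388 (by decide +kernel)) aN)))))))))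
theorem n469 : Rf E0 xe14 [817, 985, 1231, 1136, 1053] :=
  node_sound smok0 (q := 11) (ch := [913, 912, 911, 910, 909, 906, 900, 896, 892]) (by decide +kernel) (by decide +kernel)
    (aC (chk_sound smok0 c4389 (by decide +kernel)) (aC (chk_sound smok0 c4390 (by decide +kernel)) (aC (chk_sound smok0 c4391 (by decide +kernel)) (aC (chk_sound smok0 c4392 (by decide +kernel)) (aC (chk_sound smok0 c4393 (by decide +kernel)) (aC (chk_sound smok0 c4394 (by decide +kernel)) (aC (chk_sound smok0 c4395 (by decide +kernel)) (aC (chk_sound smok0 c4396 (by decide +kernel)) (aC (chk_sound smok0 c4397 (by decide +kernel)) aN)))))))))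
theorem n470 : Rf E0 xe14 [816, 985, 1231, 1136, 1053] :=
  node_sound smok0 (q := 11) (ch := [913, 912, 911, 910, 909, 906, 899, 895, 892]) (by decide +kernel) (by decide +kernel)
    (aC (chk_sound smok0 c4398 (by decide +kernel)) (aC (chk_sound smok0 c4399 (by decide +kernel)) (aC (chk_sound smok0 c4400 (by decide +kernel)) (aC (chk_sound smok0 c4401 (by decide +kernel)) (aC (chk_sound smok0 c4402 (by decide +kernel)) (aC (chk_sound smok0 c4403 (by decide +kernel)) (aC (chk_sound smok0 c4404 (by decide +kernel)) (aC (chk_sound smok0 c4405 (by decide +kernel)) (aC (chk_sound smok0 c4406 (by decide +kernel)) aN)))))))))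
theorem n471 : Rf E0 xe14 [811, 985, 1231, 1136, 1053] :=
  node_sound smok0 (q := 11) (ch := [913, 910, 909, 908, 906, 900, 899, 897, 896, 895, 894]) (by decide +kernel) (by decide +kernel)
    (aC (chk_sound smok0 c4407 (by decide +kernel)) (aC (chk_sound smok0 c4408 (by decide +kernel)) (aC (chk_sound smok0 c4409 (by decide +kernel)) (aC (chk_sound smok0 c4410 (by decide +kernel)) (aC (chk_sound smok0 c4411 (by decide +kernel)) (aC (chk_sound smok0 c4412 (by decide +kernel)) (aC (chk_sound smok0 c4413 (by decide +kernel)) (aC (chk_sound smok0 c4414 (by decide +kernel)) (aC (chk_sound smok0 c4415 (by decide +kernel)) (aC (chk_sound smok0 c4416 (by decide +kernel)) (aC (chk_sound smok0 c4417 (by decide +kernel)) aN)))))))))))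
theorem n472 : Rf E0 xe14 [985, 1231, 1136, 1053] :=
  node_sound smok0 (q := 10) (ch := [832, 831, 830, 829, 828, 827, 825, 824, 818, 817, 816, 815, 814, 813, 811]) (by decide +kernel) (by decide +kernel)
    (aC n464 (aC (chk_sound smok0 c4418 (by decide +kernel)) (aC (chk_sound smok0 c4419 (by decide +kernel)) (aC n465 (aC (chk_sound smok0 c4420 (by decide +kernel)) (aC (chk_sound smok0 c4421 (by decide +kernel)) (aC n466 (aC n467 (aC n468 (aC n469 (aC n470 (aC (chk_sound smok0 c4422 (by decide +kernel)) (aC (chk_sound smok0 c4423 (by decide +kernel)) (aC (chk_sound smok0 c4424 (by decide +kernel)) (aC n471 aN)))))))))))))))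
theorem n473 : Rf E0 xe14 [23, 981, 1231, 1136, 1053] :=
  node_sound smok0 (q := 11) (ch := [913, 912, 911, 905, 904, 898, 897, 896, 892]) (by decide +kernel) (by decide +kernel)
    (aC (chk_sound smok0 c4425 (by decide +kernel)) (aC (chk_sound smok0 c4426 (by decide +kernel)) (aC (chk_sound smok0 c4427 (by decide +kernel)) (aC (chk_sound smok0 c4428 (by decide +kernel)) (aC (chk_sound smok0 c4429 (by decide +kernel)) (aC (chk_sound smok0 c4430 (by decide +kernel)) (aC (chk_sound smok0 c4431 (by decide +kernel)) (aC (chk_sound smok0 c4432 (by decide +kernel)) (aC (chk_sound smok0 c4433 (by decide +kernel)) aN)))))))))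
theorem n474 : Rf E0 xe14 [18, 981, 1231, 1136, 1053] :=
  node_sound smok0 (q := 11) (ch := [914, 913, 905, 904, 898, 897, 896, 895, 894, 892]) (by decide +kernel) (by decide +kernel)
    (aC (chk_sound smok0 c4434 (by decide +kernel)) (aC (chk_sound smok0 c4435 (by decide +kernel)) (aC (chk_sound smok0 c4436 (by decide +kernel)) (aC (chk_sound smok0 c4437 (by decide +kernel)) (aC (chk_sound smok0 c4438 (by decide +kernel)) (aC (chk_sound smok0 c4439 (by decide +kernel)) (aC (chk_sound smok0 c4440 (by decide +kernel)) (aC (chk_sound smok0 c4441 (by decide +kernel)) (aC (chk_sound smok0 c4442 (by decide +kernel)) (aC (chk_sound smok0 c4443 (by decide +kernel)) aN))))))))))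
theorem n475 : Rf E0 xe14 [17, 981, 1231, 1136, 1053] :=
  node_sound smok0 (q := 16) (ch := [1316, 1315, 1314, 1310, 1309, 1308, 1307, 1306, 1304, 1303, 1297]) (by decide +kernel) (by decide +kernel)
    (aC (chk_sound smok0 c4444 (by decide +kernel)) (aC (chk_sound smok0 c4445 (by decide +kernel)) (aC (chk_sound smok0 c4446 (by decide +kernel)) (aC (chk_sound smok0 c4447 (by decide +kernel)) (aC (chk_sound smok0 c4448 (by decide +kernel)) (aC (chk_sound smok0 c4449 (by decide +kernel)) (aC (chk_sound smok0 c4450 (by decide +kernel)) (aC (chk_sound smok0 c4451 (by decide +kernel)) (aC (chk_sound smok0 c4452 (by decide +kernel)) (aC (chk_sound smok0 c4453 (by decide +kernel)) (aC (chk_sound smok0 c4454 (by decide +kernel)) aN)))))))))))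
theorem n476 : Rf E0 xe14 [10, 981, 1231, 1136, 1053] :=
  node_sound smok0 (q := 11) (ch := [914, 913, 912, 911, 905, 904, 898, 897, 892]) (by decide +kernel) (by decide +kernel)
    (aC (chk_sound smok0 c4455 (by decide +kernel)) (aC (chk_sound smok0 c4456 (by decide +kernel)) (aC (chk_sound smok0 c4457 (by decide +kernel)) (aC (chk_sound smok0 c4458 (by decide +kernel)) (aC (chk_sound smok0 c4459 (by decide +kernel)) (aC (chk_sound smok0 c4460 (by decide +kernel)) (aC (chk_sound smok0 c4461 (by decide +kernel)) (aC (chk_sound smok0 c4462 (by decide +kernel)) (aC (chk_sound smok0 c4463 (by decide +kernel)) aN)))))))))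
theorem n477 : Rf E0 xe14 [7, 981, 1231, 1136, 1053] :=
  node_sound smok0 (q := 26) (ch := [2132, 2131, 2130, 2123, 2121, 2118, 2117, 2116, 2109, 2107]) (by decide +kernel) (by decide +kernel)
    (aC (chk_sound smok0 c4464 (by decide +kernel)) (aC (chk_sound smok0 c4465 (by decide +kernel)) (aC (chk_sound smok0 c4466 (by decide +kernel)) (aC (chk_sound smok0 c4467 (by decide +kernel)) (aC (chk_sound smok0 c4468 (by decide +kernel)) (aC (chk_sound smok0 c4469 (by decide +kernel)) (aC (chk_sound smok0 c4470 (by decide +kernel)) (aC (chk_sound smok0 c4471 (by decide +kernel)) (aC (chk_sound smok0 c4472 (by decide +kernel)) (aC (chk_sound smok0 c4473 (by decide +kernel)) aN))))))))))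
theorem n478 : Rf E0 xe14 [4, 981, 1231, 1136, 1053] :=
  node_sound smok0 (q := 11) (ch := [914, 913, 912, 905, 904, 898, 897, 896, 894, 892]) (by decide +kernel) (by decide +kernel)
    (aC (chk_sound smok0 c4474 (by decide +kernel)) (aC (chk_sound smok0 c4475 (by decide +kernel)) (aC (chk_sound smok0 c4476 (by decide +kernel)) (aC (chk_sound smok0 c4477 (by decide +kernel)) (aC (chk_sound smok0 c4478 (by decide +kernel)) (aC (chk_sound smok0 c4479 (by decide +kernel)) (aC (chk_sound smok0 c4480 (by decide +kernel)) (aC (chk_sound smok0 c4481 (by decide +kernel)) (aC (chk_sound smok0 c4482 (by decide +kernel)) (aC (chk_sound smok0 c4483 (by decide +kernel)) aN))))))))))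
theorem n479 : Rf E0 xe14 [3, 981, 1231, 1136, 1053] :=
  node_sound smok0 (q := 11) (ch := [914, 913, 912, 911, 905, 904, 898, 897, 896, 895, 892]) (by decide +kernel) (by decide +kernel)
    (aC (chk_sound smok0 c4484 (by decide +kernel)) (aC (chk_sound smok0 c4485 (by decide +kernel)) (aC (chk_sound smok0 c4486 (by decide +kernel)) (aC (chk_sound smok0 c4487 (by decide +kernel)) (aC (chk_sound smok0 c4488 (by decide +kernel)) (aC (chk_sound smok0 c4489 (by decide +kernel)) (aC (chk_sound smok0 c4490 (by decide +kernel)) (aC (chk_sound smok0 c4491 (by decide +kernel)) (aC (chk_sound smok0 c4492 (by decide +kernel)) (aC (chk_sound smok0 c4493 (by decide +kernel)) (aC (chk_sound smok0 c4494 (by decide +kernel)) aN)))))))))))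
theorem n480 : Rf E0 xe14 [981, 1231, 1136, 1053] :=
  node_sound smok0 (q := 0) (ch := [25, 24, 23, 20, 18, 17, 11, 10, 7, 4, 3]) (by decide +kernel) (by decide +kernel)
    (aC (chk_sound smok0 c4495 (by decide +kernel)) (aC (chk_sound smok0 c4496 (by decide +kernel)) (aC n473 (aC (chk_sound smok0 c4497 (by decide +kernel)) (aC n474 (aC n475 (aC (chk_sound smok0 c4498 (by decide +kernel)) (aC n476 (aC n477 (aC n478 (aC n479 aN)))))))))))
theorem n481 : Rf E0 xe14 [7, 980, 1231, 1136, 1053] :=
  node_sound smok0 (q := 11) (ch := [914, 913, 912, 911, 910, 909, 897, 896, 895, 894, 892]) (by decide +kernel) (by decide +kernel)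
    (aC (chk_sound smok0 c4499 (by decide +kernel)) (aC (chk_sound smok0 c4500 (by decide +kernel)) (aC (chk_sound smok0 c4501 (by decide +kernel)) (aC (chk_sound smok0 c4502 (by decide +kernel)) (aC (chk_sound smok0 c4503 (by decide +kernel)) (aC (chk_sound smok0 c4504 (by decide +kernel)) (aC (chk_sound smok0 c4505 (by decide +kernel)) (aC (chk_sound smok0 c4506 (by decide +kernel)) (aC (chk_sound smok0 c4507 (by decide +kernel)) (aC (chk_sound smok0 c4508 (by decide +kernel)) (aC (chk_sound smok0 c4509 (by decide +kernel)) aN)))))))))))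
theorem n482 : Rf E0 xe14 [980, 1231, 1136, 1053] :=
  node_sound smok0 (q := 0) (ch := [24, 23, 20, 17, 11, 10, 9, 7, 6, 4, 3]) (by decide +kernel) (by decide +kernel)
    (aC (chk_sound smok0 c4510 (by decide +kernel)) (aC (chk_sound smok0 c4511 (by decide +kernel)) (aC (chk_sound smok0 c4512 (by decide +kernel)) (aC (chk_sound smok0 c4513 (by decide +kernel)) (aC (chk_sound smok0 c4514 (by decide +kernel)) (aC (chk_sound smok0 c4515 (by decide +kernel)) (aC (chk_sound smok0 c4516 (by decide +kernel)) (aC n481 (aC (chk_sound smok0 c4517 (by decide +kernel)) (aC (chk_sound smok0 c4518 (by decide +kernel)) (aC (chk_sound smok0 c4519 (by decide +kernel)) aN)))))))))))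
theorem n483 : Rf E0 xe14 [26, 979, 1231, 1136, 1053] :=
  node_sound smok0 (q := 1) (ch := [105, 101, 100, 99, 98, 95, 94, 93, 92, 91, 82]) (by decide +kernel) (by decide +kernel)
    (aC (chk_sound smok0 c4520 (by decide +kernel)) (aC (chk_sound smok0 c4521 (by decide +kernel)) (aC (chk_sound smok0 c4522 (by decide +kernel)) (aC (chk_sound smok0 c4523 (by decide +kernel)) (aC (chk_sound smok0 c4524 (by decide +kernel)) (aC (chk_sound smok0 c4525 (by decide +kernel)) (aC (chk_sound smok0 c4526 (by decide +kernel)) (aC (chk_sound smok0 c4527 (by decide +kernel)) (aC (chk_sound smok0 c4528 (by decide +kernel)) (aC (chk_sound smok0 c4529 (by decide +kernel)) (aC (chk_sound smok0 c4530 (by decide +kernel)) aN)))))))))))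
theorem n484 : Rf E0 xe14 [979, 1231, 1136, 1053] :=
  node_sound smok0 (q := 0) (ch := [26, 24, 23, 20, 19, 17, 10, 9, 6, 3]) (by decide +kernel) (by decide +kernel)
    (aC n483 (aC (chk_sound smok0 c4531 (by decide +kernel)) (aC (chk_sound smok0 c4532 (by decide +kernel)) (aC (chk_sound smok0 c4533 (by decide +kernel)) (aC (chk_sound smok0 c4534 (by decide +kernel)) (aC (chk_sound smok0 c4535 (by decide +kernel)) (aC (chk_sound smok0 c4536 (by decide +kernel)) (aC (chk_sound smok0 c4537 (by decide +kernel)) (aC (chk_sound smok0 c4538 (by decide +kernel)) (aC (chk_sound smok0 c4539 (by decide +kernel)) aN))))))))))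
theorem n485 : Rf E0 xe14 [26, 978, 1231, 1136, 1053] :=
  node_sound smok0 (q := 1) (ch := [105, 101, 100, 99, 98, 95, 94, 93, 92, 91, 88, 82]) (by decide +kernel) (by decide +kernel)
    (aC (chk_sound smok0 c4540 (by decide +kernel)) (aC (chk_sound smok0 c4541 (by decide +kernel)) (aC (chk_sound smok0 c4542 (by decide +kernel)) (aC (chk_sound smok0 c4543 (by decide +kernel)) (aC (chk_sound smok0 c4544 (by decide +kernel)) (aC (chk_sound smok0 c4545 (by decide +kernel)) (aC (chk_sound smok0 c4546 (by decide +kernel)) (aC (chk_sound smok0 c4547 (by decide +kernel)) (aC (chk_sound smok0 c4548 (by decide +kernel)) (aC (chk_sound smok0 c4549 (by decide +kernel)) (aC (chk_sound smok0 c4550 (by decide +kernel)) (aC (chk_sound smok0 c4551 (by decide +kernel)) aN))))))))))))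
theorem n486 : Rf E0 xe14 [23, 978, 1231, 1136, 1053] :=
  node_sound smok0 (q := 11) (ch := [913, 912, 911, 910, 909, 908, 906, 905, 899, 892]) (by decide +kernel) (by decide +kernel)
    (aC (chk_sound smok0 c4552 (by decide +kernel)) (aC (chk_sound smok0 c4553 (by decide +kernel)) (aC (chk_sound smok0 c4554 (by decide +kernel)) (aC (chk_sound smok0 c4555 (by decide +kernel)) (aC (chk_sound smok0 c4556 (by decide +kernel)) (aC (chk_sound smok0 c4557 (by decide +kernel)) (aC (chk_sound smok0 c4558 (by decide +kernel)) (aC (chk_sound smok0 c4559 (by decide +kernel)) (aC (chk_sound smok0 c4560 (by decide +kernel)) (aC (chk_sound smok0 c4561 (by decide +kernel)) aN))))))))))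
theorem n487 : Rf E0 xe14 [20, 978, 1231, 1136, 1053] :=
  node_sound smok0 (q := 1) (ch := [107, 106, 105, 99, 98, 95, 94, 88, 86, 85, 82]) (by decide +kernel) (by decide +kernel)
    (aC (chk_sound smok0 c4562 (by decide +kernel)) (aC (chk_sound smok0 c4563 (by decide +kernel)) (aC (chk_sound smok0 c4564 (by decide +kernel)) (aC (chk_sound smok0 c4565 (by decide +kernel)) (aC (chk_sound smok0 c4566 (by decide +kernel)) (aC (chk_sound smok0 c4567 (by decide +kernel)) (aC (chk_sound smok0 c4568 (by decide +kernel)) (aC (chk_sound smok0 c4569 (by decide +kernel)) (aC (chk_sound smok0 c4570 (by decide +kernel)) (aC (chk_sound smok0 c4571 (by decide +kernel)) (aC (chk_sound smok0 c4572 (by decide +kernel)) aN)))))))))))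
theorem n488 : Rf E0 xe14 [12, 978, 1231, 1136, 1053] :=
  node_sound smok0 (q := 1) (ch := [107, 106, 105, 98, 95, 91, 88, 86, 85, 82]) (by decide +kernel) (by decide +kernel)
    (aC (chk_sound smok0 c4573 (by decide +kernel)) (aC (chk_sound smok0 c4574 (by decide +kernel)) (aC (chk_sound smok0 c4575 (by decide +kernel)) (aC (chk_sound smok0 c4576 (by decide +kernel)) (aC (chk_sound smok0 c4577 (by decide +kernel)) (aC (chk_sound smok0 c4578 (by decide +kernel)) (aC (chk_sound smok0 c4579 (by decide +kernel)) (aC (chk_sound smok0 c4580 (by decide +kernel)) (aC (chk_sound smok0 c4581 (by decide +kernel)) (aC (chk_sound smok0 c4582 (by decide +kernel)) aN))))))))))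
theorem n489 : Rf E0 xe14 [10, 978, 1231, 1136, 1053] :=
  node_sound smok0 (q := 11) (ch := [914, 913, 912, 911, 910, 909, 908, 906, 905, 899, 892]) (by decide +kernel) (by decide +kernel)
    (aC (chk_sound smok0 c4583 (by decide +kernel)) (aC (chk_sound smok0 c4584 (by decide +kernel)) (aC (chk_sound smok0 c4585 (by decide +kernel)) (aC (chk_sound smok0 c4586 (by decide +kernel)) (aC (chk_sound smok0 c4587 (by decide +kernel)) (aC (chk_sound smok0 c4588 (by decide +kernel)) (aC (chk_sound smok0 c4589 (by decide +kernel)) (aC (chk_sound smok0 c4590 (by decide +kernel)) (aC (chk_sound smok0 c4591 (by decide +kernel)) (aC (chk_sound smok0 c4592 (by decide +kernel)) (aC (chk_sound smok0 c4593 (by decide +kernel)) aN)))))))))))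
theorem n490 : Rf E0 xe14 [9, 978, 1231, 1136, 1053] :=
  node_sound smok0 (q := 11) (ch := [914, 913, 912, 911, 910, 909, 908, 906, 905, 899, 895]) (by decide +kernel) (by decide +kernel)
    (aC (chk_sound smok0 c4594 (by decide +kernel)) (aC (chk_sound smok0 c4595 (by decide +kernel)) (aC (chk_sound smok0 c4596 (by decide +kernel)) (aC (chk_sound smok0 c4597 (by decide +kernel)) (aC (chk_sound smok0 c4598 (by decide +kernel)) (aC (chk_sound smok0 c4599 (by decide +kernel)) (aC (chk_sound smok0 c4600 (by decide +kernel)) (aC (chk_sound smok0 c4601 (by decide +kernel)) (aC (chk_sound smok0 c4602 (by decide +kernel)) (aC (chk_sound smok0 c4603 (by decide +kernel)) (aC (chk_sound smok0 c4604 (by decide +kernel)) aN)))))))))))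
theorem n491 : Rf E0 xe14 [7, 978, 1231, 1136, 1053] :=
  node_sound smok0 (q := 52) (ch := [2131, 2050, 1969, 1888, 1807, 1645, 835, 754, 511, 430]) (by decide +kernel) (by decide +kernel)
    (aC (chk_sound smok0 c4605 (by decide +kernel)) (aC (chk_sound smok0 c4606 (by decide +kernel)) (aC (chk_sound smok0 c4607 (by decide +kernel)) (aC (chk_sound smok0 c4608 (by decide +kernel)) (aC (chk_sound smok0 c4609 (by decide +kernel)) (aC (chk_sound smok0 c4610 (by decide +kernel)) (aC (chk_sound smok0 c4611 (by decide +kernel)) (aC (chk_sound smok0 c4612 (by decide +kernel)) (aC (chk_sound smok0 c4613 (by decide +kernel)) (aC (chk_sound smok0 c4614 (by decide +kernel)) aN))))))))))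
theorem n492 : Rf E0 xe14 [5, 978, 1231, 1136, 1053] :=
  node_sound smok0 (q := 11) (ch := [914, 910, 909, 908, 906, 905, 899, 895, 894, 892]) (by decide +kernel) (by decide +kernel)
    (aC (chk_sound smok0 c4615 (by decide +kernel)) (aC (chk_sound smok0 c4616 (by decide +kernel)) (aC (chk_sound smok0 c4617 (by decide +kernel)) (aC (chk_sound smok0 c4618 (by decide +kernel)) (aC (chk_sound smok0 c4619 (by decide +kernel)) (aC (chk_sound smok0 c4620 (by decide +kernel)) (aC (chk_sound smok0 c4621 (by decide +kernel)) (aC (chk_sound smok0 c4622 (by decide +kernel)) (aC (chk_sound smok0 c4623 (by decide +kernel)) (aC (chk_sound smok0 c4624 (by decide +kernel)) aN))))))))))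
theorem n493 : Rf E0 xe14 [3, 978, 1231, 1136, 1053] :=
  node_sound smok0 (q := 11) (ch := [914, 913, 912, 911, 910, 906, 905, 899, 895, 892]) (by decide +kernel) (by decide +kernel)
    (aC (chk_sound smok0 c4625 (by decide +kernel)) (aC (chk_sound smok0 c4626 (by decide +kernel)) (aC (chk_sound smok0 c4627 (by decide +kernel)) (aC (chk_sound smok0 c4628 (by decide +kernel)) (aC (chk_sound smok0 c4629 (by decide +kernel)) (aC (chk_sound smok0 c4630 (by decide +kernel)) (aC (chk_sound smok0 c4631 (by decide +kernel)) (aC (chk_sound smok0 c4632 (by decide +kernel)) (aC (chk_sound smok0 c4633 (by decide +kernel)) (aC (chk_sound smok0 c4634 (by decide +kernel)) aN))))))))))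
theorem n494 : Rf E0 xe14 [978, 1231, 1136, 1053] :=
  node_sound smok0 (q := 0) (ch := [26, 23, 20, 19, 12, 10, 9, 7, 5, 3]) (by decide +kernel) (by decide +kernel)
    (aC n485 (aC n486 (aC n487 (aC (chk_sound smok0 c4635 (by decide +kernel)) (aC n488 (aC n489 (aC n490 (aC n491 (aC n492 (aC n493 aN))))))))))
theorem n495 : Rf E0 xe14 [26, 977, 1231, 1136, 1053] :=
  node_sound smok0 (q := 1) (ch := [105, 101, 100, 99, 98, 95, 94, 93, 92, 91, 88, 82]) (by decide +kernel) (by decide +kernel)
    (aC (chk_sound smok0 c4636 (by decide +kernel)) (aC (chk_sound smok0 c4637 (by decide +kernel)) (aC (chk_sound smok0 c4638 (by decide +kernel)) (aC (chk_sound smok0 c4639 (by decide +kernel)) (aC (chk_sound smok0 c4640 (by decide +kernel)) (aC (chk_sound smok0 c4641 (by decide +kernel)) (aC (chk_sound smok0 c4642 (by decide +kernel)) (aC (chk_sound smok0 c4643 (by decide +kernel)) (aC (chk_sound smok0 c4644 (by decide +kernel)) (aC (chk_sound smok0 c4645 (by decide +kernel)) (aC (chk_sound smok0 c4646 (by decide +kernel)) (aC (chk_sound smok0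 c4647 (by decide +kernel)) aN))))))))))))
theorem n496 : Rf E0 xe14 [25, 977, 1231, 1136, 1053] :=
  node_sound smok0 (q := 1) (ch := [101, 100, 99, 98, 95, 94, 93, 92, 91, 85, 82]) (by decide +kernel) (by decide +kernel)
    (aC (chk_sound smok0 c4648 (by decide +kernel)) (aC (chk_sound smok0 c4649 (by decide +kernel)) (aC (chk_sound smok0 c4650 (by decide +kernel)) (aC (chk_sound smok0 c4651 (by decide +kernel)) (aC (chk_sound smok0 c4652 (by decide +kernel)) (aC (chk_sound smok0 c4653 (by decide +kernel)) (aC (chk_sound smok0 c4654 (by decide +kernel)) (aC (chk_sound smok0 c4655 (by decide +kernel)) (aC (chk_sound smok0 c4656 (by decide +kernel)) (aC (chk_sound smok0 c4657 (by decide +kernel)) (aC (chk_sound smok0 c4658 (by decide +kernel)) aN)))))))))))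
theorem n497 : Rf E0 xe14 [23, 977, 1231, 1136, 1053] :=
  node_sound smok0 (q := 11) (ch := [913, 912, 911, 910, 909, 908, 906, 905, 904, 892]) (by decide +kernel) (by decide +kernel)
    (aC (chk_sound smok0 c4659 (by decide +kernel)) (aC (chk_sound smok0 c4660 (by decide +kernel)) (aC (chk_sound smok0 c4661 (by decide +kernel)) (aC (chk_sound smok0 c4662 (by decide +kernel)) (aC (chk_sound smok0 c4663 (by decide +kernel)) (aC (chk_sound smok0 c4664 (by decide +kernel)) (aC (chk_sound smok0 c4665 (by decide +kernel)) (aC (chk_sound smok0 c4666 (by decide +kernel)) (aC (chk_sound smok0 c4667 (by decide +kernel)) (aC (chk_sound smok0 c4668 (by decide +kernel)) aN))))))))))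
theorem n498 : Rf E0 xe14 [20, 977, 1231, 1136, 1053] :=
  node_sound smok0 (q := 11) (ch := [913, 912, 910, 909, 908, 906, 905, 904, 894, 892]) (by decide +kernel) (by decide +kernel)
    (aC (chk_sound smok0 c4669 (by decide +kernel)) (aC (chk_sound smok0 c4670 (by decide +kernel)) (aC (chk_sound smok0 c4671 (by decide +kernel)) (aC (chk_sound smok0 c4672 (by decide +kernel)) (aC (chk_sound smok0 c4673 (by decide +kernel)) (aC (chk_sound smok0 c4674 (by decide +kernel)) (aC (chk_sound smok0 c4675 (by decide +kernel)) (aC (chk_sound smok0 c4676 (by decide +kernel)) (aC (chk_sound smok0 c4677 (by decide +kernel)) (aC (chk_sound smok0 c4678 (by decide +kernel)) aN))))))))))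
theorem n499 : Rf E0 xe14 [12, 977, 1231, 1136, 1053] :=
  node_sound smok0 (q := 1) (ch := [107, 106, 105, 98, 95, 91, 88, 87, 85, 82]) (by decide +kernel) (by decide +kernel)
    (aC (chk_sound smok0 c4679 (by decide +kernel)) (aC (chk_sound smok0 c4680 (by decide +kernel)) (aC (chk_sound smok0 c4681 (by decide +kernel)) (aC (chk_sound smok0 c4682 (by decide +kernel)) (aC (chk_sound smok0 c4683 (by decide +kernel)) (aC (chk_sound smok0 c4684 (by decide +kernel)) (aC (chk_sound smok0 c4685 (by decide +kernel)) (aC (chk_sound smok0 c4686 (by decide +kernel)) (aC (chk_sound smok0 c4687 (by decide +kernel)) (aC (chk_sound smok0 c4688 (by decide +kernel)) aN))))))))))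
theorem n500 : Rf E0 xe14 [9, 977, 1231, 1136, 1053] :=
  node_sound smok0 (q := 11) (ch := [914, 913, 912, 911, 910, 909, 908, 906, 905, 904]) (by decide +kernel) (by decide +kernel)
    (aC (chk_sound smok0 c4689 (by decide +kernel)) (aC (chk_sound smok0 c4690 (by decide +kernel)) (aC (chk_sound smok0 c4691 (by decide +kernel)) (aC (chk_sound smok0 c4692 (by decide +kernel)) (aC (chk_sound smok0 c4693 (by decide +kernel)) (aC (chk_sound smok0 c4694 (by decide +kernel)) (aC (chk_sound smok0 c4695 (by decide +kernel)) (aC (chk_sound smok0 c4696 (by decide +kernel)) (aC (chk_sound smok0 c4697 (by decide +kernel)) (aC (chk_sound smok0 c4698 (by decide +kernel)) aN))))))))))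
theorem n501 : Rf E0 xe14 [977, 1231, 1136, 1053] :=
  node_sound smok0 (q := 0) (ch := [26, 25, 23, 20, 19, 18, 12, 9, 7, 6]) (by decide +kernel) (by decide +kernel)
    (aC n495 (aC n496 (aC n497 (aC n498 (aC (chk_sound smok0 c4699 (by decide +kernel)) (aC (chk_sound smok0 c4700 (by decide +kernel)) (aC n499 (aC n500 (aC (chk_sound smok0 c4701 (by decide +kernel)) (aC (chk_sound smok0 c4702 (by decide +kernel)) aN))))))))))
theorem n502 : Rf E0 xe14 [26, 976, 1231, 1136, 1053] :=
  node_sound smok0 (q := 10) (ch := [835, 834, 833, 832, 831, 827, 825, 824, 823, 813, 811]) (by decide +kernel) (by decide +kernel)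
    (aC (chk_sound smok0 c4703 (by decide +kernel)) (aC (chk_sound smok0 c4704 (by decide +kernel)) (aC (chk_sound smok0 c4705 (by decide +kernel)) (aC (chk_sound smok0 c4706 (by decide +kernel)) (aC (chk_sound smok0 c4707 (by decide +kernel)) (aC (chk_sound smok0 c4708 (by decide +kernel)) (aC (chk_sound smok0 c4709 (by decide +kernel)) (aC (chk_sound smok0 c4710 (by decide +kernel)) (aC (chk_sound smok0 c4711 (by decide +kernel)) (aC (chk_sound smok0 c4712 (by decide +kernel)) (aC (chk_sound smok0 c4713 (by decide +kernel)) aN)))))))))))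
theorem n503 : Rf E0 xe14 [25, 976, 1231, 1136, 1053] :=
  node_sound smok0 (q := 1) (ch := [101, 100, 99, 98, 95, 94, 93, 92, 91, 82]) (by decide +kernel) (by decide +kernel)
    (aC (chk_sound smok0 c4714 (by decide +kernel)) (aC (chk_sound smok0 c4715 (by decide +kernel)) (aC (chk_sound smok0 c4716 (by decide +kernel)) (aC (chk_sound smok0 c4717 (by decide +kernel)) (aC (chk_sound smok0 c4718 (by decide +kernel)) (aC (chk_sound smok0 c4719 (by decide +kernel)) (aC (chk_sound smok0 c4720 (by decide +kernel)) (aC (chk_sound smok0 c4721 (by decide +kernel)) (aC (chk_sound smok0 c4722 (by decide +kernel)) (aC (chk_sound smok0 c4723 (by decide +kernel)) aN))))))))))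
theorem n504 : Rf E0 xe14 [12, 976, 1231, 1136, 1053] :=
  node_sound smok0 (q := 1) (ch := [107, 106, 105, 98, 95, 91, 88, 87, 86, 82]) (by decide +kernel) (by decide +kernel)
    (aC (chk_sound smok0 c4724 (by decide +kernel)) (aC (chk_sound smok0 c4725 (by decide +kernel)) (aC (chk_sound smok0 c4726 (by decide +kernel)) (aC (chk_sound smok0 c4727 (by decide +kernel)) (aC (chk_sound smok0 c4728 (by decide +kernel)) (aC (chk_sound smok0 c4729 (by decide +kernel)) (aC (chk_sound smok0 c4730 (by decide +kernel)) (aC (chk_sound smok0 c4731 (by decide +kernel)) (aC (chk_sound smok0 c4732 (by decide +kernel)) (aC (chk_sound smok0 c4733 (by decide +kernel)) aN))))))))))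
theorem n505 : Rf E0 xe14 [11, 976, 1231, 1136, 1053] :=
  node_sound smok0 (q := 1) (ch := [107, 106, 105, 99, 98, 95, 94, 88, 87, 86, 82]) (by decide +kernel) (by decide +kernel)
    (aC (chk_sound smok0 c4734 (by decide +kernel)) (aC (chk_sound smok0 c4735 (by decide +kernel)) (aC (chk_sound smok0 c4736 (by decide +kernel)) (aC (chk_sound smok0 c4737 (by decide +kernel)) (aC (chk_sound smok0 c4738 (by decide +kernel)) (aC (chk_sound smok0 c4739 (by decide +kernel)) (aC (chk_sound smok0 c4740 (by decide +kernel)) (aC (chk_sound smok0 c4741 (by decide +kernel)) (aC (chk_sound smok0 c4742 (by decide +kernel)) (aC (chk_sound smok0 c4743 (by decide +kernel)) (aC (chk_sound smok0 c4744 (by decide +kernel)) aN)))))))))))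
theorem n506 : Rf E0 xe14 [9, 976, 1231, 1136, 1053] :=
  node_sound smok0 (q := 11) (ch := [914, 913, 912, 911, 910, 909, 908, 906, 905, 904]) (by decide +kernel) (by decide +kernel)
    (aC (chk_sound smok0 c4745 (by decide +kernel)) (aC (chk_sound smok0 c4746 (by decide +kernel)) (aC (chk_sound smok0 c4747 (by decide +kernel)) (aC (chk_sound smok0 c4748 (by decide +kernel)) (aC (chk_sound smok0 c4749 (by decide +kernel)) (aC (chk_sound smok0 c4750 (by decide +kernel)) (aC (chk_sound smok0 c4751 (by decide +kernel)) (aC (chk_sound smok0 c4752 (by decide +kernel)) (aC (chk_sound smok0 c4753 (by decide +kernel)) (aC (chk_sound smok0 c4754 (by decide +kernel)) aN))))))))))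
theorem n507 : Rf E0 xe14 [7, 976, 1231, 1136, 1053] :=
  node_sound smok0 (q := 11) (ch := [914, 913, 912, 911, 910, 909, 908, 906, 905, 904, 892]) (by decide +kernel) (by decide +kernel)
    (aC (chk_sound smok0 c4755 (by decide +kernel)) (aC (chk_sound smok0 c4756 (by decide +kernel)) (aC (chk_sound smok0 c4757 (by decide +kernel)) (aC (chk_sound smok0 c4758 (by decide +kernel)) (aC (chk_sound smok0 c4759 (by decide +kernel)) (aC (chk_sound smok0 c4760 (by decide +kernel)) (aC (chk_sound smok0 c4761 (by decide +kernel)) (aC (chk_sound smok0 c4762 (by decide +kernel)) (aC (chk_sound smok0 c4763 (by decide +kernel)) (aC (chk_sound smok0 c4764 (by decide +kernel)) (aC (chk_sound smok0 c4765 (by decide +kernel)) aN)))))))))))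
theorem n508 : Rf E0 xe14 [976, 1231, 1136, 1053] :=
  node_sound smok0 (q := 0) (ch := [26, 25, 20, 19, 18, 12, 11, 9, 7, 6, 5]) (by decide +kernel) (by decide +kernel)
    (aC n502 (aC n503 (aC (chk_sound smok0 c4766 (by decide +kernel)) (aC (chk_sound smok0 c4767 (by decide +kernel)) (aC (chk_sound smok0 c4768 (by decide +kernel)) (aC n504 (aC n505 (aC n506 (aC n507 (aC (chk_sound smok0 c4769 (by decide +kernel)) (aC (chk_sound smok0 c4770 (by decide +kernel)) aN)))))))))))
theorem n509 : Rf E0 xe14 [26, 975, 1231, 1136, 1053] :=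
  node_sound smok0 (q := 33) (ch := [2112, 1788, 1707, 1626, 1545, 735, 654, 573, 492, 411]) (by decide +kernel) (by decide +kernel)
    (aC (chk_sound smok0 c4771 (by decide +kernel)) (aC (chk_sound smok0 c4772 (by decide +kernel)) (aC (chk_sound smok0 c4773 (by decide +kernel)) (aC (chk_sound smok0 c4774 (by decide +kernel)) (aC (chk_sound smok0 c4775 (by decide +kernel)) (aC (chk_sound smok0 c4776 (by decide +kernel)) (aC (chk_sound smok0 c4777 (by decide +kernel)) (aC (chk_sound smok0 c4778 (by decide +kernel)) (aC (chk_sound smok0 c4779 (by decide +kernel)) (aC (chk_sound smok0 c4780 (by decide +kernel)) aN))))))))))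
theorem n510 : Rf E0 xe14 [25, 975, 1231, 1136, 1053] :=
  node_sound smok0 (q := 34) (ch := [2113, 1789, 1627, 1546, 1465, 1384, 1303, 736, 493, 412]) (by decide +kernel) (by decide +kernel)
    (aC (chk_sound smok0 c4781 (by decide +kernel)) (aC (chk_sound smok0 c4782 (by decide +kernel)) (aC (chk_sound smok0 c4783 (by decide +kernel)) (aC (chk_sound smok0 c4784 (by decide +kernel)) (aC (chk_sound smok0 c4785 (by decide +kernel)) (aC (chk_sound smok0 c4786 (by decide +kernel)) (aC (chk_sound smok0 c4787 (by decide +kernel)) (aC (chk_sound smok0 c4788 (by decide +kernel)) (aC (chk_sound smok0 c4789 (by decide +kernel)) (aC (chk_sound smok0 c4790 (by decide +kernel)) aN))))))))))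
theorem n511 : Rf E0 xe14 [24, 975, 1231, 1136, 1053] :=
  node_sound smok0 (q := 33) (ch := [2112, 2031, 1950, 1869, 1788, 1626, 1545, 735, 492, 411, 330, 249]) (by decide +kernel) (by decide +kernel)
    (aC (chk_sound smok0 c4791 (by decide +kernel)) (aC (chk_sound smok0 c4792 (by decide +kernel)) (aC (chk_sound smok0 c4793 (by decide +kernel)) (aC (chk_sound smok0 c4794 (by decide +kernel)) (aC (chk_sound smok0 c4795 (by decide +kernel)) (aC (chk_sound smok0 c4796 (by decide +kernel)) (aC (chk_sound smok0 c4797 (by decide +kernel)) (aC (chk_sound smok0 c4798 (by decide +kernel)) (aC (chk_sound smok0 c4799 (by decide +kernel)) (aC (chk_sound smok0 c4800 (by decide +kernel)) (aC (chk_sound smok0 c4801 (by decide +kernel)) (aC (chk_sound smok0 c4802 (by decide +kernel)) aN))))))))))))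
theorem n512 : Rf E0 xe14 [20, 975, 1231, 1136, 1053] :=
  node_sound smok0 (q := 38) (ch := [2117, 2036, 1955, 1874, 1793, 1469, 1388, 740, 659, 416]) (by decide +kernel) (by decide +kernel)
    (aC (chk_sound smok0 c4803 (by decide +kernel)) (aC (chk_sound smok0 c4804 (by decide +kernel)) (aC (chk_sound smok0 c4805 (by decide +kernel)) (aC (chk_sound smok0 c4806 (by decide +kernel)) (aC (chk_sound smok0 c4807 (by decide +kernel)) (aC (chk_sound smok0 c4808 (by decide +kernel)) (aC (chk_sound smok0 c4809 (by decide +kernel)) (aC (chk_sound smok0 c4810 (by decide +kernel)) (aC (chk_sound smok0 c4811 (by decide +kernel)) (aC (chk_sound smok0 c4812 (by decide +kernel)) aN))))))))))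
theorem n513 : Rf E0 xe14 [18, 975, 1231, 1136, 1053] :=
  node_sound smok0 (q := 11) (ch := [914, 913, 908, 906, 905, 904, 900, 899, 892]) (by decide +kernel) (by decide +kernel)
    (aC (chk_sound smok0 c4813 (by decide +kernel)) (aC (chk_sound smok0 c4814 (by decide +kernel)) (aC (chk_sound smok0 c4815 (by decide +kernel)) (aC (chk_sound smok0 c4816 (by decide +kernel)) (aC (chk_sound smok0 c4817 (by decide +kernel)) (aC (chk_sound smok0 c4818 (by decide +kernel)) (aC (chk_sound smok0 c4819 (by decide +kernel)) (aC (chk_sound smok0 c4820 (by decide +kernel)) (aC (chk_sound smok0 c4821 (by decide +kernel)) aN)))))))))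
theorem n514 : Rf E0 xe14 [17, 975, 1231, 1136, 1053] :=
  node_sound smok0 (q := 11) (ch := [914, 913, 912, 911, 906, 905, 904, 900, 899, 892]) (by decide +kernel) (by decide +kernel)
    (aC (chk_sound smok0 c4822 (by decide +kernel)) (aC (chk_sound smok0 c4823 (by decide +kernel)) (aC (chk_sound smok0 c4824 (by decide +kernel)) (aC (chk_sound smok0 c4825 (by decide +kernel)) (aC (chk_sound smok0 c4826 (by decide +kernel)) (aC (chk_sound smok0 c4827 (by decide +kernel)) (aC (chk_sound smok0 c4828 (by decide +kernel)) (aC (chk_sound smok0 c4829 (by decide +kernel)) (aC (chk_sound smok0 c4830 (by decide +kernel)) (aC (chk_sound smok0 c4831 (by decide +kernel)) aN))))))))))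
theorem n515 : Rf E0 xe14 [12, 975, 1231, 1136, 1053] :=
  node_sound smok0 (q := 48) (ch := [2127, 1803, 1479, 1398, 912, 831, 750, 669, 426]) (by decide +kernel) (by decide +kernel)
    (aC (chk_sound smok0 c4832 (by decide +kernel)) (aC (chk_sound smok0 c4833 (by decide +kernel)) (aC (chk_sound smok0 c4834 (by decide +kernel)) (aC (chk_sound smok0 c4835 (by decide +kernel)) (aC (chk_sound smok0 c4836 (by decide +kernel)) (aC (chk_sound smok0 c4837 (by decide +kernel)) (aC (chk_sound smok0 c4838 (by decide +kernel)) (aC (chk_sound smok0 c4839 (by decide +kernel)) (aC (chk_sound smok0 c4840 (by decide +kernel)) aN)))))))))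
theorem n516 : Rf E0 xe14 [11, 975, 1231, 1136, 1053] :=
  node_sound smok0 (q := 1) (ch := [107, 106, 105, 99, 98, 95, 94, 88, 87, 86, 85, 82]) (by decide +kernel) (by decide +kernel)
    (aC (chk_sound smok0 c4841 (by decide +kernel)) (aC (chk_sound smok0 c4842 (by decide +kernel)) (aC (chk_sound smok0 c4843 (by decide +kernel)) (aC (chk_sound smok0 c4844 (by decide +kernel)) (aC (chk_sound smok0 c4845 (by decide +kernel)) (aC (chk_sound smok0 c4846 (by decide +kernel)) (aC (chk_sound smok0 c4847 (by decide +kernel)) (aC (chk_sound smok0 c4848 (by decide +kernel)) (aC (chk_sound smok0 c4849 (by decide +kernel)) (aC (chk_sound smok0 c4850 (by decide +kernel)) (aC (chk_sound smok0 c4851 (by decide +kernel)) (aC (chk_sound smok0 c4852 (by decide +kernel)) aN))))))))))))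
theorem n517 : Rf E0 xe14 [7, 975, 1231, 1136, 1053] :=
  node_sound smok0 (q := 32) (ch := [2111, 2030, 1949, 1868, 1787, 653, 410, 329, 248, 167, 86]) (by decide +kernel) (by decide +kernel)
    (aC (chk_sound smok0 c4853 (by decide +kernel)) (aC (chk_sound smok0 c4854 (by decide +kernel)) (aC (chk_sound smok0 c4855 (by decide +kernel)) (aC (chk_sound smok0 c4856 (by decide +kernel)) (aC (chk_sound smok0 c4857 (by decide +kernel)) (aC (chk_sound smok0 c4858 (by decide +kernel)) (aC (chk_sound smok0 c4859 (by decide +kernel)) (aC (chk_sound smok0 c4860 (by decide +kernel)) (aC (chk_sound smok0 c4861 (by decide +kernel)) (aC (chk_sound smok0 c4862 (by decide +kernel)) (aC (chk_sound smok0 c4863 (by decide +kernel)) aN)))))))))))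
theorem n518 : Rf E0 xe14 [6, 975, 1231, 1136, 1053] :=
  node_sound smok0 (q := 1) (ch := [101, 100, 99, 98, 95, 94, 93, 92, 91, 85, 82]) (by decide +kernel) (by decide +kernel)
    (aC (chk_sound smok0 c4864 (by decide +kernel)) (aC (chk_sound smok0 c4865 (by decide +kernel)) (aC (chk_sound smok0 c4866 (by decide +kernel)) (aC (chk_sound smok0 c4867 (by decide +kernel)) (aC (chk_sound smok0 c4868 (by decide +kernel)) (aC (chk_sound smok0 c4869 (by decide +kernel)) (aC (chk_sound smok0 c4870 (by decide +kernel)) (aC (chk_sound smok0 c4871 (by decide +kernel)) (aC (chk_sound smok0 c4872 (by decide +kernel)) (aC (chk_sound smok0 c4873 (by decide +kernel)) (aC (chk_sound smok0 c4874 (by decide +kernel)) aN)))))))))))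
theorem n519 : Rf E0 xe14 [5, 975, 1231, 1136, 1053] :=
  node_sound smok0 (q := 31) (ch := [2029, 1948, 1867, 1786, 652, 409, 328, 247, 166]) (by decide +kernel) (by decide +kernel)
    (aC (chk_sound smok0 c4875 (by decide +kernel)) (aC (chk_sound smok0 c4876 (by decide +kernel)) (aC (chk_sound smok0 c4877 (by decide +kernel)) (aC (chk_sound smok0 c4878 (by decide +kernel)) (aC (chk_sound smok0 c4879 (by decide +kernel)) (aC (chk_sound smok0 c4880 (by decide +kernel)) (aC (chk_sound smok0 c4881 (by decide +kernel)) (aC (chk_sound smok0 c4882 (by decide +kernel)) (aC (chk_sound smok0 c4883 (by decide +kernel)) aN)))))))))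
theorem n520 : Rf E0 xe14 [4, 975, 1231, 1136, 1053] :=
  node_sound smok0 (q := 11) (ch := [914, 913, 912, 908, 906, 905, 904, 900, 899, 892]) (by decide +kernel) (by decide +kernel)
    (aC (chk_sound smok0 c4884 (by decide +kernel)) (aC (chk_sound smok0 c4885 (by decide +kernel)) (aC (chk_sound smok0 c4886 (by decide +kernel)) (aC (chk_sound smok0 c4887 (by decide +kernel)) (aC (chk_sound smok0 c4888 (by decide +kernel)) (aC (chk_sound smok0 c4889 (by decide +kernel)) (aC (chk_sound smok0 c4890 (by decide +kernel)) (aC (chk_sound smok0 c4891 (by decide +kernel)) (aC (chk_sound smok0 c4892 (by decide +kernel)) (aC (chk_sound smok0 c4893 (by decide +kernel)) aN))))))))))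
theorem n521 : Rf E0 xe14 [975, 1231, 1136, 1053] :=
  node_sound smok0 (q := 0) (ch := [26, 25, 24, 20, 19, 18, 17, 12, 11, 7, 6, 5, 4]) (by decide +kernel) (by decide +kernel)
    (aC n509 (aC n510 (aC n511 (aC n512 (aC (chk_sound smok0 c4894 (by decide +kernel)) (aC n513 (aC n514 (aC n515 (aC n516 (aC n517 (aC n518 (aC n519 (aC n520 aN)))))))))))))
theorem n522 : Rf E0 xe14 [1231, 1136, 1053] :=
  node_sound smok0 (q := 12) (ch := [985, 981, 980, 979, 978, 977, 976, 975]) (by decide +kernel) (by decide +kernel)
    (aC n472 (aC n480 (aC n482 (aC n484 (aC n494 (aC n501 (aC n508 (aC n521 aN))))))))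
theorem R0_14 : Rf E0 xe14 [1231, 1136, 1053] := n522
theorem n523 : Rf E0 xe15 [984, 1232, 1136, 1053] :=
  node_sound smok0 (q := 0) (ch := [26, 25, 24, 23, 19, 18, 11, 10, 6, 5, 4, 3]) (by decide +kernel) (by decide +kernel)
    (aC (chk_sound smok0 c4895 (by decide +kernel)) (aC (chk_sound smok0 c4896 (by decide +kernel)) (aC (chk_sound smok0 c4897 (by decide +kernel)) (aC (chk_sound smok0 c4898 (by decide +kernel)) (aC (chk_sound smok0 c4899 (by decide +kernel)) (aC (chk_sound smok0 c4900 (by decide +kernel)) (aC (chk_sound smok0 c4901 (by decide +kernel)) (aC (chk_sound smok0 c4902 (by decide +kernel)) (aC (chk_sound smok0 c4903 (by decide +kernel)) (aC (chk_sound smok0 c4904 (by decide +kernel)) (aC (chk_sound smok0 c4905 (by decide +kernel)) (aC (chk_sound smok0 c4906 (by decide +kernel)) aN))))))))))))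
theorem n524 : Rf E0 xe15 [980, 1232, 1136, 1053] :=
  node_sound smok0 (q := 0) (ch := [25, 24, 23, 21, 20, 11, 10, 7, 6, 4, 3]) (by decide +kernel) (by decide +kernel)
    (aC (chk_sound smok0 c4907 (by decide +kernel)) (aC (chk_sound smok0 c4908 (by decide +kernel)) (aC (chk_sound smok0 c4909 (by decide +kernel)) (aC (chk_sound smok0 c4910 (by decide +kernel)) (aC (chk_sound smok0 c4911 (by decide +kernel)) (aC (chk_sound smok0 c4912 (by decide +kernel)) (aC (chk_sound smok0 c4913 (by decide +kernel)) (aC (chk_sound smok0 c4914 (by decide +kernel)) (aC (chk_sound smok0 c4915 (by decide +kernel)) (aC (chk_sound smok0 c4916 (by decide +kernel)) (aC (chk_sound smok0 c4917 (by decide +kernel)) aN)))))))))))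
theorem n525 : Rf E0 xe15 [979, 1232, 1136, 1053] :=
  node_sound smok0 (q := 0) (ch := [24, 23, 21, 20, 19, 11, 10, 6, 3]) (by decide +kernel) (by decide +kernel)
    (aC (chk_sound smok0 c4918 (by decide +kernel)) (aC (chk_sound smok0 c4919 (by decide +kernel)) (aC (chk_sound smok0 c4920 (by decide +kernel)) (aC (chk_sound smok0 c4921 (by decide +kernel)) (aC (chk_sound smok0 c4922 (by decide +kernel)) (aC (chk_sound smok0 c4923 (by decide +kernel)) (aC (chk_sound smok0 c4924 (by decide +kernel)) (aC (chk_sound smok0 c4925 (by decide +kernel)) (aC (chk_sound smok0 c4926 (by decide +kernel)) aN)))))))))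
theorem n526 : Rf E0 xe15 [26, 978, 1232, 1136, 1053] :=
  node_sound smok0 (q := 1) (ch := [105, 102, 101, 100, 99, 95, 94, 93, 92, 88, 82]) (by decide +kernel) (by decide +kernel)
    (aC (chk_sound smok0 c4927 (by decide +kernel)) (aC (chk_sound smok0 c4928 (by decide +kernel)) (aC (chk_sound smok0 c4929 (by decide +kernel)) (aC (chk_sound smok0 c4930 (by decide +kernel)) (aC (chk_sound smok0 c4931 (by decide +kernel)) (aC (chk_sound smok0 c4932 (by decide +kernel)) (aC (chk_sound smok0 c4933 (by decide +kernel)) (aC (chk_sound smok0 c4934 (by decide +kernel)) (aC (chk_sound smok0 c4935 (by decide +kernel)) (aC (chk_sound smok0 c4936 (by decide +kernel)) (aC (chk_sound smok0 c4937 (by decide +kernel)) aN)))))))))))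
theorem n527 : Rf E0 xe15 [24, 978, 1232, 1136, 1053] :=
  node_sound smok0 (q := 1) (ch := [107, 102, 101, 100, 99, 95, 94, 93, 92, 86, 82]) (by decide +kernel) (by decide +kernel)
    (aC (chk_sound smok0 c4938 (by decide +kernel)) (aC (chk_sound smok0 c4939 (by decide +kernel)) (aC (chk_sound smok0 c4940 (by decide +kernel)) (aC (chk_sound smok0 c4941 (by decide +kernel)) (aC (chk_sound smok0 c4942 (by decide +kernel)) (aC (chk_sound smok0 c4943 (by decide +kernel)) (aC (chk_sound smok0 c4944 (by decide +kernel)) (aC (chk_sound smok0 c4945 (by decide +kernel)) (aC (chk_sound smok0 c4946 (by decide +kernel)) (aC (chk_sound smok0 c4947 (by decide +kernel)) (aC (chk_sound smok0 c4948 (by decide +kernel)) aN)))))))))))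
theorem n528 : Rf E0 xe15 [23, 978, 1232, 1136, 1053] :=
  node_sound smok0 (q := 16) (ch := [1318, 1317, 1316, 1315, 1311, 1307, 1306, 1305, 1297]) (by decide +kernel) (by decide +kernel)
    (aC (chk_sound smok0 c4949 (by decide +kernel)) (aC (chk_sound smok0 c4950 (by decide +kernel)) (aC (chk_sound smok0 c4951 (by decide +kernel)) (aC (chk_sound smok0 c4952 (by decide +kernel)) (aC (chk_sound smok0 c4953 (by decide +kernel)) (aC (chk_sound smok0 c4954 (by decide +kernel)) (aC (chk_sound smok0 c4955 (by decide +kernel)) (aC (chk_sound smok0 c4956 (by decide +kernel)) (aC (chk_sound smok0 c4957 (by decide +kernel)) aN)))))))))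
theorem n529 : Rf E0 xe15 [21, 978, 1232, 1136, 1053] :=
  node_sound smok0 (q := 16) (ch := [1319, 1318, 1316, 1315, 1311, 1310, 1309, 1308, 1307, 1297]) (by decide +kernel) (by decide +kernel)
    (aC (chk_sound smok0 c4958 (by decide +kernel)) (aC (chk_sound smok0 c4959 (by decide +kernel)) (aC (chk_sound smok0 c4960 (by decide +kernel)) (aC (chk_sound smok0 c4961 (by decide +kernel)) (aC (chk_sound smok0 c4962 (by decide +kernel)) (aC (chk_sound smok0 c4963 (by decide +kernel)) (aC (chk_sound smok0 c4964 (by decide +kernel)) (aC (chk_sound smok0 c4965 (by decide +kernel)) (aC (chk_sound smok0 c4966 (by decide +kernel)) (aC (chk_sound smok0 c4967 (by decide +kernel)) aN))))))))))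
theorem n530 : Rf E0 xe15 [3, 978, 1232, 1136, 1053] :=
  node_sound smok0 (q := 11) (ch := [914, 913, 912, 911, 910, 909, 905, 899, 895, 892]) (by decide +kernel) (by decide +kernel)
    (aC (chk_sound smok0 c4968 (by decide +kernel)) (aC (chk_sound smok0 c4969 (by decide +kernel)) (aC (chk_sound smok0 c4970 (by decide +kernel)) (aC (chk_sound smok0 c4971 (by decide +kernel)) (aC (chk_sound smok0 c4972 (by decide +kernel)) (aC (chk_sound smok0 c4973 (by decide +kernel)) (aC (chk_sound smok0 c4974 (by decide +kernel)) (aC (chk_sound smok0 c4975 (by decide +kernel)) (aC (chk_sound smok0 c4976 (by decide +kernel)) (aC (chk_sound smok0 c4977 (by decide +kernel)) aN))))))))))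
theorem n531 : Rf E0 xe15 [978, 1232, 1136, 1053] :=
  node_sound smok0 (q := 0) (ch := [26, 24, 23, 21, 20, 19, 10, 7, 5, 3]) (by decide +kernel) (by decide +kernel)
    (aC n526 (aC n527 (aC n528 (aC n529 (aC (chk_sound smok0 c4978 (by decide +kernel)) (aC (chk_sound smok0 c4979 (by decide +kernel)) (aC (chk_sound smok0 c4980 (by decide +kernel)) (aC (chk_sound smok0 c4981 (by decide +kernel)) (aC (chk_sound smok0 c4982 (by decide +kernel)) (aC n530 aN))))))))))
theorem n532 : Rf E0 xe15 [977, 1232, 1136, 1053] :=
  node_sound smok0 (q := 0) (ch := [26, 23, 21, 20, 19, 18, 12, 10, 7, 6]) (by decide +kernel) (by decide +kernel)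
    (aC (chk_sound smok0 c4983 (by decide +kernel)) (aC (chk_sound smok0 c4984 (by decide +kernel)) (aC (chk_sound smok0 c4985 (by decide +kernel)) (aC (chk_sound smok0 c4986 (by decide +kernel)) (aC (chk_sound smok0 c4987 (by decide +kernel)) (aC (chk_sound smok0 c4988 (by decide +kernel)) (aC (chk_sound smok0 c4989 (by decide +kernel)) (aC (chk_sound smok0 c4990 (by decide +kernel)) (aC (chk_sound smok0 c4991 (by decide +kernel)) (aC (chk_sound smok0 c4992 (by decide +kernel)) aN))))))))))
theorem n533 : Rf E0 xe15 [976, 1232, 1136, 1053] :=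
  node_sound smok0 (q := 0) (ch := [26, 25, 23, 21, 20, 19, 18, 12, 7, 6, 5]) (by decide +kernel) (by decide +kernel)
    (aC (chk_sound smok0 c4993 (by decide +kernel)) (aC (chk_sound smok0 c4994 (by decide +kernel)) (aC (chk_sound smok0 c4995 (by decide +kernel)) (aC (chk_sound smok0 c4996 (by decide +kernel)) (aC (chk_sound smok0 c4997 (by decide +kernel)) (aC (chk_sound smok0 c4998 (by decide +kernel)) (aC (chk_sound smok0 c4999 (by decide +kernel)) (aC (chk_sound smok0 c5000 (by decide +kernel)) (aC (chk_sound smok0 c5001 (by decide +kernel)) (aC (chk_sound smok0 c5002 (by decide +kernel)) (aC (chk_sound smok0 c5003 (by decide +kernel)) aN)))))))))))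
theorem n534 : Rf E0 xe15 [12, 975, 1232, 1136, 1053] :=
  node_sound smok0 (q := 1) (ch := [107, 106, 105, 102, 95, 88, 87, 86, 82]) (by decide +kernel) (by decide +kernel)
    (aC (chk_sound smok0 c5004 (by decide +kernel)) (aC (chk_sound smok0 c5005 (by decide +kernel)) (aC (chk_sound smok0 c5006 (by decide +kernel)) (aC (chk_sound smok0 c5007 (by decide +kernel)) (aC (chk_sound smok0 c5008 (by decide +kernel)) (aC (chk_sound smok0 c5009 (by decide +kernel)) (aC (chk_sound smok0 c5010 (by decide +kernel)) (aC (chk_sound smok0 c5011 (by decide +kernel)) (aC (chk_sound smok0 c5012 (by decide +kernel)) aN)))))))))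
theorem n535 : Rf E0 xe15 [11, 975, 1232, 1136, 1053] :=
  node_sound smok0 (q := 1) (ch := [107, 106, 105, 99, 95, 94, 88, 87, 86, 82]) (by decide +kernel) (by decide +kernel)
    (aC (chk_sound smok0 c5013 (by decide +kernel)) (aC (chk_sound smok0 c5014 (by decide +kernel)) (aC (chk_sound smok0 c5015 (by decide +kernel)) (aC (chk_sound smok0 c5016 (by decide +kernel)) (aC (chk_sound smok0 c5017 (by decide +kernel)) (aC (chk_sound smok0 c5018 (by decide +kernel)) (aC (chk_sound smok0 c5019 (by decide +kernel)) (aC (chk_sound smok0 c5020 (by decide +kernel)) (aC (chk_sound smok0 c5021 (by decide +kernel)) (aC (chk_sound smok0 c5022 (by decide +kernel)) aN))))))))))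
theorem n536 : Rf E0 xe15 [5, 975, 1232, 1136, 1053] :=
  node_sound smok0 (q := 31) (ch := [2029, 1948, 1867, 1786, 652, 409, 328, 247]) (by decide +kernel) (by decide +kernel)
    (aC (chk_sound smok0 c5023 (by decide +kernel)) (aC (chk_sound smok0 c5024 (by decide +kernel)) (aC (chk_sound smok0 c5025 (by decide +kernel)) (aC (chk_sound smok0 c5026 (by decide +kernel)) (aC (chk_sound smok0 c5027 (by decide +kernel)) (aC (chk_sound smok0 c5028 (by decide +kernel)) (aC (chk_sound smok0 c5029 (by decide +kernel)) (aC (chk_sound smok0 c5030 (by decide +kernel)) aN))))))))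
theorem n537 : Rf E0 xe15 [4, 975, 1232, 1136, 1053] :=
  node_sound smok0 (q := 11) (ch := [914, 913, 912, 911, 907, 906, 905, 904, 903, 899, 892]) (by decide +kernel) (by decide +kernel)
    (aC (chk_sound smok0 c5031 (by decide +kernel)) (aC (chk_sound smok0 c5032 (by decide +kernel)) (aC (chk_sound smok0 c5033 (by decide +kernel)) (aC (chk_sound smok0 c5034 (by decide +kernel)) (aC (chk_sound smok0 c5035 (by decide +kernel)) (aC (chk_sound smok0 c5036 (by decide +kernel)) (aC (chk_sound smok0 c5037 (by decide +kernel)) (aC (chk_sound smok0 c5038 (by decide +kernel)) (aC (chk_sound smok0 c5039 (by decide +kernel)) (aC (chk_sound smok0 c5040 (by decide +kernel)) (aC (chk_sound smok0 c5041 (by decide +kernel)) aN)))))))))))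
theorem n538 : Rf E0 xe15 [975, 1232, 1136, 1053] :=
  node_sound smok0 (q := 0) (ch := [26, 25, 21, 20, 19, 18, 12, 11, 7, 6, 5, 4]) (by decide +kernel) (by decide +kernel)
    (aC (chk_sound smok0 c5042 (by decide +kernel)) (aC (chk_sound smok0 c5043 (by decide +kernel)) (aC (chk_sound smok0 c5044 (by decide +kernel)) (aC (chk_sound smok0 c5045 (by decide +kernel)) (aC (chk_sound smok0 c5046 (by decide +kernel)) (aC (chk_sound smok0 c5047 (by decide +kernel)) (aC n534 (aC n535 (aC (chk_sound smok0 c5048 (by decide +kernel)) (aC (chk_sound smok0 c5049 (by decide +kernel)) (aC n536 (aC n537 aN))))))))))))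
theorem n539 : Rf E0 xe15 [1232, 1136, 1053] :=
  node_sound smok0 (q := 12) (ch := [984, 980, 979, 978, 977, 976, 975]) (by decide +kernel) (by decide +kernel)
    (aC n523 (aC n524 (aC n525 (aC n531 (aC n532 (aC n533 (aC n538 aN)))))))
theorem R0_15 : Rf E0 xe15 [1232, 1136, 1053] := n539

end Pool.Agent.R989.ZP
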