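import Pool.Agent.R989.ZP.Ms
import Pool.Agent.R989.ZP.C00
import Pool.Agent.R989.ZP.C01
import Pool.Agent.R989.ZP.C02
import Pool.Agent.R989.ZP.C03
import Pool.Agent.R989.ZP.C04
import Pool.Agent.R989.ZP.C05
import Pool.Agent.R989.ZP.C06
import Pool.Agent.R989.ZP.C07
import Pool.Agent.R989.ZP.C08
import Pool.Agent.R989.ZP.C09
import Pool.Agent.R989.ZP.C10
import Pool.Agent.R989.ZP.C11
import Pool.Agent.R989.ZP.C12
import Pool.Agent.R989.ZP.C13
import Pool.Agent.R989.ZP.C14
import Pool.Agent.R989.ZP.C15
import Pool.Agent.R989.ZP.C16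
import Pool.Agent.R989.ZP.C17
import Pool.Agent.R989.ZP.C18
import Pool.Agent.R989.ZP.C19
import Pool.Agent.R989.ZP.C20
import Pool.Agent.R989.ZP.C21
import Pool.Agent.R989.ZP.C22
import Pool.Agent.R989.ZP.C23
import Pool.Agent.R989.ZP.C24
import Pool.Agent.R989.ZP.C25
import Pool.Agent.R989.ZP.C26
import Pool.Agent.R989.ZP.C27
import Pool.Agent.R989.ZP.C28
import Pool.Agent.R989.ZP.C29
import Pool.Agent.R989.ZP.C30
import Pool.Agent.R989.ZP.C31
import Pool.Agent.R989.ZP.C32
import Pool.Agent.R989.ZP.C33
import Pool.Agent.R989.ZP.C34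
import Pool.Agent.R989.ZP.C35
import Pool.Agent.R989.ZP.C36
import Pool.Agent.R989.ZP.C37
import Pool.Agent.R989.ZP.C38
import Pool.Agent.R989.ZP.C39
import Pool.Agent.R989.ZP.C40
import Pool.Agent.R989.ZP.C41
import Pool.Agent.R989.ZP.C42
import Pool.Agent.R989.ZP.C43
import Pool.Agent.R989.ZP.C44
import Pool.Agent.R989.ZP.C45
import Pool.Agent.R989.ZP.C46
import Pool.Agent.R989.ZP.C47

set_option maxRecDepth 100000

namespace Pool.Agent.R989.ZP

theorem n540 : Rf E0 xe16 [983, 1233, 1136, 1053] :=
  node_sound smok0 (q := 11) (ch := [908, 907, 906, 905, 904, 898, 897, 896, 895, 894, 892]) (by decide +kernel) (by decide +kernel)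
    (aC (chk_sound smok0 c5050 (by decide +kernel)) (aC (chk_sound smok0 c5051 (by decide +kernel)) (aC (chk_sound smok0 c5052 (by decide +kernel)) (aC (chk_sound smok0 c5053 (by decide +kernel)) (aC (chk_sound smok0 c5054 (by decide +kernel)) (aC (chk_sound smok0 c5055 (by decide +kernel)) (aC (chk_sound smok0 c5056 (by decide +kernel)) (aC (chk_sound smok0 c5057 (by decide +kernel)) (aC (chk_sound smok0 c5058 (by decide +kernel)) (aC (chk_sound smok0 c5059 (by decide +kernel)) (aC (chk_sound smok0 c5060 (by decide +kernel)) aN)))))))))))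
theorem n541 : Rf E0 xe16 [8, 979, 1233, 1136, 1053] :=
  node_sound smok0 (q := 11) (ch := [914, 913, 912, 911, 910, 908, 907, 896, 895, 894, 892]) (by decide +kernel) (by decide +kernel)
    (aC (chk_sound smok0 c5061 (by decide +kernel)) (aC (chk_sound smok0 c5062 (by decide +kernel)) (aC (chk_sound smok0 c5063 (by decide +kernel)) (aC (chk_sound smok0 c5064 (by decide +kernel)) (aC (chk_sound smok0 c5065 (by decide +kernel)) (aC (chk_sound smok0 c5066 (by decide +kernel)) (aC (chk_sound smok0 c5067 (by decide +kernel)) (aC (chk_sound smok0 c5068 (by decide +kernel)) (aC (chk_sound smok0 c5069 (by decide +kernel)) (aC (chk_sound smok0 c5070 (by decide +kernel)) (aC (chk_sound smok0 c5071 (by decide +kernel)) aN)))))))))))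
theorem n542 : Rf E0 xe16 [979, 1233, 1136, 1053] :=
  node_sound smok0 (q := 0) (ch := [25, 24, 21, 20, 19, 17, 11, 10, 8, 6, 3]) (by decide +kernel) (by decide +kernel)
    (aC (chk_sound smok0 c5072 (by decide +kernel)) (aC (chk_sound smok0 c5073 (by decide +kernel)) (aC (chk_sound smok0 c5074 (by decide +kernel)) (aC (chk_sound smok0 c5075 (by decide +kernel)) (aC (chk_sound smok0 c5076 (by decide +kernel)) (aC (chk_sound smok0 c5077 (by decide +kernel)) (aC (chk_sound smok0 c5078 (by decide +kernel)) (aC (chk_sound smok0 c5079 (by decide +kernel)) (aC n541 (aC (chk_sound smok0 c5080 (by decide +kernel)) (aC (chk_sound smok0 c5081 (by decide +kernel)) aN)))))))))))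
theorem n543 : Rf E0 xe16 [978, 1233, 1136, 1053] :=
  node_sound smok0 (q := 0) (ch := [24, 21, 20, 19, 11, 10, 8, 7, 5, 3]) (by decide +kernel) (by decide +kernel)
    (aC (chk_sound smok0 c5082 (by decide +kernel)) (aC (chk_sound smok0 c5083 (by decide +kernel)) (aC (chk_sound smok0 c5084 (by decide +kernel)) (aC (chk_sound smok0 c5085 (by decide +kernel)) (aC (chk_sound smok0 c5086 (by decide +kernel)) (aC (chk_sound smok0 c5087 (by decide +kernel)) (aC (chk_sound smok0 c5088 (by decide +kernel)) (aC (chk_sound smok0 c5089 (by decide +kernel)) (aC (chk_sound smok0 c5090 (by decide +kernel)) (aC (chk_sound smok0 c5091 (by decide +kernel)) aN))))))))))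
theorem n544 : Rf E0 xe16 [26, 977, 1233, 1136, 1053] :=
  node_sound smok0 (q := 36) (ch := [2115, 2034, 1953, 1872, 1791, 1629, 1548, 495, 414]) (by decide +kernel) (by decide +kernel)
    (aC (chk_sound smok0 c5092 (by decide +kernel)) (aC (chk_sound smok0 c5093 (by decide +kernel)) (aC (chk_sound smok0 c5094 (by decide +kernel)) (aC (chk_sound smok0 c5095 (by decide +kernel)) (aC (chk_sound smok0 c5096 (by decide +kernel)) (aC (chk_sound smok0 c5097 (by decide +kernel)) (aC (chk_sound smok0 c5098 (by decide +kernel)) (aC (chk_sound smok0 c5099 (by decide +kernel)) (aC (chk_sound smok0 c5100 (by decide +kernel)) aN)))))))))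
theorem n545 : Rf E0 xe16 [10, 977, 1233, 1136, 1053] :=
  node_sound smok0 (q := 16) (ch := [1320, 1319, 1318, 1317, 1316, 1309, 1308, 1307, 1297]) (by decide +kernel) (by decide +kernel)
    (aC (chk_sound smok0 c5101 (by decide +kernel)) (aC (chk_sound smok0 c5102 (by decide +kernel)) (aC (chk_sound smok0 c5103 (by decide +kernel)) (aC (chk_sound smok0 c5104 (by decide +kernel)) (aC (chk_sound smok0 c5105 (by decide +kernel)) (aC (chk_sound smok0 c5106 (by decide +kernel)) (aC (chk_sound smok0 c5107 (by decide +kernel)) (aC (chk_sound smok0 c5108 (by decide +kernel)) (aC (chk_sound smok0 c5109 (by decide +kernel)) aN)))))))))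
theorem n546 : Rf E0 xe16 [8, 977, 1233, 1136, 1053] :=
  node_sound smok0 (q := 16) (ch := [1320, 1319, 1318, 1317, 1316, 1312, 1311, 1310, 1309, 1297]) (by decide +kernel) (by decide +kernel)
    (aC (chk_sound smok0 c5110 (by decide +kernel)) (aC (chk_sound smok0 c5111 (by decide +kernel)) (aC (chk_sound smok0 c5112 (by decide +kernel)) (aC (chk_sound smok0 c5113 (by decide +kernel)) (aC (chk_sound smok0 c5114 (by decide +kernel)) (aC (chk_sound smok0 c5115 (by decide +kernel)) (aC (chk_sound smok0 c5116 (by decide +kernel)) (aC (chk_sound smok0 c5117 (by decide +kernel)) (aC (chk_sound smok0 c5118 (by decide +kernel)) (aC (chk_sound smok0 c5119 (by decide +kernel)) aN))))))))))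
theorem n547 : Rf E0 xe16 [977, 1233, 1136, 1053] :=
  node_sound smok0 (q := 0) (ch := [26, 24, 21, 20, 19, 10, 8, 7, 6]) (by decide +kernel) (by decide +kernel)
    (aC n544 (aC (chk_sound smok0 c5120 (by decide +kernel)) (aC (chk_sound smok0 c5121 (by decide +kernel)) (aC (chk_sound smok0 c5122 (by decide +kernel)) (aC (chk_sound smok0 c5123 (by decide +kernel)) (aC n545 (aC n546 (aC (chk_sound smok0 c5124 (by decide +kernel)) (aC (chk_sound smok0 c5125 (by decide +kernel)) aN)))))))))
theorem n548 : Rf E0 xe16 [12, 976, 1233, 1136, 1053] :=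
  node_sound smok0 (q := 16) (ch := [1321, 1320, 1319, 1318, 1312, 1311, 1310, 1309, 1307]) (by decide +kernel) (by decide +kernel)
    (aC (chk_sound smok0 c5126 (by decide +kernel)) (aC (chk_sound smok0 c5127 (by decide +kernel)) (aC (chk_sound smok0 c5128 (by decide +kernel)) (aC (chk_sound smok0 c5129 (by decide +kernel)) (aC (chk_sound smok0 c5130 (by decide +kernel)) (aC (chk_sound smok0 c5131 (by decide +kernel)) (aC (chk_sound smok0 c5132 (by decide +kernel)) (aC (chk_sound smok0 c5133 (by decide +kernel)) (aC (chk_sound smok0 c5134 (by decide +kernel)) aN)))))))))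
theorem n549 : Rf E0 xe16 [10, 976, 1233, 1136, 1053] :=
  node_sound smok0 (q := 16) (ch := [1321, 1320, 1319, 1318, 1317, 1316, 1310, 1309, 1308, 1307]) (by decide +kernel) (by decide +kernel)
    (aC (chk_sound smok0 c5135 (by decide +kernel)) (aC (chk_sound smok0 c5136 (by decide +kernel)) (aC (chk_sound smok0 c5137 (by decide +kernel)) (aC (chk_sound smok0 c5138 (by decide +kernel)) (aC (chk_sound smok0 c5139 (by decide +kernel)) (aC (chk_sound smok0 c5140 (by decide +kernel)) (aC (chk_sound smok0 c5141 (by decide +kernel)) (aC (chk_sound smok0 c5142 (by decide +kernel)) (aC (chk_sound smok0 c5143 (by decide +kernel)) (aC (chk_sound smok0 c5144 (by decide +kernel)) aN))))))))))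
theorem n550 : Rf E0 xe16 [8, 976, 1233, 1136, 1053] :=
  node_sound smok0 (q := 16) (ch := [1321, 1320, 1319, 1318, 1317, 1316, 1312, 1311, 1310]) (by decide +kernel) (by decide +kernel)
    (aC (chk_sound smok0 c5145 (by decide +kernel)) (aC (chk_sound smok0 c5146 (by decide +kernel)) (aC (chk_sound smok0 c5147 (by decide +kernel)) (aC (chk_sound smok0 c5148 (by decide +kernel)) (aC (chk_sound smok0 c5149 (by decide +kernel)) (aC (chk_sound smok0 c5150 (by decide +kernel)) (aC (chk_sound smok0 c5151 (by decide +kernel)) (aC (chk_sound smok0 c5152 (by decide +kernel)) (aC (chk_sound smok0 c5153 (by decide +kernel)) aN)))))))))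
theorem n551 : Rf E0 xe16 [976, 1233, 1136, 1053] :=
  node_sound smok0 (q := 0) (ch := [26, 21, 20, 19, 12, 10, 8, 7, 6, 5]) (by decide +kernel) (by decide +kernel)
    (aC (chk_sound smok0 c5154 (by decide +kernel)) (aC (chk_sound smok0 c5155 (by decide +kernel)) (aC (chk_sound smok0 c5156 (by decide +kernel)) (aC (chk_sound smok0 c5157 (by decide +kernel)) (aC n548 (aC n549 (aC n550 (aC (chk_sound smok0 c5158 (by decide +kernel)) (aC (chk_sound smok0 c5159 (by decide +kernel)) (aC (chk_sound smok0 c5160 (by decide +kernel)) aN))))))))))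
theorem n552 : Rf E0 xe16 [975, 1233, 1136, 1053] :=
  node_sound smok0 (q := 0) (ch := [26, 25, 21, 20, 19, 17, 12, 8, 7, 6, 5, 4]) (by decide +kernel) (by decide +kernel)
    (aC (chk_sound smok0 c5161 (by decide +kernel)) (aC (chk_sound smok0 c5162 (by decide +kernel)) (aC (chk_sound smok0 c5163 (by decide +kernel)) (aC (chk_sound smok0 c5164 (by decide +kernel)) (aC (chk_sound smok0 c5165 (by decide +kernel)) (aC (chk_sound smok0 c5166 (by decide +kernel)) (aC (chk_sound smok0 c5167 (by decide +kernel)) (aC (chk_sound smok0 c5168 (by decide +kernel)) (aC (chk_sound smok0 c5169 (by decide +kernel)) (aC (chk_sound smok0 c5170 (by decide +kernel)) (aC (chk_sound smok0 c5171 (by decide +kernel)) (aC (chk_sound smok0 c5172 (by decide +kernel)) aN))))))))))))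
theorem n553 : Rf E0 xe16 [1233, 1136, 1053] :=
  node_sound smok0 (q := 12) (ch := [983, 979, 978, 977, 976, 975]) (by decide +kernel) (by decide +kernel)
    (aC n540 (aC n542 (aC n543 (aC n547 (aC n551 (aC n552 aN))))))
theorem R0_16 : Rf E0 xe16 [1233, 1136, 1053] := n553
theorem n554 : Rf E0 xe17 [914, 982, 1234, 1136, 1053] :=
  node_sound smok0 (q := 26) (ch := [2128, 2123, 2122, 2121, 2115, 2110, 2109, 2107]) (by decide +kernel) (by decide +kernel)
    (aC (chk_sound smok0 c5173 (by decide +kernel)) (aC (chk_sound smok0 c5174 (by decide +kernel)) (aC (chk_sound smok0 c5175 (by decide +kernel)) (aC (chk_sound smok0 c5176 (by decide +kernel)) (aC (chk_sound smok0 c5177 (by decide +kernel)) (aC (chk_sound smok0 c5178 (by decide +kernel)) (aC (chk_sound smok0 c5179 (by decide +kernel)) (aC (chk_sound smok0 c5180 (by decide +kernel)) aN))))))))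
theorem n555 : Rf E0 xe17 [913, 982, 1234, 1136, 1053] :=
  node_sound smok0 (q := 26) (ch := [2123, 2122, 2121, 2115, 2114, 2110, 2109, 2107]) (by decide +kernel) (by decide +kernel)
    (aC (chk_sound smok0 c5181 (by decide +kernel)) (aC (chk_sound smok0 c5182 (by decide +kernel)) (aC (chk_sound smok0 c5183 (by decide +kernel)) (aC (chk_sound smok0 c5184 (by decide +kernel)) (aC (chk_sound smok0 c5185 (by decide +kernel)) (aC (chk_sound smok0 c5186 (by decide +kernel)) (aC (chk_sound smok0 c5187 (by decide +kernel)) (aC (chk_sound smok0 c5188 (by decide +kernel)) aN))))))))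
theorem n556 : Rf E0 xe17 [892, 982, 1234, 1136, 1053] :=
  node_sound smok0 (q := 16) (ch := [1320, 1319, 1313, 1312, 1311, 1310, 1309, 1303, 1302]) (by decide +kernel) (by decide +kernel)
    (aC (chk_sound smok0 c5189 (by decide +kernel)) (aC (chk_sound smok0 c5190 (by decide +kernel)) (aC (chk_sound smok0 c5191 (by decide +kernel)) (aC (chk_sound smok0 c5192 (by decide +kernel)) (aC (chk_sound smok0 c5193 (by decide +kernel)) (aC (chk_sound smok0 c5194 (by decide +kernel)) (aC (chk_sound smok0 c5195 (by decide +kernel)) (aC (chk_sound smok0 c5196 (by decide +kernel)) (aC (chk_sound smok0 c5197 (by decide +kernel)) aN)))))))))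
theorem n557 : Rf E0 xe17 [982, 1234, 1136, 1053] :=
  node_sound smok0 (q := 11) (ch := [914, 913, 907, 906, 905, 904, 903, 897, 896, 895, 894, 892]) (by decide +kernel) (by decide +kernel)
    (aC n554 (aC n555 (aC (chk_sound smok0 c5198 (by decide +kernel)) (aC (chk_sound smok0 c5199 (by decide +kernel)) (aC (chk_sound smok0 c5200 (by decide +kernel)) (aC (chk_sound smok0 c5201 (by decide +kernel)) (aC (chk_sound smok0 c5202 (by decide +kernel)) (aC (chk_sound smok0 c5203 (by decide +kernel)) (aC (chk_sound smok0 c5204 (by decide +kernel)) (aC (chk_sound smok0 c5205 (by decide +kernel)) (aC (chk_sound smok0 c5206 (by decide +kernel)) (aC n556 aN))))))))))))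
theorem n558 : Rf E0 xe17 [978, 1234, 1136, 1053] :=
  node_sound smok0 (q := 0) (ch := [25, 24, 22, 21, 20, 11, 8, 7, 5, 3]) (by decide +kernel) (by decide +kernel)
    (aC (chk_sound smok0 c5207 (by decide +kernel)) (aC (chk_sound smok0 c5208 (by decide +kernel)) (aC (chk_sound smok0 c5209 (by decide +kernel)) (aC (chk_sound smok0 c5210 (by decide +kernel)) (aC (chk_sound smok0 c5211 (by decide +kernel)) (aC (chk_sound smok0 c5212 (by decide +kernel)) (aC (chk_sound smok0 c5213 (by decide +kernel)) (aC (chk_sound smok0 c5214 (by decide +kernel)) (aC (chk_sound smok0 c5215 (by decide +kernel)) (aC (chk_sound smok0 c5216 (by decide +kernel)) aN))))))))))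
theorem n559 : Rf E0 xe17 [11, 977, 1234, 1136, 1053] :=
  node_sound smok0 (q := 16) (ch := [1320, 1319, 1318, 1317, 1311, 1310, 1309, 1303, 1302, 1297]) (by decide +kernel) (by decide +kernel)
    (aC (chk_sound smok0 c5217 (by decide +kernel)) (aC (chk_sound smok0 c5218 (by decide +kernel)) (aC (chk_sound smok0 c5219 (by decide +kernel)) (aC (chk_sound smok0 c5220 (by decide +kernel)) (aC (chk_sound smok0 c5221 (by decide +kernel)) (aC (chk_sound smok0 c5222 (by decide +kernel)) (aC (chk_sound smok0 c5223 (by decide +kernel)) (aC (chk_sound smok0 c5224 (by decide +kernel)) (aC (chk_sound smok0 c5225 (by decide +kernel)) (aC (chk_sound smok0 c5226 (by decide +kernel)) aN))))))))))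
theorem n560 : Rf E0 xe17 [8, 977, 1234, 1136, 1053] :=
  node_sound smok0 (q := 1) (ch := [107, 106, 102, 101, 99, 98, 95, 94, 93, 85, 84, 82]) (by decide +kernel) (by decide +kernel)
    (aC (chk_sound smok0 c5227 (by decide +kernel)) (aC (chk_sound smok0 c5228 (by decide +kernel)) (aC (chk_sound smok0 c5229 (by decide +kernel)) (aC (chk_sound smok0 c5230 (by decide +kernel)) (aC (chk_sound smok0 c5231 (by decide +kernel)) (aC (chk_sound smok0 c5232 (by decide +kernel)) (aC (chk_sound smok0 c5233 (by decide +kernel)) (aC (chk_sound smok0 c5234 (by decide +kernel)) (aC (chk_sound smok0 c5235 (by decide +kernel)) (aC (chk_sound smok0 c5236 (by decide +kernel)) (aC (chk_sound smok0 c5237 (by decide +kernel)) (aC (chk_sound smok0 c5238 (by decide +kernel)) aN))))))))))))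
theorem n561 : Rf E0 xe17 [977, 1234, 1136, 1053] :=
  node_sound smok0 (q := 0) (ch := [24, 22, 21, 20, 18, 11, 8, 7, 6]) (by decide +kernel) (by decide +kernel)
    (aC (chk_sound smok0 c5239 (by decide +kernel)) (aC (chk_sound smok0 c5240 (by decide +kernel)) (aC (chk_sound smok0 c5241 (by decide +kernel)) (aC (chk_sound smok0 c5242 (by decide +kernel)) (aC (chk_sound smok0 c5243 (by decide +kernel)) (aC n559 (aC n560 (aC (chk_sound smok0 c5244 (by decide +kernel)) (aC (chk_sound smok0 c5245 (by decide +kernel)) aN)))))))))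
theorem n562 : Rf E0 xe17 [26, 976, 1234, 1136, 1053] :=
  node_sound smok0 (q := 16) (ch := [1321, 1320, 1319, 1313, 1312, 1311, 1310, 1309, 1303, 1302]) (by decide +kernel) (by decide +kernel)
    (aC (chk_sound smok0 c5246 (by decide +kernel)) (aC (chk_sound smok0 c5247 (by decide +kernel)) (aC (chk_sound smok0 c5248 (by decide +kernel)) (aC (chk_sound smok0 c5249 (by decide +kernel)) (aC (chk_sound smok0 c5250 (by decide +kernel)) (aC (chk_sound smok0 c5251 (by decide +kernel)) (aC (chk_sound smok0 c5252 (by decide +kernel)) (aC (chk_sound smok0 c5253 (by decide +kernel)) (aC (chk_sound smok0 c5254 (by decide +kernel)) (aC (chk_sound smok0 c5255 (by decide +kernel)) aN))))))))))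
theorem n563 : Rf E0 xe17 [24, 976, 1234, 1136, 1053] :=
  node_sound smok0 (q := 16) (ch := [1321, 1319, 1318, 1317, 1311, 1310, 1309, 1303, 1302]) (by decide +kernel) (by decide +kernel)
    (aC (chk_sound smok0 c5256 (by decide +kernel)) (aC (chk_sound smok0 c5257 (by decide +kernel)) (aC (chk_sound smok0 c5258 (by decide +kernel)) (aC (chk_sound smok0 c5259 (by decide +kernel)) (aC (chk_sound smok0 c5260 (by decide +kernel)) (aC (chk_sound smok0 c5261 (by decide +kernel)) (aC (chk_sound smok0 c5262 (by decide +kernel)) (aC (chk_sound smok0 c5263 (by decide +kernel)) (aC (chk_sound smok0 c5264 (by decide +kernel)) aN)))))))))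
theorem n564 : Rf E0 xe17 [8, 976, 1234, 1136, 1053] :=
  node_sound smok0 (q := 1) (ch := [107, 106, 102, 101, 99, 98, 95, 94, 93, 84, 82]) (by decide +kernel) (by decide +kernel)
    (aC (chk_sound smok0 c5265 (by decide +kernel)) (aC (chk_sound smok0 c5266 (by decide +kernel)) (aC (chk_sound smok0 c5267 (by decide +kernel)) (aC (chk_sound smok0 c5268 (by decide +kernel)) (aC (chk_sound smok0 c5269 (by decide +kernel)) (aC (chk_sound smok0 c5270 (by decide +kernel)) (aC (chk_sound smok0 c5271 (by decide +kernel)) (aC (chk_sound smok0 c5272 (by decide +kernel)) (aC (chk_sound smok0 c5273 (by decide +kernel)) (aC (chk_sound smok0 c5274 (by decide +kernel)) (aC (chk_sound smok0 c5275 (by decide +kernel)) aN)))))))))))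
theorem n565 : Rf E0 xe17 [976, 1234, 1136, 1053] :=
  node_sound smok0 (q := 0) (ch := [26, 24, 22, 21, 20, 18, 8, 7, 6, 5]) (by decide +kernel) (by decide +kernel)
    (aC n562 (aC n563 (aC (chk_sound smok0 c5276 (by decide +kernel)) (aC (chk_sound smok0 c5277 (by decide +kernel)) (aC (chk_sound smok0 c5278 (by decide +kernel)) (aC (chk_sound smok0 c5279 (by decide +kernel)) (aC n564 (aC (chk_sound smok0 c5280 (by decide +kernel)) (aC (chk_sound smok0 c5281 (by decide +kernel)) (aC (chk_sound smok0 c5282 (by decide +kernel)) aN))))))))))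
theorem n566 : Rf E0 xe17 [20, 975, 1234, 1136, 1053] :=
  node_sound smok0 (q := 1) (ch := [107, 106, 103, 99, 98, 95, 94, 89, 88, 85, 82]) (by decide +kernel) (by decide +kernel)
    (aC (chk_sound smok0 c5283 (by decide +kernel)) (aC (chk_sound smok0 c5284 (by decide +kernel)) (aC (chk_sound smok0 c5285 (by decide +kernel)) (aC (chk_sound smok0 c5286 (by decide +kernel)) (aC (chk_sound smok0 c5287 (by decide +kernel)) (aC (chk_sound smok0 c5288 (by decide +kernel)) (aC (chk_sound smok0 c5289 (by decide +kernel)) (aC (chk_sound smok0 c5290 (by decide +kernel)) (aC (chk_sound smok0 c5291 (by decide +kernel)) (aC (chk_sound smok0 c5292 (by decide +kernel)) (aC (chk_sound smok0 c5293 (by decide +kernel)) aN)))))))))))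
theorem n567 : Rf E0 xe17 [12, 975, 1234, 1136, 1053] :=
  node_sound smok0 (q := 1) (ch := [107, 106, 103, 102, 98, 95, 89, 88, 85, 82]) (by decide +kernel) (by decide +kernel)
    (aC (chk_sound smok0 c5294 (by decide +kernel)) (aC (chk_sound smok0 c5295 (by decide +kernel)) (aC (chk_sound smok0 c5296 (by decide +kernel)) (aC (chk_sound smok0 c5297 (by decide +kernel)) (aC (chk_sound smok0 c5298 (by decide +kernel)) (aC (chk_sound smok0 c5299 (by decide +kernel)) (aC (chk_sound smok0 c5300 (by decide +kernel)) (aC (chk_sound smok0 c5301 (by decide +kernel)) (aC (chk_sound smok0 c5302 (by decide +kernel)) (aC (chk_sound smok0 c5303 (by decide +kernel)) aN))))))))))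
theorem n568 : Rf E0 xe17 [8, 975, 1234, 1136, 1053] :=
  node_sound smok0 (q := 1) (ch := [107, 106, 102, 101, 99, 98, 95, 94, 93, 85, 82]) (by decide +kernel) (by decide +kernel)
    (aC (chk_sound smok0 c5304 (by decide +kernel)) (aC (chk_sound smok0 c5305 (by decide +kernel)) (aC (chk_sound smok0 c5306 (by decide +kernel)) (aC (chk_sound smok0 c5307 (by decide +kernel)) (aC (chk_sound smok0 c5308 (by decide +kernel)) (aC (chk_sound smok0 c5309 (by decide +kernel)) (aC (chk_sound smok0 c5310 (by decide +kernel)) (aC (chk_sound smok0 c5311 (by decide +kernel)) (aC (chk_sound smok0 c5312 (by decide +kernel)) (aC (chk_sound smok0 c5313 (by decide +kernel)) (aC (chk_sound smok0 c5314 (by decide +kernel)) aN)))))))))))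
theorem n569 : Rf E0 xe17 [975, 1234, 1136, 1053] :=
  node_sound smok0 (q := 0) (ch := [26, 22, 21, 20, 18, 17, 12, 8, 7, 6, 5, 4]) (by decide +kernel) (by decide +kernel)
    (aC (chk_sound smok0 c5315 (by decide +kernel)) (aC (chk_sound smok0 c5316 (by decide +kernel)) (aC (chk_sound smok0 c5317 (by decide +kernel)) (aC n566 (aC (chk_sound smok0 c5318 (by decide +kernel)) (aC (chk_sound smok0 c5319 (by decide +kernel)) (aC n567 (aC n568 (aC (chk_sound smok0 c5320 (by decide +kernel)) (aC (chk_sound smok0 c5321 (by decide +kernel)) (aC (chk_sound smok0 c5322 (by decide +kernel)) (aC (chk_sound smok0 c5323 (by decide +kernel)) aN))))))))))))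
theorem n570 : Rf E0 xe17 [1234, 1136, 1053] :=
  node_sound smok0 (q := 12) (ch := [982, 978, 977, 976, 975]) (by decide +kernel) (by decide +kernel)
    (aC n557 (aC n558 (aC n561 (aC n565 (aC n569 aN)))))
theorem R0_17 : Rf E0 xe17 [1234, 1136, 1053] := n570
theorem n571 : Rf E0 xe18 [981, 1235, 1136, 1053] :=
  node_sound smok0 (q := 11) (ch := [914, 913, 912, 905, 904, 903, 902, 896, 895, 894, 892]) (by decide +kernel) (by decide +kernel)
    (aC (chk_sound smok0 c5324 (by decide +kernel)) (aC (chk_sound smok0 c5325 (by decide +kernel)) (aC (chk_sound smok0 c5326 (by decide +kernel)) (aC (chk_sound smok0 c5327 (by decide +kernel)) (aC (chk_sound smok0 c5328 (by decide +kernel)) (aC (chk_sound smok0 c5329 (by decide +kernel)) (aC (chk_sound smok0 c5330 (by decide +kernel)) (aC (chk_sound smok0 c5331 (by decide +kernel)) (aC (chk_sound smok0 c5332 (by decide +kernel)) (aC (chk_sound smok0 c5333 (by decide +kernel)) (aC (chk_sound smok0 c5334 (by decide +kernel)) aN)))))))))))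
theorem n572 : Rf E0 xe18 [9, 977, 1235, 1136, 1053] :=
  node_sound smok0 (q := 1) (ch := [107, 100, 99, 98, 95, 94, 93, 85, 84, 82]) (by decide +kernel) (by decide +kernel)
    (aC (chk_sound smok0 c5335 (by decide +kernel)) (aC (chk_sound smok0 c5336 (by decide +kernel)) (aC (chk_sound smok0 c5337 (by decide +kernel)) (aC (chk_sound smok0 c5338 (by decide +kernel)) (aC (chk_sound smok0 c5339 (by decide +kernel)) (aC (chk_sound smok0 c5340 (by decide +kernel)) (aC (chk_sound smok0 c5341 (by decide +kernel)) (aC (chk_sound smok0 c5342 (by decide +kernel)) (aC (chk_sound smok0 c5343 (by decide +kernel)) (aC (chk_sound smok0 c5344 (by decide +kernel)) aN))))))))))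
theorem n573 : Rf E0 xe18 [8, 977, 1235, 1136, 1053] :=
  node_sound smok0 (q := 1) (ch := [107, 102, 100, 99, 98, 95, 94, 93, 85, 84, 82]) (by decide +kernel) (by decide +kernel)
    (aC (chk_sound smok0 c5345 (by decide +kernel)) (aC (chk_sound smok0 c5346 (by decide +kernel)) (aC (chk_sound smok0 c5347 (by decide +kernel)) (aC (chk_sound smok0 c5348 (by decide +kernel)) (aC (chk_sound smok0 c5349 (by decide +kernel)) (aC (chk_sound smok0 c5350 (by decide +kernel)) (aC (chk_sound smok0 c5351 (by decide +kernel)) (aC (chk_sound smok0 c5352 (by decide +kernel)) (aC (chk_sound smok0 c5353 (by decide +kernel)) (aC (chk_sound smok0 c5354 (by decide +kernel)) (aC (chk_sound smok0 c5355 (by decide +kernel)) aN)))))))))))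
theorem n574 : Rf E0 xe18 [977, 1235, 1136, 1053] :=
  node_sound smok0 (q := 0) (ch := [25, 22, 21, 19, 18, 11, 9, 8, 7, 6]) (by decide +kernel) (by decide +kernel)
    (aC (chk_sound smok0 c5356 (by decide +kernel)) (aC (chk_sound smok0 c5357 (by decide +kernel)) (aC (chk_sound smok0 c5358 (by decide +kernel)) (aC (chk_sound smok0 c5359 (by decide +kernel)) (aC (chk_sound smok0 c5360 (by decide +kernel)) (aC (chk_sound smok0 c5361 (by decide +kernel)) (aC n572 (aC n573 (aC (chk_sound smok0 c5362 (by decide +kernel)) (aC (chk_sound smok0 c5363 (by decide +kernel)) aN))))))))))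
theorem n575 : Rf E0 xe18 [21, 976, 1235, 1136, 1053] :=
  node_sound smok0 (q := 1) (ch := [107, 100, 99, 98, 95, 94, 93, 89, 86, 84, 82]) (by decide +kernel) (by decide +kernel)
    (aC (chk_sound smok0 c5364 (by decide +kernel)) (aC (chk_sound smok0 c5365 (by decide +kernel)) (aC (chk_sound smok0 c5366 (by decide +kernel)) (aC (chk_sound smok0 c5367 (by decide +kernel)) (aC (chk_sound smok0 c5368 (by decide +kernel)) (aC (chk_sound smok0 c5369 (by decide +kernel)) (aC (chk_sound smok0 c5370 (by decide +kernel)) (aC (chk_sound smok0 c5371 (by decide +kernel)) (aC (chk_sound smok0 c5372 (by decide +kernel)) (aC (chk_sound smok0 c5373 (by decide +kernel)) (aC (chk_sound smok0 c5374 (by decide +kernel)) aN)))))))))))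
theorem n576 : Rf E0 xe18 [11, 976, 1235, 1136, 1053] :=
  node_sound smok0 (q := 16) (ch := [1321, 1320, 1319, 1318, 1312, 1311, 1305, 1304, 1303, 1302]) (by decide +kernel) (by decide +kernel)
    (aC (chk_sound smok0 c5375 (by decide +kernel)) (aC (chk_sound smok0 c5376 (by decide +kernel)) (aC (chk_sound smok0 c5377 (by decide +kernel)) (aC (chk_sound smok0 c5378 (by decide +kernel)) (aC (chk_sound smok0 c5379 (by decide +kernel)) (aC (chk_sound smok0 c5380 (by decide +kernel)) (aC (chk_sound smok0 c5381 (by decide +kernel)) (aC (chk_sound smok0 c5382 (by decide +kernel)) (aC (chk_sound smok0 c5383 (by decide +kernel)) (aC (chk_sound smok0 c5384 (by decide +kernel)) aN))))))))))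
theorem n577 : Rf E0 xe18 [9, 976, 1235, 1136, 1053] :=
  node_sound smok0 (q := 1) (ch := [107, 100, 99, 98, 95, 94, 93, 86, 84, 82]) (by decide +kernel) (by decide +kernel)
    (aC (chk_sound smok0 c5385 (by decide +kernel)) (aC (chk_sound smok0 c5386 (by decide +kernel)) (aC (chk_sound smok0 c5387 (by decide +kernel)) (aC (chk_sound smok0 c5388 (by decide +kernel)) (aC (chk_sound smok0 c5389 (by decide +kernel)) (aC (chk_sound smok0 c5390 (by decide +kernel)) (aC (chk_sound smok0 c5391 (by decide +kernel)) (aC (chk_sound smok0 c5392 (by decide +kernel)) (aC (chk_sound smok0 c5393 (by decide +kernel)) (aC (chk_sound smok0 c5394 (by decide +kernel)) aN))))))))))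
theorem n578 : Rf E0 xe18 [8, 976, 1235, 1136, 1053] :=
  node_sound smok0 (q := 1) (ch := [107, 102, 100, 99, 98, 95, 94, 93, 86, 84, 82]) (by decide +kernel) (by decide +kernel)
    (aC (chk_sound smok0 c5395 (by decide +kernel)) (aC (chk_sound smok0 c5396 (by decide +kernel)) (aC (chk_sound smok0 c5397 (by decide +kernel)) (aC (chk_sound smok0 c5398 (by decide +kernel)) (aC (chk_sound smok0 c5399 (by decide +kernel)) (aC (chk_sound smok0 c5400 (by decide +kernel)) (aC (chk_sound smok0 c5401 (by decide +kernel)) (aC (chk_sound smok0 c5402 (by decide +kernel)) (aC (chk_sound smok0 c5403 (by decide +kernel)) (aC (chk_sound smok0 c5404 (by decide +kernel)) (aC (chk_sound smok0 c5405 (by decide +kernel)) aN)))))))))))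
theorem n579 : Rf E0 xe18 [7, 976, 1235, 1136, 1053] :=
  node_sound smok0 (q := 16) (ch := [1321, 1320, 1319, 1318, 1314, 1313, 1312, 1311, 1304, 1302]) (by decide +kernel) (by decide +kernel)
    (aC (chk_sound smok0 c5406 (by decide +kernel)) (aC (chk_sound smok0 c5407 (by decide +kernel)) (aC (chk_sound smok0 c5408 (by decide +kernel)) (aC (chk_sound smok0 c5409 (by decide +kernel)) (aC (chk_sound smok0 c5410 (by decide +kernel)) (aC (chk_sound smok0 c5411 (by decide +kernel)) (aC (chk_sound smok0 c5412 (by decide +kernel)) (aC (chk_sound smok0 c5413 (by decide +kernel)) (aC (chk_sound smok0 c5414 (by decide +kernel)) (aC (chk_sound smok0 c5415 (by decide +kernel)) aN))))))))))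
theorem n580 : Rf E0 xe18 [976, 1235, 1136, 1053] :=
  node_sound smok0 (q := 0) (ch := [22, 21, 19, 18, 11, 9, 8, 7, 6, 5]) (by decide +kernel) (by decide +kernel)
    (aC (chk_sound smok0 c5416 (by decide +kernel)) (aC n575 (aC (chk_sound smok0 c5417 (by decide +kernel)) (aC (chk_sound smok0 c5418 (by decide +kernel)) (aC n576 (aC n577 (aC n578 (aC n579 (aC (chk_sound smok0 c5419 (by decide +kernel)) (aC (chk_sound smok0 c5420 (by decide +kernel)) aN))))))))))
theorem n581 : Rf E0 xe18 [7, 975, 1235, 1136, 1053] :=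
  node_sound smok0 (q := 32) (ch := [2111, 2030, 1949, 1868, 1787, 1463, 1382, 653, 410, 86]) (by decide +kernel) (by decide +kernel)
    (aC (chk_sound smok0 c5421 (by decide +kernel)) (aC (chk_sound smok0 c5422 (by decide +kernel)) (aC (chk_sound smok0 c5423 (by decide +kernel)) (aC (chk_sound smok0 c5424 (by decide +kernel)) (aC (chk_sound smok0 c5425 (by decide +kernel)) (aC (chk_sound smok0 c5426 (by decide +kernel)) (aC (chk_sound smok0 c5427 (by decide +kernel)) (aC (chk_sound smok0 c5428 (by decide +kernel)) (aC (chk_sound smok0 c5429 (by decide +kernel)) (aC (chk_sound smok0 c5430 (by decide +kernel)) aN))))))))))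
theorem n582 : Rf E0 xe18 [6, 975, 1235, 1136, 1053] :=
  node_sound smok0 (q := 16) (ch := [1322, 1321, 1320, 1319, 1318, 1314, 1313, 1312, 1311, 1303]) (by decide +kernel) (by decide +kernel)
    (aC (chk_sound smok0 c5431 (by decide +kernel)) (aC (chk_sound smok0 c5432 (by decide +kernel)) (aC (chk_sound smok0 c5433 (by decide +kernel)) (aC (chk_sound smok0 c5434 (by decide +kernel)) (aC (chk_sound smok0 c5435 (by decide +kernel)) (aC (chk_sound smok0 c5436 (by decide +kernel)) (aC (chk_sound smok0 c5437 (by decide +kernel)) (aC (chk_sound smok0 c5438 (by decide +kernel)) (aC (chk_sound smok0 c5439 (by decide +kernel)) (aC (chk_sound smok0 c5440 (by decide +kernel)) aN))))))))))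
theorem n583 : Rf E0 xe18 [975, 1235, 1136, 1053] :=
  node_sound smok0 (q := 0) (ch := [26, 22, 21, 19, 18, 17, 9, 8, 7, 6, 5, 4]) (by decide +kernel) (by decide +kernel)
    (aC (chk_sound smok0 c5441 (by decide +kernel)) (aC (chk_sound smok0 c5442 (by decide +kernel)) (aC (chk_sound smok0 c5443 (by decide +kernel)) (aC (chk_sound smok0 c5444 (by decide +kernel)) (aC (chk_sound smok0 c5445 (by decide +kernel)) (aC (chk_sound smok0 c5446 (by decide +kernel)) (aC (chk_sound smok0 c5447 (by decide +kernel)) (aC (chk_sound smok0 c5448 (by decide +kernel)) (aC n581 (aC n582 (aC (chk_sound smok0 c5449 (by decide +kernel)) (aC (chk_sound smok0 c5450 (by decide +kernel)) aN))))))))))))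
theorem n584 : Rf E0 xe18 [1235, 1136, 1053] :=
  node_sound smok0 (q := 12) (ch := [981, 977, 976, 975]) (by decide +kernel) (by decide +kernel)
    (aC n571 (aC n574 (aC n580 (aC n583 aN))))
theorem R0_18 : Rf E0 xe18 [1235, 1136, 1053] := n584
theorem n585 : Rf E0 xe19 [980, 1236, 1136, 1053] :=
  node_sound smok0 (q := 11) (ch := [914, 913, 911, 910, 909, 903, 902, 901, 895, 894, 892]) (by decide +kernel) (by decide +kernel)
    (aC (chk_sound smok0 c5451 (by decide +kernel)) (aC (chk_sound smok0 c5452 (by decide +kernel)) (aC (chk_sound smok0 c5453 (by decide +kernel)) (aC (chk_sound smok0 c5454 (by decide +kernel)) (aC (chk_sound smok0 c5455 (by decide +kernel)) (aC (chk_sound smok0 c5456 (by decide +kernel)) (aC (chk_sound smok0 c5457 (by decide +kernel)) (aC (chk_sound smok0 c5458 (by decide +kernel)) (aC (chk_sound smok0 c5459 (by decide +kernel)) (aC (chk_sound smok0 c5460 (by decide +kernel)) (aC (chk_sound smok0 c5461 (by decide +kernel)) aN)))))))))))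
theorem n586 : Rf E0 xe19 [22, 976, 1236, 1136, 1053] :=
  node_sound smok0 (q := 40) (ch := [1795, 1714, 1471, 904, 580, 418, 337, 256, 175, 94]) (by decide +kernel) (by decide +kernel)
    (aC (chk_sound smok0 c5462 (by decide +kernel)) (aC (chk_sound smok0 c5463 (by decide +kernel)) (aC (chk_sound smok0 c5464 (by decide +kernel)) (aC (chk_sound smok0 c5465 (by decide +kernel)) (aC (chk_sound smok0 c5466 (by decide +kernel)) (aC (chk_sound smok0 c5467 (by decide +kernel)) (aC (chk_sound smok0 c5468 (by decide +kernel)) (aC (chk_sound smok0 c5469 (by decide +kernel)) (aC (chk_sound smok0 c5470 (by decide +kernel)) (aC (chk_sound smok0 c5471 (by decide +kernel)) aN))))))))))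
theorem n587 : Rf E0 xe19 [8, 976, 1236, 1136, 1053] :=
  node_sound smok0 (q := 16) (ch := [1321, 1320, 1319, 1315, 1314, 1313, 1306, 1305, 1303, 1302]) (by decide +kernel) (by decide +kernel)
    (aC (chk_sound smok0 c5472 (by decide +kernel)) (aC (chk_sound smok0 c5473 (by decide +kernel)) (aC (chk_sound smok0 c5474 (by decide +kernel)) (aC (chk_sound smok0 c5475 (by decide +kernel)) (aC (chk_sound smok0 c5476 (by decide +kernel)) (aC (chk_sound smok0 c5477 (by decide +kernel)) (aC (chk_sound smok0 c5478 (by decide +kernel)) (aC (chk_sound smok0 c5479 (by decide +kernel)) (aC (chk_sound smok0 c5480 (by decide +kernel)) (aC (chk_sound smok0 c5481 (by decide +kernel)) aN))))))))))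
theorem n588 : Rf E0 xe19 [976, 1236, 1136, 1053] :=
  node_sound smok0 (q := 0) (ch := [25, 23, 22, 20, 19, 18, 9, 8, 7, 6, 5]) (by decide +kernel) (by decide +kernel)
    (aC (chk_sound smok0 c5482 (by decide +kernel)) (aC (chk_sound smok0 c5483 (by decide +kernel)) (aC n586 (aC (chk_sound smok0 c5484 (by decide +kernel)) (aC (chk_sound smok0 c5485 (by decide +kernel)) (aC (chk_sound smok0 c5486 (by decide +kernel)) (aC (chk_sound smok0 c5487 (by decide +kernel)) (aC n587 (aC (chk_sound smok0 c5488 (by decide +kernel)) (aC (chk_sound smok0 c5489 (by decide +kernel)) (aC (chk_sound smok0 c5490 (by decide +kernel)) aN)))))))))))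
theorem n589 : Rf E0 xe19 [20, 975, 1236, 1136, 1053] :=
  node_sound smok0 (q := 39) (ch := [2118, 1794, 1713, 903, 579, 417, 336, 255]) (by decide +kernel) (by decide +kernel)
    (aC (chk_sound smok0 c5491 (by decide +kernel)) (aC (chk_sound smok0 c5492 (by decide +kernel)) (aC (chk_sound smok0 c5493 (by decide +kernel)) (aC (chk_sound smok0 c5494 (by decide +kernel)) (aC (chk_sound smok0 c5495 (by decide +kernel)) (aC (chk_sound smok0 c5496 (by decide +kernel)) (aC (chk_sound smok0 c5497 (by decide +kernel)) (aC (chk_sound smok0 c5498 (by decide +kernel)) aN))))))))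
theorem n590 : Rf E0 xe19 [9, 975, 1236, 1136, 1053] :=
  node_sound smok0 (q := 1) (ch := [107, 101, 100, 99, 98, 95, 94, 87, 86, 85, 82]) (by decide +kernel) (by decide +kernel)
    (aC (chk_sound smok0 c5499 (by decide +kernel)) (aC (chk_sound smok0 c5500 (by decide +kernel)) (aC (chk_sound smok0 c5501 (by decide +kernel)) (aC (chk_sound smok0 c5502 (by decide +kernel)) (aC (chk_sound smok0 c5503 (by decide +kernel)) (aC (chk_sound smok0 c5504 (by decide +kernel)) (aC (chk_sound smok0 c5505 (by decide +kernel)) (aC (chk_sound smok0 c5506 (by decide +kernel)) (aC (chk_sound smok0 c5507 (by decide +kernel)) (aC (chk_sound smok0 c5508 (by decide +kernel)) (aC (chk_sound smok0 c5509 (by decide +kernel)) aN)))))))))))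
theorem n591 : Rf E0 xe19 [7, 975, 1236, 1136, 1053] :=
  node_sound smok0 (q := 16) (ch := [1322, 1321, 1320, 1319, 1315, 1314, 1313, 1305, 1304, 1302]) (by decide +kernel) (by decide +kernel)
    (aC (chk_sound smok0 c5510 (by decide +kernel)) (aC (chk_sound smok0 c5511 (by decide +kernel)) (aC (chk_sound smok0 c5512 (by decide +kernel)) (aC (chk_sound smok0 c5513 (by decide +kernel)) (aC (chk_sound smok0 c5514 (by decide +kernel)) (aC (chk_sound smok0 c5515 (by decide +kernel)) (aC (chk_sound smok0 c5516 (by decide +kernel)) (aC (chk_sound smok0 c5517 (by decide +kernel)) (aC (chk_sound smok0 c5518 (by decide +kernel)) (aC (chk_sound smok0 c5519 (by decide +kernel)) aN))))))))))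
theorem n592 : Rf E0 xe19 [6, 975, 1236, 1136, 1053] :=
  node_sound smok0 (q := 16) (ch := [1322, 1321, 1320, 1319, 1315, 1314, 1313, 1307, 1303]) (by decide +kernel) (by decide +kernel)
    (aC (chk_sound smok0 c5520 (by decide +kernel)) (aC (chk_sound smok0 c5521 (by decide +kernel)) (aC (chk_sound smok0 c5522 (by decide +kernel)) (aC (chk_sound smok0 c5523 (by decide +kernel)) (aC (chk_sound smok0 c5524 (by decide +kernel)) (aC (chk_sound smok0 c5525 (by decide +kernel)) (aC (chk_sound smok0 c5526 (by decide +kernel)) (aC (chk_sound smok0 c5527 (by decide +kernel)) (aC (chk_sound smok0 c5528 (by decide +kernel)) aN)))))))))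
theorem n593 : Rf E0 xe19 [975, 1236, 1136, 1053] :=
  node_sound smok0 (q := 0) (ch := [23, 22, 20, 19, 18, 17, 9, 8, 7, 6, 5, 4]) (by decide +kernel) (by decide +kernel)
    (aC (chk_sound smok0 c5529 (by decide +kernel)) (aC (chk_sound smok0 c5530 (by decide +kernel)) (aC n589 (aC (chk_sound smok0 c5531 (by decide +kernel)) (aC (chk_sound smok0 c5532 (by decide +kernel)) (aC (chk_sound smok0 c5533 (by decide +kernel)) (aC n590 (aC (chk_sound smok0 c5534 (by decide +kernel)) (aC n591 (aC n592 (aC (chk_sound smok0 c5535 (by decide +kernel)) (aC (chk_sound smok0 c5536 (by decide +kernel)) aN))))))))))))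
theorem n594 : Rf E0 xe19 [1236, 1136, 1053] :=
  node_sound smok0 (q := 12) (ch := [980, 976, 975]) (by decide +kernel) (by decide +kernel)
    (aC n585 (aC n588 (aC n593 aN)))
theorem R0_19 : Rf E0 xe19 [1236, 1136, 1053] := n594
theorem n595 : Rf E0 xe20 [979, 1237, 1136, 1053] :=
  node_sound smok0 (q := 11) (ch := [914, 912, 911, 910, 909, 908, 907, 901, 900, 894, 892]) (by decide +kernel) (by decide +kernel)
    (aC (chk_sound smok0 c5537 (by decide +kernel)) (aC (chk_sound smok0 c5538 (by decide +kernel)) (aC (chk_sound smok0 c5539 (by decide +kernel)) (aC (chk_sound smok0 c5540 (by decide +kernel)) (aC (chk_sound smok0 c5541 (by decide +kernel)) (aC (chk_sound smok0 c5542 (by decide +kernel)) (aC (chk_sound smok0 c5543 (by decide +kernel)) (aC (chk_sound smok0 c5544 (by decide +kernel)) (aC (chk_sound smok0 c5545 (by decide +kernel)) (aC (chk_sound smok0 c5546 (by decide +kernel)) (aC (chk_sound smok0 c5547 (by decide +kernel)) aN)))))))))))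
theorem n596 : Rf E0 xe20 [23, 975, 1237, 1136, 1053] :=
  node_sound smok0 (q := 1) (ch := [102, 101, 100, 99, 98, 95, 94, 91, 87, 86, 85, 82]) (by decide +kernel) (by decide +kernel)
    (aC (chk_sound smok0 c5548 (by decide +kernel)) (aC (chk_sound smok0 c5549 (by decide +kernel)) (aC (chk_sound smok0 c5550 (by decide +kernel)) (aC (chk_sound smok0 c5551 (by decide +kernel)) (aC (chk_sound smok0 c5552 (by decide +kernel)) (aC (chk_sound smok0 c5553 (by decide +kernel)) (aC (chk_sound smok0 c5554 (by decide +kernel)) (aC (chk_sound smok0 c5555 (by decide +kernel)) (aC (chk_sound smok0 c5556 (by decide +kernel)) (aC (chk_sound smok0 c5557 (by decide +kernel)) (aC (chk_sound smok0 c5558 (by decide +kernel)) (aC (chk_sound smok0 c5559 (by decide +kernel)) aN))))))))))))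
theorem n597 : Rf E0 xe20 [19, 975, 1237, 1136, 1053] :=
  node_sound smok0 (q := 16) (ch := [1322, 1321, 1320, 1316, 1309, 1308, 1307, 1306, 1302]) (by decide +kernel) (by decide +kernel)
    (aC (chk_sound smok0 c5560 (by decide +kernel)) (aC (chk_sound smok0 c5561 (by decide +kernel)) (aC (chk_sound smok0 c5562 (by decide +kernel)) (aC (chk_sound smok0 c5563 (by decide +kernel)) (aC (chk_sound smok0 c5564 (by decide +kernel)) (aC (chk_sound smok0 c5565 (by decide +kernel)) (aC (chk_sound smok0 c5566 (by decide +kernel)) (aC (chk_sound smok0 c5567 (by decide +kernel)) (aC (chk_sound smok0 c5568 (by decide +kernel)) aN)))))))))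
theorem n598 : Rf E0 xe20 [10, 975, 1237, 1136, 1053] :=
  node_sound smok0 (q := 1) (ch := [104, 100, 99, 98, 95, 94, 88, 87, 86, 85, 82]) (by decide +kernel) (by decide +kernel)
    (aC (chk_sound smok0 c5569 (by decide +kernel)) (aC (chk_sound smok0 c5570 (by decide +kernel)) (aC (chk_sound smok0 c5571 (by decide +kernel)) (aC (chk_sound smok0 c5572 (by decide +kernel)) (aC (chk_sound smok0 c5573 (by decide +kernel)) (aC (chk_sound smok0 c5574 (by decide +kernel)) (aC (chk_sound smok0 c5575 (by decide +kernel)) (aC (chk_sound smok0 c5576 (by decide +kernel)) (aC (chk_sound smok0 c5577 (by decide +kernel)) (aC (chk_sound smok0 c5578 (by decide +kernel)) (aC (chk_sound smok0 c5579 (by decide +kernel)) aN)))))))))))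
theorem n599 : Rf E0 xe20 [9, 975, 1237, 1136, 1053] :=
  node_sound smok0 (q := 1) (ch := [101, 100, 99, 98, 95, 94, 88, 87, 86, 85, 82]) (by decide +kernel) (by decide +kernel)
    (aC (chk_sound smok0 c5580 (by decide +kernel)) (aC (chk_sound smok0 c5581 (by decide +kernel)) (aC (chk_sound smok0 c5582 (by decide +kernel)) (aC (chk_sound smok0 c5583 (by decide +kernel)) (aC (chk_sound smok0 c5584 (by decide +kernel)) (aC (chk_sound smok0 c5585 (by decide +kernel)) (aC (chk_sound smok0 c5586 (by decide +kernel)) (aC (chk_sound smok0 c5587 (by decide +kernel)) (aC (chk_sound smok0 c5588 (by decide +kernel)) (aC (chk_sound smok0 c5589 (by decide +kernel)) (aC (chk_sound smok0 c5590 (by decide +kernel)) aN)))))))))))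
theorem n600 : Rf E0 xe20 [8, 975, 1237, 1136, 1053] :=
  node_sound smok0 (q := 16) (ch := [1322, 1321, 1320, 1316, 1315, 1307, 1306, 1305, 1303, 1302]) (by decide +kernel) (by decide +kernel)
    (aC (chk_sound smok0 c5591 (by decide +kernel)) (aC (chk_sound smok0 c5592 (by decide +kernel)) (aC (chk_sound smok0 c5593 (by decide +kernel)) (aC (chk_sound smok0 c5594 (by decide +kernel)) (aC (chk_sound smok0 c5595 (by decide +kernel)) (aC (chk_sound smok0 c5596 (by decide +kernel)) (aC (chk_sound smok0 c5597 (by decide +kernel)) (aC (chk_sound smok0 c5598 (by decide +kernel)) (aC (chk_sound smok0 c5599 (by decide +kernel)) (aC (chk_sound smok0 c5600 (by decide +kernel)) aN))))))))))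
theorem n601 : Rf E0 xe20 [7, 975, 1237, 1136, 1053] :=
  node_sound smok0 (q := 16) (ch := [1322, 1321, 1320, 1316, 1315, 1309, 1305, 1304, 1302]) (by decide +kernel) (by decide +kernel)
    (aC (chk_sound smok0 c5601 (by decide +kernel)) (aC (chk_sound smok0 c5602 (by decide +kernel)) (aC (chk_sound smok0 c5603 (by decide +kernel)) (aC (chk_sound smok0 c5604 (by decide +kernel)) (aC (chk_sound smok0 c5605 (by decide +kernel)) (aC (chk_sound smok0 c5606 (by decide +kernel)) (aC (chk_sound smok0 c5607 (by decide +kernel)) (aC (chk_sound smok0 c5608 (by decide +kernel)) (aC (chk_sound smok0 c5609 (by decide +kernel)) aN)))))))))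
theorem n602 : Rf E0 xe20 [5, 975, 1237, 1136, 1053] :=
  node_sound smok0 (q := 16) (ch := [1322, 1321, 1320, 1316, 1315, 1309, 1308, 1307, 1306, 1305]) (by decide +kernel) (by decide +kernel)
    (aC (chk_sound smok0 c5610 (by decide +kernel)) (aC (chk_sound smok0 c5611 (by decide +kernel)) (aC (chk_sound smok0 c5612 (by decide +kernel)) (aC (chk_sound smok0 c5613 (by decide +kernel)) (aC (chk_sound smok0 c5614 (by decide +kernel)) (aC (chk_sound smok0 c5615 (by decide +kernel)) (aC (chk_sound smok0 c5616 (by decide +kernel)) (aC (chk_sound smok0 c5617 (by decide +kernel)) (aC (chk_sound smok0 c5618 (by decide +kernel)) (aC (chk_sound smok0 c5619 (by decide +kernel)) aN))))))))))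
theorem n603 : Rf E0 xe20 [4, 975, 1237, 1136, 1053] :=
  node_sound smok0 (q := 1) (ch := [104, 102, 101, 100, 99, 98, 95, 94, 91, 88, 87]) (by decide +kernel) (by decide +kernel)
    (aC (chk_sound smok0 c5620 (by decide +kernel)) (aC (chk_sound smok0 c5621 (by decide +kernel)) (aC (chk_sound smok0 c5622 (by decide +kernel)) (aC (chk_sound smok0 c5623 (by decide +kernel)) (aC (chk_sound smok0 c5624 (by decide +kernel)) (aC (chk_sound smok0 c5625 (by decide +kernel)) (aC (chk_sound smok0 c5626 (by decide +kernel)) (aC (chk_sound smok0 c5627 (by decide +kernel)) (aC (chk_sound smok0 c5628 (by decide +kernel)) (aC (chk_sound smok0 c5629 (by decide +kernel)) (aC (chk_sound smok0 c5630 (by decide +kernel)) aN)))))))))))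
theorem n604 : Rf E0 xe20 [975, 1237, 1136, 1053] :=
  node_sound smok0 (q := 0) (ch := [23, 21, 20, 19, 18, 17, 10, 9, 8, 7, 6, 5, 4]) (by decide +kernel) (by decide +kernel)
    (aC n596 (aC (chk_sound smok0 c5631 (by decide +kernel)) (aC (chk_sound smok0 c5632 (by decide +kernel)) (aC n597 (aC (chk_sound smok0 c5633 (by decide +kernel)) (aC (chk_sound smok0 c5634 (by decide +kernel)) (aC n598 (aC n599 (aC n600 (aC n601 (aC (chk_sound smok0 c5635 (by decide +kernel)) (aC n602 (aC n603 aN)))))))))))))
theorem n605 : Rf E0 xe20 [1237, 1136, 1053] :=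
  node_sound smok0 (q := 12) (ch := [979, 975]) (by decide +kernel) (by decide +kernel)
    (aC n595 (aC n604 aN))
theorem R0_20 : Rf E0 xe20 [1237, 1136, 1053] := n605
theorem n606 : Rf E0 xe21 [899, 978, 1238, 1136, 1053] :=
  node_sound smok0 (q := 10) (ch := [836, 835, 834, 832, 831, 830, 829, 828, 824, 811]) (by decide +kernel) (by decide +kernel)
    (aC (chk_sound smok0 c5636 (by decide +kernel)) (aC (chk_sound smok0 c5637 (by decide +kernel)) (aC (chk_sound smok0 c5638 (by decide +kernel)) (aC (chk_sound smok0 c5639 (by decide +kernel)) (aC (chk_sound smok0 c5640 (by decide +kernel)) (aC (chk_sound smok0 c5641 (by decide +kernel)) (aC (chk_sound smok0 c5642 (by decide +kernel)) (aC (chk_sound smok0 c5643 (by decide +kernel)) (aC (chk_sound smok0 c5644 (by decide +kernel)) (aC (chk_sound smok0 c5645 (by decide +kernel)) aN))))))))))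
theorem n607 : Rf E0 xe21 [978, 1238, 1136, 1053] :=
  node_sound smok0 (q := 11) (ch := [913, 912, 911, 910, 909, 908, 907, 906, 905, 899, 892]) (by decide +kernel) (by decide +kernel)
    (aC (chk_sound smok0 c5646 (by decide +kernel)) (aC (chk_sound smok0 c5647 (by decide +kernel)) (aC (chk_sound smok0 c5648 (by decide +kernel)) (aC (chk_sound smok0 c5649 (by decide +kernel)) (aC (chk_sound smok0 c5650 (by decide +kernel)) (aC (chk_sound smok0 c5651 (by decide +kernel)) (aC (chk_sound smok0 c5652 (by decide +kernel)) (aC (chk_sound smok0 c5653 (by decide +kernel)) (aC (chk_sound smok0 c5654 (by decide +kernel)) (aC n606 (aC (chk_sound smok0 c5655 (by decide +kernel)) aN)))))))))))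
theorem n608 : Rf E0 xe21 [1238, 1136, 1053] :=
  node_sound smok0 (q := 12) (ch := [978]) (by decide +kernel) (by decide +kernel)
    (aC n607 aN)
theorem R0_21 : Rf E0 xe21 [1238, 1136, 1053] := n608
theorem n609 : Rf E0 xe22 [977, 1239, 1136, 1053] :=
  node_sound smok0 (q := 0) (ch := [23, 22, 21, 20, 19, 18, 11, 10, 9, 8, 7, 6]) (by decide +kernel) (by decide +kernel)
    (aC (chk_sound smok0 c5656 (by decide +kernel)) (aC (chk_sound smok0 c5657 (by decide +kernel)) (aC (chk_sound smok0 c5658 (by decide +kernel)) (aC (chk_sound smok0 c5659 (by decide +kernel)) (aC (chk_sound smok0 c5660 (by decide +kernel)) (aC (chk_sound smok0 c5661 (by decide +kernel)) (aC (chk_sound smok0 c5662 (by decide +kernel)) (aC (chk_sound smok0 c5663 (by decide +kernel)) (aC (chk_sound smok0 c5664 (by decide +kernel)) (aC (chk_sound smok0 c5665 (by decide +kernel)) (aC (chk_sound smok0 c5666 (by decide +kernel)) (aC (chk_sound smok0 c5667 (by decide +kernel)) aN))))))))))))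
theorem n610 : Rf E0 xe22 [1239, 1136, 1053] :=
  node_sound smok0 (q := 12) (ch := [977]) (by decide +kernel) (by decide +kernel)
    (aC n609 aN)
theorem R0_22 : Rf E0 xe22 [1239, 1136, 1053] := n610
theorem n611 : Rf E0 xe23 [976, 1240, 1136, 1053] :=
  node_sound smok0 (q := 0) (ch := [24, 23, 22, 21, 20, 19, 18, 11, 10, 9, 8, 7, 6, 5]) (by decide +kernel) (by decide +kernel)
    (aC (chk_sound smok0 c5668 (by decide +kernel)) (aC (chk_sound smok0 c5669 (by decide +kernel)) (aC (chk_sound smok0 c5670 (by decide +kernel)) (aC (chk_sound smok0 c5671 (by decide +kernel)) (aC (chk_sound smok0 c5672 (by decide +kernel)) (aC (chk_sound smok0 c5673 (by decide +kernel)) (aC (chk_sound smok0 c5674 (by decide +kernel)) (aC (chk_sound smok0 c5675 (by decide +kernel)) (aC (chk_sound smok0 c5676 (by decide +kernel)) (aC (chk_sound smok0 c5677 (by decide +kernel)) (aC (chk_sound smok0 c5678 (by decide +kernel)) (aC (chk_sound smok0 c5679 (by decide +kernel)) (aC (chk_sound smok0 c5680 (by decide +kernel)) (aC (chk_sound smok0 c5681 (by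 decide +kernel)) aN))))))))))))))
theorem n612 : Rf E0 xe23 [1240, 1136, 1053] :=
  node_sound smok0 (q := 12) (ch := [976]) (by decide +kernel) (by decide +kernel)
    (aC n611 aN)
theorem R0_23 : Rf E0 xe23 [1240, 1136, 1053] := n612
theorem n613 : Rf E0 xe24 [907, 975, 1241, 1136, 1053] :=
  node_sound smok0 (q := 16) (ch := [1317, 1316, 1315, 1314, 1313, 1309, 1305, 1304, 1303, 1302]) (by decide +kernel) (by decide +kernel)
    (aC (chk_sound smok0 c5682 (by decide +kernel)) (aC (chk_sound smok0 c5683 (by decide +kernel)) (aC (chk_sound smok0 c5684 (by decide +kernel)) (aC (chk_sound smok0 c5685 (by decide +kernel)) (aC (chk_sound smok0 c5686 (by decide +kernel)) (aC (chk_sound smok0 c5687 (by decide +kernel)) (aC (chk_sound smok0 c5688 (by decide +kernel)) (aC (chk_sound smok0 c5689 (by decide +kernel)) (aC (chk_sound smok0 c5690 (by decide +kernel)) (aC (chk_sound smok0 c5691 (by decide +kernel)) aN))))))))))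
theorem n614 : Rf E0 xe24 [906, 975, 1241, 1136, 1053] :=
  node_sound smok0 (q := 16) (ch := [1317, 1316, 1315, 1314, 1310, 1306, 1305, 1304, 1303, 1302]) (by decide +kernel) (by decide +kernel)
    (aC (chk_sound smok0 c5692 (by decide +kernel)) (aC (chk_sound smok0 c5693 (by decide +kernel)) (aC (chk_sound smok0 c5694 (by decide +kernel)) (aC (chk_sound smok0 c5695 (by decide +kernel)) (aC (chk_sound smok0 c5696 (by decide +kernel)) (aC (chk_sound smok0 c5697 (by decide +kernel)) (aC (chk_sound smok0 c5698 (by decide +kernel)) (aC (chk_sound smok0 c5699 (by decide +kernel)) (aC (chk_sound smok0 c5700 (by decide +kernel)) (aC (chk_sound smok0 c5701 (by decide +kernel)) aN))))))))))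
theorem n615 : Rf E0 xe24 [905, 975, 1241, 1136, 1053] :=
  node_sound smok0 (q := 16) (ch := [1317, 1316, 1315, 1311, 1307, 1306, 1305, 1304, 1303, 1302]) (by decide +kernel) (by decide +kernel)
    (aC (chk_sound smok0 c5702 (by decide +kernel)) (aC (chk_sound smok0 c5703 (by decide +kernel)) (aC (chk_sound smok0 c5704 (by decide +kernel)) (aC (chk_sound smok0 c5705 (by decide +kernel)) (aC (chk_sound smok0 c5706 (by decide +kernel)) (aC (chk_sound smok0 c5707 (by decide +kernel)) (aC (chk_sound smok0 c5708 (by decide +kernel)) (aC (chk_sound smok0 c5709 (by decide +kernel)) (aC (chk_sound smok0 c5710 (by decide +kernel)) (aC (chk_sound smok0 c5711 (by decide +kernel)) aN))))))))))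
theorem n616 : Rf E0 xe24 [899, 975, 1241, 1136, 1053] :=
  node_sound smok0 (q := 10) (ch := [835, 834, 833, 832, 831, 830, 829, 828, 821, 820]) (by decide +kernel) (by decide +kernel)
    (aC (chk_sound smok0 c5712 (by decide +kernel)) (aC (chk_sound smok0 c5713 (by decide +kernel)) (aC (chk_sound smok0 c5714 (by decide +kernel)) (aC (chk_sound smok0 c5715 (by decide +kernel)) (aC (chk_sound smok0 c5716 (by decide +kernel)) (aC (chk_sound smok0 c5717 (by decide +kernel)) (aC (chk_sound smok0 c5718 (by decide +kernel)) (aC (chk_sound smok0 c5719 (by decide +kernel)) (aC (chk_sound smok0 c5720 (by decide +kernel)) (aC (chk_sound smok0 c5721 (by decide +kernel)) aN))))))))))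
theorem n617 : Rf E0 xe24 [975, 1241, 1136, 1053] :=
  node_sound smok0 (q := 11) (ch := [914, 913, 912, 911, 910, 909, 908, 907, 906, 905, 904, 903, 902, 901, 900, 899]) (by decide +kernel) (by decide +kernel)
    (aC (chk_sound smok0 c5722 (by decide +kernel)) (aC (chk_sound smok0 c5723 (by decide +kernel)) (aC (chk_sound smok0 c5724 (by decide +kernel)) (aC (chk_sound smok0 c5725 (by decide +kernel)) (aC (chk_sound smok0 c5726 (by decide +kernel)) (aC (chk_sound smok0 c5727 (by decide +kernel)) (aC (chk_sound smok0 c5728 (by decide +kernel)) (aC n613 (aC n614 (aC n615 (aC (chk_sound smok0 c5729 (by decide +kernel)) (aC (chk_sound smok0 c5730 (by decide +kernel)) (aC (chk_sound smok0 c5731 (by decide +kernel)) (aC (chk_sound smok0 c5732 (by decide +kernel)) (aC (chk_sound smok0 c5733 (by decide +kernel)) (aC n616 aN))))))))))))))))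
theorem n618 : Rf E0 xe24 [1241, 1136, 1053] :=
  node_sound smok0 (q := 12) (ch := [975]) (by decide +kernel) (by decide +kernel)
    (aC n617 aN)
theorem R0_24 : Rf E0 xe24 [1241, 1136, 1053] := n618
theorem R0_25 : Rf E0 xe25 [1215, 1136, 1053] := dead_sound smok0 (by decide +kernel) (by decide +kernel)
theorem R0_26 : Rf E0 xe26 [1216, 1136, 1053] := dead_sound smok0 (by decide +kernel) (by decide +kernel)
theorem R1_0 : Rf E1 xe0 [1218, 1137, 1053] := dead_sound smok1 (by decide +kernel) (by decide +kernel)
theorem R1_1 : Rf E1 xe1 [1219, 1137, 1053] := dead_sound smok1 (by decide +kernel) (by decide +kernel)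
theorem R1_2 : Rf E1 xe2 [1220, 1137, 1053] := dead_sound smok1 (by decide +kernel) (by decide +kernel)
theorem R1_3 : Rf E1 xe3 [1221, 1137, 1053] := dead_sound smok1 (by decide +kernel) (by decide +kernel)
theorem R1_4 : Rf E1 xe4 [1222, 1137, 1053] := dead_sound smok1 (by decide +kernel) (by decide +kernel)
theorem n619 : Rf E1 xe5 [1322, 1223, 1137, 1053] :=
  node_sound smok1 (q := 17) (ch := [1397, 1396, 1388, 1387, 1383, 1382, 1381, 1379]) (by decide +kernel) (by decide +kernel)
    (aC (chk_sound smok1 c5734 (by decide +kernel)) (aC (chk_sound smok1 c5735 (by decide +kernel)) (aC (chk_sound smok1 c5736 (by decide +kernel)) (aC (chk_sound smok1 c5737 (by decide +kernel)) (aC (chk_sound smok1 c5738 (by decide +kernel)) (aC (chk_sound smok1 c5739 (by decide +kernel)) (aC (chk_sound smok1 c5740 (by decide +kernel)) (aC (chk_sound smok1 c5741 (by decide +kernel)) aN))))))))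
theorem n620 : Rf E1 xe5 [1321, 1223, 1137, 1053] :=
  node_sound smok1 (q := 1) (ch := [105, 104, 101, 96, 92, 91, 90, 88, 83]) (by decide +kernel) (by decide +kernel)
    (aC (chk_sound smok1 c5742 (by decide +kernel)) (aC (chk_sound smok1 c5743 (by decide +kernel)) (aC (chk_sound smok1 c5744 (by decide +kernel)) (aC (chk_sound smok1 c5745 (by decide +kernel)) (aC (chk_sound smok1 c5746 (by decide +kernel)) (aC (chk_sound smok1 c5747 (by decide +kernel)) (aC (chk_sound smok1 c5748 (by decide +kernel)) (aC (chk_sound smok1 c5749 (by decide +kernel)) (aC (chk_sound smok1 c5750 (by decide +kernel)) aN)))))))))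
theorem n621 : Rf E1 xe5 [1320, 1223, 1137, 1053] :=
  node_sound smok1 (q := 1) (ch := [104, 101, 96, 92, 91, 90, 88, 83, 82]) (by decide +kernel) (by decide +kernel)
    (aC (chk_sound smok1 c5751 (by decide +kernel)) (aC (chk_sound smok1 c5752 (by decide +kernel)) (aC (chk_sound smok1 c5753 (by decide +kernel)) (aC (chk_sound smok1 c5754 (by decide +kernel)) (aC (chk_sound smok1 c5755 (by decide +kernel)) (aC (chk_sound smok1 c5756 (by decide +kernel)) (aC (chk_sound smok1 c5757 (by decide +kernel)) (aC (chk_sound smok1 c5758 (by decide +kernel)) (aC (chk_sound smok1 c5759 (by decide +kernel)) aN)))))))))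
theorem n622 : Rf E1 xe5 [1319, 1223, 1137, 1053] :=
  node_sound smok1 (q := 1) (ch := [105, 101, 96, 95, 91, 90, 88, 83, 82]) (by decide +kernel) (by decide +kernel)
    (aC (chk_sound smok1 c5760 (by decide +kernel)) (aC (chk_sound smok1 c5761 (by decide +kernel)) (aC (chk_sound smok1 c5762 (by decide +kernel)) (aC (chk_sound smok1 c5763 (by decide +kernel)) (aC (chk_sound smok1 c5764 (by decide +kernel)) (aC (chk_sound smok1 c5765 (by decide +kernel)) (aC (chk_sound smok1 c5766 (by decide +kernel)) (aC (chk_sound smok1 c5767 (by decide +kernel)) (aC (chk_sound smok1 c5768 (by decide +kernel)) aN)))))))))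
theorem n623 : Rf E1 xe5 [1318, 1223, 1137, 1053] :=
  node_sound smok1 (q := 1) (ch := [104, 101, 96, 95, 91, 90, 88, 83, 82]) (by decide +kernel) (by decide +kernel)
    (aC (chk_sound smok1 c5769 (by decide +kernel)) (aC (chk_sound smok1 c5770 (by decide +kernel)) (aC (chk_sound smok1 c5771 (by decide +kernel)) (aC (chk_sound smok1 c5772 (by decide +kernel)) (aC (chk_sound smok1 c5773 (by decide +kernel)) (aC (chk_sound smok1 c5774 (by decide +kernel)) (aC (chk_sound smok1 c5775 (by decide +kernel)) (aC (chk_sound smok1 c5776 (by decide +kernel)) (aC (chk_sound smok1 c5777 (by decide +kernel)) aN)))))))))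
theorem n624 : Rf E1 xe5 [1317, 1223, 1137, 1053] :=
  node_sound smok1 (q := 1) (ch := [104, 101, 96, 95, 94, 90, 88, 83, 82]) (by decide +kernel) (by decide +kernel)
    (aC (chk_sound smok1 c5778 (by decide +kernel)) (aC (chk_sound smok1 c5779 (by decide +kernel)) (aC (chk_sound smok1 c5780 (by decide +kernel)) (aC (chk_sound smok1 c5781 (by decide +kernel)) (aC (chk_sound smok1 c5782 (by decide +kernel)) (aC (chk_sound smok1 c5783 (by decide +kernel)) (aC (chk_sound smok1 c5784 (by decide +kernel)) (aC (chk_sound smok1 c5785 (by decide +kernel)) (aC (chk_sound smok1 c5786 (by decide +kernel)) aN)))))))))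
theorem n625 : Rf E1 xe5 [1315, 1223, 1137, 1053] :=
  node_sound smok1 (q := 1) (ch := [107, 101, 96, 95, 94, 93, 88, 83, 82]) (by decide +kernel) (by decide +kernel)
    (aC (chk_sound smok1 c5787 (by decide +kernel)) (aC (chk_sound smok1 c5788 (by decide +kernel)) (aC (chk_sound smok1 c5789 (by decide +kernel)) (aC (chk_sound smok1 c5790 (by decide +kernel)) (aC (chk_sound smok1 c5791 (by decide +kernel)) (aC (chk_sound smok1 c5792 (by decide +kernel)) (aC (chk_sound smok1 c5793 (by decide +kernel)) (aC (chk_sound smok1 c5794 (by decide +kernel)) (aC (chk_sound smok1 c5795 (by decide +kernel)) aN)))))))))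
theorem n626 : Rf E1 xe5 [1314, 1223, 1137, 1053] :=
  node_sound smok1 (q := 17) (ch := [1403, 1402, 1401, 1400, 1399, 1398, 1388, 1387, 1381]) (by decide +kernel) (by decide +kernel)
    (aC (chk_sound smok1 c5796 (by decide +kernel)) (aC (chk_sound smok1 c5797 (by decide +kernel)) (aC (chk_sound smok1 c5798 (by decide +kernel)) (aC (chk_sound smok1 c5799 (by decide +kernel)) (aC (chk_sound smok1 c5800 (by decide +kernel)) (aC (chk_sound smok1 c5801 (by decide +kernel)) (aC (chk_sound smok1 c5802 (by decide +kernel)) (aC (chk_sound smok1 c5803 (by decide +kernel)) (aC (chk_sound smok1 c5804 (by decide +kernel)) aN)))))))))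
theorem n627 : Rf E1 xe5 [1297, 1223, 1137, 1053] :=
  node_sound smok1 (q := 17) (ch := [1401, 1400, 1396, 1395, 1388, 1387, 1383, 1382, 1381]) (by decide +kernel) (by decide +kernel)
    (aC (chk_sound smok1 c5805 (by decide +kernel)) (aC (chk_sound smok1 c5806 (by decide +kernel)) (aC (chk_sound smok1 c5807 (by decide +kernel)) (aC (chk_sound smok1 c5808 (by decide +kernel)) (aC (chk_sound smok1 c5809 (by decide +kernel)) (aC (chk_sound smok1 c5810 (by decide +kernel)) (aC (chk_sound smok1 c5811 (by decide +kernel)) (aC (chk_sound smok1 c5812 (by decide +kernel)) (aC (chk_sound smok1 c5813 (by decide +kernel)) aN)))))))))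
theorem n628 : Rf E1 xe5 [1223, 1137, 1053] :=
  node_sound smok1 (q := 16) (ch := [1322, 1321, 1320, 1319, 1318, 1317, 1316, 1315, 1314, 1307, 1297]) (by decide +kernel) (by decide +kernel)
    (aC n619 (aC n620 (aC n621 (aC n622 (aC n623 (aC n624 (aC (chk_sound smok1 c5814 (by decide +kernel)) (aC n625 (aC n626 (aC (chk_sound smok1 c5815 (by decide +kernel)) (aC n627 aN)))))))))))
theorem R1_5 : Rf E1 xe5 [1223, 1137, 1053] := n628

end Pool.Agent.R989.ZP
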