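import Pool.Agent.R989.ZP.Ms
import Pool.Agent.R989.ZP.C00
import Pool.Agent.R989.ZP.C01
import Pool.Agent.R989.ZP.C02
import Pool.Agent.R989.ZP.C03
import Pool.Agent.R989.ZP.C04
import Pool.Agent.R989.ZP.C05
import Pool.Agent.R989.ZP.C06
import Pool.Agent.R989.ZP.C07
import Pool.Agent.R989.ZP.C08
import Pool.Agent.R989.ZP.C09
import Pool.Agent.R989.ZP.C10
import Pool.Agent.R989.ZP.C11
import Pool.Agent.R989.ZP.C12
import Pool.Agent.R989.ZP.C13
import Pool.Agent.R989.ZP.C14
import Pool.Agent.R989.ZP.C15
import Pool.Agent.R989.ZP.C16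
import Pool.Agent.R989.ZP.C17
import Pool.Agent.R989.ZP.C18
import Pool.Agent.R989.ZP.C19
import Pool.Agent.R989.ZP.C20
import Pool.Agent.R989.ZP.C21
import Pool.Agent.R989.ZP.C22
import Pool.Agent.R989.ZP.C23
import Pool.Agent.R989.ZP.C24
import Pool.Agent.R989.ZP.C25
import Pool.Agent.R989.ZP.C26
import Pool.Agent.R989.ZP.C27
import Pool.Agent.R989.ZP.C28
import Pool.Agent.R989.ZP.C29
import Pool.Agent.R989.ZP.C30
import Pool.Agent.R989.ZP.C31
import Pool.Agent.R989.ZP.C32
import Pool.Agent.R989.ZP.C33
import Pool.Agent.R989.ZP.C34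
import Pool.Agent.R989.ZP.C35
import Pool.Agent.R989.ZP.C36
import Pool.Agent.R989.ZP.C37
import Pool.Agent.R989.ZP.C38
import Pool.Agent.R989.ZP.C39
import Pool.Agent.R989.ZP.C40
import Pool.Agent.R989.ZP.C41
import Pool.Agent.R989.ZP.C42
import Pool.Agent.R989.ZP.C43
import Pool.Agent.R989.ZP.C44
import Pool.Agent.R989.ZP.C45
import Pool.Agent.R989.ZP.C46
import Pool.Agent.R989.ZP.C47

set_option maxRecDepth 100000

namespace Pool.Agent.R989.ZP

theorem n629 : Rf E1 xe6 [1322, 1224, 1137, 1053] :=
  node_sound smok1 (q := 1) (ch := [106, 105, 102, 93, 92, 91, 89, 88, 83]) (by decide +kernel) (by decide +kernel)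
    (aC (chk_sound smok1 c5816 (by decide +kernel)) (aC (chk_sound smok1 c5817 (by decide +kernel)) (aC (chk_sound smok1 c5818 (by decide +kernel)) (aC (chk_sound smok1 c5819 (by decide +kernel)) (aC (chk_sound smok1 c5820 (by decide +kernel)) (aC (chk_sound smok1 c5821 (by decide +kernel)) (aC (chk_sound smok1 c5822 (by decide +kernel)) (aC (chk_sound smok1 c5823 (by decide +kernel)) (aC (chk_sound smok1 c5824 (by decide +kernel)) aN)))))))))
theorem n630 : Rf E1 xe6 [1321, 1224, 1137, 1053] :=
  node_sound smok1 (q := 1) (ch := [105, 102, 96, 92, 91, 89, 88, 83]) (by decide +kernel) (by decide +kernel)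
    (aC (chk_sound smok1 c5825 (by decide +kernel)) (aC (chk_sound smok1 c5826 (by decide +kernel)) (aC (chk_sound smok1 c5827 (by decide +kernel)) (aC (chk_sound smok1 c5828 (by decide +kernel)) (aC (chk_sound smok1 c5829 (by decide +kernel)) (aC (chk_sound smok1 c5830 (by decide +kernel)) (aC (chk_sound smok1 c5831 (by decide +kernel)) (aC (chk_sound smok1 c5832 (by decide +kernel)) aN))))))))
theorem n631 : Rf E1 xe6 [1320, 1224, 1137, 1053] :=
  node_sound smok1 (q := 1) (ch := [102, 96, 92, 91, 89, 88, 83, 82]) (by decide +kernel) (by decide +kernel)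
    (aC (chk_sound smok1 c5833 (by decide +kernel)) (aC (chk_sound smok1 c5834 (by decide +kernel)) (aC (chk_sound smok1 c5835 (by decide +kernel)) (aC (chk_sound smok1 c5836 (by decide +kernel)) (aC (chk_sound smok1 c5837 (by decide +kernel)) (aC (chk_sound smok1 c5838 (by decide +kernel)) (aC (chk_sound smok1 c5839 (by decide +kernel)) (aC (chk_sound smok1 c5840 (by decide +kernel)) aN))))))))
theorem n632 : Rf E1 xe6 [1319, 1224, 1137, 1053] :=
  node_sound smok1 (q := 1) (ch := [105, 102, 96, 95, 91, 89, 88, 83, 82]) (by decide +kernel) (by decide +kernel)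
    (aC (chk_sound smok1 c5841 (by decide +kernel)) (aC (chk_sound smok1 c5842 (by decide +kernel)) (aC (chk_sound smok1 c5843 (by decide +kernel)) (aC (chk_sound smok1 c5844 (by decide +kernel)) (aC (chk_sound smok1 c5845 (by decide +kernel)) (aC (chk_sound smok1 c5846 (by decide +kernel)) (aC (chk_sound smok1 c5847 (by decide +kernel)) (aC (chk_sound smok1 c5848 (by decide +kernel)) (aC (chk_sound smok1 c5849 (by decide +kernel)) aN)))))))))
theorem n633 : Rf E1 xe6 [1318, 1224, 1137, 1053] :=
  node_sound smok1 (q := 1) (ch := [102, 96, 95, 91, 89, 88, 83, 82]) (by decide +kernel) (by decide +kernel)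
    (aC (chk_sound smok1 c5850 (by decide +kernel)) (aC (chk_sound smok1 c5851 (by decide +kernel)) (aC (chk_sound smok1 c5852 (by decide +kernel)) (aC (chk_sound smok1 c5853 (by decide +kernel)) (aC (chk_sound smok1 c5854 (by decide +kernel)) (aC (chk_sound smok1 c5855 (by decide +kernel)) (aC (chk_sound smok1 c5856 (by decide +kernel)) (aC (chk_sound smok1 c5857 (by decide +kernel)) aN))))))))
theorem n634 : Rf E1 xe6 [1316, 1224, 1137, 1053] :=
  node_sound smok1 (q := 1) (ch := [107, 102, 96, 95, 94, 89, 88, 83, 82]) (by decide +kernel) (by decide +kernel)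
    (aC (chk_sound smok1 c5858 (by decide +kernel)) (aC (chk_sound smok1 c5859 (by decide +kernel)) (aC (chk_sound smok1 c5860 (by decide +kernel)) (aC (chk_sound smok1 c5861 (by decide +kernel)) (aC (chk_sound smok1 c5862 (by decide +kernel)) (aC (chk_sound smok1 c5863 (by decide +kernel)) (aC (chk_sound smok1 c5864 (by decide +kernel)) (aC (chk_sound smok1 c5865 (by decide +kernel)) (aC (chk_sound smok1 c5866 (by decide +kernel)) aN)))))))))
theorem n635 : Rf E1 xe6 [1309, 1224, 1137, 1053] :=
  node_sound smok1 (q := 1) (ch := [107, 106, 105, 96, 95, 93, 92, 91, 83, 82]) (by decide +kernel) (by decide +kernel)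
    (aC (chk_sound smok1 c5867 (by decide +kernel)) (aC (chk_sound smok1 c5868 (by decide +kernel)) (aC (chk_sound smok1 c5869 (by decide +kernel)) (aC (chk_sound smok1 c5870 (by decide +kernel)) (aC (chk_sound smok1 c5871 (by decide +kernel)) (aC (chk_sound smok1 c5872 (by decide +kernel)) (aC (chk_sound smok1 c5873 (by decide +kernel)) (aC (chk_sound smok1 c5874 (by decide +kernel)) (aC (chk_sound smok1 c5875 (by decide +kernel)) (aC (chk_sound smok1 c5876 (by decide +kernel)) aN))))))))))
theorem n636 : Rf E1 xe6 [1297, 1224, 1137, 1053] :=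
  node_sound smok1 (q := 1) (ch := [107, 106, 105, 102, 94, 93, 92, 91, 89, 88]) (by decide +kernel) (by decide +kernel)
    (aC (chk_sound smok1 c5877 (by decide +kernel)) (aC (chk_sound smok1 c5878 (by decide +kernel)) (aC (chk_sound smok1 c5879 (by decide +kernel)) (aC (chk_sound smok1 c5880 (by decide +kernel)) (aC (chk_sound smok1 c5881 (by decide +kernel)) (aC (chk_sound smok1 c5882 (by decide +kernel)) (aC (chk_sound smok1 c5883 (by decide +kernel)) (aC (chk_sound smok1 c5884 (by decide +kernel)) (aC (chk_sound smok1 c5885 (by decide +kernel)) (aC (chk_sound smok1 c5886 (by decide +kernel)) aN))))))))))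
theorem n637 : Rf E1 xe6 [1224, 1137, 1053] :=
  node_sound smok1 (q := 16) (ch := [1322, 1321, 1320, 1319, 1318, 1317, 1316, 1309, 1308, 1297]) (by decide +kernel) (by decide +kernel)
    (aC n629 (aC n630 (aC n631 (aC n632 (aC n633 (aC (chk_sound smok1 c5887 (by decide +kernel)) (aC n634 (aC n635 (aC (chk_sound smok1 c5888 (by decide +kernel)) (aC n636 aN))))))))))
theorem R1_6 : Rf E1 xe6 [1224, 1137, 1053] := n637
theorem n638 : Rf E1 xe7 [1321, 1225, 1137, 1053] :=
  node_sound smok1 (q := 1) (ch := [103, 102, 96, 92, 90, 89, 85, 83]) (by decide +kernel) (by decide +kernel)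
    (aC (chk_sound smok1 c5889 (by decide +kernel)) (aC (chk_sound smok1 c5890 (by decide +kernel)) (aC (chk_sound smok1 c5891 (by decide +kernel)) (aC (chk_sound smok1 c5892 (by decide +kernel)) (aC (chk_sound smok1 c5893 (by decide +kernel)) (aC (chk_sound smok1 c5894 (by decide +kernel)) (aC (chk_sound smok1 c5895 (by decide +kernel)) (aC (chk_sound smok1 c5896 (by decide +kernel)) aN))))))))
theorem n639 : Rf E1 xe7 [1320, 1225, 1137, 1053] :=
  node_sound smok1 (q := 1) (ch := [103, 102, 96, 92, 90, 89, 85, 83, 82]) (by decide +kernel) (by decide +kernel)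
    (aC (chk_sound smok1 c5897 (by decide +kernel)) (aC (chk_sound smok1 c5898 (by decide +kernel)) (aC (chk_sound smok1 c5899 (by decide +kernel)) (aC (chk_sound smok1 c5900 (by decide +kernel)) (aC (chk_sound smok1 c5901 (by decide +kernel)) (aC (chk_sound smok1 c5902 (by decide +kernel)) (aC (chk_sound smok1 c5903 (by decide +kernel)) (aC (chk_sound smok1 c5904 (by decide +kernel)) (aC (chk_sound smok1 c5905 (by decide +kernel)) aN)))))))))
theorem n640 : Rf E1 xe7 [1319, 1225, 1137, 1053] :=
  node_sound smok1 (q := 1) (ch := [103, 102, 96, 95, 90, 89, 85, 83, 82]) (by decide +kernel) (by decide +kernel)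
    (aC (chk_sound smok1 c5906 (by decide +kernel)) (aC (chk_sound smok1 c5907 (by decide +kernel)) (aC (chk_sound smok1 c5908 (by decide +kernel)) (aC (chk_sound smok1 c5909 (by decide +kernel)) (aC (chk_sound smok1 c5910 (by decide +kernel)) (aC (chk_sound smok1 c5911 (by decide +kernel)) (aC (chk_sound smok1 c5912 (by decide +kernel)) (aC (chk_sound smok1 c5913 (by decide +kernel)) (aC (chk_sound smok1 c5914 (by decide +kernel)) aN)))))))))
theorem n641 : Rf E1 xe7 [1311, 1225, 1137, 1053] :=
  node_sound smok1 (q := 1) (ch := [107, 106, 95, 94, 93, 92, 85, 83, 82]) (by decide +kernel) (by decide +kernel)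
    (aC (chk_sound smok1 c5915 (by decide +kernel)) (aC (chk_sound smok1 c5916 (by decide +kernel)) (aC (chk_sound smok1 c5917 (by decide +kernel)) (aC (chk_sound smok1 c5918 (by decide +kernel)) (aC (chk_sound smok1 c5919 (by decide +kernel)) (aC (chk_sound smok1 c5920 (by decide +kernel)) (aC (chk_sound smok1 c5921 (by decide +kernel)) (aC (chk_sound smok1 c5922 (by decide +kernel)) (aC (chk_sound smok1 c5923 (by decide +kernel)) aN)))))))))
theorem n642 : Rf E1 xe7 [1310, 1225, 1137, 1053] :=
  node_sound smok1 (q := 1) (ch := [107, 106, 96, 94, 93, 92, 85, 83, 82]) (by decide +kernel) (by decide +kernel)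
    (aC (chk_sound smok1 c5924 (by decide +kernel)) (aC (chk_sound smok1 c5925 (by decide +kernel)) (aC (chk_sound smok1 c5926 (by decide +kernel)) (aC (chk_sound smok1 c5927 (by decide +kernel)) (aC (chk_sound smok1 c5928 (by decide +kernel)) (aC (chk_sound smok1 c5929 (by decide +kernel)) (aC (chk_sound smok1 c5930 (by decide +kernel)) (aC (chk_sound smok1 c5931 (by decide +kernel)) (aC (chk_sound smok1 c5932 (by decide +kernel)) aN)))))))))
theorem n643 : Rf E1 xe7 [1297, 1225, 1137, 1053] :=
  node_sound smok1 (q := 1) (ch := [107, 106, 103, 102, 94, 93, 92, 90, 89, 85]) (by decide +kernel) (by decide +kernel)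
    (aC (chk_sound smok1 c5933 (by decide +kernel)) (aC (chk_sound smok1 c5934 (by decide +kernel)) (aC (chk_sound smok1 c5935 (by decide +kernel)) (aC (chk_sound smok1 c5936 (by decide +kernel)) (aC (chk_sound smok1 c5937 (by decide +kernel)) (aC (chk_sound smok1 c5938 (by decide +kernel)) (aC (chk_sound smok1 c5939 (by decide +kernel)) (aC (chk_sound smok1 c5940 (by decide +kernel)) (aC (chk_sound smok1 c5941 (by decide +kernel)) (aC (chk_sound smok1 c5942 (by decide +kernel)) aN))))))))))
theorem n644 : Rf E1 xe7 [1225, 1137, 1053] :=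
  node_sound smok1 (q := 16) (ch := [1322, 1321, 1320, 1319, 1318, 1311, 1310, 1309, 1297]) (by decide +kernel) (by decide +kernel)
    (aC (chk_sound smok1 c5943 (by decide +kernel)) (aC n638 (aC n639 (aC n640 (aC (chk_sound smok1 c5944 (by decide +kernel)) (aC n641 (aC n642 (aC (chk_sound smok1 c5945 (by decide +kernel)) (aC n643 aN)))))))))
theorem R1_7 : Rf E1 xe7 [1225, 1137, 1053] := n644
theorem n645 : Rf E1 xe8 [1321, 1226, 1137, 1053] :=
  node_sound smok1 (q := 12) (ch := [991, 990, 986, 985, 984, 982, 978, 977]) (by decide +kernel) (by decide +kernel)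
    (aC (chk_sound smok1 c5946 (by decide +kernel)) (aC (chk_sound smok1 c5947 (by decide +kernel)) (aC (chk_sound smok1 c5948 (by decide +kernel)) (aC (chk_sound smok1 c5949 (by decide +kernel)) (aC (chk_sound smok1 c5950 (by decide +kernel)) (aC (chk_sound smok1 c5951 (by decide +kernel)) (aC (chk_sound smok1 c5952 (by decide +kernel)) (aC (chk_sound smok1 c5953 (by decide +kernel)) aN))))))))
theorem n646 : Rf E1 xe8 [1320, 1226, 1137, 1053] :=
  node_sound smok1 (q := 12) (ch := [991, 990, 986, 985, 984, 979, 978, 977]) (by decide +kernel) (by decide +kernel)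
    (aC (chk_sound smok1 c5954 (by decide +kernel)) (aC (chk_sound smok1 c5955 (by decide +kernel)) (aC (chk_sound smok1 c5956 (by decide +kernel)) (aC (chk_sound smok1 c5957 (by decide +kernel)) (aC (chk_sound smok1 c5958 (by decide +kernel)) (aC (chk_sound smok1 c5959 (by decide +kernel)) (aC (chk_sound smok1 c5960 (by decide +kernel)) (aC (chk_sound smok1 c5961 (by decide +kernel)) aN))))))))
theorem n647 : Rf E1 xe8 [1313, 1226, 1137, 1053] :=
  node_sound smok1 (q := 1) (ch := [107, 99, 96, 95, 94, 93, 85, 83, 82]) (by decide +kernel) (by decide +kernel)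
    (aC (chk_sound smok1 c5962 (by decide +kernel)) (aC (chk_sound smok1 c5963 (by decide +kernel)) (aC (chk_sound smok1 c5964 (by decide +kernel)) (aC (chk_sound smok1 c5965 (by decide +kernel)) (aC (chk_sound smok1 c5966 (by decide +kernel)) (aC (chk_sound smok1 c5967 (by decide +kernel)) (aC (chk_sound smok1 c5968 (by decide +kernel)) (aC (chk_sound smok1 c5969 (by decide +kernel)) (aC (chk_sound smok1 c5970 (by decide +kernel)) aN)))))))))
theorem n648 : Rf E1 xe8 [1312, 1226, 1137, 1053] :=
  node_sound smok1 (q := 1) (ch := [107, 99, 96, 95, 94, 93, 85, 83, 82]) (by decide +kernel) (by decide +kernel)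
    (aC (chk_sound smok1 c5971 (by decide +kernel)) (aC (chk_sound smok1 c5972 (by decide +kernel)) (aC (chk_sound smok1 c5973 (by decide +kernel)) (aC (chk_sound smok1 c5974 (by decide +kernel)) (aC (chk_sound smok1 c5975 (by decide +kernel)) (aC (chk_sound smok1 c5976 (by decide +kernel)) (aC (chk_sound smok1 c5977 (by decide +kernel)) (aC (chk_sound smok1 c5978 (by decide +kernel)) (aC (chk_sound smok1 c5979 (by decide +kernel)) aN)))))))))
theorem n649 : Rf E1 xe8 [1311, 1226, 1137, 1053] :=
  node_sound smok1 (q := 1) (ch := [107, 99, 95, 94, 93, 91, 85, 83, 82]) (by decide +kernel) (by decide +kernel)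
    (aC (chk_sound smok1 c5980 (by decide +kernel)) (aC (chk_sound smok1 c5981 (by decide +kernel)) (aC (chk_sound smok1 c5982 (by decide +kernel)) (aC (chk_sound smok1 c5983 (by decide +kernel)) (aC (chk_sound smok1 c5984 (by decide +kernel)) (aC (chk_sound smok1 c5985 (by decide +kernel)) (aC (chk_sound smok1 c5986 (by decide +kernel)) (aC (chk_sound smok1 c5987 (by decide +kernel)) (aC (chk_sound smok1 c5988 (by decide +kernel)) aN)))))))))
theorem n650 : Rf E1 xe8 [1304, 1226, 1137, 1053] :=
  node_sound smok1 (q := 17) (ch := [1403, 1402, 1401, 1394, 1393, 1392, 1379, 1378]) (by decide +kernel) (by decide +kernel)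
    (aC (chk_sound smok1 c5989 (by decide +kernel)) (aC (chk_sound smok1 c5990 (by decide +kernel)) (aC (chk_sound smok1 c5991 (by decide +kernel)) (aC (chk_sound smok1 c5992 (by decide +kernel)) (aC (chk_sound smok1 c5993 (by decide +kernel)) (aC (chk_sound smok1 c5994 (by decide +kernel)) (aC (chk_sound smok1 c5995 (by decide +kernel)) (aC (chk_sound smok1 c5996 (by decide +kernel)) aN))))))))
theorem n651 : Rf E1 xe8 [1297, 1226, 1137, 1053] :=
  node_sound smok1 (q := 12) (ch := [991, 990, 986, 985, 984, 982, 981, 980, 979]) (by decide +kernel) (by decide +kernel)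
    (aC (chk_sound smok1 c5997 (by decide +kernel)) (aC (chk_sound smok1 c5998 (by decide +kernel)) (aC (chk_sound smok1 c5999 (by decide +kernel)) (aC (chk_sound smok1 c6000 (by decide +kernel)) (aC (chk_sound smok1 c6001 (by decide +kernel)) (aC (chk_sound smok1 c6002 (by decide +kernel)) (aC (chk_sound smok1 c6003 (by decide +kernel)) (aC (chk_sound smok1 c6004 (by decide +kernel)) (aC (chk_sound smok1 c6005 (by decide +kernel)) aN)))))))))
theorem n652 : Rf E1 xe8 [1226, 1137, 1053] :=
  node_sound smok1 (q := 16) (ch := [1322, 1321, 1320, 1313, 1312, 1311, 1310, 1304, 1297]) (by decide +kernel) (by decide +kernel)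
    (aC (chk_sound smok1 c6006 (by decide +kernel)) (aC n645 (aC n646 (aC n647 (aC n648 (aC n649 (aC (chk_sound smok1 c6007 (by decide +kernel)) (aC n650 (aC n651 aN)))))))))
theorem R1_8 : Rf E1 xe8 [1226, 1137, 1053] := n652
theorem n653 : Rf E1 xe9 [1315, 1227, 1137, 1053] :=
  node_sound smok1 (q := 1) (ch := [103, 99, 96, 95, 94, 86, 85, 83, 82]) (by decide +kernel) (by decide +kernel)
    (aC (chk_sound smok1 c6008 (by decide +kernel)) (aC (chk_sound smok1 c6009 (by decide +kernel)) (aC (chk_sound smok1 c6010 (by decide +kernel)) (aC (chk_sound smok1 c6011 (by decide +kernel)) (aC (chk_sound smok1 c6012 (by decide +kernel)) (aC (chk_sound smok1 c6013 (by decide +kernel)) (aC (chk_sound smok1 c6014 (by decide +kernel)) (aC (chk_sound smok1 c6015 (by decide +kernel)) (aC (chk_sound smok1 c6016 (by decide +kernel)) aN)))))))))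
theorem n654 : Rf E1 xe9 [1314, 1227, 1137, 1053] :=
  node_sound smok1 (q := 1) (ch := [96, 95, 94, 86, 85, 83, 82]) (by decide +kernel) (by decide +kernel)
    (aC (chk_sound smok1 c6017 (by decide +kernel)) (aC (chk_sound smok1 c6018 (by decide +kernel)) (aC (chk_sound smok1 c6019 (by decide +kernel)) (aC (chk_sound smok1 c6020 (by decide +kernel)) (aC (chk_sound smok1 c6021 (by decide +kernel)) (aC (chk_sound smok1 c6022 (by decide +kernel)) (aC (chk_sound smok1 c6023 (by decide +kernel)) aN)))))))
theorem n655 : Rf E1 xe9 [1313, 1227, 1137, 1053] :=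
  node_sound smok1 (q := 1) (ch := [99, 96, 95, 94, 92, 86, 85, 83, 82]) (by decide +kernel) (by decide +kernel)
    (aC (chk_sound smok1 c6024 (by decide +kernel)) (aC (chk_sound smok1 c6025 (by decide +kernel)) (aC (chk_sound smok1 c6026 (by decide +kernel)) (aC (chk_sound smok1 c6027 (by decide +kernel)) (aC (chk_sound smok1 c6028 (by decide +kernel)) (aC (chk_sound smok1 c6029 (by decide +kernel)) (aC (chk_sound smok1 c6030 (by decide +kernel)) (aC (chk_sound smok1 c6031 (by decide +kernel)) (aC (chk_sound smok1 c6032 (by decide +kernel)) aN)))))))))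
theorem n656 : Rf E1 xe9 [1312, 1227, 1137, 1053] :=
  node_sound smok1 (q := 12) (ch := [985, 983, 982, 981, 980, 979, 978, 977]) (by decide +kernel) (by decide +kernel)
    (aC (chk_sound smok1 c6033 (by decide +kernel)) (aC (chk_sound smok1 c6034 (by decide +kernel)) (aC (chk_sound smok1 c6035 (by decide +kernel)) (aC (chk_sound smok1 c6036 (by decide +kernel)) (aC (chk_sound smok1 c6037 (by decide +kernel)) (aC (chk_sound smok1 c6038 (by decide +kernel)) (aC (chk_sound smok1 c6039 (by decide +kernel)) (aC (chk_sound smok1 c6040 (by decide +kernel)) aN))))))))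
theorem n657 : Rf E1 xe9 [1311, 1227, 1137, 1053] :=
  node_sound smok1 (q := 12) (ch := [985, 983, 982, 981, 980, 979, 978, 977]) (by decide +kernel) (by decide +kernel)
    (aC (chk_sound smok1 c6041 (by decide +kernel)) (aC (chk_sound smok1 c6042 (by decide +kernel)) (aC (chk_sound smok1 c6043 (by decide +kernel)) (aC (chk_sound smok1 c6044 (by decide +kernel)) (aC (chk_sound smok1 c6045 (by decide +kernel)) (aC (chk_sound smok1 c6046 (by decide +kernel)) (aC (chk_sound smok1 c6047 (by decide +kernel)) (aC (chk_sound smok1 c6048 (by decide +kernel)) aN))))))))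
theorem n658 : Rf E1 xe9 [1304, 1227, 1137, 1053] :=
  node_sound smok1 (q := 17) (ch := [1403, 1396, 1395, 1394, 1393, 1392, 1379, 1378]) (by decide +kernel) (by decide +kernel)
    (aC (chk_sound smok1 c6049 (by decide +kernel)) (aC (chk_sound smok1 c6050 (by decide +kernel)) (aC (chk_sound smok1 c6051 (by decide +kernel)) (aC (chk_sound smok1 c6052 (by decide +kernel)) (aC (chk_sound smok1 c6053 (by decide +kernel)) (aC (chk_sound smok1 c6054 (by decide +kernel)) (aC (chk_sound smok1 c6055 (by decide +kernel)) (aC (chk_sound smok1 c6056 (by decide +kernel)) aN))))))))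
theorem n659 : Rf E1 xe9 [1297, 1227, 1137, 1053] :=
  node_sound smok1 (q := 12) (ch := [990, 989, 985, 983, 982, 981, 980, 979]) (by decide +kernel) (by decide +kernel)
    (aC (chk_sound smok1 c6057 (by decide +kernel)) (aC (chk_sound smok1 c6058 (by decide +kernel)) (aC (chk_sound smok1 c6059 (by decide +kernel)) (aC (chk_sound smok1 c6060 (by decide +kernel)) (aC (chk_sound smok1 c6061 (by decide +kernel)) (aC (chk_sound smok1 c6062 (by decide +kernel)) (aC (chk_sound smok1 c6063 (by decide +kernel)) (aC (chk_sound smok1 c6064 (by decide +kernel)) aN))))))))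
theorem n660 : Rf E1 xe9 [1227, 1137, 1053] :=
  node_sound smok1 (q := 16) (ch := [1322, 1315, 1314, 1313, 1312, 1311, 1305, 1304, 1297]) (by decide +kernel) (by decide +kernel)
    (aC (chk_sound smok1 c6065 (by decide +kernel)) (aC n653 (aC n654 (aC n655 (aC n656 (aC n657 (aC (chk_sound smok1 c6066 (by decide +kernel)) (aC n658 (aC n659 aN)))))))))
theorem R1_9 : Rf E1 xe9 [1227, 1137, 1053] := n660
theorem n661 : Rf E1 xe10 [989, 1228, 1137, 1053] :=
  node_sound smok1 (q := 11) (ch := [913, 912, 911, 903, 902, 901, 900, 893]) (by decide +kernel) (by decide +kernel)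
    (aC (chk_sound smok1 c6067 (by decide +kernel)) (aC (chk_sound smok1 c6068 (by decide +kernel)) (aC (chk_sound smok1 c6069 (by decide +kernel)) (aC (chk_sound smok1 c6070 (by decide +kernel)) (aC (chk_sound smok1 c6071 (by decide +kernel)) (aC (chk_sound smok1 c6072 (by decide +kernel)) (aC (chk_sound smok1 c6073 (by decide +kernel)) (aC (chk_sound smok1 c6074 (by decide +kernel)) aN))))))))
theorem n662 : Rf E1 xe10 [988, 1228, 1137, 1053] :=
  node_sound smok1 (q := 16) (ch := [1317, 1316, 1315, 1306, 1305, 1304, 1297]) (by decide +kernel) (by decide +kernel)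
    (aC (chk_sound smok1 c6075 (by decide +kernel)) (aC (chk_sound smok1 c6076 (by decide +kernel)) (aC (chk_sound smok1 c6077 (by decide +kernel)) (aC (chk_sound smok1 c6078 (by decide +kernel)) (aC (chk_sound smok1 c6079 (by decide +kernel)) (aC (chk_sound smok1 c6080 (by decide +kernel)) (aC (chk_sound smok1 c6081 (by decide +kernel)) aN)))))))
theorem n663 : Rf E1 xe10 [984, 1228, 1137, 1053] :=
  node_sound smok1 (q := 16) (ch := [1315, 1314, 1313, 1312, 1306, 1305, 1304, 1297]) (by decide +kernel) (by decide +kernel)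
    (aC (chk_sound smok1 c6082 (by decide +kernel)) (aC (chk_sound smok1 c6083 (by decide +kernel)) (aC (chk_sound smok1 c6084 (by decide +kernel)) (aC (chk_sound smok1 c6085 (by decide +kernel)) (aC (chk_sound smok1 c6086 (by decide +kernel)) (aC (chk_sound smok1 c6087 (by decide +kernel)) (aC (chk_sound smok1 c6088 (by decide +kernel)) (aC (chk_sound smok1 c6089 (by decide +kernel)) aN))))))))
theorem n664 : Rf E1 xe10 [982, 1228, 1137, 1053] :=
  node_sound smok1 (q := 11) (ch := [913, 898, 897, 896, 895, 893]) (by decide +kernel) (by decide +kernel)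
    (aC (chk_sound smok1 c6090 (by decide +kernel)) (aC (chk_sound smok1 c6091 (by decide +kernel)) (aC (chk_sound smok1 c6092 (by decide +kernel)) (aC (chk_sound smok1 c6093 (by decide +kernel)) (aC (chk_sound smok1 c6094 (by decide +kernel)) (aC (chk_sound smok1 c6095 (by decide +kernel)) aN))))))
theorem n665 : Rf E1 xe10 [981, 1228, 1137, 1053] :=
  node_sound smok1 (q := 11) (ch := [913, 912, 911, 903, 897, 896, 895, 893]) (by decide +kernel) (by decide +kernel)
    (aC (chk_sound smok1 c6096 (by decide +kernel)) (aC (chk_sound smok1 c6097 (by decide +kernel)) (aC (chk_sound smok1 c6098 (by decide +kernel)) (aC (chk_sound smok1 c6099 (by decide +kernel)) (aC (chk_sound smok1 c6100 (by decide +kernel)) (aC (chk_sound smok1 c6101 (by decide +kernel)) (aC (chk_sound smok1 c6102 (by decide +kernel)) (aC (chk_sound smok1 c6103 (by decide +kernel)) aN))))))))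
theorem n666 : Rf E1 xe10 [980, 1228, 1137, 1053] :=
  node_sound smok1 (q := 0) (ch := [26, 25, 23, 22, 21, 18, 12, 9, 4]) (by decide +kernel) (by decide +kernel)
    (aC (chk_sound smok1 c6104 (by decide +kernel)) (aC (chk_sound smok1 c6105 (by decide +kernel)) (aC (chk_sound smok1 c6106 (by decide +kernel)) (aC (chk_sound smok1 c6107 (by decide +kernel)) (aC (chk_sound smok1 c6108 (by decide +kernel)) (aC (chk_sound smok1 c6109 (by decide +kernel)) (aC (chk_sound smok1 c6110 (by decide +kernel)) (aC (chk_sound smok1 c6111 (by decide +kernel)) (aC (chk_sound smok1 c6112 (by decide +kernel)) aN)))))))))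
theorem n667 : Rf E1 xe10 [979, 1228, 1137, 1053] :=
  node_sound smok1 (q := 0) (ch := [26, 25, 22, 21, 12, 11, 9, 8, 4]) (by decide +kernel) (by decide +kernel)
    (aC (chk_sound smok1 c6113 (by decide +kernel)) (aC (chk_sound smok1 c6114 (by decide +kernel)) (aC (chk_sound smok1 c6115 (by decide +kernel)) (aC (chk_sound smok1 c6116 (by decide +kernel)) (aC (chk_sound smok1 c6117 (by decide +kernel)) (aC (chk_sound smok1 c6118 (by decide +kernel)) (aC (chk_sound smok1 c6119 (by decide +kernel)) (aC (chk_sound smok1 c6120 (by decide +kernel)) (aC (chk_sound smok1 c6121 (by decide +kernel)) aN)))))))))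
theorem n668 : Rf E1 xe10 [978, 1228, 1137, 1053] :=
  node_sound smok1 (q := 11) (ch := [913, 912, 911, 910, 909, 908, 907, 893]) (by decide +kernel) (by decide +kernel)
    (aC (chk_sound smok1 c6122 (by decide +kernel)) (aC (chk_sound smok1 c6123 (by decide +kernel)) (aC (chk_sound smok1 c6124 (by decide +kernel)) (aC (chk_sound smok1 c6125 (by decide +kernel)) (aC (chk_sound smok1 c6126 (by decide +kernel)) (aC (chk_sound smok1 c6127 (by decide +kernel)) (aC (chk_sound smok1 c6128 (by decide +kernel)) (aC (chk_sound smok1 c6129 (by decide +kernel)) aN))))))))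
theorem n669 : Rf E1 xe10 [977, 1228, 1137, 1053] :=
  node_sound smok1 (q := 0) (ch := [26, 25, 24, 21, 19, 12, 11, 10, 8]) (by decide +kernel) (by decide +kernel)
    (aC (chk_sound smok1 c6130 (by decide +kernel)) (aC (chk_sound smok1 c6131 (by decide +kernel)) (aC (chk_sound smok1 c6132 (by decide +kernel)) (aC (chk_sound smok1 c6133 (by decide +kernel)) (aC (chk_sound smok1 c6134 (by decide +kernel)) (aC (chk_sound smok1 c6135 (by decide +kernel)) (aC (chk_sound smok1 c6136 (by decide +kernel)) (aC (chk_sound smok1 c6137 (by decide +kernel)) (aC (chk_sound smok1 c6138 (by decide +kernel)) aN)))))))))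
theorem n670 : Rf E1 xe10 [1228, 1137, 1053] :=
  node_sound smok1 (q := 12) (ch := [989, 988, 984, 983, 982, 981, 980, 979, 978, 977]) (by decide +kernel) (by decide +kernel)
    (aC n661 (aC n662 (aC n663 (aC (chk_sound smok1 c6139 (by decide +kernel)) (aC n664 (aC n665 (aC n666 (aC n667 (aC n668 (aC n669 aN))))))))))
theorem R1_10 : Rf E1 xe10 [1228, 1137, 1053] := n670
theorem n671 : Rf E1 xe11 [988, 1229, 1137, 1053] :=
  node_sound smok1 (q := 11) (ch := [913, 912, 911, 910, 902, 901, 900, 899, 898]) (by decide +kernel) (by decide +kernel)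
    (aC (chk_sound smok1 c6140 (by decide +kernel)) (aC (chk_sound smok1 c6141 (by decide +kernel)) (aC (chk_sound smok1 c6142 (by decide +kernel)) (aC (chk_sound smok1 c6143 (by decide +kernel)) (aC (chk_sound smok1 c6144 (by decide +kernel)) (aC (chk_sound smok1 c6145 (by decide +kernel)) (aC (chk_sound smok1 c6146 (by decide +kernel)) (aC (chk_sound smok1 c6147 (by decide +kernel)) (aC (chk_sound smok1 c6148 (by decide +kernel)) aN)))))))))
theorem n672 : Rf E1 xe11 [987, 1229, 1137, 1053] :=
  node_sound smok1 (q := 16) (ch := [1319, 1318, 1317, 1316, 1307, 1306, 1305, 1304]) (by decide +kernel) (by decide +kernel)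
    (aC (chk_sound smok1 c6149 (by decide +kernel)) (aC (chk_sound smok1 c6150 (by decide +kernel)) (aC (chk_sound smok1 c6151 (by decide +kernel)) (aC (chk_sound smok1 c6152 (by decide +kernel)) (aC (chk_sound smok1 c6153 (by decide +kernel)) (aC (chk_sound smok1 c6154 (by decide +kernel)) (aC (chk_sound smok1 c6155 (by decide +kernel)) (aC (chk_sound smok1 c6156 (by decide +kernel)) aN))))))))
theorem n673 : Rf E1 xe11 [983, 1229, 1137, 1053] :=
  node_sound smok1 (q := 16) (ch := [1316, 1315, 1314, 1313, 1306, 1305, 1304]) (by decide +kernel) (by decide +kernel)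
    (aC (chk_sound smok1 c6157 (by decide +kernel)) (aC (chk_sound smok1 c6158 (by decide +kernel)) (aC (chk_sound smok1 c6159 (by decide +kernel)) (aC (chk_sound smok1 c6160 (by decide +kernel)) (aC (chk_sound smok1 c6161 (by decide +kernel)) (aC (chk_sound smok1 c6162 (by decide +kernel)) (aC (chk_sound smok1 c6163 (by decide +kernel)) aN)))))))
theorem n674 : Rf E1 xe11 [982, 1229, 1137, 1053] :=
  node_sound smok1 (q := 11) (ch := [913, 906, 898, 897, 896, 895, 893]) (by decide +kernel) (by decide +kernel)
    (aC (chk_sound smok1 c6164 (by decide +kernel)) (aC (chk_sound smok1 c6165 (by decide +kernel)) (aC (chk_sound smok1 c6166 (by decide +kernel)) (aC (chk_sound smok1 c6167 (by decide +kernel)) (aC (chk_sound smok1 c6168 (by decide +kernel)) (aC (chk_sound smok1 c6169 (by decide +kernel)) (aC (chk_sound smok1 c6170 (by decide +kernel)) aN)))))))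
theorem n675 : Rf E1 xe11 [981, 1229, 1137, 1053] :=
  node_sound smok1 (q := 11) (ch := [913, 912, 911, 897, 896, 895, 893]) (by decide +kernel) (by decide +kernel)
    (aC (chk_sound smok1 c6171 (by decide +kernel)) (aC (chk_sound smok1 c6172 (by decide +kernel)) (aC (chk_sound smok1 c6173 (by decide +kernel)) (aC (chk_sound smok1 c6174 (by decide +kernel)) (aC (chk_sound smok1 c6175 (by decide +kernel)) (aC (chk_sound smok1 c6176 (by decide +kernel)) (aC (chk_sound smok1 c6177 (by decide +kernel)) aN)))))))
theorem n676 : Rf E1 xe11 [980, 1229, 1137, 1053] :=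
  node_sound smok1 (q := 0) (ch := [26, 23, 22, 18, 12, 10, 9, 4]) (by decide +kernel) (by decide +kernel)
    (aC (chk_sound smok1 c6178 (by decide +kernel)) (aC (chk_sound smok1 c6179 (by decide +kernel)) (aC (chk_sound smok1 c6180 (by decide +kernel)) (aC (chk_sound smok1 c6181 (by decide +kernel)) (aC (chk_sound smok1 c6182 (by decide +kernel)) (aC (chk_sound smok1 c6183 (by decide +kernel)) (aC (chk_sound smok1 c6184 (by decide +kernel)) (aC (chk_sound smok1 c6185 (by decide +kernel)) aN))))))))
theorem n677 : Rf E1 xe11 [979, 1229, 1137, 1053] :=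
  node_sound smok1 (q := 0) (ch := [26, 25, 23, 22, 12, 9, 8, 6, 4]) (by decide +kernel) (by decide +kernel)
    (aC (chk_sound smok1 c6186 (by decide +kernel)) (aC (chk_sound smok1 c6187 (by decide +kernel)) (aC (chk_sound smok1 c6188 (by decide +kernel)) (aC (chk_sound smok1 c6189 (by decide +kernel)) (aC (chk_sound smok1 c6190 (by decide +kernel)) (aC (chk_sound smok1 c6191 (by decide +kernel)) (aC (chk_sound smok1 c6192 (by decide +kernel)) (aC (chk_sound smok1 c6193 (by decide +kernel)) (aC (chk_sound smok1 c6194 (by decide +kernel)) aN)))))))))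
theorem n678 : Rf E1 xe11 [978, 1229, 1137, 1053] :=
  node_sound smok1 (q := 0) (ch := [26, 25, 22, 19, 12, 11, 9, 8]) (by decide +kernel) (by decide +kernel)
    (aC (chk_sound smok1 c6195 (by decide +kernel)) (aC (chk_sound smok1 c6196 (by decide +kernel)) (aC (chk_sound smok1 c6197 (by decide +kernel)) (aC (chk_sound smok1 c6198 (by decide +kernel)) (aC (chk_sound smok1 c6199 (by decide +kernel)) (aC (chk_sound smok1 c6200 (by decide +kernel)) (aC (chk_sound smok1 c6201 (by decide +kernel)) (aC (chk_sound smok1 c6202 (by decide +kernel)) aN))))))))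
theorem n679 : Rf E1 xe11 [977, 1229, 1137, 1053] :=
  node_sound smok1 (q := 0) (ch := [26, 25, 24, 22, 19, 12, 11, 8, 6]) (by decide +kernel) (by decide +kernel)
    (aC (chk_sound smok1 c6203 (by decide +kernel)) (aC (chk_sound smok1 c6204 (by decide +kernel)) (aC (chk_sound smok1 c6205 (by decide +kernel)) (aC (chk_sound smok1 c6206 (by decide +kernel)) (aC (chk_sound smok1 c6207 (by decide +kernel)) (aC (chk_sound smok1 c6208 (by decide +kernel)) (aC (chk_sound smok1 c6209 (by decide +kernel)) (aC (chk_sound smok1 c6210 (by decide +kernel)) (aC (chk_sound smok1 c6211 (by decide +kernel)) aN)))))))))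
theorem n680 : Rf E1 xe11 [1229, 1137, 1053] :=
  node_sound smok1 (q := 12) (ch := [988, 987, 983, 982, 981, 980, 979, 978, 977]) (by decide +kernel) (by decide +kernel)
    (aC n671 (aC n672 (aC n673 (aC n674 (aC n675 (aC n676 (aC n677 (aC n678 (aC n679 aN)))))))))
theorem R1_11 : Rf E1 xe11 [1229, 1137, 1053] := n680
theorem n681 : Rf E1 xe12 [986, 1230, 1137, 1053] :=
  node_sound smok1 (q := 16) (ch := [1321, 1320, 1319, 1318, 1317, 1308, 1307, 1306, 1305, 1304]) (by decide +kernel) (by decide +kernel)
    (aC (chk_sound smok1 c6212 (by decide +kernel)) (aC (chk_sound smok1 c6213 (by decide +kernel)) (aC (chk_sound smok1 c6214 (by decide +kernel)) (aC (chk_sound smok1 c6215 (by decide +kernel)) (aC (chk_sound smok1 c6216 (by decide +kernel)) (aC (chk_sound smok1 c6217 (by decide +kernel)) (aC (chk_sound smok1 c6218 (by decide +kernel)) (aC (chk_sound smok1 c6219 (by decide +kernel)) (aC (chk_sound smok1 c6220 (by decide +kernel)) (aC (chk_sound smok1 c6221 (by decide +kernel)) aN))))))))))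
theorem n682 : Rf E1 xe12 [982, 1230, 1137, 1053] :=
  node_sound smok1 (q := 11) (ch := [913, 905, 898, 897, 896, 895, 893]) (by decide +kernel) (by decide +kernel)
    (aC (chk_sound smok1 c6222 (by decide +kernel)) (aC (chk_sound smok1 c6223 (by decide +kernel)) (aC (chk_sound smok1 c6224 (by decide +kernel)) (aC (chk_sound smok1 c6225 (by decide +kernel)) (aC (chk_sound smok1 c6226 (by decide +kernel)) (aC (chk_sound smok1 c6227 (by decide +kernel)) (aC (chk_sound smok1 c6228 (by decide +kernel)) aN)))))))
theorem n683 : Rf E1 xe12 [981, 1230, 1137, 1053] :=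
  node_sound smok1 (q := 11) (ch := [913, 912, 911, 897, 896, 895, 893]) (by decide +kernel) (by decide +kernel)
    (aC (chk_sound smok1 c6229 (by decide +kernel)) (aC (chk_sound smok1 c6230 (by decide +kernel)) (aC (chk_sound smok1 c6231 (by decide +kernel)) (aC (chk_sound smok1 c6232 (by decide +kernel)) (aC (chk_sound smok1 c6233 (by decide +kernel)) (aC (chk_sound smok1 c6234 (by decide +kernel)) (aC (chk_sound smok1 c6235 (by decide +kernel)) aN)))))))
theorem n684 : Rf E1 xe12 [980, 1230, 1137, 1053] :=
  node_sound smok1 (q := 11) (ch := [913, 912, 911, 910, 909, 896, 895, 893]) (by decide +kernel) (by decide +kernel)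
    (aC (chk_sound smok1 c6236 (by decide +kernel)) (aC (chk_sound smok1 c6237 (by decide +kernel)) (aC (chk_sound smok1 c6238 (by decide +kernel)) (aC (chk_sound smok1 c6239 (by decide +kernel)) (aC (chk_sound smok1 c6240 (by decide +kernel)) (aC (chk_sound smok1 c6241 (by decide +kernel)) (aC (chk_sound smok1 c6242 (by decide +kernel)) (aC (chk_sound smok1 c6243 (by decide +kernel)) aN))))))))
theorem n685 : Rf E1 xe12 [979, 1230, 1137, 1053] :=
  node_sound smok1 (q := 0) (ch := [26, 23, 22, 20, 12, 10, 9, 6, 4]) (by decide +kernel) (by decide +kernel)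
    (aC (chk_sound smok1 c6244 (by decide +kernel)) (aC (chk_sound smok1 c6245 (by decide +kernel)) (aC (chk_sound smok1 c6246 (by decide +kernel)) (aC (chk_sound smok1 c6247 (by decide +kernel)) (aC (chk_sound smok1 c6248 (by decide +kernel)) (aC (chk_sound smok1 c6249 (by decide +kernel)) (aC (chk_sound smok1 c6250 (by decide +kernel)) (aC (chk_sound smok1 c6251 (by decide +kernel)) (aC (chk_sound smok1 c6252 (by decide +kernel)) aN)))))))))
theorem n686 : Rf E1 xe12 [978, 1230, 1137, 1053] :=
  node_sound smok1 (q := 0) (ch := [26, 25, 23, 22, 20, 19, 12, 9]) (by decide +kernel) (by decide +kernel)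
    (aC (chk_sound smok1 c6253 (by decide +kernel)) (aC (chk_sound smok1 c6254 (by decide +kernel)) (aC (chk_sound smok1 c6255 (by decide +kernel)) (aC (chk_sound smok1 c6256 (by decide +kernel)) (aC (chk_sound smok1 c6257 (by decide +kernel)) (aC (chk_sound smok1 c6258 (by decide +kernel)) (aC (chk_sound smok1 c6259 (by decide +kernel)) (aC (chk_sound smok1 c6260 (by decide +kernel)) aN))))))))
theorem n687 : Rf E1 xe12 [977, 1230, 1137, 1053] :=
  node_sound smok1 (q := 0) (ch := [26, 25, 22, 20, 19, 12, 11, 9, 6]) (by decide +kernel) (by decide +kernel)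
    (aC (chk_sound smok1 c6261 (by decide +kernel)) (aC (chk_sound smok1 c6262 (by decide +kernel)) (aC (chk_sound smok1 c6263 (by decide +kernel)) (aC (chk_sound smok1 c6264 (by decide +kernel)) (aC (chk_sound smok1 c6265 (by decide +kernel)) (aC (chk_sound smok1 c6266 (by decide +kernel)) (aC (chk_sound smok1 c6267 (by decide +kernel)) (aC (chk_sound smok1 c6268 (by decide +kernel)) (aC (chk_sound smok1 c6269 (by decide +kernel)) aN)))))))))
theorem n688 : Rf E1 xe12 [1230, 1137, 1053] :=
  node_sound smok1 (q := 12) (ch := [986, 982, 981, 980, 979, 978, 977]) (by decide +kernel) (by decide +kernel)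
    (aC n681 (aC n682 (aC n683 (aC n684 (aC n685 (aC n686 (aC n687 aN)))))))
theorem R1_12 : Rf E1 xe12 [1230, 1137, 1053] := n688
theorem n689 : Rf E1 xe13 [986, 1231, 1137, 1053] :=
  node_sound smok1 (q := 11) (ch := [913, 912, 911, 910, 909, 908, 900, 899, 898, 897, 896, 895]) (by decide +kernel) (by decide +kernel)
    (aC (chk_sound smok1 c6270 (by decide +kernel)) (aC (chk_sound smok1 c6271 (by decide +kernel)) (aC (chk_sound smok1 c6272 (by decide +kernel)) (aC (chk_sound smok1 c6273 (by decide +kernel)) (aC (chk_sound smok1 c6274 (by decide +kernel)) (aC (chk_sound smok1 c6275 (by decide +kernel)) (aC (chk_sound smok1 c6276 (by decide +kernel)) (aC (chk_sound smok1 c6277 (by decide +kernel)) (aC (chk_sound smok1 c6278 (by decide +kernel)) (aC (chk_sound smok1 c6279 (by decide +kernel)) (aC (chk_sound smok1 c6280 (by decide +kernel)) (aC (chk_sound smok1 c6281 (by decide +kernel)) aN))))))))))))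
theorem n690 : Rf E1 xe13 [985, 1231, 1137, 1053] :=
  node_sound smok1 (q := 16) (ch := [1322, 1321, 1320, 1319, 1318, 1308, 1307, 1306, 1305, 1304]) (by decide +kernel) (by decide +kernel)
    (aC (chk_sound smok1 c6282 (by decide +kernel)) (aC (chk_sound smok1 c6283 (by decide +kernel)) (aC (chk_sound smok1 c6284 (by decide +kernel)) (aC (chk_sound smok1 c6285 (by decide +kernel)) (aC (chk_sound smok1 c6286 (by decide +kernel)) (aC (chk_sound smok1 c6287 (by decide +kernel)) (aC (chk_sound smok1 c6288 (by decide +kernel)) (aC (chk_sound smok1 c6289 (by decide +kernel)) (aC (chk_sound smok1 c6290 (by decide +kernel)) (aC (chk_sound smok1 c6291 (by decide +kernel)) aN))))))))))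
theorem n691 : Rf E1 xe13 [981, 1231, 1137, 1053] :=
  node_sound smok1 (q := 11) (ch := [913, 912, 911, 904, 897, 896, 895, 893]) (by decide +kernel) (by decide +kernel)
    (aC (chk_sound smok1 c6292 (by decide +kernel)) (aC (chk_sound smok1 c6293 (by decide +kernel)) (aC (chk_sound smok1 c6294 (by decide +kernel)) (aC (chk_sound smok1 c6295 (by decide +kernel)) (aC (chk_sound smok1 c6296 (by decide +kernel)) (aC (chk_sound smok1 c6297 (by decide +kernel)) (aC (chk_sound smok1 c6298 (by decide +kernel)) (aC (chk_sound smok1 c6299 (by decide +kernel)) aN))))))))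
theorem n692 : Rf E1 xe13 [980, 1231, 1137, 1053] :=
  node_sound smok1 (q := 11) (ch := [913, 912, 911, 910, 909, 896, 895, 893]) (by decide +kernel) (by decide +kernel)
    (aC (chk_sound smok1 c6300 (by decide +kernel)) (aC (chk_sound smok1 c6301 (by decide +kernel)) (aC (chk_sound smok1 c6302 (by decide +kernel)) (aC (chk_sound smok1 c6303 (by decide +kernel)) (aC (chk_sound smok1 c6304 (by decide +kernel)) (aC (chk_sound smok1 c6305 (by decide +kernel)) (aC (chk_sound smok1 c6306 (by decide +kernel)) (aC (chk_sound smok1 c6307 (by decide +kernel)) aN))))))))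
theorem n693 : Rf E1 xe13 [979, 1231, 1137, 1053] :=
  node_sound smok1 (q := 0) (ch := [26, 24, 23, 20, 10, 9, 6, 4]) (by decide +kernel) (by decide +kernel)
    (aC (chk_sound smok1 c6308 (by decide +kernel)) (aC (chk_sound smok1 c6309 (by decide +kernel)) (aC (chk_sound smok1 c6310 (by decide +kernel)) (aC (chk_sound smok1 c6311 (by decide +kernel)) (aC (chk_sound smok1 c6312 (by decide +kernel)) (aC (chk_sound smok1 c6313 (by decide +kernel)) (aC (chk_sound smok1 c6314 (by decide +kernel)) (aC (chk_sound smok1 c6315 (by decide +kernel)) aN))))))))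
theorem n694 : Rf E1 xe13 [978, 1231, 1137, 1053] :=
  node_sound smok1 (q := 0) (ch := [26, 23, 20, 19, 12, 10, 9, 7]) (by decide +kernel) (by decide +kernel)
    (aC (chk_sound smok1 c6316 (by decide +kernel)) (aC (chk_sound smok1 c6317 (by decide +kernel)) (aC (chk_sound smok1 c6318 (by decide +kernel)) (aC (chk_sound smok1 c6319 (by decide +kernel)) (aC (chk_sound smok1 c6320 (by decide +kernel)) (aC (chk_sound smok1 c6321 (by decide +kernel)) (aC (chk_sound smok1 c6322 (by decide +kernel)) (aC (chk_sound smok1 c6323 (by decide +kernel)) aN))))))))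
theorem n695 : Rf E1 xe13 [977, 1231, 1137, 1053] :=
  node_sound smok1 (q := 0) (ch := [26, 25, 23, 20, 19, 12, 9, 7, 6]) (by decide +kernel) (by decide +kernel)
    (aC (chk_sound smok1 c6324 (by decide +kernel)) (aC (chk_sound smok1 c6325 (by decide +kernel)) (aC (chk_sound smok1 c6326 (by decide +kernel)) (aC (chk_sound smok1 c6327 (by decide +kernel)) (aC (chk_sound smok1 c6328 (by decide +kernel)) (aC (chk_sound smok1 c6329 (by decide +kernel)) (aC (chk_sound smok1 c6330 (by decide +kernel)) (aC (chk_sound smok1 c6331 (by decide +kernel)) (aC (chk_sound smok1 c6332 (by decide +kernel)) aN)))))))))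
theorem n696 : Rf E1 xe13 [1231, 1137, 1053] :=
  node_sound smok1 (q := 12) (ch := [986, 985, 981, 980, 979, 978, 977]) (by decide +kernel) (by decide +kernel)
    (aC n689 (aC n690 (aC n691 (aC n692 (aC n693 (aC n694 (aC n695 aN)))))))
theorem R1_13 : Rf E1 xe13 [1231, 1137, 1053] := n696
theorem n697 : Rf E1 xe14 [985, 1232, 1137, 1053] :=
  node_sound smok1 (q := 11) (ch := [912, 911, 910, 909, 907, 899, 898, 897, 896, 895, 893]) (by decide +kernel) (by decide +kernel)
    (aC (chk_sound smok1 c6333 (by decide +kernel)) (aC (chk_sound smok1 c6334 (by decide +kernel)) (aC (chk_sound smok1 c6335 (by decide +kernel)) (aC (chk_sound smok1 c6336 (by decide +kernel)) (aC (chk_sound smok1 c6337 (by decide +kernel)) (aC (chk_sound smok1 c6338 (by decide +kernel)) (aC (chk_sound smok1 c6339 (by decide +kernel)) (aC (chk_sound smok1 c6340 (by decide +kernel)) (aC (chk_sound smok1 c6341 (by decide +kernel)) (aC (chk_sound smok1 c6342 (by decide +kernel)) (aC (chk_sound smok1 c6343 (by decide +kernel)) aN)))))))))))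
theorem n698 : Rf E1 xe14 [980, 1232, 1137, 1053] :=
  node_sound smok1 (q := 11) (ch := [913, 912, 911, 910, 909, 896, 895, 893]) (by decide +kernel) (by decide +kernel)
    (aC (chk_sound smok1 c6344 (by decide +kernel)) (aC (chk_sound smok1 c6345 (by decide +kernel)) (aC (chk_sound smok1 c6346 (by decide +kernel)) (aC (chk_sound smok1 c6347 (by decide +kernel)) (aC (chk_sound smok1 c6348 (by decide +kernel)) (aC (chk_sound smok1 c6349 (by decide +kernel)) (aC (chk_sound smok1 c6350 (by decide +kernel)) (aC (chk_sound smok1 c6351 (by decide +kernel)) aN))))))))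
theorem n699 : Rf E1 xe14 [979, 1232, 1137, 1053] :=
  node_sound smok1 (q := 0) (ch := [24, 23, 21, 20, 11, 10, 6, 4]) (by decide +kernel) (by decide +kernel)
    (aC (chk_sound smok1 c6352 (by decide +kernel)) (aC (chk_sound smok1 c6353 (by decide +kernel)) (aC (chk_sound smok1 c6354 (by decide +kernel)) (aC (chk_sound smok1 c6355 (by decide +kernel)) (aC (chk_sound smok1 c6356 (by decide +kernel)) (aC (chk_sound smok1 c6357 (by decide +kernel)) (aC (chk_sound smok1 c6358 (by decide +kernel)) (aC (chk_sound smok1 c6359 (by decide +kernel)) aN))))))))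
theorem n700 : Rf E1 xe14 [978, 1232, 1137, 1053] :=
  node_sound smok1 (q := 0) (ch := [26, 24, 23, 21, 20, 19, 10, 7]) (by decide +kernel) (by decide +kernel)
    (aC (chk_sound smok1 c6360 (by decide +kernel)) (aC (chk_sound smok1 c6361 (by decide +kernel)) (aC (chk_sound smok1 c6362 (by decide +kernel)) (aC (chk_sound smok1 c6363 (by decide +kernel)) (aC (chk_sound smok1 c6364 (by decide +kernel)) (aC (chk_sound smok1 c6365 (by decide +kernel)) (aC (chk_sound smok1 c6366 (by decide +kernel)) (aC (chk_sound smok1 c6367 (by decide +kernel)) aN))))))))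
theorem n701 : Rf E1 xe14 [977, 1232, 1137, 1053] :=
  node_sound smok1 (q := 0) (ch := [26, 23, 21, 20, 19, 12, 10, 7, 6]) (by decide +kernel) (by decide +kernel)
    (aC (chk_sound smok1 c6368 (by decide +kernel)) (aC (chk_sound smok1 c6369 (by decide +kernel)) (aC (chk_sound smok1 c6370 (by decide +kernel)) (aC (chk_sound smok1 c6371 (by decide +kernel)) (aC (chk_sound smok1 c6372 (by decide +kernel)) (aC (chk_sound smok1 c6373 (by decide +kernel)) (aC (chk_sound smok1 c6374 (by decide +kernel)) (aC (chk_sound smok1 c6375 (by decide +kernel)) (aC (chk_sound smok1 c6376 (by decide +kernel)) aN)))))))))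
theorem n702 : Rf E1 xe14 [1232, 1137, 1053] :=
  node_sound smok1 (q := 12) (ch := [985, 984, 980, 979, 978, 977]) (by decide +kernel) (by decide +kernel)
    (aC n697 (aC (chk_sound smok1 c6377 (by decide +kernel)) (aC n698 (aC n699 (aC n700 (aC n701 aN))))))
theorem R1_14 : Rf E1 xe14 [1232, 1137, 1053] := n702
theorem n703 : Rf E1 xe15 [979, 1233, 1137, 1053] :=
  node_sound smok1 (q := 11) (ch := [913, 912, 911, 910, 908, 907, 895, 893]) (by decide +kernel) (by decide +kernel)
    (aC (chk_sound smok1 c6378 (by decide +kernel)) (aC (chk_sound smok1 c6379 (by decide +kernel)) (aC (chk_sound smok1 c6380 (by decide +kernel)) (aC (chk_sound smok1 c6381 (by decide +kernel)) (aC (chk_sound smok1 c6382 (by decide +kernel)) (aC (chk_sound smok1 c6383 (by decide +kernel)) (aC (chk_sound smok1 c6384 (by decide +kernel)) (aC (chk_sound smok1 c6385 (by decide +kernel)) aN))))))))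
theorem n704 : Rf E1 xe15 [978, 1233, 1137, 1053] :=
  node_sound smok1 (q := 0) (ch := [24, 21, 20, 19, 11, 10, 8, 7]) (by decide +kernel) (by decide +kernel)
    (aC (chk_sound smok1 c6386 (by decide +kernel)) (aC (chk_sound smok1 c6387 (by decide +kernel)) (aC (chk_sound smok1 c6388 (by decide +kernel)) (aC (chk_sound smok1 c6389 (by decide +kernel)) (aC (chk_sound smok1 c6390 (by decide +kernel)) (aC (chk_sound smok1 c6391 (by decide +kernel)) (aC (chk_sound smok1 c6392 (by decide +kernel)) (aC (chk_sound smok1 c6393 (by decide +kernel)) aN))))))))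
theorem n705 : Rf E1 xe15 [977, 1233, 1137, 1053] :=
  node_sound smok1 (q := 0) (ch := [26, 24, 21, 20, 19, 10, 8, 7, 6]) (by decide +kernel) (by decide +kernel)
    (aC (chk_sound smok1 c6394 (by decide +kernel)) (aC (chk_sound smok1 c6395 (by decide +kernel)) (aC (chk_sound smok1 c6396 (by decide +kernel)) (aC (chk_sound smok1 c6397 (by decide +kernel)) (aC (chk_sound smok1 c6398 (by decide +kernel)) (aC (chk_sound smok1 c6399 (by decide +kernel)) (aC (chk_sound smok1 c6400 (by decide +kernel)) (aC (chk_sound smok1 c6401 (by decide +kernel)) (aC (chk_sound smok1 c6402 (by decide +kernel)) aN)))))))))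
theorem n706 : Rf E1 xe15 [1233, 1137, 1053] :=
  node_sound smok1 (q := 12) (ch := [984, 983, 979, 978, 977]) (by decide +kernel) (by decide +kernel)
    (aC (chk_sound smok1 c6403 (by decide +kernel)) (aC (chk_sound smok1 c6404 (by decide +kernel)) (aC n703 (aC n704 (aC n705 aN)))))
theorem R1_15 : Rf E1 xe15 [1233, 1137, 1053] := n706
theorem n707 : Rf E1 xe16 [983, 1234, 1137, 1053] :=
  node_sound smok1 (q := 11) (ch := [908, 907, 906, 905, 897, 896, 895, 893]) (by decide +kernel) (by decide +kernel)
    (aC (chk_sound smok1 c6405 (by decide +kernel)) (aC (chk_sound smok1 c6406 (by decide +kernel)) (aC (chk_sound smok1 c6407 (by decide +kernel)) (aC (chk_sound smok1 c6408 (by decide +kernel)) (aC (chk_sound smok1 c6409 (by decide +kernel)) (aC (chk_sound smok1 c6410 (by decide +kernel)) (aC (chk_sound smok1 c6411 (by decide +kernel)) (aC (chk_sound smok1 c6412 (by decide +kernel)) aN))))))))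
theorem n708 : Rf E1 xe16 [982, 1234, 1137, 1053] :=
  node_sound smok1 (q := 16) (ch := [1322, 1321, 1312, 1311, 1310, 1309, 1297]) (by decide +kernel) (by decide +kernel)
    (aC (chk_sound smok1 c6413 (by decide +kernel)) (aC (chk_sound smok1 c6414 (by decide +kernel)) (aC (chk_sound smok1 c6415 (by decide +kernel)) (aC (chk_sound smok1 c6416 (by decide +kernel)) (aC (chk_sound smok1 c6417 (by decide +kernel)) (aC (chk_sound smok1 c6418 (by decide +kernel)) (aC (chk_sound smok1 c6419 (by decide +kernel)) aN)))))))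
theorem n709 : Rf E1 xe16 [977, 1234, 1137, 1053] :=
  node_sound smok1 (q := 0) (ch := [24, 22, 21, 20, 11, 8, 7, 6]) (by decide +kernel) (by decide +kernel)
    (aC (chk_sound smok1 c6420 (by decide +kernel)) (aC (chk_sound smok1 c6421 (by decide +kernel)) (aC (chk_sound smok1 c6422 (by decide +kernel)) (aC (chk_sound smok1 c6423 (by decide +kernel)) (aC (chk_sound smok1 c6424 (by decide +kernel)) (aC (chk_sound smok1 c6425 (by decide +kernel)) (aC (chk_sound smok1 c6426 (by decide +kernel)) (aC (chk_sound smok1 c6427 (by decide +kernel)) aN))))))))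
theorem n710 : Rf E1 xe16 [1234, 1137, 1053] :=
  node_sound smok1 (q := 12) (ch := [983, 982, 978, 977]) (by decide +kernel) (by decide +kernel)
    (aC n707 (aC n708 (aC (chk_sound smok1 c6428 (by decide +kernel)) (aC n709 aN))))
theorem R1_16 : Rf E1 xe16 [1234, 1137, 1053] := n710
theorem n711 : Rf E1 xe17 [982, 1235, 1137, 1053] :=
  node_sound smok1 (q := 11) (ch := [913, 906, 905, 904, 896, 895, 893]) (by decide +kernel) (by decide +kernel)
    (aC (chk_sound smok1 c6429 (by decide +kernel)) (aC (chk_sound smok1 c6430 (by decide +kernel)) (aC (chk_sound smok1 c6431 (by decide +kernel)) (aC (chk_sound smok1 c6432 (by decide +kernel)) (aC (chk_sound smok1 c6433 (by decide +kernel)) (aC (chk_sound smok1 c6434 (by decide +kernel)) (aC (chk_sound smok1 c6435 (by decide +kernel)) aN)))))))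
theorem n712 : Rf E1 xe17 [977, 1235, 1137, 1053] :=
  node_sound smok1 (q := 16) (ch := [1322, 1321, 1320, 1319, 1313, 1312, 1311, 1304]) (by decide +kernel) (by decide +kernel)
    (aC (chk_sound smok1 c6436 (by decide +kernel)) (aC (chk_sound smok1 c6437 (by decide +kernel)) (aC (chk_sound smok1 c6438 (by decide +kernel)) (aC (chk_sound smok1 c6439 (by decide +kernel)) (aC (chk_sound smok1 c6440 (by decide +kernel)) (aC (chk_sound smok1 c6441 (by decide +kernel)) (aC (chk_sound smok1 c6442 (by decide +kernel)) (aC (chk_sound smok1 c6443 (by decide +kernel)) aN))))))))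
theorem n713 : Rf E1 xe17 [1235, 1137, 1053] :=
  node_sound smok1 (q := 12) (ch := [982, 981, 977]) (by decide +kernel) (by decide +kernel)
    (aC n711 (aC (chk_sound smok1 c6444 (by decide +kernel)) (aC n712 aN)))
theorem R1_17 : Rf E1 xe17 [1235, 1137, 1053] := n713
theorem n714 : Rf E1 xe18 [1236, 1137, 1053] :=
  node_sound smok1 (q := 12) (ch := [981, 980]) (by decide +kernel) (by decide +kernel)
    (aC (chk_sound smok1 c6445 (by decide +kernel)) (aC (chk_sound smok1 c6446 (by decide +kernel)) aN))
theorem R1_18 : Rf E1 xe18 [1236, 1137, 1053] := n714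
theorem n715 : Rf E1 xe19 [1237, 1137, 1053] :=
  node_sound smok1 (q := 12) (ch := [980, 979]) (by decide +kernel) (by decide +kernel)
    (aC (chk_sound smok1 c6447 (by decide +kernel)) (aC (chk_sound smok1 c6448 (by decide +kernel)) aN))
theorem R1_19 : Rf E1 xe19 [1237, 1137, 1053] := n715
theorem n716 : Rf E1 xe20 [1238, 1137, 1053] :=
  node_sound smok1 (q := 12) (ch := [979, 978]) (by decide +kernel) (by decide +kernel)
    (aC (chk_sound smok1 c6449 (by decide +kernel)) (aC (chk_sound smok1 c6450 (by decide +kernel)) aN))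
theorem R1_20 : Rf E1 xe20 [1238, 1137, 1053] := n716
theorem n717 : Rf E1 xe21 [977, 1239, 1137, 1053] :=
  node_sound smok1 (q := 16) (ch := [1312, 1311, 1310, 1309, 1308, 1307, 1306, 1305, 1304]) (by decide +kernel) (by decide +kernel)
    (aC (chk_sound smok1 c6451 (by decide +kernel)) (aC (chk_sound smok1 c6452 (by decide +kernel)) (aC (chk_sound smok1 c6453 (by decide +kernel)) (aC (chk_sound smok1 c6454 (by decide +kernel)) (aC (chk_sound smok1 c6455 (by decide +kernel)) (aC (chk_sound smok1 c6456 (by decide +kernel)) (aC (chk_sound smok1 c6457 (by decide +kernel)) (aC (chk_sound smok1 c6458 (by decide +kernel)) (aC (chk_sound smok1 c6459 (by decide +kernel)) aN)))))))))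
theorem n718 : Rf E1 xe21 [1239, 1137, 1053] :=
  node_sound smok1 (q := 12) (ch := [978, 977]) (by decide +kernel) (by decide +kernel)
    (aC (chk_sound smok1 c6460 (by decide +kernel)) (aC n717 aN))
theorem R1_21 : Rf E1 xe21 [1239, 1137, 1053] := n718
theorem n719 : Rf E1 xe22 [977, 1240, 1137, 1053] :=
  node_sound smok1 (q := 11) (ch := [913, 912, 911, 910, 909, 908, 907, 906, 905, 904, 903]) (by decide +kernel) (by decide +kernel)
    (aC (chk_sound smok1 c6461 (by decide +kernel)) (aC (chk_sound smok1 c6462 (by decide +kernel)) (aC (chk_sound smok1 c6463 (by decide +kernel)) (aC (chk_sound smok1 c6464 (by decide +kernel)) (aC (chk_sound smok1 c6465 (by decide +kernel)) (aC (chk_sound smok1 c6466 (by decide +kernel)) (aC (chk_sound smok1 c6467 (by decide +kernel)) (aC (chk_sound smok1 c6468 (by decide +kernel)) (aC (chk_sound smok1 c6469 (by decide +kernel)) (aC (chk_sound smok1 c6470 (by decide +kernel)) (aC (chk_sound smok1 c6471 (by decide +kernel)) aN)))))))))))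
theorem n720 : Rf E1 xe22 [1240, 1137, 1053] :=
  node_sound smok1 (q := 12) (ch := [977]) (by decide +kernel) (by decide +kernel)
    (aC n719 aN)
theorem R1_22 : Rf E1 xe22 [1240, 1137, 1053] := n720
theorem R1_23 : Rf E1 xe23 [1241, 1137, 1053] := dead_sound smok1 (by decide +kernel) (by decide +kernel)
theorem R1_24 : Rf E1 xe24 [1215, 1137, 1053] := dead_sound smok1 (by decide +kernel) (by decide +kernel)
theorem R1_25 : Rf E1 xe25 [1216, 1137, 1053] := dead_sound smok1 (by decide +kernel) (by decide +kernel)
theorem R1_26 : Rf E1 xe26 [1217, 1137, 1053] := dead_sound smok1 (by decide +kernel) (by decide +kernel)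
theorem n721 : Rf E2 0 [1321, 1157, 1217, 1053] :=
  node_sound smok2 (q := 12) (ch := [991, 987, 986, 985, 984, 983, 982, 981, 980, 979, 978]) (by decide +kernel) (by decide +kernel)
    (aC (chk_sound smok2 c6472 (by decide +kernel)) (aC (chk_sound smok2 c6473 (by decide +kernel)) (aC (chk_sound smok2 c6474 (by decide +kernel)) (aC (chk_sound smok2 c6475 (by decide +kernel)) (aC (chk_sound smok2 c6476 (by decide +kernel)) (aC (chk_sound smok2 c6477 (by decide +kernel)) (aC (chk_sound smok2 c6478 (by decide +kernel)) (aC (chk_sound smok2 c6479 (by decide +kernel)) (aC (chk_sound smok2 c6480 (by decide +kernel)) (aC (chk_sound smok2 c6481 (by decide +kernel)) (aC (chk_sound smok2 c6482 (by decide +kernel)) aN)))))))))))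
theorem n722 : Rf E2 0 [1157, 1217, 1053] :=
  node_sound smok2 (q := 16) (ch := [1321, 1317, 1313, 1312, 1311, 1310, 1309, 1308, 1307, 1306, 1302]) (by decide +kernel) (by decide +kernel)
    (aC n721 (aC (chk_sound smok2 c6483 (by decide +kernel)) (aC (chk_sound smok2 c6484 (by decide +kernel)) (aC (chk_sound smok2 c6485 (by decide +kernel)) (aC (chk_sound smok2 c6486 (by decide +kernel)) (aC (chk_sound smok2 c6487 (by decide +kernel)) (aC (chk_sound smok2 c6488 (by decide +kernel)) (aC (chk_sound smok2 c6489 (by decide +kernel)) (aC (chk_sound smok2 c6490 (by decide +kernel)) (aC (chk_sound smok2 c6491 (by decide +kernel)) (aC (chk_sound smok2 c6492 (by decide +kernel)) aN)))))))))))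
theorem n723 : Rf E2 0 [1156, 1217, 1053] :=
  node_sound smok2 (q := 12) (ch := [992, 991, 990, 989, 985, 984, 983, 982, 981, 980, 979]) (by decide +kernel) (by decide +kernel)
    (aC (chk_sound smok2 c6493 (by decide +kernel)) (aC (chk_sound smok2 c6494 (by decide +kernel)) (aC (chk_sound smok2 c6495 (by decide +kernel)) (aC (chk_sound smok2 c6496 (by decide +kernel)) (aC (chk_sound smok2 c6497 (by decide +kernel)) (aC (chk_sound smok2 c6498 (by decide +kernel)) (aC (chk_sound smok2 c6499 (by decide +kernel)) (aC (chk_sound smok2 c6500 (by decide +kernel)) (aC (chk_sound smok2 c6501 (by decide +kernel)) (aC (chk_sound smok2 c6502 (by decide +kernel)) (aC (chk_sound smok2 c6503 (by decide +kernel)) aN)))))))))))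
theorem n724 : Rf E2 0 [983, 1155, 1217, 1053] :=
  node_sound smok2 (q := 11) (ch := [910, 909, 908, 907, 906, 895, 894]) (by decide +kernel) (by decide +kernel)
    (aC (chk_sound smok2 c6504 (by decide +kernel)) (aC (chk_sound smok2 c6505 (by decide +kernel)) (aC (chk_sound smok2 c6506 (by decide +kernel)) (aC (chk_sound smok2 c6507 (by decide +kernel)) (aC (chk_sound smok2 c6508 (by decide +kernel)) (aC (chk_sound smok2 c6509 (by decide +kernel)) (aC (chk_sound smok2 c6510 (by decide +kernel)) aN)))))))
theorem n725 : Rf E2 0 [982, 1155, 1217, 1053] :=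
  node_sound smok2 (q := 11) (ch := [914, 909, 908, 907, 906, 905, 895, 894]) (by decide +kernel) (by decide +kernel)
    (aC (chk_sound smok2 c6511 (by decide +kernel)) (aC (chk_sound smok2 c6512 (by decide +kernel)) (aC (chk_sound smok2 c6513 (by decide +kernel)) (aC (chk_sound smok2 c6514 (by decide +kernel)) (aC (chk_sound smok2 c6515 (by decide +kernel)) (aC (chk_sound smok2 c6516 (by decide +kernel)) (aC (chk_sound smok2 c6517 (by decide +kernel)) (aC (chk_sound smok2 c6518 (by decide +kernel)) aN))))))))
theorem n726 : Rf E2 0 [1155, 1217, 1053] :=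
  node_sound smok2 (q := 12) (ch := [995, 991, 990, 989, 988, 987, 983, 982, 981, 980, 976]) (by decide +kernel) (by decide +kernel)
    (aC (chk_sound smok2 c6519 (by decide +kernel)) (aC (chk_sound smok2 c6520 (by decide +kernel)) (aC (chk_sound smok2 c6521 (by decide +kernel)) (aC (chk_sound smok2 c6522 (by decide +kernel)) (aC (chk_sound smok2 c6523 (by decide +kernel)) (aC (chk_sound smok2 c6524 (by decide +kernel)) (aC n724 (aC n725 (aC (chk_sound smok2 c6525 (by decide +kernel)) (aC (chk_sound smok2 c6526 (by decide +kernel)) (aC (chk_sound smok2 c6527 (by decide +kernel)) aN)))))))))))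
theorem n727 : Rf E2 0 [994, 1154, 1217, 1053] :=
  node_sound smok2 (q := 0) (ch := [19, 18, 17, 16, 11, 9, 5, 4, 3]) (by decide +kernel) (by decide +kernel)
    (aC (chk_sound smok2 c6528 (by decide +kernel)) (aC (chk_sound smok2 c6529 (by decide +kernel)) (aC (chk_sound smok2 c6530 (by decide +kernel)) (aC (chk_sound smok2 c6531 (by decide +kernel)) (aC (chk_sound smok2 c6532 (by decide +kernel)) (aC (chk_sound smok2 c6533 (by decide +kernel)) (aC (chk_sound smok2 c6534 (by decide +kernel)) (aC (chk_sound smok2 c6535 (by decide +kernel)) (aC (chk_sound smok2 c6536 (by decide +kernel)) aN)))))))))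
theorem n728 : Rf E2 0 [981, 1154, 1217, 1053] :=
  node_sound smok2 (q := 11) (ch := [914, 913, 907, 906, 905, 904, 896, 895, 894]) (by decide +kernel) (by decide +kernel)
    (aC (chk_sound smok2 c6537 (by decide +kernel)) (aC (chk_sound smok2 c6538 (by decide +kernel)) (aC (chk_sound smok2 c6539 (by decide +kernel)) (aC (chk_sound smok2 c6540 (by decide +kernel)) (aC (chk_sound smok2 c6541 (by decide +kernel)) (aC (chk_sound smok2 c6542 (by decide +kernel)) (aC (chk_sound smok2 c6543 (by decide +kernel)) (aC (chk_sound smok2 c6544 (by decide +kernel)) (aC (chk_sound smok2 c6545 (by decide +kernel)) aN)))))))))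
theorem n729 : Rf E2 0 [1154, 1217, 1053] :=
  node_sound smok2 (q := 12) (ch := [995, 994, 990, 989, 988, 987, 986, 985, 981, 977, 976]) (by decide +kernel) (by decide +kernel)
    (aC (chk_sound smok2 c6546 (by decide +kernel)) (aC n727 (aC (chk_sound smok2 c6547 (by decide +kernel)) (aC (chk_sound smok2 c6548 (by decide +kernel)) (aC (chk_sound smok2 c6549 (by decide +kernel)) (aC (chk_sound smok2 c6550 (by decide +kernel)) (aC (chk_sound smok2 c6551 (by decide +kernel)) (aC (chk_sound smok2 c6552 (by decide +kernel)) (aC n728 (aC (chk_sound smok2 c6553 (by decide +kernel)) (aC (chk_sound smok2 c6554 (by decide +kernel)) aN)))))))))))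
theorem n730 : Rf E2 0 [993, 1153, 1217, 1053] :=
  node_sound smok2 (q := 0) (ch := [26, 24, 22, 18, 17, 16, 8, 4, 3]) (by decide +kernel) (by decide +kernel)
    (aC (chk_sound smok2 c6555 (by decide +kernel)) (aC (chk_sound smok2 c6556 (by decide +kernel)) (aC (chk_sound smok2 c6557 (by decide +kernel)) (aC (chk_sound smok2 c6558 (by decide +kernel)) (aC (chk_sound smok2 c6559 (by decide +kernel)) (aC (chk_sound smok2 c6560 (by decide +kernel)) (aC (chk_sound smok2 c6561 (by decide +kernel)) (aC (chk_sound smok2 c6562 (by decide +kernel)) (aC (chk_sound smok2 c6563 (by decide +kernel)) aN)))))))))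
theorem n731 : Rf E2 0 [1153, 1217, 1053] :=
  node_sound smok2 (q := 12) (ch := [995, 994, 993, 989, 988, 987, 986, 985, 984, 983, 978, 977, 976]) (by decide +kernel) (by decide +kernel)
    (aC (chk_sound smok2 c6564 (by decide +kernel)) (aC (chk_sound smok2 c6565 (by decide +kernel)) (aC n730 (aC (chk_sound smok2 c6566 (by decide +kernel)) (aC (chk_sound smok2 c6567 (by decide +kernel)) (aC (chk_sound smok2 c6568 (by decide +kernel)) (aC (chk_sound smok2 c6569 (by decide +kernel)) (aC (chk_sound smok2 c6570 (by decide +kernel)) (aC (chk_sound smok2 c6571 (by decide +kernel)) (aC (chk_sound smok2 c6572 (by decide +kernel)) (aC (chk_sound smok2 c6573 (by decide +kernel)) (aC (chk_sound smok2 c6574 (by decide +kernel)) (aC (chk_sound smok2 c6575 (by decide +kernel)) aN)))))))))))))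
theorem n732 : Rf E2 0 [1316, 1152, 1217, 1053] :=
  node_sound smok2 (q := 12) (ch := [995, 994, 993, 986, 985, 984, 983, 977, 976]) (by decide +kernel) (by decide +kernel)
    (aC (chk_sound smok2 c6576 (by decide +kernel)) (aC (chk_sound smok2 c6577 (by decide +kernel)) (aC (chk_sound smok2 c6578 (by decide +kernel)) (aC (chk_sound smok2 c6579 (by decide +kernel)) (aC (chk_sound smok2 c6580 (by decide +kernel)) (aC (chk_sound smok2 c6581 (by decide +kernel)) (aC (chk_sound smok2 c6582 (by decide +kernel)) (aC (chk_sound smok2 c6583 (by decide +kernel)) (aC (chk_sound smok2 c6584 (by decide +kernel)) aN)))))))))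
theorem n733 : Rf E2 0 [1312, 1152, 1217, 1053] :=
  node_sound smok2 (q := 12) (ch := [995, 994, 987, 986, 985, 984, 983, 977, 976]) (by decide +kernel) (by decide +kernel)
    (aC (chk_sound smok2 c6585 (by decide +kernel)) (aC (chk_sound smok2 c6586 (by decide +kernel)) (aC (chk_sound smok2 c6587 (by decide +kernel)) (aC (chk_sound smok2 c6588 (by decide +kernel)) (aC (chk_sound smok2 c6589 (by decide +kernel)) (aC (chk_sound smok2 c6590 (by decide +kernel)) (aC (chk_sound smok2 c6591 (by decide +kernel)) (aC (chk_sound smok2 c6592 (by decide +kernel)) (aC (chk_sound smok2 c6593 (by decide +kernel)) aN)))))))))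
theorem n734 : Rf E2 0 [1307, 1152, 1217, 1053] :=
  node_sound smok2 (q := 17) (ch := [1403, 1402, 1401, 1400, 1399, 1393, 1392, 1384, 1383]) (by decide +kernel) (by decide +kernel)
    (aC (chk_sound smok2 c6594 (by decide +kernel)) (aC (chk_sound smok2 c6595 (by decide +kernel)) (aC (chk_sound smok2 c6596 (by decide +kernel)) (aC (chk_sound smok2 c6597 (by decide +kernel)) (aC (chk_sound smok2 c6598 (by decide +kernel)) (aC (chk_sound smok2 c6599 (by decide +kernel)) (aC (chk_sound smok2 c6600 (by decide +kernel)) (aC (chk_sound smok2 c6601 (by decide +kernel)) (aC (chk_sound smok2 c6602 (by decide +kernel)) aN)))))))))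
theorem n735 : Rf E2 0 [1152, 1217, 1053] :=
  node_sound smok2 (q := 16) (ch := [1321, 1320, 1319, 1318, 1317, 1316, 1312, 1311, 1307, 1303, 1302]) (by decide +kernel) (by decide +kernel)
    (aC (chk_sound smok2 c6603 (by decide +kernel)) (aC (chk_sound smok2 c6604 (by decide +kernel)) (aC (chk_sound smok2 c6605 (by decide +kernel)) (aC (chk_sound smok2 c6606 (by decide +kernel)) (aC (chk_sound smok2 c6607 (by decide +kernel)) (aC n732 (aC n733 (aC (chk_sound smok2 c6608 (by decide +kernel)) (aC n734 (aC (chk_sound smok2 c6609 (by decide +kernel)) (aC (chk_sound smok2 c6610 (by decide +kernel)) aN)))))))))))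
theorem n736 : Rf E2 0 [991, 1151, 1217, 1053] :=
  node_sound smok2 (q := 0) (ch := [26, 25, 23, 21, 20, 16, 12, 7, 6]) (by decide +kernel) (by decide +kernel)
    (aC (chk_sound smok2 c6611 (by decide +kernel)) (aC (chk_sound smok2 c6612 (by decide +kernel)) (aC (chk_sound smok2 c6613 (by decide +kernel)) (aC (chk_sound smok2 c6614 (by decide +kernel)) (aC (chk_sound smok2 c6615 (by decide +kernel)) (aC (chk_sound smok2 c6616 (by decide +kernel)) (aC (chk_sound smok2 c6617 (by decide +kernel)) (aC (chk_sound smok2 c6618 (by decide +kernel)) (aC (chk_sound smok2 c6619 (by decide +kernel)) aN)))))))))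
theorem n737 : Rf E2 0 [987, 1151, 1217, 1053] :=
  node_sound smok2 (q := 11) (ch := [914, 913, 912, 911, 910, 899, 898, 897, 896]) (by decide +kernel) (by decide +kernel)
    (aC (chk_sound smok2 c6620 (by decide +kernel)) (aC (chk_sound smok2 c6621 (by decide +kernel)) (aC (chk_sound smok2 c6622 (by decide +kernel)) (aC (chk_sound smok2 c6623 (by decide +kernel)) (aC (chk_sound smok2 c6624 (by decide +kernel)) (aC (chk_sound smok2 c6625 (by decide +kernel)) (aC (chk_sound smok2 c6626 (by decide +kernel)) (aC (chk_sound smok2 c6627 (by decide +kernel)) (aC (chk_sound smok2 c6628 (by decide +kernel)) aN)))))))))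
theorem n738 : Rf E2 0 [1151, 1217, 1053] :=
  node_sound smok2 (q := 12) (ch := [995, 994, 993, 992, 991, 987, 986, 985, 984, 980, 979]) (by decide +kernel) (by decide +kernel)
    (aC (chk_sound smok2 c6629 (by decide +kernel)) (aC (chk_sound smok2 c6630 (by decide +kernel)) (aC (chk_sound smok2 c6631 (by decide +kernel)) (aC (chk_sound smok2 c6632 (by decide +kernel)) (aC n736 (aC n737 (aC (chk_sound smok2 c6633 (by decide +kernel)) (aC (chk_sound smok2 c6634 (by decide +kernel)) (aC (chk_sound smok2 c6635 (by decide +kernel)) (aC (chk_sound smok2 c6636 (by decide +kernel)) (aC (chk_sound smok2 c6637 (by decide +kernel)) aN)))))))))))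
theorem n739 : Rf E2 0 [990, 1150, 1217, 1053] :=
  node_sound smok2 (q := 11) (ch := [914, 913, 905, 904, 898, 897, 896, 895, 894]) (by decide +kernel) (by decide +kernel)
    (aC (chk_sound smok2 c6638 (by decide +kernel)) (aC (chk_sound smok2 c6639 (by decide +kernel)) (aC (chk_sound smok2 c6640 (by decide +kernel)) (aC (chk_sound smok2 c6641 (by decide +kernel)) (aC (chk_sound smok2 c6642 (by decide +kernel)) (aC (chk_sound smok2 c6643 (by decide +kernel)) (aC (chk_sound smok2 c6644 (by decide +kernel)) (aC (chk_sound smok2 c6645 (by decide +kernel)) (aC (chk_sound smok2 c6646 (by decide +kernel)) aN)))))))))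
theorem n740 : Rf E2 0 [986, 1150, 1217, 1053] :=
  node_sound smok2 (q := 11) (ch := [914, 913, 912, 911, 910, 909, 900, 899, 898, 897, 896, 895, 894]) (by decide +kernel) (by decide +kernel)
    (aC (chk_sound smok2 c6647 (by decide +kernel)) (aC (chk_sound smok2 c6648 (by decide +kernel)) (aC (chk_sound smok2 c6649 (by decide +kernel)) (aC (chk_sound smok2 c6650 (by decide +kernel)) (aC (chk_sound smok2 c6651 (by decide +kernel)) (aC (chk_sound smok2 c6652 (by decide +kernel)) (aC (chk_sound smok2 c6653 (by decide +kernel)) (aC (chk_sound smok2 c6654 (by decide +kernel)) (aC (chk_sound smok2 c6655 (by decide +kernel)) (aC (chk_sound smok2 c6656 (by decide +kernel)) (aC (chk_sound smok2 c6657 (by decide +kernel)) (aC (chk_sound smok2 c6658 (by decide +kernel)) (aC (chk_sound smok2 c6659 (by decide +kernel)) aN)))))))))))))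
theorem n741 : Rf E2 0 [985, 1150, 1217, 1053] :=
  node_sound smok2 (q := 16) (ch := [1321, 1320, 1319, 1318, 1317, 1308, 1307, 1306, 1305, 1304, 1303]) (by decide +kernel) (by decide +kernel)
    (aC (chk_sound smok2 c6660 (by decide +kernel)) (aC (chk_sound smok2 c6661 (by decide +kernel)) (aC (chk_sound smok2 c6662 (by decide +kernel)) (aC (chk_sound smok2 c6663 (by decide +kernel)) (aC (chk_sound smok2 c6664 (by decide +kernel)) (aC (chk_sound smok2 c6665 (by decide +kernel)) (aC (chk_sound smok2 c6666 (by decide +kernel)) (aC (chk_sound smok2 c6667 (by decide +kernel)) (aC (chk_sound smok2 c6668 (by decide +kernel)) (aC (chk_sound smok2 c6669 (by decide +kernel)) (aC (chk_sound smok2 c6670 (by decide +kernel)) aN)))))))))))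
theorem n742 : Rf E2 0 [981, 1150, 1217, 1053] :=
  node_sound smok2 (q := 11) (ch := [914, 913, 912, 911, 905, 904, 896, 895]) (by decide +kernel) (by decide +kernel)
    (aC (chk_sound smok2 c6671 (by decide +kernel)) (aC (chk_sound smok2 c6672 (by decide +kernel)) (aC (chk_sound smok2 c6673 (by decide +kernel)) (aC (chk_sound smok2 c6674 (by decide +kernel)) (aC (chk_sound smok2 c6675 (by decide +kernel)) (aC (chk_sound smok2 c6676 (by decide +kernel)) (aC (chk_sound smok2 c6677 (by decide +kernel)) (aC (chk_sound smok2 c6678 (by decide +kernel)) aN))))))))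
theorem n743 : Rf E2 0 [980, 1150, 1217, 1053] :=
  node_sound smok2 (q := 0) (ch := [24, 23, 20, 17, 11, 10, 9, 7, 6, 4]) (by decide +kernel) (by decide +kernel)
    (aC (chk_sound smok2 c6679 (by decide +kernel)) (aC (chk_sound smok2 c6680 (by decide +kernel)) (aC (chk_sound smok2 c6681 (by decide +kernel)) (aC (chk_sound smok2 c6682 (by decide +kernel)) (aC (chk_sound smok2 c6683 (by decide +kernel)) (aC (chk_sound smok2 c6684 (by decide +kernel)) (aC (chk_sound smok2 c6685 (by decide +kernel)) (aC (chk_sound smok2 c6686 (by decide +kernel)) (aC (chk_sound smok2 c6687 (by decide +kernel)) (aC (chk_sound smok2 c6688 (by decide +kernel)) aN))))))))))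
theorem n744 : Rf E2 0 [1150, 1217, 1053] :=
  node_sound smok2 (q := 12) (ch := [995, 994, 993, 992, 991, 990, 986, 985, 981, 980, 979, 978, 977]) (by decide +kernel) (by decide +kernel)
    (aC (chk_sound smok2 c6689 (by decide +kernel)) (aC (chk_sound smok2 c6690 (by decide +kernel)) (aC (chk_sound smok2 c6691 (by decide +kernel)) (aC (chk_sound smok2 c6692 (by decide +kernel)) (aC (chk_sound smok2 c6693 (by decide +kernel)) (aC n739 (aC n740 (aC n741 (aC n742 (aC n743 (aC (chk_sound smok2 c6694 (by decide +kernel)) (aC (chk_sound smok2 c6695 (by decide +kernel)) (aC (chk_sound smok2 c6696 (by decide +kernel)) aN)))))))))))))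
theorem n745 : Rf E2 0 [1317, 1147, 1217, 1053] :=
  node_sound smok2 (q := 1) (ch := [106, 104, 103, 101, 100, 99, 93, 90, 87, 86]) (by decide +kernel) (by decide +kernel)
    (aC (chk_sound smok2 c6697 (by decide +kernel)) (aC (chk_sound smok2 c6698 (by decide +kernel)) (aC (chk_sound smok2 c6699 (by decide +kernel)) (aC (chk_sound smok2 c6700 (by decide +kernel)) (aC (chk_sound smok2 c6701 (by decide +kernel)) (aC (chk_sound smok2 c6702 (by decide +kernel)) (aC (chk_sound smok2 c6703 (by decide +kernel)) (aC (chk_sound smok2 c6704 (by decide +kernel)) (aC (chk_sound smok2 c6705 (by decide +kernel)) (aC (chk_sound smok2 c6706 (by decide +kernel)) aN))))))))))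
theorem n746 : Rf E2 0 [1316, 1147, 1217, 1053] :=
  node_sound smok2 (q := 17) (ch := [1402, 1401, 1393, 1392, 1386, 1385, 1384, 1383]) (by decide +kernel) (by decide +kernel)
    (aC (chk_sound smok2 c6707 (by decide +kernel)) (aC (chk_sound smok2 c6708 (by decide +kernel)) (aC (chk_sound smok2 c6709 (by decide +kernel)) (aC (chk_sound smok2 c6710 (by decide +kernel)) (aC (chk_sound smok2 c6711 (by decide +kernel)) (aC (chk_sound smok2 c6712 (by decide +kernel)) (aC (chk_sound smok2 c6713 (by decide +kernel)) (aC (chk_sound smok2 c6714 (by decide +kernel)) aN))))))))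
theorem n747 : Rf E2 0 [1312, 1147, 1217, 1053] :=
  node_sound smok2 (q := 12) (ch := [994, 993, 992, 991, 990, 989, 980, 979, 978, 977, 976]) (by decide +kernel) (by decide +kernel)
    (aC (chk_sound smok2 c6715 (by decide +kernel)) (aC (chk_sound smok2 c6716 (by decide +kernel)) (aC (chk_sound smok2 c6717 (by decide +kernel)) (aC (chk_sound smok2 c6718 (by decide +kernel)) (aC (chk_sound smok2 c6719 (by decide +kernel)) (aC (chk_sound smok2 c6720 (by decide +kernel)) (aC (chk_sound smok2 c6721 (by decide +kernel)) (aC (chk_sound smok2 c6722 (by decide +kernel)) (aC (chk_sound smok2 c6723 (by decide +kernel)) (aC (chk_sound smok2 c6724 (by decide +kernel)) (aC (chk_sound smok2 c6725 (by decide +kernel)) aN)))))))))))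
theorem n748 : Rf E2 0 [1311, 1147, 1217, 1053] :=
  node_sound smok2 (q := 12) (ch := [994, 993, 992, 991, 990, 989, 988, 981, 980, 979, 978, 977, 976]) (by decide +kernel) (by decide +kernel)
    (aC (chk_sound smok2 c6726 (by decide +kernel)) (aC (chk_sound smok2 c6727 (by decide +kernel)) (aC (chk_sound smok2 c6728 (by decide +kernel)) (aC (chk_sound smok2 c6729 (by decide +kernel)) (aC (chk_sound smok2 c6730 (by decide +kernel)) (aC (chk_sound smok2 c6731 (by decide +kernel)) (aC (chk_sound smok2 c6732 (by decide +kernel)) (aC (chk_sound smok2 c6733 (by decide +kernel)) (aC (chk_sound smok2 c6734 (by decide +kernel)) (aC (chk_sound smok2 c6735 (by decide +kernel)) (aC (chk_sound smok2 c6736 (by decide +kernel)) (aC (chk_sound smok2 c6737 (by decide +kernel)) (aC (chk_sound smok2 c6738 (by decide +kernel)) aN)))))))))))))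
theorem n749 : Rf E2 0 [1307, 1147, 1217, 1053] :=
  node_sound smok2 (q := 17) (ch := [1403, 1402, 1401, 1400, 1399, 1393, 1392, 1384, 1383]) (by decide +kernel) (by decide +kernel)
    (aC (chk_sound smok2 c6739 (by decide +kernel)) (aC (chk_sound smok2 c6740 (by decide +kernel)) (aC (chk_sound smok2 c6741 (by decide +kernel)) (aC (chk_sound smok2 c6742 (by decide +kernel)) (aC (chk_sound smok2 c6743 (by decide +kernel)) (aC (chk_sound smok2 c6744 (by decide +kernel)) (aC (chk_sound smok2 c6745 (by decide +kernel)) (aC (chk_sound smok2 c6746 (by decide +kernel)) (aC (chk_sound smok2 c6747 (by decide +kernel)) aN)))))))))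
theorem n750 : Rf E2 0 [1306, 1147, 1217, 1053] :=
  node_sound smok2 (q := 1) (ch := [105, 104, 103, 101, 98, 90, 87, 85, 84]) (by decide +kernel) (by decide +kernel)
    (aC (chk_sound smok2 c6748 (by decide +kernel)) (aC (chk_sound smok2 c6749 (by decide +kernel)) (aC (chk_sound smok2 c6750 (by decide +kernel)) (aC (chk_sound smok2 c6751 (by decide +kernel)) (aC (chk_sound smok2 c6752 (by decide +kernel)) (aC (chk_sound smok2 c6753 (by decide +kernel)) (aC (chk_sound smok2 c6754 (by decide +kernel)) (aC (chk_sound smok2 c6755 (by decide +kernel)) (aC (chk_sound smok2 c6756 (by decide +kernel)) aN)))))))))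
theorem n751 : Rf E2 0 [1147, 1217, 1053] :=
  node_sound smok2 (q := 16) (ch := [1320, 1319, 1318, 1317, 1316, 1312, 1311, 1307, 1306, 1305, 1304, 1303, 1302]) (by decide +kernel) (by decide +kernel)
    (aC (chk_sound smok2 c6757 (by decide +kernel)) (aC (chk_sound smok2 c6758 (by decide +kernel)) (aC (chk_sound smok2 c6759 (by decide +kernel)) (aC n745 (aC n746 (aC n747 (aC n748 (aC n749 (aC n750 (aC (chk_sound smok2 c6760 (by decide +kernel)) (aC (chk_sound smok2 c6761 (by decide +kernel)) (aC (chk_sound smok2 c6762 (by decide +kernel)) (aC (chk_sound smok2 c6763 (by decide +kernel)) aN)))))))))))))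
theorem n752 : Rf E2 0 [992, 1146, 1217, 1053] :=
  node_sound smok2 (q := 11) (ch := [901, 900, 899, 898, 897, 896, 895, 894]) (by decide +kernel) (by decide +kernel)
    (aC (chk_sound smok2 c6764 (by decide +kernel)) (aC (chk_sound smok2 c6765 (by decide +kernel)) (aC (chk_sound smok2 c6766 (by decide +kernel)) (aC (chk_sound smok2 c6767 (by decide +kernel)) (aC (chk_sound smok2 c6768 (by decide +kernel)) (aC (chk_sound smok2 c6769 (by decide +kernel)) (aC (chk_sound smok2 c6770 (by decide +kernel)) (aC (chk_sound smok2 c6771 (by decide +kernel)) aN))))))))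
theorem n753 : Rf E2 0 [991, 1146, 1217, 1053] :=
  node_sound smok2 (q := 11) (ch := [914, 900, 899, 898, 897, 896, 895, 894]) (by decide +kernel) (by decide +kernel)
    (aC (chk_sound smok2 c6772 (by decide +kernel)) (aC (chk_sound smok2 c6773 (by decide +kernel)) (aC (chk_sound smok2 c6774 (by decide +kernel)) (aC (chk_sound smok2 c6775 (by decide +kernel)) (aC (chk_sound smok2 c6776 (by decide +kernel)) (aC (chk_sound smok2 c6777 (by decide +kernel)) (aC (chk_sound smok2 c6778 (by decide +kernel)) (aC (chk_sound smok2 c6779 (by decide +kernel)) aN))))))))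
theorem n754 : Rf E2 0 [1146, 1217, 1053] :=
  node_sound smok2 (q := 12) (ch := [992, 991, 990, 989, 982, 981, 980, 979, 978, 977, 976]) (by decide +kernel) (by decide +kernel)
    (aC n752 (aC n753 (aC (chk_sound smok2 c6780 (by decide +kernel)) (aC (chk_sound smok2 c6781 (by decide +kernel)) (aC (chk_sound smok2 c6782 (by decide +kernel)) (aC (chk_sound smok2 c6783 (by decide +kernel)) (aC (chk_sound smok2 c6784 (by decide +kernel)) (aC (chk_sound smok2 c6785 (by decide +kernel)) (aC (chk_sound smok2 c6786 (by decide +kernel)) (aC (chk_sound smok2 c6787 (by decide +kernel)) (aC (chk_sound smok2 c6788 (by decide +kernel)) aN)))))))))))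
theorem n755 : Rf E2 0 [990, 1145, 1217, 1053] :=
  node_sound smok2 (q := 11) (ch := [914, 913, 905, 904, 898, 897, 896, 895, 894]) (by decide +kernel) (by decide +kernel)
    (aC (chk_sound smok2 c6789 (by decide +kernel)) (aC (chk_sound smok2 c6790 (by decide +kernel)) (aC (chk_sound smok2 c6791 (by decide +kernel)) (aC (chk_sound smok2 c6792 (by decide +kernel)) (aC (chk_sound smok2 c6793 (by decide +kernel)) (aC (chk_sound smok2 c6794 (by decide +kernel)) (aC (chk_sound smok2 c6795 (by decide +kernel)) (aC (chk_sound smok2 c6796 (by decide +kernel)) (aC (chk_sound smok2 c6797 (by decide +kernel)) aN)))))))))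
theorem n756 : Rf E2 0 [985, 1145, 1217, 1053] :=
  node_sound smok2 (q := 16) (ch := [1321, 1320, 1314, 1313, 1312, 1311, 1310, 1303, 1302]) (by decide +kernel) (by decide +kernel)
    (aC (chk_sound smok2 c6798 (by decide +kernel)) (aC (chk_sound smok2 c6799 (by decide +kernel)) (aC (chk_sound smok2 c6800 (by decide +kernel)) (aC (chk_sound smok2 c6801 (by decide +kernel)) (aC (chk_sound smok2 c6802 (by decide +kernel)) (aC (chk_sound smok2 c6803 (by decide +kernel)) (aC (chk_sound smok2 c6804 (by decide +kernel)) (aC (chk_sound smok2 c6805 (by decide +kernel)) (aC (chk_sound smok2 c6806 (by decide +kernel)) aN)))))))))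
theorem n757 : Rf E2 0 [981, 1145, 1217, 1053] :=
  node_sound smok2 (q := 11) (ch := [914, 913, 912, 911, 905, 904, 896, 895, 894]) (by decide +kernel) (by decide +kernel)
    (aC (chk_sound smok2 c6807 (by decide +kernel)) (aC (chk_sound smok2 c6808 (by decide +kernel)) (aC (chk_sound smok2 c6809 (by decide +kernel)) (aC (chk_sound smok2 c6810 (by decide +kernel)) (aC (chk_sound smok2 c6811 (by decide +kernel)) (aC (chk_sound smok2 c6812 (by decide +kernel)) (aC (chk_sound smok2 c6813 (by decide +kernel)) (aC (chk_sound smok2 c6814 (by decide +kernel)) (aC (chk_sound smok2 c6815 (by decide +kernel)) aN)))))))))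
theorem n758 : Rf E2 0 [1145, 1217, 1053] :=
  node_sound smok2 (q := 12) (ch := [995, 994, 990, 986, 985, 981, 980, 979, 978, 977, 976]) (by decide +kernel) (by decide +kernel)
    (aC (chk_sound smok2 c6816 (by decide +kernel)) (aC (chk_sound smok2 c6817 (by decide +kernel)) (aC n755 (aC (chk_sound smok2 c6818 (by decide +kernel)) (aC n756 (aC n757 (aC (chk_sound smok2 c6819 (by decide +kernel)) (aC (chk_sound smok2 c6820 (by decide +kernel)) (aC (chk_sound smok2 c6821 (by decide +kernel)) (aC (chk_sound smok2 c6822 (by decide +kernel)) (aC (chk_sound smok2 c6823 (by decide +kernel)) aN)))))))))))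
theorem n759 : Rf E2 0 [986, 1144, 1217, 1053] :=
  node_sound smok2 (q := 0) (ch := [20, 17, 16, 11, 9, 7, 6, 4, 3]) (by decide +kernel) (by decide +kernel)
    (aC (chk_sound smok2 c6824 (by decide +kernel)) (aC (chk_sound smok2 c6825 (by decide +kernel)) (aC (chk_sound smok2 c6826 (by decide +kernel)) (aC (chk_sound smok2 c6827 (by decide +kernel)) (aC (chk_sound smok2 c6828 (by decide +kernel)) (aC (chk_sound smok2 c6829 (by decide +kernel)) (aC (chk_sound smok2 c6830 (by decide +kernel)) (aC (chk_sound smok2 c6831 (by decide +kernel)) (aC (chk_sound smok2 c6832 (by decide +kernel)) aN)))))))))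
theorem n760 : Rf E2 0 [984, 1144, 1217, 1053] :=
  node_sound smok2 (q := 0) (ch := [26, 22, 17, 16, 9, 8, 6, 4, 3]) (by decide +kernel) (by decide +kernel)
    (aC (chk_sound smok2 c6833 (by decide +kernel)) (aC (chk_sound smok2 c6834 (by decide +kernel)) (aC (chk_sound smok2 c6835 (by decide +kernel)) (aC (chk_sound smok2 c6836 (by decide +kernel)) (aC (chk_sound smok2 c6837 (by decide +kernel)) (aC (chk_sound smok2 c6838 (by decide +kernel)) (aC (chk_sound smok2 c6839 (by decide +kernel)) (aC (chk_sound smok2 c6840 (by decide +kernel)) (aC (chk_sound smok2 c6841 (by decide +kernel)) aN)))))))))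
theorem n761 : Rf E2 0 [977, 1144, 1217, 1053] :=
  node_sound smok2 (q := 0) (ch := [26, 25, 22, 20, 16, 12, 11, 9, 6]) (by decide +kernel) (by decide +kernel)
    (aC (chk_sound smok2 c6842 (by decide +kernel)) (aC (chk_sound smok2 c6843 (by decide +kernel)) (aC (chk_sound smok2 c6844 (by decide +kernel)) (aC (chk_sound smok2 c6845 (by decide +kernel)) (aC (chk_sound smok2 c6846 (by decide +kernel)) (aC (chk_sound smok2 c6847 (by decide +kernel)) (aC (chk_sound smok2 c6848 (by decide +kernel)) (aC (chk_sound smok2 c6849 (by decide +kernel)) (aC (chk_sound smok2 c6850 (by decide +kernel)) aN)))))))))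
theorem n762 : Rf E2 0 [1144, 1217, 1053] :=
  node_sound smok2 (q := 12) (ch := [995, 994, 993, 992, 987, 986, 985, 984, 980, 979, 978, 977, 976]) (by decide +kernel) (by decide +kernel)
    (aC (chk_sound smok2 c6851 (by decide +kernel)) (aC (chk_sound smok2 c6852 (by decide +kernel)) (aC (chk_sound smok2 c6853 (by decide +kernel)) (aC (chk_sound smok2 c6854 (by decide +kernel)) (aC (chk_sound smok2 c6855 (by decide +kernel)) (aC n759 (aC (chk_sound smok2 c6856 (by decide +kernel)) (aC n760 (aC (chk_sound smok2 c6857 (by decide +kernel)) (aC (chk_sound smok2 c6858 (by decide +kernel)) (aC (chk_sound smok2 c6859 (by decide +kernel)) (aC n761 (aC (chk_sound smok2 c6860 (by decide +kernel)) aN)))))))))))))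
theorem n763 : Rf E2 0 [1316, 1143, 1217, 1053] :=
  node_sound smok2 (q := 17) (ch := [1403, 1402, 1401, 1393, 1392, 1391, 1390, 1384, 1383]) (by decide +kernel) (by decide +kernel)
    (aC (chk_sound smok2 c6861 (by decide +kernel)) (aC (chk_sound smok2 c6862 (by decide +kernel)) (aC (chk_sound smok2 c6863 (by decide +kernel)) (aC (chk_sound smok2 c6864 (by decide +kernel)) (aC (chk_sound smok2 c6865 (by decide +kernel)) (aC (chk_sound smok2 c6866 (by decide +kernel)) (aC (chk_sound smok2 c6867 (by decide +kernel)) (aC (chk_sound smok2 c6868 (by decide +kernel)) (aC (chk_sound smok2 c6869 (by decide +kernel)) aN)))))))))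
theorem n764 : Rf E2 0 [1303, 1143, 1217, 1053] :=
  node_sound smok2 (q := 1) (ch := [107, 106, 105, 101, 99, 94, 93, 92, 91]) (by decide +kernel) (by decide +kernel)
    (aC (chk_sound smok2 c6870 (by decide +kernel)) (aC (chk_sound smok2 c6871 (by decide +kernel)) (aC (chk_sound smok2 c6872 (by decide +kernel)) (aC (chk_sound smok2 c6873 (by decide +kernel)) (aC (chk_sound smok2 c6874 (by decide +kernel)) (aC (chk_sound smok2 c6875 (by decide +kernel)) (aC (chk_sound smok2 c6876 (by decide +kernel)) (aC (chk_sound smok2 c6877 (by decide +kernel)) (aC (chk_sound smok2 c6878 (by decide +kernel)) aN)))))))))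
theorem n765 : Rf E2 0 [1143, 1217, 1053] :=
  node_sound smok2 (q := 16) (ch := [1321, 1320, 1316, 1312, 1311, 1310, 1309, 1308, 1307, 1303, 1302]) (by decide +kernel) (by decide +kernel)
    (aC (chk_sound smok2 c6879 (by decide +kernel)) (aC (chk_sound smok2 c6880 (by decide +kernel)) (aC n763 (aC (chk_sound smok2 c6881 (by decide +kernel)) (aC (chk_sound smok2 c6882 (by decide +kernel)) (aC (chk_sound smok2 c6883 (by decide +kernel)) (aC (chk_sound smok2 c6884 (by decide +kernel)) (aC (chk_sound smok2 c6885 (by decide +kernel)) (aC (chk_sound smok2 c6886 (by decide +kernel)) (aC n764 (aC (chk_sound smok2 c6887 (by decide +kernel)) aN)))))))))))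
theorem n766 : Rf E2 0 [993, 1142, 1217, 1053] :=
  node_sound smok2 (q := 11) (ch := [908, 904, 903, 902, 901, 896, 895, 894]) (by decide +kernel) (by decide +kernel)
    (aC (chk_sound smok2 c6888 (by decide +kernel)) (aC (chk_sound smok2 c6889 (by decide +kernel)) (aC (chk_sound smok2 c6890 (by decide +kernel)) (aC (chk_sound smok2 c6891 (by decide +kernel)) (aC (chk_sound smok2 c6892 (by decide +kernel)) (aC (chk_sound smok2 c6893 (by decide +kernel)) (aC (chk_sound smok2 c6894 (by decide +kernel)) (aC (chk_sound smok2 c6895 (by decide +kernel)) aN))))))))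
theorem n767 : Rf E2 0 [982, 1142, 1217, 1053] :=
  node_sound smok2 (q := 0) (ch := [26, 25, 24, 16, 12, 11, 7, 5, 3]) (by decide +kernel) (by decide +kernel)
    (aC (chk_sound smok2 c6896 (by decide +kernel)) (aC (chk_sound smok2 c6897 (by decide +kernel)) (aC (chk_sound smok2 c6898 (by decide +kernel)) (aC (chk_sound smok2 c6899 (by decide +kernel)) (aC (chk_sound smok2 c6900 (by decide +kernel)) (aC (chk_sound smok2 c6901 (by decide +kernel)) (aC (chk_sound smok2 c6902 (by decide +kernel)) (aC (chk_sound smok2 c6903 (by decide +kernel)) (aC (chk_sound smok2 c6904 (by decide +kernel)) aN)))))))))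
theorem n768 : Rf E2 0 [1142, 1217, 1053] :=
  node_sound smok2 (q := 12) (ch := [995, 994, 993, 989, 988, 984, 983, 982, 978, 977, 976]) (by decide +kernel) (by decide +kernel)
    (aC (chk_sound smok2 c6905 (by decide +kernel)) (aC (chk_sound smok2 c6906 (by decide +kernel)) (aC n766 (aC (chk_sound smok2 c6907 (by decide +kernel)) (aC (chk_sound smok2 c6908 (by decide +kernel)) (aC (chk_sound smok2 c6909 (by decide +kernel)) (aC (chk_sound smok2 c6910 (by decide +kernel)) (aC n767 (aC (chk_sound smok2 c6911 (by decide +kernel)) (aC (chk_sound smok2 c6912 (by decide +kernel)) (aC (chk_sound smok2 c6913 (by decide +kernel)) aN)))))))))))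
theorem n769 : Rf E2 0 [990, 1141, 1217, 1053] :=
  node_sound smok2 (q := 11) (ch := [914, 913, 905, 904, 903, 902, 896, 895]) (by decide +kernel) (by decide +kernel)
    (aC (chk_sound smok2 c6914 (by decide +kernel)) (aC (chk_sound smok2 c6915 (by decide +kernel)) (aC (chk_sound smok2 c6916 (by decide +kernel)) (aC (chk_sound smok2 c6917 (by decide +kernel)) (aC (chk_sound smok2 c6918 (by decide +kernel)) (aC (chk_sound smok2 c6919 (by decide +kernel)) (aC (chk_sound smok2 c6920 (by decide +kernel)) (aC (chk_sound smok2 c6921 (by decide +kernel)) aN))))))))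
theorem n770 : Rf E2 0 [989, 1141, 1217, 1053] :=
  node_sound smok2 (q := 0) (ch := [24, 22, 19, 18, 16, 11, 8, 6, 5]) (by decide +kernel) (by decide +kernel)
    (aC (chk_sound smok2 c6922 (by decide +kernel)) (aC (chk_sound smok2 c6923 (by decide +kernel)) (aC (chk_sound smok2 c6924 (by decide +kernel)) (aC (chk_sound smok2 c6925 (by decide +kernel)) (aC (chk_sound smok2 c6926 (by decide +kernel)) (aC (chk_sound smok2 c6927 (by decide +kernel)) (aC (chk_sound smok2 c6928 (by decide +kernel)) (aC (chk_sound smok2 c6929 (by decide +kernel)) (aC (chk_sound smok2 c6930 (by decide +kernel)) aN)))))))))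
theorem n771 : Rf E2 0 [981, 1141, 1217, 1053] :=
  node_sound smok2 (q := 0) (ch := [26, 25, 24, 23, 18, 16, 12, 11, 10]) (by decide +kernel) (by decide +kernel)
    (aC (chk_sound smok2 c6931 (by decide +kernel)) (aC (chk_sound smok2 c6932 (by decide +kernel)) (aC (chk_sound smok2 c6933 (by decide +kernel)) (aC (chk_sound smok2 c6934 (by decide +kernel)) (aC (chk_sound smok2 c6935 (by decide +kernel)) (aC (chk_sound smok2 c6936 (by decide +kernel)) (aC (chk_sound smok2 c6937 (by decide +kernel)) (aC (chk_sound smok2 c6938 (by decide +kernel)) (aC (chk_sound smok2 c6939 (by decide +kernel)) aN)))))))))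
theorem n772 : Rf E2 0 [1141, 1217, 1053] :=
  node_sound smok2 (q := 12) (ch := [995, 994, 990, 989, 988, 987, 986, 982, 981, 977, 976]) (by decide +kernel) (by decide +kernel)
    (aC (chk_sound smok2 c6940 (by decide +kernel)) (aC (chk_sound smok2 c6941 (by decide +kernel)) (aC n769 (aC n770 (aC (chk_sound smok2 c6942 (by decide +kernel)) (aC (chk_sound smok2 c6943 (by decide +kernel)) (aC (chk_sound smok2 c6944 (by decide +kernel)) (aC (chk_sound smok2 c6945 (by decide +kernel)) (aC n771 (aC (chk_sound smok2 c6946 (by decide +kernel)) (aC (chk_sound smok2 c6947 (by decide +kernel)) aN)))))))))))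
theorem n773 : Rf E2 0 [976, 1140, 1217, 1053] :=
  node_sound smok2 (q := 11) (ch := [914, 910, 909, 908, 907, 906, 905, 904, 903, 902, 901]) (by decide +kernel) (by decide +kernel)
    (aC (chk_sound smok2 c6948 (by decide +kernel)) (aC (chk_sound smok2 c6949 (by decide +kernel)) (aC (chk_sound smok2 c6950 (by decide +kernel)) (aC (chk_sound smok2 c6951 (by decide +kernel)) (aC (chk_sound smok2 c6952 (by decide +kernel)) (aC (chk_sound smok2 c6953 (by decide +kernel)) (aC (chk_sound smok2 c6954 (by decide +kernel)) (aC (chk_sound smok2 c6955 (by decide +kernel)) (aC (chk_sound smok2 c6956 (by decide +kernel)) (aC (chk_sound smok2 c6957 (by decide +kernel)) (aC (chk_sound smok2 c6958 (by decide +kernel)) aN)))))))))))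
theorem n774 : Rf E2 0 [1140, 1217, 1053] :=
  node_sound smok2 (q := 12) (ch := [995, 991, 990, 989, 988, 987, 986, 985, 984, 980, 976]) (by decide +kernel) (by decide +kernel)
    (aC (chk_sound smok2 c6959 (by decide +kernel)) (aC (chk_sound smok2 c6960 (by decide +kernel)) (aC (chk_sound smok2 c6961 (by decide +kernel)) (aC (chk_sound smok2 c6962 (by decide +kernel)) (aC (chk_sound smok2 c6963 (by decide +kernel)) (aC (chk_sound smok2 c6964 (by decide +kernel)) (aC (chk_sound smok2 c6965 (by decide +kernel)) (aC (chk_sound smok2 c6966 (by decide +kernel)) (aC (chk_sound smok2 c6967 (by decide +kernel)) (aC (chk_sound smok2 c6968 (by decide +kernel)) (aC n773 aN)))))))))))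
theorem n775 : Rf E2 0 [1217, 1053] :=
  node_sound smok2 (q := 14) (ch := [1157, 1156, 1155, 1154, 1153, 1152, 1151, 1150, 1147, 1146, 1145, 1144, 1143, 1142, 1141, 1140]) (by decide +kernel) (by decide +kernel)
    (aC n722 (aC n723 (aC n726 (aC n729 (aC n731 (aC n735 (aC n738 (aC n744 (aC n751 (aC n754 (aC n758 (aC n762 (aC n765 (aC n768 (aC n772 (aC n774 aN))))))))))))))))
theorem R2 : Rf E2 0 [1217, 1053] := n775

end Pool.Agent.R989.ZP
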