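import Pool.Agent.R989.ZP.Ms
import Pool.Agent.R989.ZP.C00
import Pool.Agent.R989.ZP.C01
import Pool.Agent.R989.ZP.C02
import Pool.Agent.R989.ZP.C03
import Pool.Agent.R989.ZP.C04
import Pool.Agent.R989.ZP.C05
import Pool.Agent.R989.ZP.C06
import Pool.Agent.R989.ZP.C07
import Pool.Agent.R989.ZP.C08
import Pool.Agent.R989.ZP.C09
import Pool.Agent.R989.ZP.C10
import Pool.Agent.R989.ZP.C11
import Pool.Agent.R989.ZP.C12
import Pool.Agent.R989.ZP.C13
import Pool.Agent.R989.ZP.C14
import Pool.Agent.R989.ZP.C15
import Pool.Agent.R989.ZP.C16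
import Pool.Agent.R989.ZP.C17
import Pool.Agent.R989.ZP.C18
import Pool.Agent.R989.ZP.C19
import Pool.Agent.R989.ZP.C20
import Pool.Agent.R989.ZP.C21
import Pool.Agent.R989.ZP.C22
import Pool.Agent.R989.ZP.C23
import Pool.Agent.R989.ZP.C24
import Pool.Agent.R989.ZP.C25
import Pool.Agent.R989.ZP.C26
import Pool.Agent.R989.ZP.C27
import Pool.Agent.R989.ZP.C28
import Pool.Agent.R989.ZP.C29
import Pool.Agent.R989.ZP.C30
import Pool.Agent.R989.ZP.C31
import Pool.Agent.R989.ZP.C32
import Pool.Agent.R989.ZP.C33
import Pool.Agent.R989.ZP.C34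
import Pool.Agent.R989.ZP.C35
import Pool.Agent.R989.ZP.C36
import Pool.Agent.R989.ZP.C37
import Pool.Agent.R989.ZP.C38
import Pool.Agent.R989.ZP.C39
import Pool.Agent.R989.ZP.C40
import Pool.Agent.R989.ZP.C41
import Pool.Agent.R989.ZP.C42
import Pool.Agent.R989.ZP.C43
import Pool.Agent.R989.ZP.C44
import Pool.Agent.R989.ZP.C45
import Pool.Agent.R989.ZP.C46
import Pool.Agent.R989.ZP.C47

set_option maxRecDepth 100000

namespace Pool.Agent.R989.ZP

theorem n776 : Rf E3 0 [989, 1138, 1053] :=
  node_sound smok3 (q := 11) (ch := [912, 904, 903, 902, 901, 900]) (by decide +kernel) (by decide +kernel)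
    (aC (chk_sound smok3 c6969 (by decide +kernel)) (aC (chk_sound smok3 c6970 (by decide +kernel)) (aC (chk_sound smok3 c6971 (by decide +kernel)) (aC (chk_sound smok3 c6972 (by decide +kernel)) (aC (chk_sound smok3 c6973 (by decide +kernel)) (aC (chk_sound smok3 c6974 (by decide +kernel)) aN))))))
theorem n777 : Rf E3 0 [988, 1138, 1053] :=
  node_sound smok3 (q := 15) (ch := [1239, 1238, 1237, 1236, 1229, 1228]) (by decide +kernel) (by decide +kernel)
    (aC (chk_sound smok3 c6975 (by decide +kernel)) (aC (chk_sound smok3 c6976 (by decide +kernel)) (aC (chk_sound smok3 c6977 (by decide +kernel)) (aC (chk_sound smok3 c6978 (by decide +kernel)) (aC (chk_sound smok3 c6979 (by decide +kernel)) (aC (chk_sound smok3 c6980 (by decide +kernel)) aN))))))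
theorem n778 : Rf E3 0 [987, 1138, 1053] :=
  node_sound smok3 (q := 15) (ch := [1239, 1238, 1237, 1233, 1232, 1225]) (by decide +kernel) (by decide +kernel)
    (aC (chk_sound smok3 c6981 (by decide +kernel)) (aC (chk_sound smok3 c6982 (by decide +kernel)) (aC (chk_sound smok3 c6983 (by decide +kernel)) (aC (chk_sound smok3 c6984 (by decide +kernel)) (aC (chk_sound smok3 c6985 (by decide +kernel)) (aC (chk_sound smok3 c6986 (by decide +kernel)) aN))))))
theorem n779 : Rf E3 0 [986, 1138, 1053] :=
  node_sound smok3 (q := 15) (ch := [1239, 1238, 1234, 1233, 1232, 1231, 1226, 1225]) (by decide +kernel) (by decide +kernel)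
    (aC (chk_sound smok3 c6987 (by decide +kernel)) (aC (chk_sound smok3 c6988 (by decide +kernel)) (aC (chk_sound smok3 c6989 (by decide +kernel)) (aC (chk_sound smok3 c6990 (by decide +kernel)) (aC (chk_sound smok3 c6991 (by decide +kernel)) (aC (chk_sound smok3 c6992 (by decide +kernel)) (aC (chk_sound smok3 c6993 (by decide +kernel)) (aC (chk_sound smok3 c6994 (by decide +kernel)) aN))))))))
theorem n780 : Rf E3 0 [985, 1138, 1053] :=
  node_sound smok3 (q := 11) (ch := [911, 910, 909, 908, 900, 899, 898, 897]) (by decide +kernel) (by decide +kernel)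
    (aC (chk_sound smok3 c6995 (by decide +kernel)) (aC (chk_sound smok3 c6996 (by decide +kernel)) (aC (chk_sound smok3 c6997 (by decide +kernel)) (aC (chk_sound smok3 c6998 (by decide +kernel)) (aC (chk_sound smok3 c6999 (by decide +kernel)) (aC (chk_sound smok3 c7000 (by decide +kernel)) (aC (chk_sound smok3 c7001 (by decide +kernel)) (aC (chk_sound smok3 c7002 (by decide +kernel)) aN))))))))
theorem n781 : Rf E3 0 [980, 1138, 1053] :=
  node_sound smok3 (q := 11) (ch := [912, 911, 910, 909, 905]) (by decide +kernel) (by decide +kernel)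
    (aC (chk_sound smok3 c7003 (by decide +kernel)) (aC (chk_sound smok3 c7004 (by decide +kernel)) (aC (chk_sound smok3 c7005 (by decide +kernel)) (aC (chk_sound smok3 c7006 (by decide +kernel)) (aC (chk_sound smok3 c7007 (by decide +kernel)) aN)))))
theorem n782 : Rf E3 0 [979, 1138, 1053] :=
  node_sound smok3 (q := 11) (ch := [912, 911, 910, 909, 908, 907, 903]) (by decide +kernel) (by decide +kernel)
    (aC (chk_sound smok3 c7008 (by decide +kernel)) (aC (chk_sound smok3 c7009 (by decide +kernel)) (aC (chk_sound smok3 c7010 (by decide +kernel)) (aC (chk_sound smok3 c7011 (by decide +kernel)) (aC (chk_sound smok3 c7012 (by decide +kernel)) (aC (chk_sound smok3 c7013 (by decide +kernel)) (aC (chk_sound smok3 c7014 (by decide +kernel)) aN)))))))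
theorem n783 : Rf E3 0 [1138, 1053] :=
  node_sound smok3 (q := 12) (ch := [993, 992, 991, 990, 989, 988, 987, 986, 985, 984, 983, 982, 981, 980, 979]) (by decide +kernel) (by decide +kernel)
    (aC (chk_sound smok3 c7015 (by decide +kernel)) (aC (chk_sound smok3 c7016 (by decide +kernel)) (aC (chk_sound smok3 c7017 (by decide +kernel)) (aC (chk_sound smok3 c7018 (by decide +kernel)) (aC n776 (aC n777 (aC n778 (aC n779 (aC n780 (aC (chk_sound smok3 c7019 (by decide +kernel)) (aC (chk_sound smok3 c7020 (by decide +kernel)) (aC (chk_sound smok3 c7021 (by decide +kernel)) (aC (chk_sound smok3 c7022 (by decide +kernel)) (aC n781 (aC n782 aN)))))))))))))))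
theorem R3 : Rf E3 0 [1138, 1053] := n783
theorem n784 : Rf E4 0 [1139, 1053] :=
  node_sound smok4 (q := 12) (ch := [992, 991, 990, 989, 988, 987, 986, 985, 984, 983, 982, 981, 980]) (by decide +kernel) (by decide +kernel)
    (aC (chk_sound smok4 c7023 (by decide +kernel)) (aC (chk_sound smok4 c7024 (by decide +kernel)) (aC (chk_sound smok4 c7025 (by decide +kernel)) (aC (chk_sound smok4 c7026 (by decide +kernel)) (aC (chk_sound smok4 c7027 (by decide +kernel)) (aC (chk_sound smok4 c7028 (by decide +kernel)) (aC (chk_sound smok4 c7029 (by decide +kernel)) (aC (chk_sound smok4 c7030 (by decide +kernel)) (aC (chk_sound smok4 c7031 (by decide +kernel)) (aC (chk_sound smok4 c7032 (by decide +kernel)) (aC (chk_sound smok4 c7033 (by decide +kernel)) (aC (chk_sound smok4 c7034 (by decide +kernel)) (aC (chk_sound smok4 c7035 (by decide +kernel)) aN)))))))))))))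
theorem R4 : Rf E4 0 [1139, 1053] := n784
theorem R5 : Rf E5 0 [1140, 1053] := (chk_sound smok5 c7036 (by decide +kernel))
theorem R6 : Rf E6 0 [1141, 1053] := (chk_sound smok6 c7037 (by decide +kernel))
theorem R7 : Rf E7 0 [1142, 1053] := (chk_sound smok7 c7038 (by decide +kernel))
theorem R8 : Rf E8 0 [1143, 1053] := (chk_sound smok8 c7039 (by decide +kernel))
theorem R9 : Rf E9 0 [1144, 1053] := (chk_sound smok9 c7040 (by decide +kernel))
theorem R10 : Rf E10 0 [1145, 1053] := (chk_sound smok10 c7041 (by decide +kernel))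
theorem R11 : Rf E11 0 [1146, 1053] := (chk_sound smok11 c7042 (by decide +kernel))
theorem R12 : Rf E12 0 [1147, 1053] := (chk_sound smok12 c7043 (by decide +kernel))

end Pool.Agent.R989.ZP
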