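import Pool.Agent.R989.ZP.Sym
import Pool.Agent.R989.ZP.T0
import Pool.Agent.R989.ZP.T1
import Pool.Agent.R989.ZP.T2
import Pool.Agent.R989.ZP.T3
import Pool.Agent.R989.ZP.T4
import Pool.Agent.R989.ZP.T5
import Pool.Agent.R989.ZP.T6
import Pool.Agent.R989.ZP.T7

set_option maxRecDepth 100000
set_option exponentiation.threshold 5000

namespace Pool.Agent.R989.ZP

theorem xok0 : xOk 0 xe0 := ⟨by decide +kernel, by decide +kernel⟩
theorem xok1 : xOk 1 xe1 := ⟨by decide +kernel, by decide +kernel⟩
theorem xok2 : xOk 2 xe2 := ⟨by decide +kernel, by decide +kernel⟩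
theorem xok3 : xOk 3 xe3 := ⟨by decide +kernel, by decide +kernel⟩
theorem xok4 : xOk 4 xe4 := ⟨by decide +kernel, by decide +kernel⟩
theorem xok5 : xOk 5 xe5 := ⟨by decide +kernel, by decide +kernel⟩
theorem xok6 : xOk 6 xe6 := ⟨by decide +kernel, by decide +kernel⟩
theorem xok7 : xOk 7 xe7 := ⟨by decide +kernel, by decide +kernel⟩
theorem xok8 : xOk 8 xe8 := ⟨by decide +kernel, by decide +kernel⟩
theorem xok9 : xOk 9 xe9 := ⟨by decide +kernel, by decide +kernel⟩
theorem xok10 : xOk 10 xe10 := ⟨by decide +kernel, by decide +kernel⟩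
theorem xok11 : xOk 11 xe11 := ⟨by decide +kernel, by decide +kernel⟩
theorem xok12 : xOk 12 xe12 := ⟨by decide +kernel, by decide +kernel⟩
theorem xok13 : xOk 13 xe13 := ⟨by decide +kernel, by decide +kernel⟩
theorem xok14 : xOk 14 xe14 := ⟨by decide +kernel, by decide +kernel⟩
theorem xok15 : xOk 15 xe15 := ⟨by decide +kernel, by decide +kernel⟩
theorem xok16 : xOk 16 xe16 := ⟨by decide +kernel, by decide +kernel⟩
theorem xok17 : xOk 17 xe17 := ⟨by decide +kernel, by decide +kernel⟩
theorem xok18 : xOk 18 xe18 := ⟨by decide +kernel, by decide +kernel⟩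
theorem xok19 : xOk 19 xe19 := ⟨by decide +kernel, by decide +kernel⟩
theorem xok20 : xOk 20 xe20 := ⟨by decide +kernel, by decide +kernel⟩
theorem xok21 : xOk 21 xe21 := ⟨by decide +kernel, by decide +kernel⟩
theorem xok22 : xOk 22 xe22 := ⟨by decide +kernel, by decide +kernel⟩
theorem xok23 : xOk 23 xe23 := ⟨by decide +kernel, by decide +kernel⟩
theorem xok24 : xOk 24 xe24 := ⟨by decide +kernel, by decide +kernel⟩
theorem xok25 : xOk 25 xe25 := ⟨by decide +kernel, by decide +kernel⟩
theorem xok26 : xOk 26 xe26 := ⟨by decide +kernel, by decide +kernel⟩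

theorem case0 : CaseT E0 1 2 := by
  apply case_of_split
  intro e he
  interval_cases e
  · exact ecase_of_R R0_0 rfl rfl xok0 (by norm_num) (by norm_num)
  · exact ecase_of_R R0_1 rfl rfl xok1 (by norm_num) (by norm_num)
  · exact ecase_of_R R0_2 rfl rfl xok2 (by norm_num) (by norm_num)
  · exact ecase_of_R R0_3 rfl rfl xok3 (by norm_num) (by norm_num)
  · exact ecase_of_R R0_4 rfl rfl xok4 (by norm_num) (by norm_num)
  · exact ecase_of_R R0_5 rfl rfl xok5 (by norm_num) (by norm_num)
  · exact ecase_of_R R0_6 rfl rfl xok6 (by norm_num) (by norm_num)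
  · exact ecase_of_R R0_7 rfl rfl xok7 (by norm_num) (by norm_num)
  · exact ecase_of_R R0_8 rfl rfl xok8 (by norm_num) (by norm_num)
  · exact ecase_of_R R0_9 rfl rfl xok9 (by norm_num) (by norm_num)
  · exact ecase_of_R R0_10 rfl rfl xok10 (by norm_num) (by norm_num)
  · exact ecase_of_R R0_11 rfl rfl xok11 (by norm_num) (by norm_num)
  · exact ecase_of_R R0_12 rfl rfl xok12 (by norm_num) (by norm_num)
  · exact ecase_of_R R0_13 rfl rfl xok13 (by norm_num) (by norm_num)
  · exact ecase_of_R R0_14 rfl rfl xok14 (by norm_num) (by norm_num)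
  · exact ecase_of_R R0_15 rfl rfl xok15 (by norm_num) (by norm_num)
  · exact ecase_of_R R0_16 rfl rfl xok16 (by norm_num) (by norm_num)
  · exact ecase_of_R R0_17 rfl rfl xok17 (by norm_num) (by norm_num)
  · exact ecase_of_R R0_18 rfl rfl xok18 (by norm_num) (by norm_num)
  · exact ecase_of_R R0_19 rfl rfl xok19 (by norm_num) (by norm_num)
  · exact ecase_of_R R0_20 rfl rfl xok20 (by norm_num) (by norm_num)
  · exact ecase_of_R R0_21 rfl rfl xok21 (by norm_num) (by norm_num)
  · exact ecase_of_R R0_22 rfl rfl xok22 (by norm_num) (by norm_num)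
  · exact ecase_of_R R0_23 rfl rfl xok23 (by norm_num) (by norm_num)
  · exact ecase_of_R R0_24 rfl rfl xok24 (by norm_num) (by norm_num)
  · exact ecase_of_R R0_25 rfl rfl xok25 (by norm_num) (by norm_num)
  · exact ecase_of_R R0_26 rfl rfl xok26 (by norm_num) (by norm_num)

theorem case1 : CaseT E1 1 3 := by
  apply case_of_split
  intro e he
  interval_cases e
  · exact ecase_of_R R1_0 rfl rfl xok0 (by norm_num) (by norm_num)
  · exact ecase_of_R R1_1 rfl rfl xok1 (by norm_num) (by norm_num)
  · exact ecase_of_R R1_2 rfl rfl xok2 (by norm_num) (by norm_num)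
  · exact ecase_of_R R1_3 rfl rfl xok3 (by norm_num) (by norm_num)
  · exact ecase_of_R R1_4 rfl rfl xok4 (by norm_num) (by norm_num)
  · exact ecase_of_R R1_5 rfl rfl xok5 (by norm_num) (by norm_num)
  · exact ecase_of_R R1_6 rfl rfl xok6 (by norm_num) (by norm_num)
  · exact ecase_of_R R1_7 rfl rfl xok7 (by norm_num) (by norm_num)
  · exact ecase_of_R R1_8 rfl rfl xok8 (by norm_num) (by norm_num)
  · exact ecase_of_R R1_9 rfl rfl xok9 (by norm_num) (by norm_num)
  · exact ecase_of_R R1_10 rfl rfl xok10 (by norm_num) (by norm_num)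
  · exact ecase_of_R R1_11 rfl rfl xok11 (by norm_num) (by norm_num)
  · exact ecase_of_R R1_12 rfl rfl xok12 (by norm_num) (by norm_num)
  · exact ecase_of_R R1_13 rfl rfl xok13 (by norm_num) (by norm_num)
  · exact ecase_of_R R1_14 rfl rfl xok14 (by norm_num) (by norm_num)
  · exact ecase_of_R R1_15 rfl rfl xok15 (by norm_num) (by norm_num)
  · exact ecase_of_R R1_16 rfl rfl xok16 (by norm_num) (by norm_num)
  · exact ecase_of_R R1_17 rfl rfl xok17 (by norm_num) (by norm_num)
  · exact ecase_of_R R1_18 rfl rfl xok18 (by norm_num) (by norm_num)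
  · exact ecase_of_R R1_19 rfl rfl xok19 (by norm_num) (by norm_num)
  · exact ecase_of_R R1_20 rfl rfl xok20 (by norm_num) (by norm_num)
  · exact ecase_of_R R1_21 rfl rfl xok21 (by norm_num) (by norm_num)
  · exact ecase_of_R R1_22 rfl rfl xok22 (by norm_num) (by norm_num)
  · exact ecase_of_R R1_23 rfl rfl xok23 (by norm_num) (by norm_num)
  · exact ecase_of_R R1_24 rfl rfl xok24 (by norm_num) (by norm_num)
  · exact ecase_of_R R1_25 rfl rfl xok25 (by norm_num) (by norm_num)
  · exact ecase_of_R R1_26 rfl rfl xok26 (by norm_num) (by norm_num)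

theorem case2 : CaseT E2 2 2 := case_of_R R2 rfl (by norm_num) (by norm_num)
theorem case3 : CaseT E3 1 4 := case_of_R R3 rfl (by norm_num) (by norm_num)
theorem case4 : CaseT E4 1 5 := case_of_R R4 rfl (by norm_num) (by norm_num)
theorem case5 : CaseT E5 1 6 := case_of_R R5 rfl (by norm_num) (by norm_num)
theorem case6 : CaseT E6 1 7 := case_of_R R6 rfl (by norm_num) (by norm_num)
theorem case7 : CaseT E7 1 8 := case_of_R R7 rfl (by norm_num) (by norm_num)
theorem case8 : CaseT E8 1 9 := case_of_R R8 rfl (by norm_num) (by norm_num)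
theorem case9 : CaseT E9 1 10 := case_of_R R9 rfl (by norm_num) (by norm_num)
theorem case10 : CaseT E10 1 11 := case_of_R R10 rfl (by norm_num) (by norm_num)
theorem case11 : CaseT E11 1 12 := case_of_R R11 rfl (by norm_num) (by norm_num)
theorem case12 : CaseT E12 1 13 := case_of_R R12 rfl (by norm_num) (by norm_num)

theorem no_cfg {S : Z → Z → Prop} (h : Cfg S) : False := by
  have g0 : G E0 S := ⟨h, by intro ab hab; simp [E0] at hab⟩
  have g1 : G E1 S := step case0 g0
  have g2 : G E2 S := step case1 g1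
  have g3 : G E3 S := step case2 g2
  have g4 : G E4 S := step case3 g3
  have g5 : G E5 S := step case4 g4
  have g6 : G E6 S := step case5 g5
  have g7 : G E7 S := step case6 g6
  have g8 : G E8 S := step case7 g7
  have g9 : G E9 S := step case8 g8
  have g10 : G E10 S := step case9 g9
  have g11 : G E11 S := step case10 g10
  have g12 : G E12 S := step case11 g11
  have g13 : G (E12 ++ [(1, 13)]) S := step case12 g12
  exact finish (by decide) g13

end Pool.Agent.R989.ZP
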