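import Pool.Agent.R989.ZP.Sound3
import Pool.Agent.R989.ZP.Masks

set_option maxRecDepth 100000

namespace Pool.Agent.R989.ZP

def SMp (E : List (ℕ × ℕ)) (SM n : ℕ) : Prop := SM.testBit n = true →
  64 ≤ n ∧ (n - 64) % 81 ≤ 54 ∧ offBad E (((n - 64) / 81 : ℕ) : Z) (((n - 64) % 81 : ℕ) : Z)
instance (E : List (ℕ × ℕ)) (SM n : ℕ) : Decidable (SMp E SM n) := by unfold SMp; infer_instance

theorem smok_of {E : List (ℕ × ℕ)} {SM : ℕ} (h : ∀ a < 48, ∀ b < 64, SMp E SM (64 * a + b))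
    (hlt : SM < 2 ^ 3072) : SMok E SM := by
  intro n hn
  by_cases hb : n < 3072
  · have := h (n / 64) (by omega) (n % 64) (by omega)
    rw [show 64 * (n / 64) + n % 64 = n by omega] at this
    exact this hn
  · rw [Nat.testBit_lt_two_pow] at hn
    · cases hn
    · exact lt_of_lt_of_le hlt (Nat.pow_le_pow_right (by norm_num) (by omega))

def E0 : List (ℕ × ℕ) := []
def E1 : List (ℕ × ℕ) := [(1, 2)]
def E2 : List (ℕ × ℕ) := [(1, 2), (1, 3)]
def E3 : List (ℕ × ℕ) := [(1, 2), (1, 3), (2, 2)]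
def E4 : List (ℕ × ℕ) := [(1, 2), (1, 3), (2, 2), (1, 4)]
def E5 : List (ℕ × ℕ) := [(1, 2), (1, 3), (2, 2), (1, 4), (1, 5)]
def E6 : List (ℕ × ℕ) := [(1, 2), (1, 3), (2, 2), (1, 4), (1, 5), (1, 6)]
def E7 : List (ℕ × ℕ) := [(1, 2), (1, 3), (2, 2), (1, 4), (1, 5), (1, 6), (1, 7)]
def E8 : List (ℕ × ℕ) := [(1, 2), (1, 3), (2, 2), (1, 4), (1, 5), (1, 6), (1, 7), (1, 8)]
def E9 : List (ℕ × ℕ) := [(1, 2), (1, 3), (2, 2), (1, 4), (1, 5), (1, 6), (1, 7), (1, 8), (1, 9)]
def E10 : List (ℕ × ℕ) := [(1, 2), (1, 3), (2, 2), (1, 4), (1, 5), (1, 6), (1, 7), (1, 8), (1, 9), (1, 10)]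
def E11 : List (ℕ × ℕ) := [(1, 2), (1, 3), (2, 2), (1, 4), (1, 5), (1, 6), (1, 7), (1, 8), (1, 9), (1, 10), (1, 11)]
def E12 : List (ℕ × ℕ) := [(1, 2), (1, 3), (2, 2), (1, 4), (1, 5), (1, 6), (1, 7), (1, 8), (1, 9), (1, 10), (1, 11), (1, 12)]

set_option exponentiation.threshold 5000
theorem smok0 : SMok E0 sm0 := smok_of (by decide +kernel) (by decide +kernel)
theorem smok1 : SMok E1 sm1 := smok_of (by decide +kernel) (by decide +kernel)
theorem smok2 : SMok E2 sm2 := smok_of (by decide +kernel) (by decide +kernel)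
theorem smok3 : SMok E3 sm3 := smok_of (by decide +kernel) (by decide +kernel)
theorem smok4 : SMok E4 sm4 := smok_of (by decide +kernel) (by decide +kernel)
theorem smok5 : SMok E5 sm5 := smok_of (by decide +kernel) (by decide +kernel)
theorem smok6 : SMok E6 sm6 := smok_of (by decide +kernel) (by decide +kernel)
theorem smok7 : SMok E7 sm7 := smok_of (by decide +kernel) (by decide +kernel)
theorem smok8 : SMok E8 sm8 := smok_of (by decide +kernel) (by decide +kernel)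
theorem smok9 : SMok E9 sm9 := smok_of (by decide +kernel) (by decide +kernel)
theorem smok10 : SMok E10 sm10 := smok_of (by decide +kernel) (by decide +kernel)
theorem smok11 : SMok E11 sm11 := smok_of (by decide +kernel) (by decide +kernel)
theorem smok12 : SMok E12 sm12 := smok_of (by decide +kernel) (by decide +kernel)

theorem aN {E : List (ℕ × ℕ)} {X : ℕ} {Ps : List ℕ} : AllRf E X Ps [] := trivial
theorem aC {E : List (ℕ × ℕ)} {X : ℕ} {Ps : List ℕ} {P : ℕ} {ch : List ℕ} (h : Rf E X (P :: Ps))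
    (h' : AllRf E X Ps ch) : AllRf E X Ps (P :: ch) := ⟨h, h'⟩

end Pool.Agent.R989.ZP
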