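import Mathlib
import Pool.Agent.R989.ZP.Defs

/-! Soundness of the checker of `Defs`. -/

namespace Pool.Agent.R989.ZP

abbrev Z := ZMod 27

def near (z : Z) : Prop := z = 0 ∨ z = 1 ∨ z = -1
instance : DecidablePred near := fun z => by unfold near; infer_instance

structure Cfg (S : Z → Z → Prop) : Prop where
  row : ∀ x, ∃ v, S x v
  col : ∀ v, ∃ x, S x v
  rowu : ∀ x v v', S x v → S x v' → v = v'
  colu : ∀ x x' v, S x v → S x' v → x = x'
  free : ∀ x1 v1 x2 v2 x3 v3, S x1 v1 → S x2 v2 → S x3 v3 →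
    near (x1 + x3 - 2 * x2) → near (v1 + v3 - 2 * v2) → x1 = x2 ∧ x2 = x3

def cx (Q : ℕ) : Z := ((Q / 81 : ℕ) : Z)
def cv (Q : ℕ) : Z := ((Q % 81 : ℕ) : Z)
def Cell (P : ℕ) : Prop := P / 81 ≤ 26 ∧ P % 81 ≤ 26
def Ok (S : Z → Z → Prop) (F : ℕ) : Prop := ∀ Q, F.testBit (64 + Q) = true → ¬ S (cx Q) (cv Q)
def hc (p : ℕ) : ℕ := 81 * ((14 * (p / 81)) % 27) + (14 * (p % 81)) % 27

theorem tb_shl (x i j : ℕ) : (Nat.shiftLeft x i).testBit j = (decide (i ≤ j) && x.testBit (j - i)) :=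
  Nat.testBit_shiftLeft x
theorem tb_shr (x i j : ℕ) : (Nat.shiftRight x i).testBit j = x.testBit (i + j) :=
  Nat.testBit_shiftRight x
theorem tb_lor (x y j : ℕ) : (Nat.lor x y).testBit j = (x.testBit j || y.testBit j) := Nat.testBit_or x y j
theorem tb_land (x y j : ℕ) : (Nat.land x y).testBit j = (x.testBit j && y.testBit j) := Nat.testBit_and x y j
theorem tb_xor (x y j : ℕ) : (Nat.xor x y).testBit j = (x.testBit j ^^ y.testBit j) := Nat.testBit_xor x y j

theorem tb_small {P : ℕ} (hP : P < 4096) (Q : ℕ) : P.testBit (64 + Q) = false := by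
  apply Nat.testBit_lt_two_pow
  calc P < 2 ^ 12 := hP
    _ ≤ 2 ^ (64 + Q) := Nat.pow_le_pow_right (by norm_num) (by omega)

theorem force_eq {α : Type} (n : ℕ) (k : ℕ → α) : force n k = k n := by
  cases n <;> rfl

theorem box_bits (n : ℕ) (h : box.testBit n = true) : ∃ i j, i ≤ 2 ∧ j ≤ 2 ∧ n = 64 + 81 * i + j := by
  by_cases hn : n < 256
  · have key : ∀ n < 256, box.testBit n = true → ∃ i ≤ 2, ∃ j ≤ 2, n = 64 + 81 * i + j := by decide +kernel
    obtain ⟨i, hi, j, hj, e⟩ := key n hn h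
    exact ⟨i, j, hi, hj, e⟩
  · rw [Nat.testBit_lt_two_pow] at h
    · cases h
    · exact lt_of_lt_of_le (show box < 2 ^ 256 by decide +kernel) (Nat.pow_le_pow_right (by norm_num) (by omega))

def tri (i : ℕ) : Prop := i = 0 ∨ i = 13 ∨ i = 14
instance : DecidablePred tri := fun z => by unfold tri; infer_instance

set_option exponentiation.threshold 5000 in
theorem hb_lt : hb < 2 ^ 1280 := by decide +kernel

theorem hb_bits (n : ℕ) (h : hb.testBit n = true) : ∃ i j, tri i ∧ tri j ∧ n = 64 + 81 * i + j := by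
  by_cases hn : n < 1280
  · have key : ∀ n < 1280, hb.testBit n = true → 64 ≤ n ∧ tri ((n - 64) / 81) ∧ tri ((n - 64) % 81) := by decide +kernel
    obtain ⟨h1, h2, h3⟩ := key n hn h
    exact ⟨(n - 64) / 81, (n - 64) % 81, h2, h3, by omega⟩
  · rw [Nat.testBit_lt_two_pow] at h
    · cases h
    · exact lt_of_lt_of_le hb_lt (Nat.pow_le_pow_right (by norm_num) (by omega))

theorem one_bits (n : ℕ) : one64.testBit n = decide (n = 64) := by
  have : one64 = 2 ^ 64 := by decide +kernel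
  rw [this, Nat.testBit_two_pow]
  simp [eq_comm]

def tabP (P : ℕ) : Prop := tabval P = 0 ∨ (P / 81 ≤ 26 ∧ P % 81 ≤ 26 ∧
    tabval P = 81 * ((14 * (P / 81)) % 27) + (14 * (P % 81)) % 27 + 1)
instance : DecidablePred tabP := fun P => by unfold tabP; infer_instance

theorem tab_key' : ∀ a < 64, ∀ b < 64, tabP (64 * a + b) := by decide +kernel

theorem tab_key (P : ℕ) (hP : P < 4096) : tabval P = 0 ∨ (P / 81 ≤ 26 ∧ P % 81 ≤ 26 ∧
    tabval P = 81 * ((14 * (P / 81)) % 27) + (14 * (P % 81)) % 27 + 1) := by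
  have := tab_key' (P / 64) (by omega) (P % 64) (by omega)
  rwa [show 64 * (P / 64) + P % 64 = P by omega] at this

theorem tab_spec {P H : ℕ} (hP : P < 4096) (h : tabval P = H + 1) : Cell P ∧ H = hc P := by
  rcases tab_key P hP with h0 | ⟨h1, h2, h3⟩
  · omega
  · exact ⟨⟨h1, h2⟩, by unfold hc; omega⟩

def InvA (L : List ℕ) (M : ℕ) : Prop := ∀ Q, M.testBit (64 + Q) = true → ∃ p ∈ L, ∃ i j, i ≤ 2 ∧ j ≤ 2 ∧ Q + p = 81 * i + j + 6396
def InvB (L : List ℕ) (M : ℕ) : Prop := ∀ Q, M.testBit (64 + Q) = true → ∃ p ∈ L, ∃ i j, i ≤ 2 ∧ j ≤ 2 ∧ Q = 81 * i + j + 2 * p + 2132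
def InvC (L : List ℕ) (M : ℕ) : Prop := ∀ Q, M.testBit (64 + Q) = true → ∃ p ∈ L, ∃ i j, tri i ∧ tri j ∧ Q = 81 * i + j + hc p + 2132
def InvL (L : List ℕ) (M : ℕ) : Prop := ∀ p ∈ L, M.testBit (64 + p) = true

theorem Cell.le {P : ℕ} (h : Cell P) : P ≤ 2132 := by unfold Cell at h; omega

theorem upA_inv {L : List ℕ} {M P : ℕ} (hM : InvA L M) (hP : Cell P) : InvA (P :: L) (upA M P) := by
  intro Q hQ
  unfold upA at hQ
  rw [tb_lor, tb_xor, tb_small (P := P) (by have := hP.le; omega), tb_shl] at hQ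
  simp only [Bool.xor_false, Bool.or_eq_true, Bool.and_eq_true, decide_eq_true_eq] at hQ
  rcases hQ with h | ⟨h1, h2⟩
  · obtain ⟨p, hp, r⟩ := hM Q h
    exact ⟨p, List.mem_cons_of_mem _ hp, r⟩
  · obtain ⟨i, j, hi, hj, e⟩ := box_bits _ h2
    have := hP.le
    have e' : 64 + Q - (6396 - P) = 64 + 81 * i + j := e
    have h1' : 6396 - P ≤ 64 + Q := h1
    exact ⟨P, by simp, i, j, hi, hj, by omega⟩

theorem upB_inv {L : List ℕ} {M P : ℕ} (hM : InvB L M) (hP : Cell P) : InvB (P :: L) (upB M P) := by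
  intro Q hQ
  unfold upB at hQ
  rw [tb_lor, tb_xor, tb_small (P := P) (by have := hP.le; omega), tb_shl] at hQ
  simp only [Bool.xor_false, Bool.or_eq_true, Bool.and_eq_true, decide_eq_true_eq] at hQ
  rcases hQ with h | ⟨h1, h2⟩
  · obtain ⟨p, hp, r⟩ := hM Q h
    exact ⟨p, List.mem_cons_of_mem _ hp, r⟩
  · obtain ⟨i, j, hi, hj, e⟩ := box_bits _ h2
    have e' : 64 + Q - (2 * P + 2132) = 64 + 81 * i + j := e
    have h1' : 2 * P + 2132 ≤ 64 + Q := h1
    exact ⟨P, by simp, i, j, hi, hj, by omega⟩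

theorem upC_inv {L : List ℕ} {M P H : ℕ} (hM : InvC L M) (hP : Cell P) (hH : H = hc P) : InvC (P :: L) (upC M P H) := by
  intro Q hQ
  unfold upC at hQ
  rw [tb_lor, tb_xor, tb_small (P := P) (by have := hP.le; omega), tb_shl] at hQ
  simp only [Bool.xor_false, Bool.or_eq_true, Bool.and_eq_true, decide_eq_true_eq] at hQ
  rcases hQ with h | ⟨h1, h2⟩
  · obtain ⟨p, hp, r⟩ := hM Q h
    exact ⟨p, List.mem_cons_of_mem _ hp, r⟩
  · obtain ⟨i, j, hi, hj, e⟩ := hb_bits _ h2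
    have e' : 64 + Q - (H + 2132) = 64 + 81 * i + j := e
    have h1' : H + 2132 ≤ 64 + Q := h1
    exact ⟨P, by simp, i, j, hi, hj, by omega⟩

theorem upL_inv {L : List ℕ} {M P : ℕ} (hM : InvL L M) (hP : Cell P) : InvL (P :: L) (upL M P) := by
  intro p hp
  unfold upL
  rw [tb_lor, tb_xor, tb_small (P := P) (by have := hP.le; omega), tb_shl, one_bits]
  rcases List.mem_cons.1 hp with rfl | hp
  · simp
  · rw [hM p hp]; simp

theorem cast_cx {Q n : ℕ} (h : Q / 81 = n) : cx Q = (n : Z) := by unfold cx; rw [h]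
theorem cast_cv {Q n : ℕ} (h : Q % 81 = n) : cv Q = (n : Z) := by unfold cv; rw [h]

theorem cell_ext {p P : ℕ} (hp : Cell p) (hP : Cell P) (h1 : cx p = cx P) (h2 : cv p = cv P) : p = P := by
  unfold cx at h1; unfold cv at h2; unfold Cell at hp hP
  rw [ZMod.natCast_eq_natCast_iff'] at h1 h2
  omega

end Pool.Agent.R989.ZP
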