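import Pool.Agent.R989.ZP.Sound

namespace Pool.Agent.R989.ZP

def DiffIn (a b : ℕ) (dx dv : Z) : Prop :=
  ((dx = a ∨ dx = -a) ∧ (dv = b ∨ dv = -b)) ∨ ((dx = b ∨ dx = -b) ∧ (dv = a ∨ dv = -a))
instance (a b : ℕ) (dx dv : Z) : Decidable (DiffIn a b dx dv) := by unfold DiffIn; infer_instance

def NoDiff (E : List (ℕ × ℕ)) (S : Z → Z → Prop) : Prop :=
  ∀ ab ∈ E, ∀ x v x' v', S x v → S x' v' → ¬ DiffIn ab.1 ab.2 (x' - x) (v' - v)

def offBad (E : List (ℕ × ℕ)) (dx dv : Z) : Prop :=
  (dx = 0 ∧ dv ≠ 0) ∨ (dx ≠ 0 ∧ dv = 0) ∨ (near dx ∧ near dv ∧ ¬ (dx = 0 ∧ dv = 0)) ∨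
    (near (2 * dx) ∧ near (2 * dv) ∧ ¬ (dx = 0 ∧ dv = 0)) ∨ ∃ ab ∈ E, DiffIn ab.1 ab.2 dx dv
instance (E : List (ℕ × ℕ)) (dx dv : Z) : Decidable (offBad E dx dv) := by unfold offBad; infer_instance

theorem offBad_sound {E : List (ℕ × ℕ)} {S : Z → Z → Prop} (hS : Cfg S) (hE : NoDiff E S) {x v dx dv : Z}
    (h : offBad E dx dv) (h1 : S x v) : ¬ S (x + dx) (v + dv) := by
  intro h2
  have aux : dx = 0 → dv = 0 := by
    intro e
    subst e
    rw [add_zero] at h2
    have := hS.rowu x v (v + dv) h1 h2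
    simpa using this
  have aux2 : dv = 0 → dx = 0 := by
    intro e
    subst e
    rw [add_zero] at h2
    have := hS.colu x (x + dx) v h1 h2
    simpa using this
  rcases h with ⟨a, b⟩ | ⟨a, b⟩ | ⟨a, b, c⟩ | ⟨a, b, c⟩ | ⟨ab, hab, hd⟩
  · exact b (aux a)
  · exact a (aux2 b)
  · have := (hS.free x v x v (x + dx) (v + dv) h1 h1 h2 (by convert a using 1; ring) (by convert b using 1; ring)).2
    have e : dx = 0 := by simpa using this
    exact c ⟨e, aux e⟩
  · have := (hS.free (x + dx) (v + dv) x v (x + dx) (v + dv) h2 h1 h2 (by convert a using 1; ring) (by convert b using 1; ring)).2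
    have e : dx = 0 := by simpa using this
    exact c ⟨e, aux e⟩
  · exact hE ab hab x v _ _ h1 h2 (by convert hd using 1 <;> ring)

def SMok (E : List (ℕ × ℕ)) (SM : ℕ) : Prop := ∀ n, SM.testBit n = true →
  64 ≤ n ∧ (n - 64) % 81 ≤ 54 ∧ offBad E (((n - 64) / 81 : ℕ) : Z) (((n - 64) % 81 : ℕ) : Z)

theorem near_box {i : ℕ} (hi : i ≤ 2) : near ((i : Z) + 26) := by
  interval_cases i <;> decide

theorem near_tri {i : ℕ} (hi : tri i) : near (-(2 * (i : Z))) := by
  rcases hi with rfl | rfl | rfl <;> decide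

theorem place_ok {E : List (ℕ × ℕ)} {S : Z → Z → Prop} (hS : Cfg S) (hE : NoDiff E S) {SM : ℕ} (hSM : SMok E SM)
    {L : List ℕ} {MA MB MC F P H : ℕ} (hA : InvA L MA) (hB : InvB L MB) (hC : InvC L MC) (hF : Ok S F)
    (hL : ∀ p ∈ L, Cell p ∧ S (cx p) (cv p)) (hP : Cell P) (hSP : S (cx P) (cv P)) (hne : ∀ p ∈ L, p ≠ P)
    (hH : H = hc P) : Ok S (place SM P H MA MB MC F) := by
  intro Q hQ hSQ
  have hPle := hP.le
  have dist : ∀ p ∈ L, cx p ≠ cx P := by
    intro p hp e
    have h2 : cv p = cv P := hS.rowu (cx P) _ _ (e ▸ (hL p hp).2) hSP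
    exact hne p hp (cell_ext (hL p hp).1 hP e h2)
  unfold place at hQ
  rw [tb_lor, tb_lor, tb_lor, tb_lor, tb_xor, tb_small (P := P) (by omega), tb_shl, tb_shr, tb_shr, tb_shr] at hQ
  simp only [Bool.xor_false, Bool.or_eq_true, Bool.and_eq_true, decide_eq_true_eq] at hQ
  obtain ⟨hP1, hP2⟩ := hP
  rcases hQ with (((h | ⟨h1, h2⟩) | h) | h) | h
  · exact hF Q h hSQ
  · obtain ⟨g1, g2, g3⟩ := hSM _ h2
    have h1' : P ≤ 64 + Q := h1
    have g1' : 64 ≤ 64 + Q - P := g1
    have e1 : cx Q = cx P + (((64 + Q - P - 64) / 81 : ℕ) : Z) := by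
      rw [cast_cx (n := P / 81 + (64 + Q - P - 64) / 81) (by omega)]
      push_cast [cx]; rfl
    have e2 : cv Q = cv P + (((64 + Q - P - 64) % 81 : ℕ) : Z) := by
      rw [cast_cv (n := P % 81 + (64 + Q - P - 64) % 81) (by omega)]
      rw [Nat.cast_add]; rfl
    rw [e1, e2] at hSQ
    exact offBad_sound hS hE g3 hSP hSQ
  · -- role A
    have h' : MA.testBit (64 + (Q + (4264 - 2 * P))) = true := by
      rw [← h]; congr 1
      show 64 + (Q + (4264 - 2 * P)) = 4264 - 2 * P + (64 + Q)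
      omega
    obtain ⟨p, hp, i, j, hi, hj, e⟩ := hA _ h'
    obtain ⟨⟨hc1, hc2⟩, hSp⟩ := hL p hp
    have k1 : Q / 81 + p / 81 = i + 26 + 2 * (P / 81) := by omega
    have k2 : Q % 81 + p % 81 = j + 26 + 2 * (P % 81) := by omega
    have k1' : cx Q + cx p = (i : Z) + 26 + 2 * cx P := by
      have := congrArg (Nat.cast : ℕ → Z) k1
      push_cast at this
      exact this
    have k2' : cv Q + cv p = (j : Z) + 26 + 2 * cv P := by
      have := congrArg (Nat.cast : ℕ → Z) k2
      rw [Nat.cast_add, Nat.cast_add, Nat.cast_add, Nat.cast_mul] at this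
      exact this
    have := (hS.free _ _ _ _ _ _ hSp hSP hSQ
      (by convert near_box hi using 1; linear_combination k1')
      (by convert near_box hj using 1; linear_combination k2')).1
    exact dist p hp this
  · -- role B
    have h' : MB.testBit (64 + (Q + P)) = true := by
      rw [← h]; congr 1
      omega
    obtain ⟨p, hp, i, j, hi, hj, e⟩ := hB _ h'
    obtain ⟨⟨hc1, hc2⟩, hSp⟩ := hL p hp
    have k1 : Q / 81 + P / 81 = i + 26 + 2 * (p / 81) := by omega
    have k2 : Q % 81 + P % 81 = j + 26 + 2 * (p % 81) := by omega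
    have k1' : cx Q + cx P = (i : Z) + 26 + 2 * cx p := by
      have := congrArg (Nat.cast : ℕ → Z) k1
      push_cast at this
      exact this
    have k2' : cv Q + cv P = (j : Z) + 26 + 2 * cv p := by
      have := congrArg (Nat.cast : ℕ → Z) k2
      rw [Nat.cast_add, Nat.cast_add, Nat.cast_add, Nat.cast_mul] at this
      exact this
    have := (hS.free _ _ _ _ _ _ hSP hSp hSQ
      (by convert near_box hi using 1; linear_combination k1')
      (by convert near_box hj using 1; linear_combination k2')).1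
    exact dist p hp this.symm
  · -- role C
    have hH' : H ≤ 2132 := by rw [hH]; unfold hc; omega
    have h' : MC.testBit (64 + (Q + (2132 - H))) = true := by
      rw [← h]; congr 1
      show 64 + (Q + (2132 - H)) = 2132 - H + (64 + Q)
      omega
    obtain ⟨p, hp, i, j, hi, hj, e⟩ := hC _ h'
    obtain ⟨⟨hc1, hc2⟩, hSp⟩ := hL p hp
    have k : Q = 81 * (i + (14 * (p / 81)) % 27 + (14 * (P / 81)) % 27) + (j + (14 * (p % 81)) % 27 + (14 * (P % 81)) % 27) := by
      rw [hH] at e hH'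
      unfold hc at e hH'
      omega
    have hi' : i ≤ 14 := by rcases hi with rfl | rfl | rfl <;> omega
    have hj' : j ≤ 14 := by rcases hj with rfl | rfl | rfl <;> omega
    have k1 : Q / 81 = i + (14 * (p / 81)) % 27 + (14 * (P / 81)) % 27 := by omega
    have k2 : Q % 81 = j + (14 * (p % 81)) % 27 + (14 * (P % 81)) % 27 := by omega
    have k1' : cx Q = (i : Z) + 14 * cx p + 14 * cx P := by
      rw [cast_cx k1]
      push_cast [ZMod.natCast_mod, cx]; rfl
    have k2' : cv Q = (j : Z) + 14 * cv p + 14 * cv P := by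
      rw [cast_cv k2, Nat.cast_add, Nat.cast_add, ZMod.natCast_mod, ZMod.natCast_mod, Nat.cast_mul, Nat.cast_mul]; rfl
    have z28 : (28 : Z) = 1 := by decide
    have := hS.free _ _ _ _ _ _ hSp hSQ hSP
      (by convert near_tri hi using 1; rw [k1']; linear_combination (-(cx p) - cx P) * z28)
      (by convert near_tri hj using 1; rw [k2']; linear_combination (-(cv p) - cv P) * z28)
    exact dist p hp (this.1.trans this.2)

end Pool.Agent.R989.ZP
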