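import Pool.Agent.R989.ZP.Sound2

namespace Pool.Agent.R989.ZP

theorem grow_bit : ∀ v < 27, grow.testBit (64 + v) = true := by decide +kernel
theorem gcol_bit : ∀ x < 27, gcol.testBit (64 + 81 * x) = true := by decide +kernel

theorem cell_mk {x v : ℕ} (hx : x < 27) (hv : v < 27) : Cell (81 * x + v) ∧ cx (81 * x + v) = (x : Z) ∧ cv (81 * x + v) = (v : Z) := by
  refine ⟨⟨by omega, by omega⟩, cast_cx (by omega), cast_cv (by omega)⟩

theorem natCast_val (z : Z) : ((z.val : ℕ) : Z) = z := ZMod.natCast_zmod_val z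

/-- every line contains a cell of the configuration -/
theorem line_cell {S : Z → Z → Prop} (hS : Cfg S) {q : ℕ} (hq : q ≤ 53) :
    ∃ P, Cell P ∧ S (cx P) (cv P) ∧ (lineMask q).testBit (64 + P) = true := by
  unfold lineMask
  by_cases h : q ≤ 26
  · have hb : Nat.ble q 26 = true := Nat.ble_eq_true_of_le h
    rw [hb]
    obtain ⟨v, hv⟩ := hS.row (q : Z)
    have hvl : v.val < 27 := ZMod.val_lt v
    obtain ⟨c1, c2, c3⟩ := cell_mk (x := q) (v := v.val) (by omega) hvl
    refine ⟨81 * q + v.val, c1, by rw [c2, c3, natCast_val]; exact hv, ?_⟩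
    show (Nat.shiftLeft grow (Nat.mul 81 q)).testBit _ = true
    rw [tb_shl]
    have e : 64 + (81 * q + v.val) - Nat.mul 81 q = 64 + v.val := by
      show 64 + (81 * q + v.val) - 81 * q = 64 + v.val
      omega
    rw [e, grow_bit _ hvl]
    simp only [Bool.and_true, decide_eq_true_eq]
    show 81 * q ≤ _
    omega
  · have hb : Nat.ble q 26 = false := by
      rw [← Bool.not_eq_true, Nat.ble_eq]; omega
    rw [hb]
    obtain ⟨x, hx⟩ := hS.col ((q - 27 : ℕ) : Z)
    have hxl : x.val < 27 := ZMod.val_lt x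
    obtain ⟨c1, c2, c3⟩ := cell_mk (x := x.val) (v := q - 27) hxl (by omega)
    refine ⟨81 * x.val + (q - 27), c1, by rw [c2, c3, natCast_val]; exact hx, ?_⟩
    show (Nat.shiftLeft gcol (Nat.sub q 27)).testBit _ = true
    rw [tb_shl]
    have e : 64 + (81 * x.val + (q - 27)) - Nat.sub q 27 = 64 + 81 * x.val := by
      show 64 + (81 * x.val + (q - 27)) - (q - 27) = 64 + 81 * x.val
      omega
    rw [e, gcol_bit _ hxl]
    simp only [Bool.and_true, decide_eq_true_eq]
    show q - 27 ≤ _
    omega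

/-- the excluded cells of a line -/
def Cov (S : Z → Z → Prop) (m c : ℕ) : Prop :=
  ∀ P, Cell P → m.testBit (64 + P) = true → c.testBit (64 + P) = true → ¬ S (cx P) (cv P)

theorem fold_bits (F n : ℕ) (h : (fold2 (fold2 (fold1 (fold1 F)))).testBit n = true) :
    ∃ a b, a ≤ 2 ∧ b ≤ 2 ∧ F.testBit (n + 2187 * a + 27 * b) = true := by
  have f1 : ∀ G k, (fold1 G).testBit k = (G.testBit k || G.testBit (2187 + k)) := by
    intro G k; unfold fold1; rw [tb_lor, tb_shr]
  have f2 : ∀ G k, (fold2 G).testBit k = (G.testBit k || G.testBit (27 + k)) := by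
    intro G k; unfold fold2; rw [tb_lor, tb_shr]
  simp only [f1, f2, Bool.or_eq_true] at h
  have fin : ∀ a b k, a ≤ 2 → b ≤ 2 → k = n + 2187 * a + 27 * b → F.testBit k = true →
      ∃ a b, a ≤ 2 ∧ b ≤ 2 ∧ F.testBit (n + 2187 * a + 27 * b) = true := by
    intro a b k ha hb e hk
    exact ⟨a, b, ha, hb, by rw [← e]; exact hk⟩
  rcases h with ((((h | h) | (h | h)) | ((h | h) | (h | h))) | (((h | h) | (h | h)) | ((h | h) | (h | h))))
  · exact fin 0 0 _ (by omega) (by omega) (by omega) h
  · exact fin 1 0 _ (by omega) (by omega) (by omega) h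
  · exact fin 1 0 _ (by omega) (by omega) (by omega) h
  · exact fin 2 0 _ (by omega) (by omega) (by omega) h
  · exact fin 0 1 _ (by omega) (by omega) (by omega) h
  · exact fin 1 1 _ (by omega) (by omega) (by omega) h
  · exact fin 1 1 _ (by omega) (by omega) (by omega) h
  · exact fin 2 1 _ (by omega) (by omega) (by omega) h
  · exact fin 0 1 _ (by omega) (by omega) (by omega) h
  · exact fin 1 1 _ (by omega) (by omega) (by omega) h
  · exact fin 1 1 _ (by omega) (by omega) (by omega) h
  · exact fin 2 1 _ (by omega) (by omega) (by omega) h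
  · exact fin 0 2 _ (by omega) (by omega) (by omega) h
  · exact fin 1 2 _ (by omega) (by omega) (by omega) h
  · exact fin 1 2 _ (by omega) (by omega) (by omega) h
  · exact fin 2 2 _ (by omega) (by omega) (by omega) h

theorem fold_ok {S : Z → Z → Prop} {F : ℕ} (hF : Ok S F) {P : ℕ} (hP : Cell P)
    (h : (fold2 (fold2 (fold1 (fold1 F)))).testBit (64 + P) = true) : ¬ S (cx P) (cv P) := by
  obtain ⟨a, b, ha, hb, hb'⟩ := fold_bits F _ h
  have := hF (P + 2187 * a + 27 * b) (by rw [← hb']; congr 1; omega)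
  obtain ⟨h1, h2⟩ := hP
  have e1 : cx (P + 2187 * a + 27 * b) = cx P := by
    rw [cast_cx (n := P / 81 + 27 * a) (by omega)]
    have z27 : (27 : Z) = 0 := by decide
    push_cast [z27, cx]; ring
  have e2 : cv (P + 2187 * a + 27 * b) = cv P := by
    rw [cast_cv (n := P % 81 + 27 * b) (by omega)]
    have z27 : ((27 : ℕ) : Z) = 0 := by decide
    rw [Nat.cast_add, Nat.cast_mul, z27]; unfold cv; ring
  rwa [e1, e2] at this

theorem loop_sound {S : Z → Z → Prop} (SM : ℕ) (rec : ℕ → ℕ → ℕ → ℕ → ℕ → ℕ → ℕ) (MA MB MC ML F m : ℕ)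
    (hrec : ∀ P H T, m.testBit (64 + P) = true → P < 4096 → tabval P = H + 1 →
      rec (upA MA P) (upB MB P) (upC MC P H) (upL ML P) (place SM P H MA MB MC F) T ≠ 0 → ¬ S (cx P) (cv P)) :
    ∀ fuel c T, Cov S m c → loop SM rec MA MB MC ML F m fuel c T ≠ 0 → Cov S m m := by
  intro fuel
  induction fuel with
  | zero => intro c T _ h; exact absurd rfl h
  | succ n ih =>
    intro c T hc h
    have hstep : loop SM rec MA MB MC ML F m (n + 1) c T =
      force (Nat.land T 4095) fun P =>
      force (Nat.shiftRight T 12) fun S1 =>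
      Nat.rec 0 (fun H _ =>
        Nat.rec 0 (fun S' _ => cond (Nat.beq (Nat.lor c (Nat.shiftLeft one64 P)) m) (Nat.succ S')
            (loop SM rec MA MB MC ML F m n (Nat.lor c (Nat.shiftLeft one64 P)) S'))
          (rec (upA MA P) (upB MB P) (upC MC P H) (upL ML P) (place SM P H MA MB MC F) S1)) (tabval P) := rfl
    rw [hstep, force_eq, force_eq] at h
    set P := Nat.land T 4095 with hPdef
    have hPlt : P < 4096 := by
      have : T &&& 4095 ≤ 4095 := Nat.and_le_right
      have h' : Nat.land T 4095 ≤ 4095 := this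
      omega
    cases ht : tabval P with
    | zero => rw [ht] at h; exact absurd rfl h
    | succ H =>
      rw [ht] at h
      simp only at h
      cases hr : rec (upA MA P) (upB MB P) (upC MC P H) (upL ML P) (place SM P H MA MB MC F) (Nat.shiftRight T 12) with
      | zero => rw [hr] at h; exact absurd rfl h
      | succ S' =>
        rw [hr] at h
        simp only at h
        have hc' : Cov S m (Nat.lor c (Nat.shiftLeft one64 P)) := by
          intro Q hQ hmQ hcQ
          rw [tb_lor, tb_shl, one_bits] at hcQ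
          simp only [Bool.or_eq_true, Bool.and_eq_true, decide_eq_true_eq] at hcQ
          rcases hcQ with h1 | ⟨h1, h2⟩
          · exact hc Q hQ hmQ h1
          · have e : Q = P := by omega
            rw [e] at hmQ ⊢
            exact hrec P H _ hmQ hPlt ht (by rw [hr]; simp)
        cases hb : Nat.beq (Nat.lor c (Nat.shiftLeft one64 P)) m with
        | true =>
          have := Nat.eq_of_beq_eq_true hb
          rwa [this] at hc'
        | false =>
          rw [hb] at h
          exact ih _ _ hc' h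

theorem srch_sound {E : List (ℕ × ℕ)} {S : Z → Z → Prop} (hS : Cfg S) (hE : NoDiff E S) {SM : ℕ} (hSM : SMok E SM) :
    ∀ (fuel : ℕ) (L : List ℕ) (MA MB MC ML F T : ℕ), InvA L MA → InvB L MB → InvC L MC → InvL L ML → Ok S F →
      (∀ p ∈ L, Cell p ∧ S (cx p) (cv p)) → srch SM fuel MA MB MC ML F T = 0 := by
  intro fuel
  induction fuel with
  | zero => intro L MA MB MC ML F T _ _ _ _ _ _; rfl
  | succ n ih =>
    intro L MA MB MC ML F T hA hB hC hM hF hL
    by_contra h
    have hstep : srch SM (n + 1) MA MB MC ML F T =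
      force (Nat.land T 63) fun q =>
      cond (Nat.ble q 53)
       (force (lineMask q) fun m =>
        force (Nat.shiftRight T 6) fun S1 =>
        force F fun F =>
        force (fold1 F) fun a =>
        force (fold1 a) fun b =>
        force (fold2 b) fun d =>
        cond (Nat.beq (Nat.land (fold2 d) m) m) (Nat.succ S1)
         (force MA fun MA => force MB fun MB => force MC fun MC => force ML fun ML =>
          cond (Nat.beq (Nat.land ML m) 0) (loop SM (srch SM n) MA MB MC ML F m 28 (Nat.land (fold2 d) m) S1) 0)) 0 := rfl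
    rw [hstep] at h
    simp only [force_eq] at h
    cases hq : Nat.ble (Nat.land T 63) 53 with
    | false => rw [hq] at h; exact absurd rfl h
    | true =>
      rw [hq] at h
      simp only [cond_true] at h
      have hq' := Nat.le_of_ble_eq_true hq
      set m := lineMask (Nat.land T 63) with hm
      obtain ⟨P0, hP0, hSP0, hmP0⟩ := line_cell hS hq'
      rw [← hm] at hmP0
      have hcov0 : Cov S m (Nat.land (fold2 (fold2 (fold1 (fold1 F)))) m) := by
        intro P hP _ hc
        rw [tb_land, Bool.and_eq_true] at hc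
        exact fold_ok hF hP hc.1
      cases hb : Nat.beq (Nat.land (fold2 (fold2 (fold1 (fold1 F)))) m) m with
      | true =>
        have := Nat.eq_of_beq_eq_true hb
        rw [this] at hcov0
        exact hcov0 P0 hP0 hmP0 hmP0 hSP0
      | false =>
        rw [hb] at h
        simp only [cond_false] at h
        cases hl : Nat.beq (Nat.land ML m) 0 with
        | false => rw [hl] at h; exact absurd rfl h
        | true =>
          rw [hl] at h
          simp only [cond_true] at h
          have hl' := Nat.eq_of_beq_eq_true hl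
          refine loop_sound (S := S) SM (srch SM n) MA MB MC ML F m ?_ 28 _ _ hcov0 h P0 hP0 hmP0 hmP0 hSP0
          intro P H T' hmP hPlt ht hne hSP
          obtain ⟨hP, hH⟩ := tab_spec hPlt ht
          have hnP : ∀ p ∈ L, p ≠ P := by
            rintro p hp rfl
            have h1 := hM p hp
            have h2 : (Nat.land ML m).testBit (64 + p) = true := by
              rw [tb_land, h1, hmP]; rfl
            rw [hl'] at h2
            simp at h2
          apply hne
          refine ih (P :: L) _ _ _ _ _ _ (upA_inv hA hP) (upB_inv hB hP) (upC_inv hC hP hH) (upL_inv hM hP)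
            (place_ok hS hE hSM hA hB hC hF hL hP hSP hnP hH) ?_
          intro p hp
          rcases List.mem_cons.1 hp with rfl | hp
          · exact ⟨hP, hSP⟩
          · exact hL p hp

/-- no configuration without the differences `E` and the cells `X` contains the cells `Ps` -/
def Rf (E : List (ℕ × ℕ)) (X : ℕ) (Ps : List ℕ) : Prop :=
  ∀ S, Cfg S → NoDiff E S → Ok S X → (∀ P ∈ Ps, S (cx P) (cv P)) → False

/-- the list consists of different cells -/
def vPs (Ps : List ℕ) : Bool := Ps.all (fun P => decide (P < 4096) && Nat.ble 1 (tabval P)) && decide Ps.Nodup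

theorem mkS_inv {E : List (ℕ × ℕ)} {S : Z → Z → Prop} (hS : Cfg S) (hE : NoDiff E S) {SM X : ℕ} (hSM : SMok E SM)
    (hX : Ok S X) : ∀ Ps : List ℕ, vPs Ps = true → (∀ P ∈ Ps, S (cx P) (cv P)) →
      InvA Ps (mkS SM X Ps).A ∧ InvB Ps (mkS SM X Ps).B ∧ InvC Ps (mkS SM X Ps).C ∧ InvL Ps (mkS SM X Ps).L ∧
      Ok S (mkS SM X Ps).F ∧ ∀ p ∈ Ps, Cell p ∧ S (cx p) (cv p) := by
  intro Ps
  induction Ps with
  | nil =>
    intro _ _
    refine ⟨?_, ?_, ?_, ?_, hX, by simp⟩
    · intro Q h; simp [mkS] at h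
    · intro Q h; simp [mkS] at h
    · intro Q h; simp [mkS] at h
    · intro p hp; simp at hp
  | cons P Ps ih =>
    intro hv hSP
    have hv' := hv
    unfold vPs at hv'
    simp only [List.all_cons, Bool.and_eq_true, decide_eq_true_eq, List.nodup_cons] at hv'
    obtain ⟨⟨⟨hPlt, hPt⟩, hall⟩, hnot, hnd⟩ := hv'
    have hvP : vPs Ps = true := by
      unfold vPs
      simp only [Bool.and_eq_true, decide_eq_true_eq]
      exact ⟨hall, hnd⟩
    obtain ⟨iA, iB, iC, iL, iF, iC'⟩ := ih hvP (fun p hp => hSP p (List.mem_cons_of_mem _ hp))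
    have hPt' := Nat.le_of_ble_eq_true hPt
    obtain ⟨H, hH⟩ : ∃ H, tabval P = H + 1 := ⟨tabval P - 1, by omega⟩
    obtain ⟨hc1, hc2⟩ := tab_spec hPlt hH
    have hpred : Nat.pred (tabval P) = H := by rw [hH]; rfl
    have hstep : mkS SM X (P :: Ps) = ⟨upA (mkS SM X Ps).A P, upB (mkS SM X Ps).B P, upC (mkS SM X Ps).C P H,
        upL (mkS SM X Ps).L P, place SM P H (mkS SM X Ps).A (mkS SM X Ps).B (mkS SM X Ps).C (mkS SM X Ps).F⟩ := by
      have : mkS SM X (P :: Ps) = force (mkS SM X Ps).A fun A => force (mkS SM X Ps).B fun B =>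
        force (mkS SM X Ps).C fun C => force (mkS SM X Ps).L fun L => force (mkS SM X Ps).F fun F =>
        force (Nat.pred (tabval P)) fun H => ⟨upA A P, upB B P, upC C P H, upL L P, place SM P H A B C F⟩ := rfl
      rw [this]
      simp only [force_eq, hpred]
    rw [hstep]
    have hP0 := hSP P (by simp)
    refine ⟨upA_inv iA hc1, upB_inv iB hc1, upC_inv iC hc1 hc2, upL_inv iL hc1,
      place_ok hS hE hSM iA iB iC iF iC' hc1 hP0 (fun p hp e => hnot (e ▸ hp)) hc2, ?_⟩
    intro p hp
    rcases List.mem_cons.1 hp with rfl | hp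
    · exact ⟨hc1, hP0⟩
    · exact iC' p hp

theorem chk_sound {E : List (ℕ × ℕ)} {SM X : ℕ} (hSM : SMok E SM) {Ps : List ℕ} {T : ℕ}
    (h : chk SM X Ps T = true) (hv : vPs Ps = true) : Rf E X Ps := by
  intro S hS hE hX hSP
  obtain ⟨iA, iB, iC, iL, iF, iC'⟩ := mkS_inv hS hE hSM hX Ps hv hSP
  have h0 := srch_sound hS hE hSM 28 Ps _ _ _ _ _ T iA iB iC iL iF iC'
  unfold chk at h
  rw [h0] at h
  exact absurd h (by decide)

/-- all cells `ch` are refuted -/
def AllRf (E : List (ℕ × ℕ)) (X : ℕ) (Ps : List ℕ) : List ℕ → Prop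
  | [] => True
  | P :: ch => Rf E X (P :: Ps) ∧ AllRf E X Ps ch

def addCells (c : ℕ) : List ℕ → ℕ
  | [] => c
  | P :: ch => Nat.lor (addCells c ch) (Nat.shiftLeft one64 P)

/-- the line `q` is covered by the excluded cells and `ch` -/
def nodeChk (SM X : ℕ) (Ps : List ℕ) (q : ℕ) (ch : List ℕ) : Bool :=
  Nat.ble q 53 && Nat.beq (Nat.land (addCells (fold2 (fold2 (fold1 (fold1 (mkS SM X Ps).F)))) ch) (lineMask q)) (lineMask q)

theorem addCells_bit {c Q : ℕ} : ∀ {ch : List ℕ}, (addCells c ch).testBit (64 + Q) = true →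
    c.testBit (64 + Q) = true ∨ Q ∈ ch
  | [], h => Or.inl h
  | P :: ch, h => by
    unfold addCells at h
    rw [tb_lor, tb_shl, one_bits] at h
    simp only [Bool.or_eq_true, Bool.and_eq_true, decide_eq_true_eq] at h
    rcases h with h | ⟨h1, h2⟩
    · rcases addCells_bit h with h | h
      · exact Or.inl h
      · exact Or.inr (List.mem_cons_of_mem _ h)
    · have e : Q = P := by omega
      exact Or.inr (e ▸ List.mem_cons_self)

theorem AllRf.mem {E : List (ℕ × ℕ)} {X : ℕ} {Ps : List ℕ} : ∀ {ch : List ℕ}, AllRf E X Ps ch → ∀ P ∈ ch, Rf E X (P :: Ps)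
  | [], _, P, hP => by simp at hP
  | Q :: ch, h, P, hP => by
    rcases List.mem_cons.1 hP with rfl | hP
    · exact h.1
    · exact h.2.mem P hP

theorem node_sound {E : List (ℕ × ℕ)} {SM X : ℕ} (hSM : SMok E SM) {Ps : List ℕ} {q : ℕ} {ch : List ℕ}
    (h : nodeChk SM X Ps q ch = true) (hv : vPs Ps = true) (hch : AllRf E X Ps ch) : Rf E X Ps := by
  intro S hS hE hX hSP
  obtain ⟨iA, iB, iC, iL, iF, iC'⟩ := mkS_inv hS hE hSM hX Ps hv hSP
  unfold nodeChk at h
  rw [Bool.and_eq_true] at h
  obtain ⟨P0, hP0, hSP0, hm⟩ := line_cell hS (Nat.le_of_ble_eq_true h.1)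
  have h2 := Nat.eq_of_beq_eq_true h.2
  have h3 : (Nat.land (addCells (fold2 (fold2 (fold1 (fold1 (mkS SM X Ps).F)))) ch) (lineMask q)).testBit (64 + P0) = true := by
    rw [h2]; exact hm
  rw [tb_land, Bool.and_eq_true] at h3
  rcases addCells_bit h3.1 with h4 | h4
  · exact fold_ok iF hP0 h4 hSP0
  · refine hch.mem P0 h4 S hS hE hX ?_
    intro p hp
    rcases List.mem_cons.1 hp with rfl | hp
    · exact hSP0
    · exact hSP p hp

/-- the cell `P` is excluded by the cells `Ps` -/
def deadChk (SM X : ℕ) (Ps : List ℕ) (P : ℕ) : Bool :=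
  decide (P < 4096) && Nat.ble 1 (tabval P) &&
    Nat.beq (Nat.land (fold2 (fold2 (fold1 (fold1 (mkS SM X Ps).F)))) (Nat.shiftLeft one64 P)) (Nat.shiftLeft one64 P)

theorem dead_sound {E : List (ℕ × ℕ)} {SM X : ℕ} (hSM : SMok E SM) {Ps : List ℕ} {P : ℕ}
    (h : deadChk SM X Ps P = true) (hv : vPs Ps = true) : Rf E X (P :: Ps) := by
  intro S hS hE hX hSP
  obtain ⟨iA, iB, iC, iL, iF, iC'⟩ := mkS_inv hS hE hSM hX Ps hv (fun p hp => hSP p (List.mem_cons_of_mem _ hp))
  unfold deadChk at h
  rw [Bool.and_eq_true, Bool.and_eq_true, decide_eq_true_eq] at h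
  obtain ⟨⟨h1, h2⟩, h3⟩ := h
  have h2' := Nat.le_of_ble_eq_true h2
  obtain ⟨H, hH⟩ : ∃ H, tabval P = H + 1 := ⟨tabval P - 1, by omega⟩
  obtain ⟨hc1, hc2⟩ := tab_spec h1 hH
  have h4 := Nat.eq_of_beq_eq_true h3
  have h5 : (Nat.land (fold2 (fold2 (fold1 (fold1 (mkS SM X Ps).F)))) (Nat.shiftLeft one64 P)).testBit (64 + P) = true := by
    rw [h4, tb_shl, one_bits]; simp
  rw [tb_land, Bool.and_eq_true] at h5
  exact fold_ok iF hc1 h5.1 (hSP P (by simp))

end Pool.Agent.R989.ZP
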