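import Pool.Agent.R989.ZP.Ms

namespace Pool.Agent.R989.ZP

theorem near_neg {z : Z} (h : near z) : near (-z) := by
  rcases h with rfl | rfl | rfl
  · left; simp
  · right; right; rfl
  · right; left; simp

theorem Cfg.trans {S : Z → Z → Prop} (h : Cfg S) (t u : Z) : Cfg (fun x v => S (x + t) (v + u)) where
  row x := by obtain ⟨v, hv⟩ := h.row (x + t); exact ⟨v - u, by simpa using hv⟩
  col v := by obtain ⟨x, hx⟩ := h.col (v + u); exact ⟨x - t, by simpa using hx⟩
  rowu x v v' a b := add_right_cancel (h.rowu _ _ _ a b)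
  colu x x' v a b := add_right_cancel (h.colu _ _ _ a b)
  free x1 v1 x2 v2 x3 v3 a b c hx hv := by
    have := h.free _ _ _ _ _ _ a b c (by convert hx using 1; ring) (by convert hv using 1; ring)
    exact ⟨add_right_cancel this.1, add_right_cancel this.2⟩

theorem NoDiff.trans {E : List (ℕ × ℕ)} {S : Z → Z → Prop} (h : NoDiff E S) (t u : Z) :
    NoDiff E (fun x v => S (x + t) (v + u)) := by
  intro ab hab x v x' v' a b hd
  exact h ab hab _ _ _ _ a b (by convert hd using 1 <;> ring)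

theorem Cfg.negx {S : Z → Z → Prop} (h : Cfg S) : Cfg (fun x v => S (-x) v) where
  row x := h.row (-x)
  col v := by obtain ⟨x, hx⟩ := h.col v; exact ⟨-x, by simpa using hx⟩
  rowu x v v' a b := h.rowu _ _ _ a b
  colu x x' v a b := neg_injective (h.colu _ _ _ a b)
  free x1 v1 x2 v2 x3 v3 a b c hx hv := by
    have := h.free _ _ _ _ _ _ a b c (by convert near_neg hx using 1; ring) hv
    exact ⟨neg_injective this.1, neg_injective this.2⟩

theorem Cfg.swap {S : Z → Z → Prop} (h : Cfg S) : Cfg (fun x v => S v x) where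
  row x := h.col x
  col v := h.row v
  rowu x v v' a b := h.colu _ _ _ a b
  colu x x' v a b := h.rowu _ _ _ a b
  free x1 v1 x2 v2 x3 v3 a b c hx hv := by
    have := h.free _ _ _ _ _ _ a b c hv hx
    obtain ⟨e1, e2⟩ := this
    subst e1; subst e2
    exact ⟨h.rowu _ _ _ a b, h.rowu _ _ _ b c⟩

theorem DiffIn.negx {a b : ℕ} {dx dv : Z} (h : DiffIn a b (-dx) dv) : DiffIn a b dx dv := by
  have e : ∀ c : Z, (-dx = c ∨ -dx = -c) → (dx = c ∨ dx = -c) := by
    intro c hc
    rcases hc with hc | hc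
    · right; rw [← hc, neg_neg]
    · left; exact neg_injective hc
  rcases h with ⟨h1, h2⟩ | ⟨h1, h2⟩
  · exact Or.inl ⟨e _ h1, h2⟩
  · exact Or.inr ⟨e _ h1, h2⟩

theorem DiffIn.swap {a b : ℕ} {dx dv : Z} (h : DiffIn a b dv dx) : DiffIn a b dx dv := by
  rcases h with ⟨h1, h2⟩ | ⟨h1, h2⟩
  · exact Or.inr ⟨h2, h1⟩
  · exact Or.inl ⟨h2, h1⟩

theorem NoDiff.negx {E : List (ℕ × ℕ)} {S : Z → Z → Prop} (h : NoDiff E S) : NoDiff E (fun x v => S (-x) v) := by
  intro ab hab x v x' v' a b hd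
  refine h ab hab _ _ _ _ a b (DiffIn.negx ?_)
  convert hd using 1; ring

theorem NoDiff.swap {E : List (ℕ × ℕ)} {S : Z → Z → Prop} (h : NoDiff E S) : NoDiff E (fun x v => S v x) := by
  intro ab hab x v x' v' a b hd
  exact h ab hab _ _ _ _ a b hd.swap

/-- both properties, preserved by the symmetries -/
def G (E : List (ℕ × ℕ)) (S : Z → Z → Prop) : Prop := Cfg S ∧ NoDiff E S

theorem G.negx {E : List (ℕ × ℕ)} {S : Z → Z → Prop} (h : G E S) : G E (fun x v => S (-x) v) := ⟨h.1.negx, h.2.negx⟩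
theorem G.swap {E : List (ℕ × ℕ)} {S : Z → Z → Prop} (h : G E S) : G E (fun x v => S v x) := ⟨h.1.swap, h.2.swap⟩
theorem G.trans {E : List (ℕ × ℕ)} {S : Z → Z → Prop} (h : G E S) (t u : Z) : G E (fun x v => S (x + t) (v + u)) :=
  ⟨h.1.trans t u, h.2.trans t u⟩
theorem G.negv {E : List (ℕ × ℕ)} {S : Z → Z → Prop} (h : G E S) : G E (fun x v => S x (-v)) := h.swap.negx.swap

theorem G.rot {E : List (ℕ × ℕ)} {S : Z → Z → Prop} (h : G E S) (t u : Z) : G E (fun x v => S (t - x) (u - v)) := by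
  have := (h.trans t u).negx.negv
  have e : (fun x v => S (t - x) (u - v)) = (fun x v => S (-x + t) (-v + u)) := by
    funext x v; congr 1 <;> ring
  rw [e]; exact this

def Seed (a b : ℕ) (S : Z → Z → Prop) : Prop := S 13 0 ∧ S (13 + (a : Z)) (b : Z)

theorem norm0 {E : List (ℕ × ℕ)} {S : Z → Z → Prop} {a b : ℕ} (h : G E S) {x v x' v' : Z} (h1 : S x v) (h2 : S x' v')
    (hx : x' - x = a) (hv : v' - v = b) : ∃ S', G E S' ∧ Seed a b S' := by
  refine ⟨_, h.trans (x - 13) v, ?_, ?_⟩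
  · show S (13 + (x - 13)) (0 + v)
    convert h1 using 1 <;> ring
  · show S (13 + (a : Z) + (x - 13)) ((b : Z) + v)
    convert h2 using 1
    · rw [← hx]; ring
    · rw [← hv]; ring

theorem norm1 {E : List (ℕ × ℕ)} {S : Z → Z → Prop} {a b : ℕ} (h : G E S) {x v x' v' : Z} (h1 : S x v) (h2 : S x' v')
    (hx : x' - x = a ∨ x' - x = -a) (hv : v' - v = b ∨ v' - v = -b) : ∃ S', G E S' ∧ Seed a b S' := by
  have key : ∀ S : Z → Z → Prop, G E S → ∀ v v' : Z, S x v → S x' v' → v' - v = b → ∃ S', G E S' ∧ Seed a b S' := by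
    intro S h v v' h1 h2 hv
    rcases hx with hx | hx
    · exact norm0 h h1 h2 hx hv
    · refine norm0 h.negx (x := -x) (x' := -x') (v := v) (v' := v') (by simpa using h1) (by simpa using h2) ?_ hv
      linear_combination -hx
  rcases hv with hv | hv
  · exact key S h v v' h1 h2 hv
  · refine key _ h.negv (-v) (-v') (by simpa using h1) (by simpa using h2) ?_
    linear_combination -hv

theorem norm2 {E : List (ℕ × ℕ)} {S : Z → Z → Prop} {a b : ℕ} (h : G E S) {x v x' v' : Z} (h1 : S x v) (h2 : S x' v')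
    (hd : DiffIn a b (x' - x) (v' - v)) : ∃ S', G E S' ∧ Seed a b S' := by
  rcases hd with ⟨hx, hv⟩ | ⟨hx, hv⟩
  · exact norm1 h h1 h2 hx hv
  · exact norm1 h.swap (x := v) (x' := v') (v := x) (v' := x') h1 h2 hv hx

def CaseT (E : List (ℕ × ℕ)) (a b : ℕ) : Prop := ∀ S, G E S → Seed a b S → False

theorem step {E : List (ℕ × ℕ)} {a b : ℕ} (hc : CaseT E a b) {S : Z → Z → Prop} (h : G E S) : G (E ++ [(a, b)]) S := by
  refine ⟨h.1, ?_⟩
  intro ab hab x v x' v' h1 h2 hd
  rcases List.mem_append.1 hab with hab | hab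
  · exact h.2 ab hab x v x' v' h1 h2 hd
  · rw [List.mem_singleton] at hab
    subst hab
    obtain ⟨S', hS', hs⟩ := norm2 h h1 h2 hd
    exact hc S' hS' hs

theorem case_of_R {E : List (ℕ × ℕ)} {a b P1 : ℕ} (h : Rf E 0 [P1, 1053]) (hP : P1 = 81 * (13 + a) + b) (ha : 13 + a < 27)
    (hb : b < 27) : CaseT E a b := by
  intro S hS hs
  refine h S hS.1 hS.2 (by intro Q hQ; simp at hQ) ?_
  intro P hP'
  simp only [List.mem_cons, List.not_mem_nil, or_false] at hP'
  rcases hP' with rfl | rfl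
  · rw [hP]
    obtain ⟨-, e1, e2⟩ := cell_mk ha hb
    rw [e1, e2]; push_cast; exact hs.2
  · have e1 : cx 1053 = 13 := by decide
    have e2 : cv 1053 = 0 := by decide
    rw [e1, e2]; exact hs.1

def ESt (E : List (ℕ × ℕ)) (a b e : ℕ) : Prop := ∀ S, G E S → Seed a b S → S (14 + (a : Z)) ((b : Z) + (e : Z)) →
  (∀ f < e, ¬ S 12 (-(f : Z))) → False

theorem case_of_split {E : List (ℕ × ℕ)} {a b : ℕ} (h : ∀ e < 27, ESt E a b e) : CaseT E a b := by
  intro S hS hs
  obtain ⟨y, hy⟩ := hS.1.row (14 + (a : Z))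
  obtain ⟨y', hy'⟩ := hS.1.row 12
  have hel : (y - (b : Z)).val < 27 := ZMod.val_lt _
  have hel' : (-y').val < 27 := ZMod.val_lt _
  have hev : (((y - (b : Z)).val : ℕ) : Z) = y - b := natCast_val _
  have hev' : (((-y').val : ℕ) : Z) = -y' := natCast_val _
  rcases le_or_gt (y - (b : Z)).val (-y').val with hle | hlt
  · refine h _ hel S hS hs (by rw [hev]; convert hy using 1; ring) ?_
    intro f hf hSf
    have e : y' = -(f : Z) := hS.1.rowu 12 _ _ hy' hSf
    have : (-y').val = f := by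
      rw [e, neg_neg, ZMod.val_natCast, Nat.mod_eq_of_lt (by omega)]
    omega
  · refine h _ hel' _ (hS.rot (26 + (a : Z)) (b : Z)) ⟨?_, ?_⟩ ?_ ?_
    · show S (26 + (a : Z) - 13) ((b : Z) - 0)
      convert hs.2 using 1 <;> ring
    · show S (26 + (a : Z) - (13 + (a : Z))) ((b : Z) - (b : Z))
      convert hs.1 using 1 <;> ring
    · show S (26 + (a : Z) - (14 + (a : Z))) ((b : Z) - ((b : Z) + _))
      rw [hev']
      convert hy' using 1 <;> ring
    · intro f hf hSf
      have hSf' : S (26 + (a : Z) - 12) ((b : Z) - (-(f : Z))) := hSf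
      have e : y = (b : Z) + f := by
        refine hS.1.rowu (14 + (a : Z)) _ _ hy ?_
        convert hSf' using 1 <;> ring
      have : (y - (b : Z)).val = f := by
        rw [e, add_sub_cancel_left, ZMod.val_natCast, Nat.mod_eq_of_lt (by omega)]
      omega

def xP (e X n : ℕ) : Prop := X.testBit n = true → 1036 ≤ n ∧ n < 1063 ∧ (27 - (n - 1036)) % 27 < e
instance (e X n : ℕ) : Decidable (xP e X n) := by unfold xP; infer_instance
def xOk (e X : ℕ) : Prop := (∀ n < 1088, xP e X n) ∧ X < 2 ^ 1088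

theorem ecase_of_R {E : List (ℕ × ℕ)} {a b e X P2 P1 : ℕ} (h : Rf E X [P2, P1, 1053]) (hP1 : P1 = 81 * (13 + a) + b)
    (hP2 : P2 = 81 * (14 + a) + (b + e) % 27) (hX : xOk e X) (ha : 14 + a < 27) (hb : b < 27) : ESt E a b e := by
  intro S hS hs h2 h3
  refine h S hS.1 hS.2 ?_ ?_
  · intro Q hQ
    have hQl : 64 + Q < 1088 := by
      by_contra hcon
      rw [Nat.testBit_lt_two_pow] at hQ
      · cases hQ
      · exact lt_of_lt_of_le hX.2 (Nat.pow_le_pow_right (by norm_num) (by omega))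
    obtain ⟨g1, g2, g3⟩ := hX.1 (64 + Q) hQl hQ
    have e1 : cx Q = 12 := by rw [cast_cx (n := 12) (by omega)]; rfl
    have e2 : cv Q = -(((27 - (64 + Q - 1036)) % 27 : ℕ) : Z) := by
      rw [cast_cv (n := Q - 972) (by omega), eq_neg_iff_add_eq_zero, ← Nat.cast_add, ZMod.natCast_eq_zero_iff]
      omega
    rw [e1, e2]
    exact h3 _ g3
  · intro P hP'
    simp only [List.mem_cons, List.not_mem_nil, or_false] at hP'
    rcases hP' with rfl | rfl | rfl
    · rw [hP2]
      obtain ⟨-, e1, e2⟩ := cell_mk (x := 14 + a) (v := (b + e) % 27) ha (Nat.mod_lt _ (by norm_num))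
      rw [e1, e2, ZMod.natCast_mod]; push_cast; exact h2
    · rw [hP1]
      obtain ⟨-, e1, e2⟩ := cell_mk (x := 13 + a) (v := b) (by omega) hb
      rw [e1, e2]; push_cast; exact hs.2
    · have e1 : cx 1053 = 13 := by decide
      have e2 : cv 1053 = 0 := by decide
      rw [e1, e2]; exact hs.1

theorem some_class : ∀ d : Z, near d ∨ ∃ j ∈ ([2, 3, 4, 5, 6, 7, 8, 9, 10, 11, 12, 13] : List ℕ), d = j ∨ d = -j := by
  decide +kernel

theorem finish {E : List (ℕ × ℕ)} (hE : ∀ j ∈ ([2, 3, 4, 5, 6, 7, 8, 9, 10, 11, 12, 13] : List ℕ), (1, j) ∈ E)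
    {S : Z → Z → Prop} (h : G E S) : False := by
  obtain ⟨v, hv⟩ := h.1.row 13
  obtain ⟨v', hv'⟩ := h.1.row 14
  rcases some_class (v' - v) with hn | ⟨j, hj, hd⟩
  · have := (h.1.free 13 v 13 v 14 v' hv hv hv' (by decide) (by convert hn using 1; ring)).2
    exact absurd this (by decide)
  · exact h.2 (1, j) (hE j hj) 13 v 14 v' hv hv' (Or.inl ⟨Or.inl (by show (14 : Z) - 13 = ((1 : ℕ) : Z); decide), hd⟩)

end Pool.Agent.R989.ZP
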